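import Mathlib

/-!
# G01: the second moment of a double sum

`∑_i w_i (∑_c ∑_d κ_d F(c,d,i))² ≤ K² ∑_{c,c'} ∑_{d,d'} |∑_i w_i F(c,d,i) F(c',d',i)|` for `|κ_d| ≤ K`.
-/

set_option autoImplicit false

open Finset

namespace Pool.Agent.Lib.T3

theorem G01_sq {C δ ι : Type*} (CC : Finset C) (D : Finset δ) (I : Finset ι) (w : ι → ℝ) (κ : δ → ℝ) (F : C → δ → ι → ℝ) (K : ℝ)
    (hK : ∀ d ∈ D, |κ d| ≤ K) :
    ∑ i ∈ I, w i * (∑ c ∈ CC, ∑ d ∈ D, κ d * F c d i) ^ 2 ≤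
      K ^ 2 * ∑ q ∈ CC ×ˢ CC, ∑ d ∈ D, ∑ d' ∈ D, |∑ i ∈ I, w i * (F q.1 d i * F q.2 d' i)| := by
  rcases D.eq_empty_or_nonempty with hD | ⟨d0, hd0⟩
  · subst hD
    simp
  have hK0 : 0 ≤ K := (abs_nonneg _).trans (hK d0 hd0)
  have h1 : ∀ i, w i * (∑ c ∈ CC, ∑ d ∈ D, κ d * F c d i) ^ 2 =
      ∑ q ∈ CC ×ˢ CC, ∑ d ∈ D, ∑ d' ∈ D, (κ d * κ d') * (w i * (F q.1 d i * F q.2 d' i)) := by
    intro i
    rw [sum_product, sq, sum_mul_sum, mul_sum]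
    refine sum_congr rfl fun c _ => ?_
    rw [mul_sum]
    refine sum_congr rfl fun c' _ => ?_
    rw [sum_mul_sum, mul_sum]
    refine sum_congr rfl fun d _ => ?_
    rw [mul_sum]
    exact sum_congr rfl fun d' _ => by ring
  have h2 : ∑ i ∈ I, w i * (∑ c ∈ CC, ∑ d ∈ D, κ d * F c d i) ^ 2 =
      ∑ q ∈ CC ×ˢ CC, ∑ d ∈ D, ∑ d' ∈ D, (κ d * κ d') * ∑ i ∈ I, w i * (F q.1 d i * F q.2 d' i) := by
    rw [sum_congr rfl fun i _ => h1 i, sum_comm]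
    refine sum_congr rfl fun q _ => ?_
    rw [sum_comm]
    refine sum_congr rfl fun d _ => ?_
    rw [sum_comm]
    refine sum_congr rfl fun d' _ => ?_
    rw [mul_sum]
  rw [h2, mul_sum]
  refine sum_le_sum fun q _ => ?_
  rw [mul_sum]
  refine sum_le_sum fun d hd => ?_
  rw [mul_sum]
  refine sum_le_sum fun d' hd' => ?_
  refine (le_abs_self _).trans ?_
  rw [abs_mul, abs_mul, sq]
  exact mul_le_mul_of_nonneg_right (mul_le_mul (hK d hd) (hK d' hd') (abs_nonneg _) hK0) (abs_nonneg _)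

end Pool.Agent.Lib.T3
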