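import Pool.Agent.Lib.MP_7b7e48_nt.TC.PDefs

/-!
# G02: the mass of a pair of tuples is about `1/(prX prY)`

If `|h l - 1/l| ≤ ε/l` for all marks `l` (`h = hX`, resp. `hY`), then `(1 - ε)^n/(prX prY) ≤ m1 ≤ (1 + ε)^n/(prX prY)`, `n` the number of the marks; for `4 n ε ≤ 2`:
`1/(2 prX prY) ≤ m1 ≤ 2/(prX prY)`.
-/

set_option autoImplicit false

open Finset

namespace Pool.Agent.Lib.T3

open Pool.Agent.Lib.TC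

private theorem G02_prod {ι : Type*} [Fintype ι] (a : ι → ℕ) (h : ι → ℝ) {ε : ℝ} (h1 : ε ≤ 1)
    (hh : ∀ i, 0 < a i ∧ |h i - 1 / (a i : ℝ)| ≤ ε / (a i : ℝ)) :
    (1 - ε) ^ Fintype.card ι * (1 / ((∏ i, a i : ℕ) : ℝ)) ≤ ∏ i, h i ∧ ∏ i, h i ≤ (1 + ε) ^ Fintype.card ι * (1 / ((∏ i, a i : ℕ) : ℝ)) := by
  have e1 : ∀ t : ℝ, t ^ Fintype.card ι * (1 / ((∏ i, a i : ℕ) : ℝ)) = ∏ i, t * (1 / (a i : ℝ)) := by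
    intro t
    rw [prod_mul_distrib, prod_const, card_univ, prod_div_distrib, prod_const_one]
    push_cast
    ring
  have hp : ∀ i, 0 ≤ (1 - ε) * (1 / (a i : ℝ)) := fun i => mul_nonneg (by linarith) (by positivity)
  have hlo : ∀ i, (1 - ε) * (1 / (a i : ℝ)) ≤ h i := fun i => by
    have h3 := (abs_le.1 (hh i).2).1
    have h4 : (1 - ε) * (1 / (a i : ℝ)) = 1 / (a i : ℝ) - ε / (a i : ℝ) := by ring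
    linarith
  have hup : ∀ i, h i ≤ (1 + ε) * (1 / (a i : ℝ)) := fun i => by
    have h3 := (abs_le.1 (hh i).2).2
    have h4 : (1 + ε) * (1 / (a i : ℝ)) = 1 / (a i : ℝ) + ε / (a i : ℝ) := by ring
    linarith
  rw [e1, e1]
  exact ⟨prod_le_prod (fun i _ => hp i) fun i _ => hlo i, prod_le_prod (fun i _ => (hp i).trans (hlo i)) fun i _ => hup i⟩

private theorem G02_tri {a b c : ℝ} {x y z : ℝ} {p q r : ℕ} {t s : ℝ} (ht : 0 ≤ t) (hs : 0 ≤ s) (hx : 0 ≤ x) (hy : 0 ≤ y) (hz : 0 ≤ z)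
    (h1 : t ^ p * x ≤ a ∧ a ≤ s ^ p * x) (h2 : t ^ q * y ≤ b ∧ b ≤ s ^ q * y) (h3 : t ^ r * z ≤ c ∧ c ≤ s ^ r * z) :
    t ^ (p + q + r) * (x * y * z) ≤ a * b * c ∧ a * b * c ≤ s ^ (p + q + r) * (x * y * z) := by
  have a0 : 0 ≤ a := le_trans (mul_nonneg (pow_nonneg ht _) hx) h1.1
  have b0 : 0 ≤ b := le_trans (mul_nonneg (pow_nonneg ht _) hy) h2.1
  have c0 : 0 ≤ c := le_trans (mul_nonneg (pow_nonneg ht _) hz) h3.1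
  constructor
  · calc t ^ (p + q + r) * (x * y * z) = t ^ p * x * (t ^ q * y) * (t ^ r * z) := by rw [pow_add, pow_add]; ring
      _ ≤ a * b * c := mul_le_mul (mul_le_mul h1.1 h2.1 (by positivity) a0) h3.1 (by positivity) (by positivity)
  · calc a * b * c ≤ s ^ p * x * (s ^ q * y) * (s ^ r * z) :=
        mul_le_mul (mul_le_mul h1.2 h2.2 b0 (by positivity)) h3.2 c0 (by positivity)
      _ = s ^ (p + q + r) * (x * y * z) := by rw [pow_add, pow_add]; ring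

/-- the number of the marks -/
def G02_n (S : MS) : ℕ := 2 * (S.k + 1) + 2 * S.n0 + S.nX + S.nY

theorem G02 {S : MS} (M : Msr S) {ε : ℝ} (h0 : 0 ≤ ε) (h1 : ε ≤ 1) {μ : S.TX} {ν : S.TY}
    (a1 : ∀ i, 0 < μ.1 i ∧ |M.hX (μ.1 i) - 1 / (μ.1 i : ℝ)| ≤ ε / (μ.1 i : ℝ))
    (a2 : ∀ f, 0 < μ.2.1 f ∧ |M.hX (μ.2.1 f) - 1 / (μ.2.1 f : ℝ)| ≤ ε / (μ.2.1 f : ℝ))
    (a3 : ∀ e, 0 < μ.2.2 e ∧ |M.hX (μ.2.2 e) - 1 / (μ.2.2 e : ℝ)| ≤ ε / (μ.2.2 e : ℝ))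
    (b1 : ∀ i, 0 < ν.1 i ∧ |M.hY (ν.1 i) - 1 / (ν.1 i : ℝ)| ≤ ε / (ν.1 i : ℝ))
    (b2 : ∀ f, 0 < ν.2.1 f ∧ |M.hY (ν.2.1 f) - 1 / (ν.2.1 f : ℝ)| ≤ ε / (ν.2.1 f : ℝ))
    (b3 : ∀ e, 0 < ν.2.2 e ∧ |M.hY (ν.2.2 e) - 1 / (ν.2.2 e : ℝ)| ≤ ε / (ν.2.2 e : ℝ)) :
    (1 - ε) ^ G02_n S * (1 / ((S.prX id μ * S.prY id ν : ℕ) : ℝ)) ≤ M.m1 μ ν ∧
      M.m1 μ ν ≤ (1 + ε) ^ G02_n S * (1 / ((S.prX id μ * S.prY id ν : ℕ) : ℝ)) := by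
  have hX := G02_tri (by linarith : (0 : ℝ) ≤ 1 - ε) (by linarith : (0 : ℝ) ≤ 1 + ε) (by positivity) (by positivity) (by positivity)
    (G02_prod μ.1 (fun i => M.hX (μ.1 i)) h1 a1) (G02_prod μ.2.1 (fun i => M.hX (μ.2.1 i)) h1 a2)
    (G02_prod μ.2.2 (fun i => M.hX (μ.2.2 i)) h1 a3)
  have hY := G02_tri (by linarith : (0 : ℝ) ≤ 1 - ε) (by linarith : (0 : ℝ) ≤ 1 + ε) (by positivity) (by positivity) (by positivity)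
    (G02_prod ν.1 (fun i => M.hY (ν.1 i)) h1 b1) (G02_prod ν.2.1 (fun i => M.hY (ν.2.1 i)) h1 b2)
    (G02_prod ν.2.2 (fun i => M.hY (ν.2.2 i)) h1 b3)
  simp only [Fintype.card_fin] at hX hY
  have eX : 1 / ((∏ i, μ.1 i : ℕ) : ℝ) * (1 / ((∏ i, μ.2.1 i : ℕ) : ℝ)) * (1 / ((∏ i, μ.2.2 i : ℕ) : ℝ)) = 1 / ((S.prX id μ : ℕ) : ℝ) := by
    unfold MS.prX
    simp only [id]
    push_cast
    rw [one_div_mul_one_div, one_div_mul_one_div]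
  have eY : 1 / ((∏ i, ν.1 i : ℕ) : ℝ) * (1 / ((∏ i, ν.2.1 i : ℕ) : ℝ)) * (1 / ((∏ i, ν.2.2 i : ℕ) : ℝ)) = 1 / ((S.prY id ν : ℕ) : ℝ) := by
    unfold MS.prY
    simp only [id]
    push_cast
    rw [one_div_mul_one_div, one_div_mul_one_div]
  rw [eX] at hX
  rw [eY] at hY
  have hm : M.m1 μ ν = ((∏ i, M.hX (μ.1 i)) * (∏ f, M.hX (μ.2.1 f)) * ∏ e, M.hX (μ.2.2 e)) *
      ((∏ i, M.hY (ν.1 i)) * (∏ f, M.hY (ν.2.1 f)) * ∏ e, M.hY (ν.2.2 e)) := rfl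
  have en : G02_n S = (S.k + 1 + S.n0 + S.nX) + (S.k + 1 + S.n0 + S.nY) := by
    unfold G02_n
    ring
  have ei : 1 / ((S.prX id μ * S.prY id ν : ℕ) : ℝ) = 1 / ((S.prX id μ : ℕ) : ℝ) * (1 / ((S.prY id ν : ℕ) : ℝ)) := by
    push_cast
    rw [one_div_mul_one_div]
  have p1 : 0 ≤ (1 - ε) ^ (S.k + 1 + S.n0 + S.nX) * (1 / ((S.prX id μ : ℕ) : ℝ)) := mul_nonneg (pow_nonneg (by linarith) _) (by positivity)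
  have p2 : 0 ≤ (1 - ε) ^ (S.k + 1 + S.n0 + S.nY) * (1 / ((S.prY id ν : ℕ) : ℝ)) := mul_nonneg (pow_nonneg (by linarith) _) (by positivity)
  have p3 : 0 ≤ (1 + ε) ^ (S.k + 1 + S.n0 + S.nX) * (1 / ((S.prX id μ : ℕ) : ℝ)) := mul_nonneg (pow_nonneg (by linarith) _) (by positivity)
  rw [hm, en, ei, pow_add, pow_add (1 + ε)]
  constructor
  · calc (1 - ε) ^ (S.k + 1 + S.n0 + S.nX) * (1 - ε) ^ (S.k + 1 + S.n0 + S.nY) * (1 / ((S.prX id μ : ℕ) : ℝ) * (1 / ((S.prY id ν : ℕ) : ℝ))) =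
        ((1 - ε) ^ (S.k + 1 + S.n0 + S.nX) * (1 / ((S.prX id μ : ℕ) : ℝ))) * ((1 - ε) ^ (S.k + 1 + S.n0 + S.nY) * (1 / ((S.prY id ν : ℕ) : ℝ))) := by ring
      _ ≤ _ := mul_le_mul hX.1 hY.1 p2 (p1.trans hX.1)
  · calc _ ≤ ((1 + ε) ^ (S.k + 1 + S.n0 + S.nX) * (1 / ((S.prX id μ : ℕ) : ℝ))) * ((1 + ε) ^ (S.k + 1 + S.n0 + S.nY) * (1 / ((S.prY id ν : ℕ) : ℝ))) :=
        mul_le_mul hX.2 hY.2 (p2.trans hY.1) p3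
      _ = _ := by ring

theorem G02_two {S : MS} (M : Msr S) {ε : ℝ} (h0 : 0 ≤ ε) (hn : 2 * ((G02_n S : ℕ) : ℝ) * ε ≤ 1) (hn1 : 1 ≤ G02_n S) {μ : S.TX} {ν : S.TY}
    (a1 : ∀ i, 0 < μ.1 i ∧ |M.hX (μ.1 i) - 1 / (μ.1 i : ℝ)| ≤ ε / (μ.1 i : ℝ))
    (a2 : ∀ f, 0 < μ.2.1 f ∧ |M.hX (μ.2.1 f) - 1 / (μ.2.1 f : ℝ)| ≤ ε / (μ.2.1 f : ℝ))
    (a3 : ∀ e, 0 < μ.2.2 e ∧ |M.hX (μ.2.2 e) - 1 / (μ.2.2 e : ℝ)| ≤ ε / (μ.2.2 e : ℝ))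
    (b1 : ∀ i, 0 < ν.1 i ∧ |M.hY (ν.1 i) - 1 / (ν.1 i : ℝ)| ≤ ε / (ν.1 i : ℝ))
    (b2 : ∀ f, 0 < ν.2.1 f ∧ |M.hY (ν.2.1 f) - 1 / (ν.2.1 f : ℝ)| ≤ ε / (ν.2.1 f : ℝ))
    (b3 : ∀ e, 0 < ν.2.2 e ∧ |M.hY (ν.2.2 e) - 1 / (ν.2.2 e : ℝ)| ≤ ε / (ν.2.2 e : ℝ)) :
    1 / (2 * ((S.prX id μ * S.prY id ν : ℕ) : ℝ)) ≤ M.m1 μ ν ∧ M.m1 μ ν ≤ 2 / ((S.prX id μ * S.prY id ν : ℕ) : ℝ) := by
  have hn' : (1 : ℝ) ≤ (G02_n S : ℕ) := by exact_mod_cast hn1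
  have h1 : ε ≤ 1 := by nlinarith
  have h := G02 M h0 h1 a1 a2 a3 b1 b2 b3
  have hlo : (1 / 2 : ℝ) ≤ (1 - ε) ^ G02_n S := by
    have h2 := one_add_mul_le_pow (by linarith : (-2 : ℝ) ≤ -ε) (G02_n S)
    have h3 : (1 : ℝ) + -ε = 1 - ε := by ring
    rw [h3] at h2
    nlinarith
  have hup : (1 + ε) ^ G02_n S ≤ 2 := by
    have h2 : (1 + ε) ^ G02_n S ≤ Real.exp (G02_n S * ε) := by
      rw [Real.exp_nat_mul]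
      refine pow_le_pow_left₀ (by linarith) ?_ _
      linarith [Real.add_one_le_exp ε]
    have h3 : Real.exp (G02_n S * ε) ≤ Real.exp (1 / 2) := Real.exp_le_exp.2 (by linarith)
    have h4 : Real.exp (1 / 2) ≤ 2 := by
      have h5 : Real.exp (1 / 2) ^ 2 = Real.exp 1 := by
        rw [← Real.exp_nat_mul]
        norm_num
      have h6 := Real.exp_one_lt_d9
      have h7 := Real.exp_pos (1 / 2)
      by_contra hc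
      push Not at hc
      nlinarith
    linarith
  have hi : 0 ≤ 1 / ((S.prX id μ * S.prY id ν : ℕ) : ℝ) := by positivity
  constructor
  · calc 1 / (2 * ((S.prX id μ * S.prY id ν : ℕ) : ℝ)) = 1 / 2 * (1 / ((S.prX id μ * S.prY id ν : ℕ) : ℝ)) := by rw [one_div_mul_one_div]
      _ ≤ (1 - ε) ^ G02_n S * (1 / ((S.prX id μ * S.prY id ν : ℕ) : ℝ)) := mul_le_mul_of_nonneg_right hlo hi
      _ ≤ _ := h.1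
  · calc M.m1 μ ν ≤ (1 + ε) ^ G02_n S * (1 / ((S.prX id μ * S.prY id ν : ℕ) : ℝ)) := h.2
      _ ≤ 2 * (1 / ((S.prX id μ * S.prY id ν : ℕ) : ℝ)) := mul_le_mul_of_nonneg_right hup hi
      _ = _ := by ring

end Pool.Agent.Lib.T3
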