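import Pool.Agent.Lib.MP_7b7e48_nt.T3.D3
import Pool.Agent.Lib.MP_7b7e48_nt.TC.S7D1
import Pool.Agent.Lib.MP_7b7e48_nt.TC.S7D3

/-!
# G3: the structure `Geo3` (section 7 for composite windows of `Y`) and its first consequences

`MS.Geo3` is `MS.Geo` (TC/S7Def), but the elements of the windows of `Y` are squarefree numbers coprime to `N` whose prime factors are `> z` (at most two of them), and elements of different windows of `Y` are
coprime; `hYw` is the bound of the weight on the windows of `Y`. `SI_eq`, `vec_pos` (S7D1) and `tI_facts` (S7D3) for `Geo3`: only the positivity and the sizes of the elements of the windows are used.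
-/

set_option autoImplicit false

open Finset

namespace Pool.Agent.Lib.T3

open Pool.Agent.Lib.TC

/-- The facts about the marks used in section 7, composite windows of `Y`. `Z i`: size of the windows `i`; `V`: `1 / V` is a lower bound for the mass of a window. -/
structure _root_.Pool.Agent.Lib.TC.MS.Geo3 (S : MS) (T : Dat) (Z : ℕ → ℕ) (hX hY : ℕ → ℝ) (V : ℝ) : Prop where
  k1 : 1 ≤ S.k
  N2 : 2 ≤ T.N
  D0 : 0 < T.D
  DN : T.D ≤ T.N
  Dy : ∀ p, p.Prime → p ∣ T.D → p ≤ T.y0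
  y1 : 1 ≤ T.y0
  yz : T.y0 ≤ T.z
  zZ : ∀ i ≤ S.k, T.z * T.D ≤ Z i
  ZZ : ∀ i j, i < j → j ≤ S.k → 4 * Z i ≤ Z j
  ZN : Z S.k ≤ T.N
  wx : ∀ i, ∀ p ∈ S.WX i, p.Prime ∧ 3 * Z i < p ∧ p ≤ 4 * Z i ∧ ¬ p ∣ T.N
  wy : ∀ i, ∀ p ∈ S.WY i, Squarefree p ∧ Z i < p ∧ p ≤ 2 * Z i ∧ p.Coprime T.N
  wz : ∀ i, ∀ p ∈ S.WY i, ∀ r : ℕ, r.Prime → r ∣ p → T.z < r
  w2 : ∀ i, ∀ p ∈ S.WY i, p.primeFactors.card ≤ 2
  wc : ∀ i j, i ≠ j → ∀ p ∈ S.WY i, ∀ p' ∈ S.WY j, p.Coprime p'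
  fx : ∀ f, ∀ p ∈ S.FX f, p.Prime ∧ T.y0 < p ∧ p ≤ T.z ∧ ¬ p ∣ T.N
  fy : ∀ f, ∀ p ∈ S.FY f, p.Prime ∧ T.y0 < p ∧ p ≤ T.z ∧ ¬ p ∣ T.N
  ox : ∀ f, ∀ p ∈ S.OX f, p.Prime ∧ T.y0 < p ∧ p ≤ T.z ∧ ¬ p ∣ T.N
  oy : ∀ f, ∀ p ∈ S.OY f, p.Prime ∧ T.y0 < p ∧ p ≤ T.z ∧ ¬ p ∣ T.N
  ix : ∀ μ ∈ S.MX, Function.Injective (Sum.elim μ.1 (S.vX μ))
  iy : ∀ ν ∈ S.MY, Function.Injective (Sum.elim ν.1 (S.vY ν))
  hX0 : ∀ p, p.Prime → 0 ≤ hX p ∧ hX p ≤ 2 / (p : ℝ)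
  hY0 : ∀ p, p.Prime → 0 ≤ hY p ∧ hY p ≤ 2 / (p : ℝ)
  hYw : ∀ i, ∀ p ∈ S.WY i, 0 ≤ hY p ∧ hY p ≤ 2 / (p : ℝ)
  V1 : 1 ≤ V
  lX : ∀ i, 1 ≤ V * ∑ p ∈ S.WX i, hX p
  lY : ∀ i, 1 ≤ V * ∑ p ∈ S.WY i, hY p
  comp : ∀ c ∈ S.CC, ∀ μ ∈ S.MX, ∀ ν ∈ S.MY, ∀ i < S.k,
    S.BB T.N c μ ν 0 i < S.AA T.N c μ ν 0 i ∧ (S.AA T.N c μ ν 0 i : ℝ) ≤ Real.exp 16 * S.BB T.N c μ ν 0 i

variable {S : MS} {T : Dat} {Z : ℕ → ℕ} {hX hY : ℕ → ℝ} {V : ℝ}

private theorem G3_X {μ : S.TX} (hμ : μ ∈ S.MX) :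
    (∀ i, μ.1 i ∈ S.WX i) ∧ (∀ f, μ.2.1 f ∈ S.FX f) ∧ ∀ e, μ.2.2 e ∈ S.OX e := by
  rw [MS.MX, mem_product, mem_product, Fintype.mem_piFinset, Fintype.mem_piFinset, Fintype.mem_piFinset] at hμ
  exact ⟨hμ.1, hμ.2.1, hμ.2.2⟩

private theorem G3_Y {ν : S.TY} (hν : ν ∈ S.MY) :
    (∀ i, ν.1 i ∈ S.WY i) ∧ (∀ f, ν.2.1 f ∈ S.FY f) ∧ ∀ e, ν.2.2 e ∈ S.OY e := by
  rw [MS.MY, mem_product, mem_product, Fintype.mem_piFinset, Fintype.mem_piFinset, Fintype.mem_piFinset] at hν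
  exact ⟨hν.1, hν.2.1, hν.2.2⟩

private theorem G3_mlt (hG : S.Geo3 T Z hX hY V) {μ : S.TX} {ν : S.TY} (hμ : μ ∈ S.MX) (hν : ν ∈ S.MY) :
    ∀ i < S.k + 1, ext1 ν.1 i < ext1 μ.1 i := by
  intro i hi
  rw [ext1, ext1, dif_pos hi, dif_pos hi]
  have h1 := hG.wx _ _ ((G3_X hμ).1 ⟨i, hi⟩)
  have h2 := hG.wy _ _ ((G3_Y hν).1 ⟨i, hi⟩)
  have h3 := h1.2.1
  have h4 := h2.2.2.1
  omega

theorem SI_eq (hG : S.Geo3 T Z hX hY V) (c : S.Col) {μ : S.TX} {ν : S.TY} (hμ : μ ∈ S.MX) (hν : ν ∈ S.MY) :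
    ((S.SI T.N c μ ν : ℕ) : ℤ) = SmR (S.AI T.N c μ ν) (S.BI T.N c μ ν) (aI μ.1) (aI ν.1) (S.k + 1) := by
  rw [MS.SI, Sm_cast fun i hi => (G3_mlt hG hμ hν i hi).le]
  apply SmR_congr
  · intro l hl
    rw [MS.AI, if_pos (by omega)]
  · intro l hl
    rw [MS.BI, if_pos (by omega)]
  · intro l _
    rfl
  · intro l _
    rfl

/-- all the integer vectors are positive, and `β_i < α_i` -/
theorem vec_pos (hG : S.Geo3 T Z hX hY V) (c : S.Col) {μ : S.TX} {ν : S.TY} (hμ : μ ∈ S.MX) (hν : ν ∈ S.MY) :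
    (∀ i, 0 < S.AI T.N c μ ν i) ∧ (∀ i, 0 < S.BI T.N c μ ν i) ∧ (∀ i, 0 < aI μ.1 i) ∧ (∀ i, 0 < aI ν.1 i) ∧
      ∀ i < S.k + 1, aI ν.1 i < aI μ.1 i := by
  refine ⟨?_, ?_, ?_, ?_, ?_⟩
  · intro i
    rw [MS.AI]
    by_cases hi : i < S.k
    · rw [if_pos hi, MS.AA, if_pos hi, Nat.cast_pos]
      apply Nat.mul_pos
      · exact prod_pos fun f _ => (hG.fx f _ ((G3_X hμ).2.1 f)).1.pos
      · exact prod_pos fun e _ => (hG.ox e _ ((G3_X hμ).2.2 e)).1.pos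
    · rw [if_neg hi]
      exact one_pos
  · intro i
    rw [MS.BI]
    by_cases hi : i < S.k
    · rw [if_pos hi, MS.BB, if_pos hi, Nat.cast_pos]
      apply Nat.mul_pos
      · exact prod_pos fun f _ => (hG.fy f _ ((G3_Y hν).2.1 f)).1.pos
      · exact prod_pos fun e _ => (hG.oy e _ ((G3_Y hν).2.2 e)).1.pos
    · rw [if_neg hi]
      exact one_pos
  · intro i
    rw [aI, ext1, Nat.cast_pos]
    split_ifs with hi
    · exact (hG.wx _ _ ((G3_X hμ).1 ⟨i, hi⟩)).1.pos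
    · exact one_pos
  · intro i
    rw [aI, ext1, Nat.cast_pos]
    split_ifs with hi
    · exact (Nat.zero_le _).trans_lt (hG.wy _ _ ((G3_Y hν).1 ⟨i, hi⟩)).2.1
    · exact one_pos
  · intro i hi
    rw [aI, aI, Nat.cast_lt]
    exact G3_mlt hG hμ hν i hi

private theorem G3_fib {ι : Type*} [Fintype ι] {k : ℕ} (col : ι → Fin (k + 1)) (g : ι → ℕ) :
    ∏ i ∈ range k, ∏ f ∈ univ.filter (fun f => (col f : ℕ) = i), g f ∣ ∏ f, g f := by
  have h1 : ∏ i ∈ range (k + 1), ∏ f ∈ univ.filter (fun f => (col f : ℕ) = i), g f = ∏ f, g f :=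
    prod_fiberwise_of_maps_to (fun f _ => mem_range.2 (col f).2) g
  rw [← h1]
  exact prod_dvd_prod_of_subset _ _ _ (range_subset_range.2 (Nat.le_succ k))

private theorem G3_ext {n : ℕ} (a : Fin n → ℕ) : ∏ i, a i = ∏ i ∈ range n, ext1 a i := by
  rw [prod_range]
  refine prod_congr rfl fun i _ => ?_
  simp [ext1]

private theorem G3_lt {n : ℕ} (a : Fin n → ℕ) {i : ℕ} (h : i < n) : ext1 a i = a ⟨i, h⟩ := by
  simp [ext1, h]

private theorem G3_prod {k X : ℕ} {al F A : ℕ → ℕ}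
    (hA : ∀ i, A i = if i < k then F i else X / ((∏ i ∈ range (k + 1), al i) * ∏ i ∈ range k, F i))
    (hX : (∏ i ∈ range (k + 1), al i) * ∏ i ∈ range k, F i ∣ X) : ∏ i ∈ range (k + 1), al i * A i = X := by
  have h1 : ∏ i ∈ range k, A i = ∏ i ∈ range k, F i :=
    prod_congr rfl fun i hi => by rw [hA, if_pos (mem_range.1 hi)]
  rw [prod_mul_distrib, prod_range_succ A, hA k, if_neg (lt_irrefl k), h1, ← mul_assoc]
  exact Nat.mul_div_cancel' hX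

private theorem G3_Sm {k : ℕ} {A B A' B' al be : ℕ → ℕ} (hA : ∀ i < k, A i = A' i) (hB : ∀ i < k, B i = B' i) :
    ∀ n ≤ k + 1, Sm A B al be n = Sm A' B' al be n := by
  intro n
  induction n with
  | zero => intro _; rfl
  | succ n ih =>
    intro hn
    have h1 : ∏ l ∈ range n, al l * A l = ∏ l ∈ range n, al l * A' l :=
      prod_congr rfl fun l hl => by
        rw [mem_range] at hl
        rw [hA l (by omega)]
    simp only [Sm]
    rw [ih (by omega), h1]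
    rcases Nat.eq_zero_or_pos n with h0 | h0
    · subst h0
      simp [Sm]
    · rw [hB (n - 1) (by omega)]

private theorem G3_pow {n : ℕ} {f g : ℕ → ℝ} {c : ℝ} (h0 : ∀ i, 0 ≤ f i) (h : ∀ i < n, f i ≤ c * g i) :
    ∏ i ∈ range n, f i ≤ c ^ n * ∏ i ∈ range n, g i := by
  have h1 : c ^ n * ∏ i ∈ range n, g i = ∏ i ∈ range n, (c * g i) := by
    rw [prod_mul_distrib, prod_const, card_range]
  rw [h1]
  exact prod_le_prod (fun i _ => h0 i) fun i hi => h i (mem_range.1 hi)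

theorem tI_facts (hG : S.Geo3 T Z hX hY V) {c : S.Col} (hc : c ∈ S.CC) {μ : S.TX} {ν : S.TY} (hμ : μ ∈ S.MX) (hν : ν ∈ S.MY)
    (hcop : S.cop μ ν) {X : ℕ} (h1 : S.prX id μ ∣ X) (h2 : S.prY id ν ∣ X - T.D * T.N) (h3 : T.D * T.N < X)
    (h4 : Real.exp (18 * (S.k + 1)) * ((X : ℝ) - T.D * T.N) ≤ X) (h5 : T.D ∣ S.SI T.N c μ ν) :
    ∃ e t : ℕ → ℕ, Cyc T.N (S.k + 1) (S.AA T.N c μ ν X) (S.BB T.N c μ ν (X - T.D * T.N)) (ext1 μ.1) (ext1 ν.1) e t ∧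
      T.D * e S.k = S.SI T.N c μ ν ∧
      ∏ i ∈ range (S.k + 1), ext1 μ.1 i * S.AA T.N c μ ν X i = X ∧
      ∏ i ∈ range (S.k + 1), ext1 ν.1 i * S.BB T.N c μ ν (X - T.D * T.N) i = X - T.D * T.N ∧
      (∀ i < S.k + 1, S.BB T.N c μ ν (X - T.D * T.N) i < S.AA T.N c μ ν X i) ∧
      ∀ i < S.k + 1, S.tI T c μ ν X i = t i ∧
        S.FI T c μ ν ((X : ℤ) - T.D * T.N) i =
          T.D * (∏ l ∈ range i, aI μ.1 l * S.AI T.N c μ ν l) * (aI μ.1 i * S.RI T.N c μ ν i) * t i := by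
  classical
  have hμ1 : ∀ i, μ.1 i ∈ S.WX i := Fintype.mem_piFinset.1 (mem_product.1 hμ).1
  have hν1 : ∀ i, ν.1 i ∈ S.WY i := Fintype.mem_piFinset.1 (mem_product.1 hν).1
  have hal : ∀ i < S.k + 1, 3 * Z i < ext1 μ.1 i ∧ ext1 μ.1 i ≤ 4 * Z i := by
    intro i hi
    rw [G3_lt μ.1 hi]
    have h := hG.wx ⟨i, hi⟩ _ (hμ1 ⟨i, hi⟩)
    exact ⟨h.2.1, h.2.2.1⟩
  have hbe : ∀ i < S.k + 1, Z i < ext1 ν.1 i ∧ ext1 ν.1 i ≤ 2 * Z i := by
    intro i hi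
    rw [G3_lt ν.1 hi]
    have h := hG.wy ⟨i, hi⟩ _ (hν1 ⟨i, hi⟩)
    exact ⟨h.2.1, h.2.2.1⟩
  obtain ⟨A, hA⟩ : ∃ A, A = S.AA T.N c μ ν X := ⟨_, rfl⟩
  obtain ⟨Y, hY'⟩ : ∃ Y, Y = X - T.D * T.N := ⟨_, rfl⟩
  obtain ⟨B, hB⟩ : ∃ B, B = S.BB T.N c μ ν Y := ⟨_, rfl⟩
  rw [← hY'] at h2 ⊢
  rw [← hA, ← hB]
  have hYpos : 0 < Y := by omega
  have hXY : X = Y + T.D * T.N := by omega
  have hAk : ∀ i < S.k, A i = S.AA T.N c μ ν 0 i := by
    intro i hi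
    rw [hA]
    unfold MS.AA
    rw [if_pos hi, if_pos hi]
  have hBk : ∀ i < S.k, B i = S.BB T.N c μ ν 0 i := by
    intro i hi
    rw [hB]
    unfold MS.BB
    rw [if_pos hi, if_pos hi]
  have hcmp : ∀ i < S.k, B i < A i ∧ (A i : ℝ) ≤ Real.exp 16 * B i := by
    intro i hi
    rw [hAk i hi, hBk i hi]
    exact hG.comp c hc μ hμ ν hν i hi
  have hBpos0 : ∀ i < S.k, 0 < B i := by
    intro i hi
    obtain ⟨e1, e2⟩ := hcmp i hi
    rcases Nat.eq_zero_or_pos (B i) with h | h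
    · rw [h, Nat.cast_zero, mul_zero] at e2
      have e3 : (0 : ℝ) < A i := by
        have : 0 < A i := by omega
        exact_mod_cast this
      linarith
    · exact h
  -- the divisors
  have hPX : (∏ i ∈ range (S.k + 1), ext1 μ.1 i) * ∏ i ∈ range S.k, (S.fX id c μ i * S.oX T.N id c μ ν i) ∣ S.prX id μ := by
    unfold MS.prX
    rw [mul_assoc, ← G3_ext, prod_mul_distrib]
    exact mul_dvd_mul (dvd_refl _) (mul_dvd_mul (G3_fib (fun f => c (Sum.inl f)) _)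
      (G3_fib (fun e => S.kX T.N c μ ν e) _))
  have hPY : (∏ i ∈ range (S.k + 1), ext1 ν.1 i) * ∏ i ∈ range S.k, (S.fY id c ν i * S.oY T.N id c μ ν i) ∣ S.prY id ν := by
    unfold MS.prY
    rw [mul_assoc, ← G3_ext, prod_mul_distrib]
    exact mul_dvd_mul (dvd_refl _) (mul_dvd_mul (G3_fib (fun f => c (Sum.inr f)) _)
      (G3_fib (fun e => S.kY T.N c μ ν e) _))
  have hprodA : ∏ i ∈ range (S.k + 1), ext1 μ.1 i * A i = X := by
    refine G3_prod (F := fun i => S.fX id c μ i * S.oX T.N id c μ ν i) ?_ (hPX.trans h1)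
    intro i
    rw [hA, ← G3_ext]
    rfl
  have hprodB : ∏ i ∈ range (S.k + 1), ext1 ν.1 i * B i = Y := by
    refine G3_prod (F := fun i => S.fY id c ν i * S.oY T.N id c μ ν i) ?_ (hPY.trans h2)
    intro i
    rw [hB, ← G3_ext]
    rfl
  have hAF : ∏ i ∈ range S.k, A i = ∏ i ∈ range S.k, (S.fX id c μ i * S.oX T.N id c μ ν i) :=
    prod_congr rfl fun i hi => by
      rw [mem_range] at hi
      rw [hA]
      unfold MS.AA
      rw [if_pos hi]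
  have hBF : ∏ i ∈ range S.k, B i = ∏ i ∈ range S.k, (S.fY id c ν i * S.oY T.N id c μ ν i) :=
    prod_congr rfl fun i hi => by
      rw [mem_range] at hi
      rw [hB]
      unfold MS.BB
      rw [if_pos hi]
  -- positivity
  have hBpos : ∀ i < S.k + 1, 0 < B i := by
    intro i hi
    by_contra h
    have h0 : B i = 0 := by omega
    have : ∏ i ∈ range (S.k + 1), ext1 ν.1 i * B i = 0 :=
      prod_eq_zero (mem_range.2 hi) (by rw [h0, mul_zero])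
    omega
  have hcmpk : B S.k < A S.k := by
    have e1 : (∏ i ∈ range (S.k + 1), ((ext1 μ.1 i : ℕ) : ℝ)) ≤
        Real.exp 2 ^ (S.k + 1) * ∏ i ∈ range (S.k + 1), ((ext1 ν.1 i : ℕ) : ℝ) := by
      refine G3_pow (fun i => Nat.cast_nonneg _) fun i hi => ?_
      have a1 := hal i hi
      have a2 := hbe i hi
      have a3 : ext1 μ.1 i ≤ 4 * ext1 ν.1 i := by omega
      have a4 : (4 : ℝ) ≤ Real.exp 2 := by
        have a5 : Real.exp 2 = Real.exp 1 * Real.exp 1 := by rw [← Real.exp_add]; norm_num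
        have a6 := Real.add_one_le_exp (1 : ℝ)
        rw [a5]
        nlinarith
      calc ((ext1 μ.1 i : ℕ) : ℝ) ≤ ((4 * ext1 ν.1 i : ℕ) : ℝ) := by exact_mod_cast a3
        _ = 4 * ((ext1 ν.1 i : ℕ) : ℝ) := by push_cast; ring
        _ ≤ Real.exp 2 * ((ext1 ν.1 i : ℕ) : ℝ) := mul_le_mul_of_nonneg_right a4 (Nat.cast_nonneg _)
    have e2 : (∏ i ∈ range S.k, (A i : ℝ)) ≤ Real.exp 16 ^ S.k * ∏ i ∈ range S.k, (B i : ℝ) := by
      exact G3_pow (fun i => Nat.cast_nonneg _) fun i hi => (hcmp i hi).2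
    have hbp : (0 : ℝ) < ∏ i ∈ range (S.k + 1), ((ext1 ν.1 i : ℕ) : ℝ) := by
      refine prod_pos fun i hi => ?_
      have := hbe i (mem_range.1 hi)
      have h : 0 < ext1 ν.1 i := by omega
      exact_mod_cast h
    have hap : (0 : ℝ) < ∏ i ∈ range (S.k + 1), ((ext1 μ.1 i : ℕ) : ℝ) := by
      refine prod_pos fun i hi => ?_
      have := hal i (mem_range.1 hi)
      have h : 0 < ext1 μ.1 i := by omega
      exact_mod_cast h
    have hBp : (0 : ℝ) < ∏ i ∈ range S.k, (B i : ℝ) := by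
      refine prod_pos fun i hi => ?_
      exact_mod_cast hBpos0 i (mem_range.1 hi)
    have hAp : (0 : ℝ) < ∏ i ∈ range S.k, (A i : ℝ) := by
      refine prod_pos fun i hi => ?_
      have := (hcmp i (mem_range.1 hi)).1
      have h : 0 < A i := by omega
      exact_mod_cast h
    have e3 : (∏ i ∈ range (S.k + 1), ((ext1 μ.1 i : ℕ) : ℝ)) * (∏ i ∈ range S.k, (A i : ℝ)) <
        Real.exp (18 * (S.k + 1)) * ((∏ i ∈ range (S.k + 1), ((ext1 ν.1 i : ℕ) : ℝ)) * ∏ i ∈ range S.k, (B i : ℝ)) := by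
      have e4 : Real.exp 2 ^ (S.k + 1) * Real.exp 16 ^ S.k < Real.exp (18 * (S.k + 1)) := by
        rw [← Real.exp_nat_mul, ← Real.exp_nat_mul, ← Real.exp_add, Real.exp_lt_exp]
        push_cast
        linarith
      calc (∏ i ∈ range (S.k + 1), ((ext1 μ.1 i : ℕ) : ℝ)) * (∏ i ∈ range S.k, (A i : ℝ)) ≤
          (Real.exp 2 ^ (S.k + 1) * ∏ i ∈ range (S.k + 1), ((ext1 ν.1 i : ℕ) : ℝ)) *
            (Real.exp 16 ^ S.k * ∏ i ∈ range S.k, (B i : ℝ)) :=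
            mul_le_mul e1 e2 hAp.le (by positivity)
        _ = (Real.exp 2 ^ (S.k + 1) * Real.exp 16 ^ S.k) *
            ((∏ i ∈ range (S.k + 1), ((ext1 ν.1 i : ℕ) : ℝ)) * ∏ i ∈ range S.k, (B i : ℝ)) := by ring
        _ < _ := mul_lt_mul_of_pos_right e4 (mul_pos hbp hBp)
    have hXr : (X : ℝ) = ((∏ i ∈ range (S.k + 1), ((ext1 μ.1 i : ℕ) : ℝ)) * (∏ i ∈ range S.k, (A i : ℝ))) * A S.k := by
      have h := congrArg (fun n : ℕ => (n : ℝ)) hprodA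
      rw [prod_mul_distrib, prod_range_succ A] at h
      push_cast at h
      rw [← h]
      ring
    have hYr : (Y : ℝ) = ((∏ i ∈ range (S.k + 1), ((ext1 ν.1 i : ℕ) : ℝ)) * (∏ i ∈ range S.k, (B i : ℝ))) * B S.k := by
      have h := congrArg (fun n : ℕ => (n : ℝ)) hprodB
      rw [prod_mul_distrib, prod_range_succ B] at h
      push_cast at h
      rw [← h]
      ring
    have hYX : Real.exp (18 * (S.k + 1)) * (Y : ℝ) ≤ X := by
      have h : (Y : ℝ) = (X : ℝ) - T.D * T.N := by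
        rw [hXY]
        push_cast
        ring
      rw [h]
      exact h4
    by_contra hcon
    have hcon' : (A S.k : ℝ) ≤ B S.k := by exact_mod_cast Nat.not_lt.1 hcon
    have hBk0 : (0 : ℝ) < B S.k := by exact_mod_cast hBpos S.k (by omega)
    have f1 : (X : ℝ) ≤ ((∏ i ∈ range (S.k + 1), ((ext1 μ.1 i : ℕ) : ℝ)) * (∏ i ∈ range S.k, (A i : ℝ))) * B S.k := by
      rw [hXr]
      exact mul_le_mul_of_nonneg_left hcon' (mul_pos hap hAp).le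
    have f2 : ((∏ i ∈ range (S.k + 1), ((ext1 μ.1 i : ℕ) : ℝ)) * (∏ i ∈ range S.k, (A i : ℝ))) * B S.k <
        Real.exp (18 * (S.k + 1)) * ((∏ i ∈ range (S.k + 1), ((ext1 ν.1 i : ℕ) : ℝ)) * ∏ i ∈ range S.k, (B i : ℝ)) * B S.k :=
      mul_lt_mul_of_pos_right e3 hBk0
    rw [hYr] at hYX
    linarith
  have hAB : ∀ i < S.k + 1, B i < A i := by
    intro i hi
    rcases Nat.lt_or_ge i S.k with h | h
    · exact (hcmp i h).1
    · have h' : i = S.k := by omega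
      rw [h']
      exact hcmpk
  have hSm : ∀ n ≤ S.k + 1, Sm A B (ext1 μ.1) (ext1 ν.1) n = Sm (S.AA T.N c μ ν 0) (S.BB T.N c μ ν 0) (ext1 μ.1) (ext1 ν.1) n :=
    G3_Sm hAk hBk
  have hSI : Sm A B (ext1 μ.1) (ext1 ν.1) (S.k + 1) = S.SI T.N c μ ν := hSm _ le_rfl
  obtain ⟨e, t, hcyc, hlast, hform⟩ := cyc_exists (N := T.N) (m := S.k + 1) (A := A) (B := B) (al := ext1 μ.1)
    (be := ext1 ν.1) (D := T.D) (Nat.succ_pos _) (by have := hG.N2; omega) hG.D0 hBpos hAB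
    (fun i hi => by have := hbe i hi; omega) (fun i hi => by have := hbe i hi; have := hal i hi; omega)
    (by rw [hprodA, hprodB, hXY]) (by rw [hSI]; exact h5)
    (by
      rw [Nat.add_sub_cancel, hAF, hBF]
      exact Nat.Coprime.of_dvd hPX hPY hcop)
  rw [Nat.add_sub_cancel] at hlast hform
  rw [hSI] at hlast
  have hF : ∀ i < S.k + 1, (if i = 0 then e S.k else e (i - 1)) * Bp (S.k + 1) B i + t i * ext1 μ.1 i = T.N := by
    intro i hi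
    cases i with
    | zero =>
      have h := hcyc.F S.k (by omega)
      rw [Nat.mod_self] at h
      exact h
    | succ i =>
      have h := hcyc.F i (by omega)
      rw [Nat.mod_eq_of_lt hi] at h
      exact h
  have hApos : ∀ i < S.k + 1, 0 < A i := fun i hi => by have := hAB i hi; omega
  have htI : ∀ i < S.k + 1, S.gI T c μ ν X i = (if i = 0 then e S.k else e (i - 1)) → S.tI T c μ ν X i = t i := by
    intro i hi hg
    unfold MS.tI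
    rw [← hY', ← hB, hg]
    have h := hF i hi
    have h' : T.N - (if i = 0 then e S.k else e (i - 1)) * Bp (S.k + 1) B i = t i * ext1 μ.1 i := by omega
    rw [h']
    exact Nat.mul_div_cancel _ (by have := hal i hi; omega)
  have hg : ∀ i < S.k + 1, S.gI T c μ ν X i = if i = 0 then e S.k else e (i - 1) := by
    intro i
    induction i with
    | zero =>
      intro _
      rw [if_pos rfl]
      show S.SI T.N c μ ν / T.D = e S.k
      rw [← hlast]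
      exact Nat.mul_div_cancel_left _ hG.D0
    | succ i ih =>
      intro hi
      have e1 := htI i (by omega) (ih (by omega))
      rw [if_neg (Nat.succ_ne_zero i), Nat.add_sub_cancel]
      show (T.N - S.tI T c μ ν X i * ext1 ν.1 i) / S.AA T.N c μ ν X i = e i
      rw [e1, ← hA]
      have h := hcyc.E i (by omega)
      have h' : T.N - t i * ext1 ν.1 i = e i * A i := by omega
      rw [h']
      exact Nat.mul_div_cancel _ (hApos i (by omega))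
  refine ⟨e, t, hcyc, hlast, hprodA, hprodB, hAB, fun i hi => ⟨htI i hi (hg i hi), ?_⟩⟩
  -- the formula
  obtain ⟨E, hE⟩ : ∃ E : ℕ, E = if i = 0 then e S.k else e (i - 1) := ⟨_, rfl⟩
  have g1 := hform i hi.le
  have g2 := hF i hi
  rw [← hE] at g1 g2
  have g3 : (T.D : ℤ) * (e S.k : ℕ) = SmR (S.AI T.N c μ ν) (S.BI T.N c μ ν) (aI μ.1) (aI ν.1) (S.k + 1) := by
    rw [← SI_eq hG c hμ hν]
    exact_mod_cast hlast
  have hPI : (∏ l ∈ range i, aI μ.1 l * S.AI T.N c μ ν l) = ((∏ l ∈ range i, ext1 μ.1 l * A l : ℕ) : ℤ) := by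
    rw [Nat.cast_prod]
    refine prod_congr rfl fun l hl => ?_
    rw [mem_range] at hl
    have hlk : l < S.k := by omega
    unfold MS.AI aI
    rw [if_pos hlk, ← hAk l hlk, Nat.cast_mul]
  have hBIl : ∀ l < S.k, S.BI T.N c μ ν l = ((B l : ℕ) : ℤ) := by
    intro l hl
    unfold MS.BI
    rw [if_pos hl, ← hBk l hl]
  have hAIl : ∀ l < S.k, S.AI T.N c μ ν l = ((A l : ℕ) : ℤ) := by
    intro l hl
    unfold MS.AI
    rw [if_pos hl, ← hAk l hl]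
  have g4 : ((Bp (S.k + 1) B i : ℕ) : ℤ) * ((∏ l ∈ range i, ext1 ν.1 l * Bp (S.k + 1) B l : ℕ) : ℤ) *
      S.RI T.N c μ ν i = Y := by
    have r1 : S.RI T.N c μ ν i = ((ext1 ν.1 i * ∏ l ∈ Ico (i + 1) (S.k + 1), ext1 ν.1 l * Bp (S.k + 1) B l : ℕ) : ℤ) := by
      unfold MS.RI Rs
      rw [Nat.cast_mul, Nat.cast_prod]
      congr 1
      refine prod_congr rfl fun l hl => ?_
      rw [mem_Ico] at hl
      rw [hBIl (l - 1) (by omega), Nat.cast_mul]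
      unfold Bp aI
      rw [if_neg (by omega)]
    rw [r1, ← Nat.cast_mul, ← Nat.cast_mul]
    congr 1
    rw [← hprodB]
    have r2 : ∏ l ∈ range (S.k + 1), ext1 ν.1 l * B l = ∏ l ∈ range (S.k + 1), ext1 ν.1 l * Bp (S.k + 1) B l := by
      rw [prod_mul_distrib, prod_mul_distrib, prod_Bp (Nat.succ_pos _)]
    rw [r2, ← prod_range_mul_prod_Ico _ hi.le, prod_eq_prod_Ico_succ_bot hi]
    ring
  have g5 : ((Bp (S.k + 1) B i : ℕ) : ℤ) * ((Sm A B (ext1 μ.1) (ext1 ν.1) i : ℕ) : ℤ) =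
      S.BI T.N c μ ν (i - 1) * SmR (S.AI T.N c μ ν) (S.BI T.N c μ ν) (aI μ.1) (aI ν.1) i := by
    cases i with
    | zero => simp [Sm, SmR]
    | succ j =>
      rw [Nat.add_sub_cancel, hBIl j (by omega), Sm_cast (fun l hl => by
        have a1 := hal l (by omega)
        have a2 := hbe l (by omega)
        omega)]
      have r3 : Bp (S.k + 1) B (j + 1) = B j := by
        unfold Bp
        rw [if_neg (Nat.succ_ne_zero j), Nat.add_sub_cancel]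
      rw [r3]
      congr 1
      exact SmR_congr (fun l hl => (hAIl l (by omega)).symm) (fun l hl => (hBIl l (by omega)).symm)
        (fun _ _ => rfl) (fun _ _ => rfl)
  have g1' : ((∏ l ∈ range i, ext1 μ.1 l * A l : ℕ) : ℤ) * E =
      T.N * ((Sm A B (ext1 μ.1) (ext1 ν.1) i : ℕ) : ℤ) +
        ((∏ l ∈ range i, ext1 ν.1 l * Bp (S.k + 1) B l : ℕ) : ℤ) * (e S.k : ℕ) := by
    exact_mod_cast g1
  have g2' : (E : ℤ) * ((Bp (S.k + 1) B i : ℕ) : ℤ) + (t i : ℤ) * aI μ.1 i = T.N := by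
    unfold aI
    exact_mod_cast g2
  have hYz : (X : ℤ) - T.D * T.N = Y := by
    rw [hXY]
    push_cast
    ring
  rw [hYz]
  unfold MS.FI Ff Us
  show (T.D : ℤ) * T.N * (((∏ l ∈ range i, aI μ.1 l * S.AI T.N c μ ν l) - S.BI T.N c μ ν (i - 1) *
    SmR (S.AI T.N c μ ν) (S.BI T.N c μ ν) (aI μ.1) (aI ν.1) i) * S.RI T.N c μ ν i) -
    (Y : ℤ) * SmR (S.AI T.N c μ ν) (S.BI T.N c μ ν) (aI μ.1) (aI ν.1) (S.k + 1) = _
  rw [hPI, ← g3]
  linear_combination (-(T.D : ℤ) * ((∏ l ∈ range i, ext1 μ.1 l * A l : ℕ) : ℤ) * S.RI T.N c μ ν i) * g2' +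
    ((T.D : ℤ) * S.RI T.N c μ ν i * ((Bp (S.k + 1) B i : ℕ) : ℤ)) * g1' + ((T.D : ℤ) * S.RI T.N c μ ν i * T.N) * g5 +
    ((T.D : ℤ) * (e S.k : ℕ)) * g4

end Pool.Agent.Lib.T3
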