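import Pool.Agent.Lib.MP_7b7e48_nt.TC.K1
import Pool.Agent.Lib.MP_7b7e48_nt.T3.K7

/-!
# K8: no bad, hit and forbidden primes: a good cycle for the same colouring

`fm` is a sum of three cardinalities (`LL`), so `fm < 1` gives that all three are `0`. `K7`. (As `TC/K8`, but for one colouring.)
-/

set_option autoImplicit false

open Finset

namespace Pool.Agent.Lib.T3

open Pool.Agent.Lib.TC

theorem K8_one {S : MS} (M : Msr S) {T : Dat} {W0 : ℕ} {Z : Fin (S.k + 1) → ℕ} (hT : T.OK W0) (hS : S.OK3 T W0 Z) {c : S.Col} (hc : c ∈ S.CC)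
    {μ : S.TX} {ν : S.TY} (hμ : μ ∈ S.MX) (hν : ν ∈ S.MY) (hcop : (S.prX id μ).Coprime (S.prY id ν)) {X : ℕ}
    (h1 : S.prX id μ ∣ X) (h2 : S.prY id ν ∣ X - T.D * T.N) (h3 : T.D * T.N < X)
    (h4 : Real.exp (18 * (S.k + 1)) * ((X : ℝ) - T.D * T.N) ≤ X) (hN : X.Coprime T.N)
    (hR : ∀ p : ℕ, p.Prime → p ≤ T.y → ¬ p ∣ X ∧ ¬ p ∣ X - T.D * T.N)
    (hLL : S.LL T c μ ν (X : ℤ)) (hbad : S.bad T c μ ν (X : ℤ) = ∅) (hhits : S.hits T M.v M.x0 M.t2 c μ ν (X : ℤ) = ∅)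
    (hf : M.fm T c μ ν X < 1) : ∃ e t, S.Good T c μ ν X e t := by
  classical
  unfold Msr.fm at hf
  rw [if_pos hLL] at hf
  set c1 := ((S.spec T M.v M.x0 M.t2 c μ ν).filter fun p => ∃ i < S.k + 1, p ∣ S.tI T c μ ν X i).card with hc1
  set c2 := (T.N.primeFactors.filter fun p => T.z < p ∧ p ∣ S.SI T.N c μ ν).card with hc2
  set c3 := ((S.prX id μ * S.prY id ν).primeFactors.filter fun p => p ∣ S.SI T.N c μ ν).card with hc3
  have hn : c1 + c2 + c3 < 1 := by exact_mod_cast hf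
  have z1 : c1 = 0 := by omega
  have z2 : c2 = 0 := by omega
  have z3 : c3 = 0 := by omega
  rw [hc1, card_eq_zero, filter_eq_empty_iff] at z1
  rw [hc2, card_eq_zero, filter_eq_empty_iff] at z2
  rw [hc3, card_eq_zero, filter_eq_empty_iff] at z3
  have hN0 : T.N ≠ 0 := by have := hT.N_pos; omega
  have hp0 : S.prX id μ * S.prY id ν ≠ 0 := by
    have hX0 : X ≠ 0 := by omega
    have hY0 : X - T.D * T.N ≠ 0 := by omega
    refine mul_ne_zero ?_ ?_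
    · intro h; rw [h, zero_dvd_iff] at h1; exact hX0 h1
    · intro h; rw [h, zero_dvd_iff] at h2; exact hY0 h2
  refine K7 hT hS hc hμ hν hcop (v := M.v) (x0 := M.x0) (t2 := M.t2) h1 h2 h3 h4 hN hR hLL hbad hhits ?_ ?_ ?_
  · intro p hp i hi hd
    exact z1 hp ⟨i, hi, hd⟩
  · intro p hp hpN hz hd
    exact z2 (Nat.mem_primeFactors.2 ⟨hp, hpN, hN0⟩) ⟨hz, hd⟩
  · intro p hp hpd hd
    exact z3 (Nat.mem_primeFactors.2 ⟨hp, hpd, hp0⟩) hd

end Pool.Agent.Lib.T3
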