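import Pool.Agent.Lib.MP_7b7e48_nt.T3.D3
import Pool.Agent.Lib.MP_7b7e48_nt.TC.Q12
import Pool.Agent.Lib.MP_7b7e48_nt.TC.Q14

/-!
# P01: the local proportions for a pair of classes

`cb2 .. yn yn' B` is `cb` with the condition bad for `yn` OR for `yn'`. For `B = False` it is `cb .. yn False`; `cb2 .. True` implies `cb .. yn True` or (for `p ≥ p0`, where `cP = cD` does not contain `yn`) `cb .. yn' True`.
* `P01_cb`: as `Q12_cb` (proof of `Q12_cb`: `Loc.Sg_congr`, `Loc.Mi_congr`, ...).
* `P01_l1`, `P01_l2`: `Q12_one`, `Q12_two` as in `Q12_l1`, `Q12_l2`.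
* `P01_false`: `lavP .. False = lav .. False`, `lavQ .. False False = lav2 .. False False` (both `B` false: the conditions are the same).
* `P01_bad`: `p ∈ PS`, `Good3`: `lavP True ≤ lav yn True + lav yn' True ≤ 8 (k+1)/p (lav yn False + lav yn' False)` (`Q14_bad`), and `lav yn' False = lav yn False` as `p0 ≤ p`.
* `P01_Q`: `lavQ B B' ≤ lavQ False False`, `≤ lavP B`, `≤ lavP B'` (drop one condition; all colours are used; as in `Q18_l2_le`).
-/

set_option autoImplicit false

open Finset

namespace Pool.Agent.Lib.T3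

open Pool.Agent.Lib.TC

private theorem P01_cPb (T : Dat) (k p yn : ℕ) (al be P P' : ℕ → HP T.D p) (h : ∀ j ≤ k, P j = P' j) :
    (cP T k p yn al be P ↔ cP T k p yn al be P') ∧ (bP T k p yn al be P ↔ bP T k p yn al be P') := by
  have hS : Loc.Sg (k + 1) al be P = Loc.Sg (k + 1) al be P' :=
    Loc.Sg_congr (fun _ _ => rfl) (fun _ _ => rfl) (fun j hj => h j (by omega))
  have hT : ∀ (DN Y : RP T.D p) (i : ℕ), i ≤ k →
      Loc.Ti (k + 1) al be P DN Y i = Loc.Ti (k + 1) al be P' DN Y i := by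
    intro DN Y i hi
    unfold Loc.Ti
    rw [hS, Loc.Mi_congr (fun _ _ => rfl) (fun _ _ => rfl) (fun j hj => h j (by omega))]
  have hE : ∀ (DN Y : RP T.D p) (i : ℕ), i ≤ k →
      Loc.Ei (k + 1) al be P DN Y i = Loc.Ei (k + 1) al be P' DN Y i := by
    intro DN Y i hi
    unfold Loc.Ei
    rw [hS, sum_congr rfl fun j hj => by rw [h j (by rw [mem_range] at hj; omega)]]
  have hcS : cS T k p yn al be P ↔ cS T k p yn al be P' := by
    unfold cS
    rw [hS]
    refine and_congr_left fun _ => forall_congr' fun j => ?_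
    constructor
    · intro h1 hj
      rw [← h j hj]
      exact h1 hj
    · intro h1 hj
      rw [h j hj]
      exact h1 hj
  have hcD : cD T k p al be P ↔ cD T k p al be P' := by
    unfold cD
    rw [hS]
  have hcP : cP T k p yn al be P ↔ cP T k p yn al be P' := by
    unfold cP
    by_cases hp : p < T.p0
    · rw [if_pos hp, if_pos hp]
      exact hcS
    · rw [if_neg hp, if_neg hp]
      exact hcD
  refine ⟨hcP, ?_⟩
  unfold bP
  rw [hS]
  refine and_congr hcD ?_
  by_cases hN : p ∣ T.N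
  · rw [if_pos hN, if_pos hN]
  · rw [if_neg hN, if_neg hN]
    refine or_congr (exists_congr fun i => and_congr_right fun hi => by rw [hT _ _ i hi]) ?_
    exact and_congr_right fun _ => and_congr_right fun _ => and_congr_right fun _ =>
      exists_congr fun i => and_congr_right fun hi => by rw [hE _ _ i hi]

private theorem P01_mono {α : Type*} [Finite α] {f g : α → ℝ} (h : ∀ a, f a ≤ g a) : av f ≤ av g := by
  have h1 := av_nonneg (f := fun a => g a - f a) fun a => sub_nonneg.2 (h a)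
  rw [av_sub] at h1
  linarith

theorem P01_cb (T : Dat) (k p yn yn' : ℕ) (B : Prop) (al be P P' : ℕ → HP T.D p) (h : ∀ j ≤ k, P j = P' j) :
    cb2 T k p yn yn' B al be P ↔ cb2 T k p yn yn' B al be P' := by
  unfold cb2
  rw [(P01_cPb T k p yn al be P P' h).1, (P01_cPb T k p yn al be P P' h).2, (P01_cPb T k p yn' al be P P' h).2]

theorem P01_nonneg (T : Dat) (k p yn yn' : ℕ) (B : Prop) (al be : ℕ → HP T.D p) : 0 ≤ lavP T k p yn yn' B al be ∧ lavP T k p yn yn' B al be ≤ 1 := by
  refine ⟨av_nonneg fun P => ind_nonneg _, ?_⟩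
  unfold lavP
  refine le_trans (P01_mono (g := fun _ => (1 : ℝ)) fun P => ind_le_one _) ?_
  exact le_of_eq (av_const 1)

theorem P01_l1 (T : Dat) {k : ℕ} {E : Type*} [Fintype E] [DecidableEq E] (p yn yn' : ℕ) (B : Prop) (c : E → Fin (k + 1)) (hc : ∀ j : Fin k, ∃ e, c e = j.castSucc)
    (α : Fin (k + 1) → HP T.D p) (y : Fin k → HP T.D p) (be : ℕ → HP T.D p) :
    av (fun s : E → HP T.D p => ind (cb2 T k p yn yn' B (Loc.ex (k + 1) α) be (pj c α y s))) = lavP T k p yn yn' B (Loc.ex (k + 1) α) be := by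
  unfold lavP
  exact Q12_one c hc α y (fun P => ind (cb2 T k p yn yn' B (Loc.ex (k + 1) α) be P))
    fun P P' h => congrArg ind (propext (P01_cb T k p yn yn' B _ be P P' h))

theorem P01_l2 (T : Dat) {k : ℕ} {E : Type*} [Fintype E] [DecidableEq E] (p yn yn' : ℕ) (B B' : Prop) (c c' : E → Fin (k + 1)) (h : Conn k c c')
    (α : Fin (k + 1) → HP T.D p) (y y' : Fin k → HP T.D p) (be : ℕ → HP T.D p) :
    lavQ T p yn yn' B B' c c' α y y' be = lavP T k p yn yn' B (Loc.ex (k + 1) α) be * lavP T k p yn yn' B' (Loc.ex (k + 1) α) be := by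
  unfold lavQ lavP
  exact Q12_two c c' h α y y' (fun P => ind (cb2 T k p yn yn' B (Loc.ex (k + 1) α) be P))
    (fun P => ind (cb2 T k p yn yn' B' (Loc.ex (k + 1) α) be P))
    (fun P P' h => congrArg ind (propext (P01_cb T k p yn yn' B _ be P P' h)))
    fun P P' h => congrArg ind (propext (P01_cb T k p yn yn' B' _ be P P' h))

theorem P01_false (T : Dat) (k p yn yn' : ℕ) (al be : ℕ → HP T.D p) : lavP T k p yn yn' False al be = lav T k p yn False al be := by
  unfold lavP lav
  refine congrArg av (funext fun P => congrArg ind (propext ?_))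
  unfold cb2 cb
  exact ⟨fun h => ⟨h.1, False.elim⟩, fun h => ⟨h.1, False.elim⟩⟩

theorem P01_false2 (T : Dat) {k : ℕ} {E : Type*} [Fintype E] (p yn yn' : ℕ) (c c' : E → Fin (k + 1))
    (α : Fin (k + 1) → HP T.D p) (y y' : Fin k → HP T.D p) (be : ℕ → HP T.D p) :
    lavQ T p yn yn' False False c c' α y y' be = lav2 T p yn False False c c' α y y' be := by
  have h1 : ∀ (al P : ℕ → HP T.D p), ind (cb2 T k p yn yn' False al be P) = ind (cb T k p yn False al be P) := by
    intro al P
    refine congrArg ind (propext ?_)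
    unfold cb2 cb
    exact ⟨fun h => ⟨h.1, False.elim⟩, fun h => ⟨h.1, False.elim⟩⟩
  unfold lavQ lav2
  refine congrArg av (funext fun s => ?_)
  rw [h1, h1]

theorem P01_bad {T : Dat} {W0 k : ℕ} (hT : T.OK W0) (h5 : 5 ≤ T.p0) {p : ℕ} (hp : p ∈ T.PS) {al be : ℕ → HP T.D p} (hg : Good3 k al be) (yn yn' : ℕ) :
    lavP T k p yn yn' True al be ≤ 16 * ((k + 1 : ℕ) : ℝ) / p * lavP T k p yn yn' False al be := by
  have hp0 : T.p0 ≤ p := by
    unfold Dat.PS at hp
    rw [mem_filter] at hp
    exact hp.2.2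
  have hcP : ∀ (P : ℕ → HP T.D p), cP T k p yn al be P ↔ cP T k p yn' al be P := by
    intro P
    unfold cP
    rw [if_neg (by omega), if_neg (by omega)]
  have h1 : lav T k p yn' False al be = lav T k p yn False al be := by
    unfold lav
    refine congrArg av (funext fun P => congrArg ind (propext ?_))
    unfold cb
    rw [hcP]
    exact ⟨fun h => ⟨h.1, False.elim⟩, fun h => ⟨h.1, False.elim⟩⟩
  have h2 : lavP T k p yn yn' True al be ≤ lav T k p yn True al be + lav T k p yn' True al be := by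
    unfold lavP lav
    rw [← av_add]
    refine P01_mono fun P => ?_
    by_cases h3 : cb2 T k p yn yn' True al be (Loc.pp k P)
    · rw [ind_true h3]
      rcases h3.2 trivial with h4 | h4
      · have h5 : cb T k p yn True al be (Loc.pp k P) := ⟨h3.1, fun _ => h4⟩
        rw [ind_true h5]
        linarith [ind_nonneg (cb T k p yn' True al be (Loc.pp k P))]
      · have h5 : cb T k p yn' True al be (Loc.pp k P) := ⟨fun hb => (hcP _).1 (h3.1 hb), fun _ => h4⟩
        rw [ind_true h5]
        linarith [ind_nonneg (cb T k p yn True al be (Loc.pp k P))]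
    · rw [ind_false h3]
      exact add_nonneg (ind_nonneg _) (ind_nonneg _)
  have h3 := Q14_bad hT h5 hp hg yn
  have h4 := Q14_bad hT h5 hp hg yn'
  rw [h1] at h4
  rw [P01_false]
  have e : 16 * ((k + 1 : ℕ) : ℝ) / p * lav T k p yn False al be =
      8 * ((k + 1 : ℕ) : ℝ) / p * lav T k p yn False al be + 8 * ((k + 1 : ℕ) : ℝ) / p * lav T k p yn False al be := by ring
  rw [e]
  linarith

theorem P01_Q_nonneg (T : Dat) {k : ℕ} {E : Type*} [Fintype E] (p yn yn' : ℕ) (B B' : Prop) (c c' : E → Fin (k + 1))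
    (α : Fin (k + 1) → HP T.D p) (y y' : Fin k → HP T.D p) (be : ℕ → HP T.D p) : 0 ≤ lavQ T p yn yn' B B' c c' α y y' be := by
  unfold lavQ
  exact av_nonneg fun s => mul_nonneg (ind_nonneg _) (ind_nonneg _)

theorem P01_Q (T : Dat) {k : ℕ} {E : Type*} [Fintype E] [DecidableEq E] (p yn yn' : ℕ) (B B' : Prop) (c c' : E → Fin (k + 1)) (hc : ∀ j : Fin k, ∃ e, c e = j.castSucc)
    (hc' : ∀ j : Fin k, ∃ e, c' e = j.castSucc) (α : Fin (k + 1) → HP T.D p) (y y' : Fin k → HP T.D p) (be : ℕ → HP T.D p) :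
    lavQ T p yn yn' B B' c c' α y y' be ≤ lavQ T p yn yn' False False c c' α y y' be ∧
    lavQ T p yn yn' B B' c c' α y y' be ≤ lavP T k p yn yn' B (Loc.ex (k + 1) α) be ∧
    lavQ T p yn yn' B B' c c' α y y' be ≤ lavP T k p yn yn' B' (Loc.ex (k + 1) α) be := by
  have hF : ∀ (B : Prop) (al P : ℕ → HP T.D p), cb2 T k p yn yn' B al be P → cb2 T k p yn yn' False al be P :=
    fun B al P h => ⟨h.1, False.elim⟩
  refine ⟨?_, ?_, ?_⟩
  · unfold lavQ
    exact P01_mono fun s => mul_le_mul (ind_mono (hF _ _ _)) (ind_mono (hF _ _ _)) (ind_nonneg _) (ind_nonneg _)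
  · refine le_trans ?_ (le_of_eq (P01_l1 T p yn yn' B c hc α y be))
    unfold lavQ
    exact P01_mono fun s => mul_le_of_le_one_right (ind_nonneg _) (ind_le_one _)
  · refine le_trans ?_ (le_of_eq (P01_l1 T p yn yn' B' c' hc' α y' be))
    unfold lavQ
    exact P01_mono fun s => mul_le_of_le_one_left (ind_nonneg _) (ind_le_one _)

end Pool.Agent.Lib.T3
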