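import Pool.Agent.Lib.MP_7b7e48_nt.T3.D3
import Pool.Agent.Lib.MP_7b7e48_nt.TC.Q17

/-!
# P02: the conditions for the pair depend on `X`, `X'` only modulo `qd`; expansions of the weights; (5.1)

Copies of the statements of `TC.Q17` for the pair. `qd T W0 d = W0 ∏_{p ∈ d, p ∤ N} p` (`Q17_qd`).
* `P02_LL`: `LL` depends on `X` only modulo `W0` (`cP` contains `yn` only for `p < p0`, `p ∣ W0`).
* `P02_FF`, `P02_Pb`: as `Q17_FF`, `Q17_Pb` for both classes.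
* `P02_prod`: `FF2` is a product of indicators over `base ∪ d` (`d ⊆ PS`): `p ∈ bad2` iff bad for `X` or for `X'`.
* `P02_w`: `w2 - w21`: `Ls2` is the sum over `d ⊆ bad2`, `ind LL * [d ⊆ bad2] = FF2` (as `Q17_w`); `Lm - Mm = (Ll+ Ll'- - Ml+ Ml'-) + (Ll- Ll'+ - Ml- Ml'+) - (Ll+ Ll'+ - Ml+ Ml'+)`.
* `P02_51` (5.1): `Ls2 false ≤ [bad2 = ∅] ≤ Ls2 true`, `0 ≤ [hits = ∅] ≤ Ll true`, `Ll false ≤ [hits = ∅]` (as in `Q17_51`, `le_sum_flUp`, `sum_flLo_le`), so `Lm ≤ [hits = ∅][hits' = ∅] ≤ Lp` (because `(Ll+ - 1)(Ll'+ - 1') ≥ 0` with the indicators `1`, `1'`);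
  `w2 ≤ [LL] ([bad2 = ∅] Lp - [bad2 = ∅] (Lp - Lm)) ≤ [LL][bad2 = ∅][hits = ∅][hits' = ∅]`.
-/

set_option autoImplicit false

open Finset

namespace Pool.Agent.Lib.T3

open Pool.Agent.Lib.TC

variable {S : MS} {T : Dat} {W0 : ℕ} {M M' : Msr S} {c : S.Col} {μ : S.TX} {ν : S.TY} {d : Finset ℕ}

private theorem P02_PSm {p : ℕ} (hp : p ∈ T.PS) : p.Prime ∧ T.p0 ≤ p ∧ p ≤ T.y0 := by
  unfold Dat.PS at hp
  rw [mem_filter, mem_range] at hp
  exact ⟨hp.2.1, hp.2.2, by omega⟩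

private theorem P02_base {p : ℕ} (hp : p ∈ T.base) : p.Prime ∧ p ≤ T.y0 ∧ (p < T.p0 ∨ p ∣ T.D) := by
  unfold Dat.base at hp
  rw [mem_filter, mem_range] at hp
  exact ⟨hp.2.1, by omega, hp.2.2⟩

private theorem P02_dvd (hT : T.OK W0) {p : ℕ} (hp : p.Prime) (h : p < T.p0) : p ∣ T.qd W0 d :=
  Dvd.dvd.mul_right ((hT.W0_pr p hp).2 h) _

private theorem P02_dvd' {p : ℕ} (hp : p ∈ d) (h : ¬ p ∣ T.N) : p ∣ T.qd W0 d :=
  Dvd.dvd.mul_left (dvd_prod_of_mem (fun p => p) (mem_filter.2 ⟨hp, h⟩)) _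

private theorem P02_ycl {p q : ℕ} (h : p ∣ q) {x x' : ℤ} (hx : x ≡ x' [ZMOD q]) : ycl T p x = ycl T p x' := by
  have h1 : x ≡ x' [ZMOD p] := hx.of_dvd (Int.natCast_dvd_natCast.2 h)
  have h2 : x - T.D * T.N ≡ x' - T.D * T.N [ZMOD p] := h1.sub_right _
  unfold ycl
  rw [h2.eq]

private theorem P02_cP {k p yn yn' : ℕ} {al be P : ℕ → HP T.D p} (h : p < T.p0 → yn = yn') :
    cP T k p yn al be P ↔ cP T k p yn' al be P := by
  by_cases h1 : p < T.p0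
  · rw [h h1]
  · unfold cP
    rw [if_neg h1, if_neg h1]

private theorem P02_bP {k p yn yn' : ℕ} {al be P : ℕ → HP T.D p} (h : ¬ p ∣ T.N → yn = yn') :
    bP T k p yn al be P ↔ bP T k p yn' al be P := by
  by_cases h1 : p ∣ T.N
  · unfold bP
    rw [if_pos h1, if_pos h1]
  · rw [h h1]

private theorem P02_bad {p : ℕ} {d' : Finset ℕ} (hp : p ∈ d') {x y x' y' : ℤ} (hx : x ≡ y [ZMOD T.qd W0 d'])
    (hx' : x' ≡ y' [ZMOD T.qd W0 d']) : p ∈ S.bad2 T c μ ν x x' ↔ p ∈ S.bad2 T c μ ν y y' := by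
  classical
  unfold MS.bad2
  rw [mem_union, mem_union]
  unfold MS.bad
  rw [mem_filter, mem_filter, mem_filter, mem_filter]
  refine or_congr (and_congr Iff.rfl (P02_bP fun h => ?_)) (and_congr Iff.rfl (P02_bP fun h => ?_))
  · exact P02_ycl (P02_dvd' hp h) hx
  · exact P02_ycl (P02_dvd' hp h) hx'

private theorem P02_bad2 {p : ℕ} {x x' : ℤ} : p ∈ S.bad2 T c μ ν x x' ↔ p ∈ T.PS ∧
    (bP T S.k p (ycl T p x) (aq _ μ.1) (aq _ ν.1) (S.pq T.N _ c μ ν) ∨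
      bP T S.k p (ycl T p x') (aq _ μ.1) (aq _ ν.1) (S.pq T.N _ c μ ν)) := by
  classical
  unfold MS.bad2
  rw [mem_union]
  unfold MS.bad
  rw [mem_filter, mem_filter]
  tauto

theorem P02_LL (hT : T.OK W0) {x x' : ℤ} (hx : x ≡ x' [ZMOD W0]) : S.LL T c μ ν x ↔ S.LL T c μ ν x' := by
  unfold MS.LL
  refine forall_congr' fun p => forall_congr' fun hp => P02_cP fun h => ?_
  exact P02_ycl ((hT.W0_pr p (P02_base hp).1).2 h) hx

theorem P02_FF (hT : T.OK W0) {d' : Finset ℕ} (hd : d ⊆ d') (hd' : d' ⊆ T.PS) {x y x' y' : ℤ} (hx : x ≡ y [ZMOD T.qd W0 d']) (hx' : x' ≡ y' [ZMOD T.qd W0 d']) :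
    S.FF2 T c μ ν x x' d = S.FF2 T c μ ν y y' d := by
  have _ := hd'
  unfold MS.FF2
  have hW : x ≡ y [ZMOD W0] := hx.of_dvd (by
    unfold Dat.qd
    exact_mod_cast Dvd.intro _ rfl)
  have h1 : (S.LL T c μ ν x ∧ d ⊆ S.bad2 T c μ ν x x') ↔ (S.LL T c μ ν y ∧ d ⊆ S.bad2 T c μ ν y y') :=
    and_congr (P02_LL hT hW) (forall_congr' fun p => forall_congr' fun hp => P02_bad (hd hp) hx hx')
  rw [propext h1]

theorem P02_Pb (hT : T.OK W0) {d' : Finset ℕ} (hd : d ⊆ d') (hd' : d' ⊆ T.PS) {x y x' y' : ℤ} (hx : x ≡ y [ZMOD T.qd W0 d']) (hx' : x' ≡ y' [ZMOD T.qd W0 d']) :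
    S.Pb2 T μ ν x x' d = S.Pb2 T μ ν y y' d := by
  have _ := hd'
  classical
  unfold MS.Pb2
  refine prod_congr rfl fun p hp => ?_
  unfold lavP
  refine congrArg av (funext fun P => congrArg ind (propext ?_))
  unfold cb2
  refine and_congr (forall_congr' fun hb => P02_cP fun h => ?_)
    (forall_congr' fun hb => or_congr (P02_bP fun h => ?_) (P02_bP fun h => ?_))
  · exact P02_ycl (P02_dvd hT (P02_base hb).1 h) hx
  · exact P02_ycl (P02_dvd' (hd hb) h) hx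
  · exact P02_ycl (P02_dvd' (hd hb) h) hx'

theorem P02_prod (hd : d ⊆ T.PS) (x x' : ℤ) :
    S.FF2 T c μ ν x x' d = ∏ p ∈ T.base ∪ d, ind (cb2 T S.k p (ycl T p x) (ycl T p x') (p ∈ d) (aq _ μ.1) (aq _ ν.1) (S.pq T.N _ c μ ν)) := by
  classical
  rw [ind_prod]
  unfold MS.FF2
  have h1 : (S.LL T c μ ν x ∧ d ⊆ S.bad2 T c μ ν x x') ↔
      ∀ p ∈ T.base ∪ d, cb2 T S.k p (ycl T p x) (ycl T p x') (p ∈ d) (aq _ μ.1) (aq _ ν.1) (S.pq T.N _ c μ ν) := by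
    constructor
    · rintro ⟨h2, h3⟩ p _
      exact ⟨fun hb => h2 p hb, fun hb => (P02_bad2.1 (h3 hb)).2⟩
    · intro h2
      refine ⟨fun p hp => (h2 p (mem_union_left _ hp)).1 hp, fun p hp => ?_⟩
      exact P02_bad2.2 ⟨hd hp, (h2 p (mem_union_right _ hp)).2 hp⟩
  rw [propext h1]

private theorem P02_Ls (s : Bool) (b : ℕ) (x x' : ℤ) : ind (S.LL T c μ ν x) * S.Ls2 T s b c μ ν x x' =
    ∑ d ∈ T.PS.powerset, S.FF2 T c μ ν x x' d * wt s b T.y0 T.PS d := by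
  classical
  have hsub : S.bad2 T c μ ν x x' ⊆ T.PS := fun p hp => (P02_bad2.1 hp).1
  have h1 : (S.bad2 T c μ ν x x').powerset = T.PS.powerset.filter fun d => d ⊆ S.bad2 T c μ ν x x' := by
    ext d
    rw [mem_filter, mem_powerset, mem_powerset]
    exact ⟨fun h => ⟨h.trans hsub, h⟩, fun h => h.2⟩
  unfold MS.Ls2
  rw [h1, sum_filter, mul_sum]
  refine sum_congr rfl fun d _ => ?_
  unfold MS.FF2
  by_cases h2 : S.LL T c μ ν x
  · by_cases h3 : d ⊆ S.bad2 T c μ ν x x'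
    · rw [if_pos h3, ind_true h2, ind_true ⟨h2, h3⟩]
    · rw [if_neg h3, ind_false fun h : S.LL T c μ ν x ∧ d ⊆ S.bad2 T c μ ν x x' => h3 h.2, mul_zero, zero_mul]
  · rw [ind_false h2, ind_false fun h : S.LL T c μ ν x ∧ d ⊆ S.bad2 T c μ ν x x' => h2 h.1, zero_mul, zero_mul]

theorem P02_w (b1 b2 : ℕ) (x x' : ℤ) :
    M.w2 M' T b1 b2 c μ ν x x' - M.w21 M' T b1 b2 c μ ν x x' = ∑ d ∈ T.PS.powerset, S.FF2 T c μ ν x x' d *
      ((wt false b1 T.y0 T.PS d - 2 * wt true b1 T.y0 T.PS d) * (M.Ll T true b2 c μ ν x * M'.Ll T true b2 c μ ν x' - M.Ml T true b2 * M'.Ml T true b2) +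
        wt true b1 T.y0 T.PS d * (M.Ll T true b2 c μ ν x * M'.Ll T false b2 c μ ν x' - M.Ml T true b2 * M'.Ml T false b2) +
        wt true b1 T.y0 T.PS d * (M.Ll T false b2 c μ ν x * M'.Ll T true b2 c μ ν x' - M.Ml T false b2 * M'.Ml T true b2)) := by
  have h1 : M.w2 M' T b1 b2 c μ ν x x' = (ind (S.LL T c μ ν x) * S.Ls2 T false b1 c μ ν x x') * M.Lp M' T b2 c μ ν x x' -
      (ind (S.LL T c μ ν x) * S.Ls2 T true b1 c μ ν x x') * (M.Lp M' T b2 c μ ν x x' - M.Lm M' T b2 c μ ν x x') := by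
    unfold Msr.w2
    ring
  rw [h1, P02_Ls, P02_Ls]
  unfold Msr.w21 Msr.kap2 Msr.Lp Msr.Lm Msr.Mp Msr.Mm
  rw [sum_mul, sum_mul, ← sum_sub_distrib, ← sum_sub_distrib]
  exact sum_congr rfl fun d _ => by ring

theorem P02_51 (h2 : 2 ≤ T.y0) (hz : 2 ≤ T.z) (b1 b2 : ℕ) (x x' : ℤ) :
    M.w2 M' T b1 b2 c μ ν x x' ≤ ind (S.LL T c μ ν x ∧ S.bad T c μ ν x = ∅ ∧ S.bad T c μ ν x' = ∅ ∧
      S.hits T M.v M.x0 M.t2 c μ ν x = ∅ ∧ S.hits T M'.v M'.x0 M'.t2 c μ ν x' = ∅) := by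
  have _ := h2
  have _ := hz
  classical
  have hsub : S.bad2 T c μ ν x x' ⊆ T.PS := fun p hp => (P02_bad2.1 hp).1
  have hsub' : ∀ (N : Msr S) (w : ℤ), S.hits T N.v N.x0 N.t2 c μ ν w ⊆ T.PL := by
    intro N w
    unfold MS.hits
    exact (filter_subset _ _).trans sdiff_subset
  have hPS : ∀ r ∈ T.PS, r.Prime ∧ r ≤ T.y0 := fun r hr => ⟨(P02_PSm hr).1, (P02_PSm hr).2.2⟩
  have hPL : ∀ r ∈ T.PL, r.Prime ∧ r ≤ T.z := by
    intro r hr
    unfold Dat.PL at hr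
    rw [mem_filter, mem_range] at hr
    exact ⟨hr.2.1, by omega⟩
  have a1 : (if S.bad2 T c μ ν x x' = ∅ then (1 : ℝ) else 0) ≤ S.Ls2 T true b1 c μ ν x x' := by
    have h3 := le_sum_flUp hPS b1 hsub
    unfold MS.Ls2 wt
    simpa using h3
  have a2 : S.Ls2 T false b1 c μ ν x x' ≤ (if S.bad2 T c μ ν x x' = ∅ then (1 : ℝ) else 0) := by
    have h3 := sum_flLo_le hPS b1 hsub
    unfold MS.Ls2 wt
    simpa using h3
  have a3 : ∀ (N : Msr S) (w : ℤ), (if S.hits T N.v N.x0 N.t2 c μ ν w = ∅ then (1 : ℝ) else 0) ≤ N.Ll T true b2 c μ ν w := by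
    intro N w
    have h3 := le_sum_flUp hPL b2 (hsub' N w)
    unfold Msr.Ll wt
    simpa using h3
  have a4 : ∀ (N : Msr S) (w : ℤ), N.Ll T false b2 c μ ν w ≤ (if S.hits T N.v N.x0 N.t2 c μ ν w = ∅ then (1 : ℝ) else 0) := by
    intro N w
    have h3 := sum_flLo_le hPL b2 (hsub' N w)
    unfold Msr.Ll wt
    simpa using h3
  have hb0 : S.bad2 T c μ ν x x' = ∅ ↔ (S.bad T c μ ν x = ∅ ∧ S.bad T c μ ν x' = ∅) := by
    unfold MS.bad2
    exact union_eq_empty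
  by_cases hLL : S.LL T c μ ν x
  · unfold Msr.w2
    rw [ind_true hLL, one_mul]
    have b1' : (if S.bad2 T c μ ν x x' = ∅ then (1 : ℝ) else 0) * ((if S.hits T M.v M.x0 M.t2 c μ ν x = ∅ then (1 : ℝ) else 0) *
        (if S.hits T M'.v M'.x0 M'.t2 c μ ν x' = ∅ then (1 : ℝ) else 0)) ≤
        ind (S.LL T c μ ν x ∧ S.bad T c μ ν x = ∅ ∧ S.bad T c μ ν x' = ∅ ∧
      S.hits T M.v M.x0 M.t2 c μ ν x = ∅ ∧ S.hits T M'.v M'.x0 M'.t2 c μ ν x' = ∅) := by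
      by_cases h5 : S.bad2 T c μ ν x x' = ∅
      · by_cases h6 : S.hits T M.v M.x0 M.t2 c μ ν x = ∅
        · by_cases h7 : S.hits T M'.v M'.x0 M'.t2 c μ ν x' = ∅
          · rw [if_pos h5, if_pos h6, if_pos h7, ind_true ⟨hLL, (hb0.1 h5).1, (hb0.1 h5).2, h6, h7⟩, one_mul, one_mul]
          · rw [if_neg h7, mul_zero, mul_zero]
            exact ind_nonneg _
        · rw [if_neg h6, zero_mul, mul_zero]
          exact ind_nonneg _
      · rw [if_neg h5, zero_mul]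
        exact ind_nonneg _
    refine le_trans ?_ b1'
    have c1 : (0 : ℝ) ≤ (if S.bad2 T c μ ν x x' = ∅ then (1 : ℝ) else 0) := by split_ifs <;> norm_num
    have c2 : (0 : ℝ) ≤ (if S.hits T M.v M.x0 M.t2 c μ ν x = ∅ then (1 : ℝ) else 0) := by split_ifs <;> norm_num
    have c3 : (0 : ℝ) ≤ (if S.hits T M'.v M'.x0 M'.t2 c μ ν x' = ∅ then (1 : ℝ) else 0) := by split_ifs <;> norm_num
    have a3a := a3 M x
    have a3b := a3 M' x'
    have a4a := a4 M x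
    have a4b := a4 M' x'
    clear a3 a4 b1'
    unfold Msr.Lp Msr.Lm
    generalize (if S.bad2 T c μ ν x x' = ∅ then (1 : ℝ) else 0) = B at *
    generalize (if S.hits T M.v M.x0 M.t2 c μ ν x = ∅ then (1 : ℝ) else 0) = H at *
    generalize (if S.hits T M'.v M'.x0 M'.t2 c μ ν x' = ∅ then (1 : ℝ) else 0) = K at *
    generalize S.Ls2 T true b1 c μ ν x x' = LT at *
    generalize S.Ls2 T false b1 c μ ν x x' = LF at *
    generalize M.Ll T true b2 c μ ν x = MT at *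
    generalize M.Ll T false b2 c μ ν x = MF at *
    generalize M'.Ll T true b2 c μ ν x' = NT at *
    generalize M'.Ll T false b2 c μ ν x' = NF at *
    have e1 : 0 ≤ MT := c2.trans a3a
    have e2 : 0 ≤ NT := c3.trans a3b
    have e3 : MT * NF ≤ MT * K := mul_le_mul_of_nonneg_left a4b e1
    have e4 : MF * NT ≤ H * NT := mul_le_mul_of_nonneg_right a4a e2
    have e5 : 0 ≤ (MT - H) * (NT - K) := mul_nonneg (sub_nonneg.2 a3a) (sub_nonneg.2 a3b)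
    have e6 : MT * NF + MF * NT - MT * NT ≤ H * K := by nlinarith
    have e7 : H * K ≤ MT * NT := mul_le_mul a3a a3b c3 e1
    have e8 : 0 ≤ MT * NT := mul_nonneg e1 e2
    have d1 : LF * (MT * NT) ≤ B * (MT * NT) := mul_le_mul_of_nonneg_right a2 e8
    have d2 : B * (MT * NT - (MT * NF + MF * NT - MT * NT)) ≤ LT * (MT * NT - (MT * NF + MF * NT - MT * NT)) :=
      mul_le_mul_of_nonneg_right a1 (by linarith)
    have d3 : B * (MT * NF + MF * NT - MT * NT) ≤ B * (H * K) := mul_le_mul_of_nonneg_left e6 c1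
    linarith
  · unfold Msr.w2
    rw [ind_false hLL, zero_mul]
    exact ind_nonneg _

end Pool.Agent.Lib.T3
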