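import Pool.Agent.Lib.MP_7b7e48_nt.T3.D3
import Pool.Agent.Lib.MP_7b7e48_nt.TC.Q14

/-!
# Q14: the local proportions (3.2), (3.3)

`lav` is the number of `P : Fin k → HP T.D p` with `cb` divided by `(p^v (p-1))^k`, `v = padicValNat p T.D` (`av_eq`, `ZMod.card_units_eq_totient`, `Nat.totient_prime_pow_succ`).
* `Q14_cls`: `α_j ≡ 1` modulo `W0²` (so modulo `p²`), `β_j ≡ 1 - (-1)^j p` modulo `p²`; `toU q n = n` as `n` is a prime `> y0`, coprime to `q`.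
* `Q14_small`: `p < p0`, so `p ∈ base`, `v ≥ 2` (`p² ∣ W0² ∣ D`), the condition is `cS`: `P j ≡ 1` modulo `p` for all `j` and `Sg = τ` with `τ = n_p D/(α_0 yn)`, `p² ∣ τ`: `U05` (with `U05_et`, `ε = (-1)^j`;
  `(p : R) ∣ x - 1` iff `castHom x = 1`): the number is `p^(vk)/p^(v-1)`.
* `Q14_D`: `p ≥ p0`, `p ∣ D` (so `p ∈ base`, `v ≥ 1`), `Good3`: `U06` (from three good indices two are `≥ 1`).
* `Q14_bad`: `p ∈ PS`: `cb .. False` is `cD` (trivial for `v = 0`), `cb .. True` implies `cD` and `Bad` of `U07` (`a = v`, `u = D / p^v`): `U07`.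
* `Q14_one`: for `p ∉ base` the condition `cb .. False` is void.
* `Q14_good`: not `badpair`: for `p ∈ PS` at least three `j ≤ k` with `p ∤ α_j - β_j`; then `1/β_j - 1/α_j` is a unit.
-/

set_option autoImplicit false

open Finset

namespace Pool.Agent.Lib.T3

open Pool.Agent.Lib.TC

variable {S : MS} {T : Dat} {W0 : ℕ} {Z : Fin (S.k + 1) → ℕ} {μ : S.TX} {ν : S.TY}

/-! ### auxiliary lemmas -/

private theorem Q14_finite (n : ℕ) : Finite (ZMod n)ˣ := by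
  rcases Nat.eq_zero_or_pos n with h | h
  · subst h
    exact inferInstanceAs (Finite ℤˣ)
  · have : NeZero n := ⟨h.ne'⟩
    infer_instance

private theorem Q14_toU {p l : ℕ} (h : l.Coprime p) (n : ℕ) :
    ((toU (p ^ n) l : (ZMod (p ^ n))ˣ) : ZMod (p ^ n)) = (l : ZMod (p ^ n)) := by
  have h1 : l.Coprime (p ^ n) := h.pow_right n
  unfold toU
  rw [dif_pos h1, ZMod.coe_unitOfCoprime]

private theorem Q14_aq {p n : ℕ} (v : ℕ) (α : Fin n → ℕ) (hα : ∀ i, (α i).Coprime p) {j : ℕ} (hj : j < n) :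
    ((aq (p ^ v) α j : (ZMod (p ^ v))ˣ) : ZMod (p ^ v)) = (α ⟨j, hj⟩ : ZMod (p ^ v)) := by
  unfold aq rs
  rw [Loc.ex_lt _ hj]
  exact Q14_toU (hα _) v

private theorem Q14_wX (hT : T.OK W0) (hS : S.OK3 T W0 Z) (hμ : μ ∈ S.MX) (i : Fin (S.k + 1)) :
    μ.1 i ∈ S.WX i ∧ ∀ p : ℕ, p.Prime → p ≤ T.y0 → (μ.1 i).Coprime p := by
  unfold MS.MX at hμ
  rw [mem_product, Fintype.mem_piFinset] at hμ
  obtain ⟨h1, -, h2, -⟩ := hS.WX_mem i _ (hμ.1 i)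
  have h3 := hS.Z_lo i
  have h4 := hT.y0_lt
  have h5 : T.y0 < μ.1 i := by nlinarith
  exact ⟨hμ.1 i, fun p hp hpy => (Nat.coprime_primes h1 hp).2 (by omega)⟩

private theorem Q14_wY (hT : T.OK W0) (hS : S.OK3 T W0 Z) (hν : ν ∈ S.MY) (i : Fin (S.k + 1)) :
    ν.1 i ∈ S.WY i ∧ ∀ p : ℕ, p.Prime → p ≤ T.y0 → (ν.1 i).Coprime p := by
  unfold MS.MY at hν
  rw [mem_product, Fintype.mem_piFinset] at hν
  have h4 := hT.y0_lt
  refine ⟨hν.1 i, fun p hp hpy => ?_⟩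
  refine Nat.Coprime.symm ((Nat.Prime.coprime_iff_not_dvd hp).2 fun h => ?_)
  have h5 := hS.WY_big i _ (hν.1 i) p hp h
  omega

private theorem Q14_cast {q : ℕ} (m a b : ℤ) (h : m ∣ a - b) : (m : ZMod q) ∣ (a : ZMod q) - (b : ZMod q) := by
  obtain ⟨t, ht⟩ := h
  refine ⟨(t : ZMod q), ?_⟩
  have := congrArg (fun x : ℤ => (x : ZMod q)) ht
  push_cast at this
  exact this

private theorem Q14_dvd {p a : ℕ} [NeZero (p ^ (a + 1))] (x : ZMod (p ^ (a + 1))) :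
    ZMod.castHom (dvd_pow_self p (Nat.succ_ne_zero a)) (ZMod p) x = 0 ↔ (p : ZMod (p ^ (a + 1))) ∣ x := by
  constructor
  · intro h
    have hx : x = ((x.val : ℕ) : ZMod (p ^ (a + 1))) := (ZMod.natCast_zmod_val x).symm
    rw [hx, map_natCast, ZMod.natCast_eq_zero_iff] at h
    obtain ⟨t, ht⟩ := h
    rw [hx, ht, Nat.cast_mul]
    exact dvd_mul_right _ _
  · rintro ⟨t, rfl⟩
    rw [map_mul, map_natCast, ZMod.natCast_self, zero_mul]

private theorem Q14_card {p : ℕ} (hp : p.Prime) (v k : ℕ) [NeZero (p ^ (v + 1))] :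
    Fintype.card (Fin k → (ZMod (p ^ (v + 1)))ˣ) = (p ^ v * (p - 1)) ^ k := by
  rw [Fintype.card_fun, Fintype.card_fin, ZMod.card_units_eq_totient, Nat.totient_prime_pow_succ hp]

open Classical in
private theorem Q14_lav {T : Dat} {k p : ℕ} (hp : p.Prime) (yn : ℕ) (B : Prop) (al be : ℕ → HP T.D p)
    [NeZero (p ^ (padicValNat p T.D + 1))] : lav T k p yn B al be =
      (((univ : Finset (Fin k → HP T.D p)).filter fun P => cb T k p yn B al be (Loc.pp k P)).card : ℝ) /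
        (((p ^ padicValNat p T.D * (p - 1)) ^ k : ℕ) : ℝ) := by
  unfold lav
  rw [av_eq, Q14_card hp]
  congr 1
  rw [Finset.card_filter]
  push_cast
  refine sum_congr rfl fun P _ => ?_
  by_cases h : cb T k p yn B al be (Loc.pp k P)
  · rw [ind_true h, if_pos h]
  · rw [ind_false h, if_neg h]

private theorem Q14_vpos {D : ℕ} (hD : 0 < D) {p : ℕ} (hp : p.Prime) : p ∣ D ↔ 1 ≤ padicValNat p D := by
  have : Fact p.Prime := ⟨hp⟩
  rw [← padicValNat_dvd_iff_le hD.ne', pow_one]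

theorem Q14_cls (hT : T.OK W0) (hS : S.OK3 T W0 Z) (hμ : μ ∈ S.MX) (hν : ν ∈ S.MY) {p : ℕ} (hp : p.Prime) (hp0 : p < T.p0) :
    (∀ j ≤ S.k, (p : RP T.D p) ^ 2 ∣ (aq (p ^ (padicValNat p T.D + 1)) μ.1 j : RP T.D p) - 1) ∧
    ∀ j ≤ S.k, (p : RP T.D p) ^ 2 ∣ (aq (p ^ (padicValNat p T.D + 1)) ν.1 j : RP T.D p) - (1 - (-1) ^ j * (p : RP T.D p)) := by
  have hpy : p ≤ T.y0 := by
    have h1 := hT.p0_le
    have h2 := hT.y_le
    omega
  have hpW : p ∣ W0 := (hT.W0_pr p hp).2 hp0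
  constructor
  · intro j hj
    rw [Q14_aq _ _ (fun i => (Q14_wX hT hS hμ i).2 p hp hpy) (show j < S.k + 1 by omega)]
    have h1 := (Q14_wX hT hS hμ ⟨j, by omega⟩).1
    obtain ⟨-, -, -, -, h2⟩ := hS.WX_mem _ _ h1
    have h3 : ((p ^ 2 : ℕ) : ℤ) ∣ (μ.1 ⟨j, by omega⟩ : ℤ) - (1 : ℕ) := by
      have h4 : (μ.1 ⟨j, by omega⟩) ≡ 1 [MOD p ^ 2] := h2.of_dvd (pow_dvd_pow_of_dvd hpW 2)
      exact (Nat.modEq_iff_dvd.1 h4.symm)
    have h5 := Q14_cast (q := p ^ (padicValNat p T.D + 1)) _ _ _ h3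
    push_cast at h5
    exact h5
  · intro j hj
    rw [Q14_aq _ _ (fun i => (Q14_wY hT hS hν i).2 p hp hpy) (show j < S.k + 1 by omega)]
    have h1 := (Q14_wY hT hS hν ⟨j, by omega⟩).1
    obtain ⟨-, -, -, -, h2⟩ := hS.WY_mem _ _ h1
    have h3 : ((p ^ 2 : ℕ) : ℤ) ∣ (ν.1 ⟨j, by omega⟩ : ℤ) - (1 - (-1) ^ j * p) := by
      have h4 := h2 p hp hpW
      exact (Int.modEq_iff_dvd.1 h4.symm)
    have h5 := Q14_cast (q := p ^ (padicValNat p T.D + 1)) _ _ _ h3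
    push_cast at h5
    exact h5

theorem Q14_good (hT : T.OK W0) (hS : S.OK3 T W0 Z) (hμ : μ ∈ S.MX) (hν : ν ∈ S.MY) (hb : ¬ S.badpair T 0 T.y0 μ ν) {p : ℕ} (hp : p ∈ T.PS) :
    Good3 S.k (aq (p ^ (padicValNat p T.D + 1)) μ.1) (aq (p ^ (padicValNat p T.D + 1)) ν.1) := by
  have hp' := hp
  unfold Dat.PS at hp'
  rw [mem_filter, mem_range] at hp'
  obtain ⟨hpy, hpp, hp0⟩ := hp'
  have hpy' : p ≤ T.y0 := by omega
  have hcard : 3 ≤ (univ.filter fun i : Fin (S.k + 1) => ¬ (μ.1 i ≡ ν.1 i [MOD p])).card := by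
    by_contra h
    exact hb ⟨p, hp, hpp.pos, hpy', by omega⟩
  have hun : ∀ j : Fin (S.k + 1), ¬ (μ.1 j ≡ ν.1 j [MOD p]) →
      IsUnit (Loc.et (aq (p ^ (padicValNat p T.D + 1)) μ.1) (aq (p ^ (padicValNat p T.D + 1)) ν.1) j) := by
    intro j hj
    have hα := Q14_aq (padicValNat p T.D + 1) μ.1 (fun i => (Q14_wX hT hS hμ i).2 p hpp hpy') j.isLt
    have hβ := Q14_aq (padicValNat p T.D + 1) ν.1 (fun i => (Q14_wY hT hS hν i).2 p hpp hpy') j.isLt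
    set a := aq (p ^ (padicValNat p T.D + 1)) μ.1 j with ha
    set b := aq (p ^ (padicValNat p T.D + 1)) ν.1 j with hb
    have h1 : Loc.et (aq (p ^ (padicValNat p T.D + 1)) μ.1) (aq (p ^ (padicValNat p T.D + 1)) ν.1) j =
        ((a : ZMod (p ^ (padicValNat p T.D + 1))) - b) * ((a⁻¹ * b⁻¹ : (ZMod (p ^ (padicValNat p T.D + 1)))ˣ) :
          ZMod (p ^ (padicValNat p T.D + 1))) := by
      unfold Loc.et
      rw [← ha, ← hb, Units.val_mul]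
      have e1 : (a : ZMod (p ^ (padicValNat p T.D + 1))) * ((a⁻¹ : (ZMod (p ^ (padicValNat p T.D + 1)))ˣ) :
          ZMod (p ^ (padicValNat p T.D + 1))) = 1 := Units.mul_inv a
      have e2 : (b : ZMod (p ^ (padicValNat p T.D + 1))) * ((b⁻¹ : (ZMod (p ^ (padicValNat p T.D + 1)))ˣ) :
          ZMod (p ^ (padicValNat p T.D + 1))) = 1 := Units.mul_inv b
      linear_combination (-((b⁻¹ : (ZMod (p ^ (padicValNat p T.D + 1)))ˣ) : ZMod (p ^ (padicValNat p T.D + 1)))) * e1 +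
        ((a⁻¹ : (ZMod (p ^ (padicValNat p T.D + 1)))ˣ) : ZMod (p ^ (padicValNat p T.D + 1))) * e2
    rw [h1]
    refine IsUnit.mul ?_ (Units.isUnit _)
    rw [hα, hβ]
    have h2 : ((μ.1 ⟨j, j.isLt⟩ : ZMod (p ^ (padicValNat p T.D + 1))) - (ν.1 ⟨j, j.isLt⟩ : ZMod (p ^ (padicValNat p T.D + 1)))) =
        (((μ.1 j : ℤ) - (ν.1 j : ℤ) : ℤ) : ZMod (p ^ (padicValNat p T.D + 1))) := by
      push_cast
      rfl
    rw [h2, ZMod.coe_int_isUnit_iff_isCoprime]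
    push_cast
    refine IsCoprime.pow_left ?_
    rw [Int.isCoprime_iff_gcd_eq_one]
    have h3 : ¬ (p : ℤ) ∣ (μ.1 j : ℤ) - (ν.1 j : ℤ) := fun h => hj ((Nat.modEq_iff_dvd.2 h).symm)
    have h4 := (Int.gcd_dvd_left (a := (p : ℤ)) (b := (μ.1 j : ℤ) - (ν.1 j : ℤ)))
    have h5 := (Int.gcd_dvd_right (a := (p : ℤ)) (b := (μ.1 j : ℤ) - (ν.1 j : ℤ)))
    rcases (Nat.dvd_prime hpp).1 (Int.natCast_dvd_natCast.1 h4) with h6 | h6
    · exact h6
    · rw [h6] at h5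
      exact absurd h5 h3
  set s := univ.filter fun i : Fin (S.k + 1) => ¬ (μ.1 i ≡ ν.1 i [MOD p]) with hs
  have hm : ∀ i : Fin s.card, ¬ (μ.1 (s.orderEmbOfFin rfl i) ≡ ν.1 (s.orderEmbOfFin rfl i) [MOD p]) := by
    intro i
    have h1 : s.orderEmbOfFin rfl i ∈ univ.filter fun i : Fin (S.k + 1) => ¬ (μ.1 i ≡ ν.1 i [MOD p]) :=
      s.orderEmbOfFin_mem rfl i
    exact (mem_filter.1 h1).2
  refine ⟨(s.orderEmbOfFin rfl ⟨0, by omega⟩ : Fin (S.k + 1)), (s.orderEmbOfFin rfl ⟨1, by omega⟩ : Fin (S.k + 1)),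
    (s.orderEmbOfFin rfl ⟨2, by omega⟩ : Fin (S.k + 1)), ?_, ?_, by omega, hun _ (hm _), hun _ (hm _), hun _ (hm _)⟩
  · exact (s.orderEmbOfFin rfl).strictMono (by simp [Fin.lt_def])
  · exact (s.orderEmbOfFin rfl).strictMono (by simp [Fin.lt_def])

end Pool.Agent.Lib.T3
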