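import Pool.Agent.Lib.MP_7b7e48_nt.T3.D3
import Pool.Agent.Lib.MP_7b7e48_nt.TC.Q18
import Pool.Agent.Lib.MP_7b7e48_nt.T3.Q14

/-!
# Q18: sums over the sets of bad primes for fixed tuples (8.2)

`nb`: the pair `(μ, ν)` is not bad, so `Good3` at all `p ∈ PS` (`Q14_good`), classes at `p < p0` (`Q14_cls`); `hX`: `X` is coprime to `W0`; for `p < p0`: `p ∣ D`, so `Y ≡ X` and `p ∤ ycl T p X`.
* `Q18_l2_le`: `l2 B B' ≤ l2 False False` (the condition `cb .. B` implies `cb .. False`), `l2 ≤ 1`, `l2 B B' ≤ lav B` and `≤ lav B'` (drop one colouring; `Q12_l1`; `c, c' ∈ CC`).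
* `Q18_a`: `Q13_two` with `P = PS`, `b = base`, `f p B B' = l2 B B' p`, `A p = 1 + 24 (k+1)/p` (each of `l2 True False`, `l2 False True`, `l2 True True` is at most `lav True ≤ 8 (k+1)/p lav False`, `lav False = 1` for `p ∉ base`
  (`Q14_bad`, `Q14_one`)), `Bd p = l2 False False p`.
* `Q18_base`: `∏_{p ∈ base} lav False ≤ 2^|base| W0/D`: `p < p0`: `1/((p-1)^k p^(v-1)) ≤ p/p^v`; `p ≥ p0`, `p ∣ D`: `≤ 2/p^v`; `∏_{p ∈ base} p^v = D` (all primes of `D` are `≤ y0` because `D ≤ y0`), `∏_{p < p0} p = W0`.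
* `Q18_base_lo`: `∏_{p ∈ base} lav False ≥ 1/(2^|base| W0^k D)`.
* `Q18_Pb`: `Q13_one` with `f p B = lav B`: `∑_{d ⊆ PS} Pb d ≤ ∏_{PS} (1 + 8(k+1)/p) 2^|base| (2^|base| W0/D)`.
-/

set_option autoImplicit false

open Finset

namespace Pool.Agent.Lib.T3

open Pool.Agent.Lib.TC

variable {S : MS} {T : Dat} {W0 : ℕ} {Z : Fin (S.k + 1) → ℕ} {μ : S.TX} {ν : S.TY} {c c' : S.Col} {X : ℤ}

private theorem Q18_cc {c : S.Col} (hc : c ∈ S.CC) : ∀ j : Fin S.k, ∃ e, c e = j.castSucc := by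
  unfold MS.CC at hc
  exact (mem_filter.1 hc).2

private theorem Q18_one_le (P : Finset ℕ) (A : ℕ → ℝ) (hA : ∀ p ∈ P, 1 ≤ A p) : 1 ≤ ∏ p ∈ P, A p := by
  have h := prod_le_prod (f := fun _ : ℕ => (1 : ℝ)) (g := A) (s := P) (fun _ _ => zero_le_one) hA
  rwa [prod_const_one] at h

private theorem Q18_sub (P b : Finset ℕ) (A : ℕ → ℝ) (hA : ∀ p ∈ P, 1 ≤ A p) : ∏ p ∈ P \ b, A p ≤ ∏ p ∈ P, A p := by
  have h0 : (P \ b) ⊆ P := sdiff_subset
  rw [← prod_sdiff h0]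
  refine le_mul_of_one_le_left (prod_nonneg fun p hp => zero_le_one.trans (hA p (h0 hp))) ?_
  exact Q18_one_le _ A fun p hp => hA p (sdiff_subset hp)

private theorem Q18_cbF {T : Dat} {k p yn : ℕ} {B : Prop} {al be P : ℕ → HP T.D p} (h : cb T k p yn B al be P) :
    cb T k p yn False al be P := ⟨h.1, False.elim⟩

private theorem Q18_lavF (T : Dat) (k p yn : ℕ) (B : Prop) (al be : ℕ → HP T.D p) :
    lav T k p yn B al be ≤ lav T k p yn False al be := by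
  unfold lav
  exact av_mono fun P => ind_mono Q18_cbF

private theorem Q18_lav0 (T : Dat) (k p yn : ℕ) (B : Prop) (al be : ℕ → HP T.D p) : 0 ≤ lav T k p yn B al be := by
  unfold lav
  exact av_nonneg fun P => ind_nonneg _

private theorem Q18_l2_one {p : ℕ} (hp : p ∉ T.base) : S.l2 T c c' μ ν X False False p = 1 := by
  unfold MS.l2 lav2
  have h1 : (fun s : FE S.n0 → HP T.D p => ind (cb T S.k p (ycl T p X) False (Loc.ex (S.k + 1) (rs _ μ.1)) (aq _ ν.1)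
      (pj c (rs _ μ.1) (S.yy T.N _ c μ ν) s)) * ind (cb T S.k p (ycl T p X) False (Loc.ex (S.k + 1) (rs _ μ.1)) (aq _ ν.1)
      (pj c' (rs _ μ.1) (S.yy T.N _ c' μ ν) s))) = fun _ => (1 : ℝ) := by
    funext s
    rw [ind_true ⟨fun h => absurd h hp, False.elim⟩, ind_true ⟨fun h => absurd h hp, False.elim⟩, one_mul]
  rw [h1]
  exact av_const 1

private theorem Q18_p0 (hS : S.OK3 T W0 Z) : 5 ≤ T.p0 := by
  have h1 := hS.p0_lo
  have h2 : 1 ≤ (S.k + 1) ^ 2 := Nat.one_le_pow _ _ (by omega)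
  omega

private theorem Q18_A1 (m : ℝ) (hm : 0 ≤ m) (p : ℕ) : 1 ≤ 1 + m * ((S.k + 1 : ℕ) : ℝ) / p := by
  have : 0 ≤ m * ((S.k + 1 : ℕ) : ℝ) / p := div_nonneg (mul_nonneg hm (Nat.cast_nonneg _)) (Nat.cast_nonneg _)
  linarith

theorem Q18_a (hT : T.OK W0) (hS : S.OK3 T W0 Z) (hμ : μ ∈ S.MX) (hν : ν ∈ S.MY) (hb : ¬ S.badpair T 0 T.y0 μ ν) (hc : c ∈ S.CC) (hc' : c' ∈ S.CC) :
    ∑ d ∈ T.PS.powerset, ∑ d' ∈ T.PS.powerset, ∏ p ∈ T.base ∪ d ∪ d', S.l2 T c c' μ ν X (p ∈ d) (p ∈ d') p ≤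
      (∏ p ∈ T.PS, (1 + 24 * ((S.k + 1 : ℕ) : ℝ) / p)) * (4 ^ T.base.card * ∏ p ∈ T.base, S.l2 T c c' μ ν X False False p) := by
  have h1 := Q13_two T.PS T.base (fun p B B' => S.l2 T c c' μ ν X B B' p) (fun p B B' => Q18_l2_nonneg B B' p)
    (fun p hp => Q18_l2_one hp) (fun p => 1 + 24 * ((S.k + 1 : ℕ) : ℝ) / p) (fun p => S.l2 T c c' μ ν X False False p) (by
      intro p hp hpb
      beta_reduce
      have e0 : S.l2 T c c' μ ν X False False p = 1 := Q18_l2_one hpb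
      have e1 := (Q18_l2_le (T := T) (X := X) (μ := μ) (ν := ν) hc hc' True False p).2.1
      have e2 := (Q18_l2_le (T := T) (X := X) (μ := μ) (ν := ν) hc hc' False True p).2.2
      have e3 := (Q18_l2_le (T := T) (X := X) (μ := μ) (ν := ν) hc hc' True True p).2.1
      have e4 := Q14_bad hT (Q18_p0 hS) hp (Q14_good hT hS hμ hν hb hp) (ycl T p X)
      rw [Q14_one hpb, mul_one] at e4
      have e5 : 24 * ((S.k + 1 : ℕ) : ℝ) / p = 3 * (8 * ((S.k + 1 : ℕ) : ℝ) / p) := by ring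
      rw [e5, e0]
      linarith) (fun p _ B B' _ => (Q18_l2_le hc hc' B B' p).1)
  refine h1.trans (mul_le_mul_of_nonneg_right ?_ ?_)
  · exact Q18_sub _ _ _ fun p _ => Q18_A1 24 (by norm_num) p
  · exact mul_nonneg (by positivity) (prod_nonneg fun p _ => Q18_l2_nonneg _ _ p)

private theorem Q18_ycl (hT : T.OK W0) (hX : IsCoprime X (W0 : ℤ)) {p : ℕ} (hp : p.Prime) (hp0 : p < T.p0) : ¬ p ∣ ycl T p X := by
  have hpW : p ∣ W0 := (hT.W0_pr p hp).2 hp0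
  have hpD : p ∣ T.D := (dvd_pow hpW two_ne_zero).trans hT.W0_D
  intro h
  unfold ycl at h
  have h1 : (0 : ℤ) ≤ (X - T.D * T.N) % p := Int.emod_nonneg _ (by exact_mod_cast hp.ne_zero)
  have h2 : (p : ℤ) ∣ (X - T.D * T.N) % p := by
    have h3 := Int.natCast_dvd_natCast.2 h
    rwa [Int.toNat_of_nonneg h1] at h3
  have h3 : (p : ℤ) ∣ X - T.D * T.N := by
    have h4 := Int.emod_eq_zero_of_dvd h2
    rw [Int.emod_emod_of_dvd _ (dvd_refl _)] at h4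
    exact Int.dvd_of_emod_eq_zero h4
  have h4 : (p : ℤ) ∣ (T.D : ℤ) * T.N := Dvd.dvd.mul_right (Int.natCast_dvd_natCast.2 hpD) _
  have h5 : (p : ℤ) ∣ X := by
    have h6 := dvd_add h3 h4
    rwa [sub_add_cancel] at h6
  exact (Nat.prime_iff_prime_int.1 hp).not_unit (hX.isUnit_of_dvd' h5 (Int.natCast_dvd_natCast.2 hpW))

private theorem Q18_prodD (hT : T.OK W0) : ∏ p ∈ T.base, (p : ℝ) ^ padicValNat p T.D = T.D := by
  have hD := hT.D_pos.ne'
  have h1 : ∏ p ∈ T.D.primeFactors, p ^ padicValNat p T.D = T.D := by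
    have h2 := Nat.prod_factorization_pow_eq_self hD
    rw [Finsupp.prod, Nat.support_factorization] at h2
    conv_rhs => rw [← h2]
    refine prod_congr rfl fun p hp => ?_
    rw [Nat.factorization_def _ (Nat.prime_of_mem_primeFactors hp)]
  have h3 : T.D.primeFactors ⊆ T.base := by
    intro p hp
    have hpp := Nat.prime_of_mem_primeFactors hp
    have hpd := Nat.dvd_of_mem_primeFactors hp
    unfold Dat.base
    rw [mem_filter, mem_range]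
    have h4 := Nat.le_of_dvd hT.D_pos hpd
    have h5 := hT.D_le
    exact ⟨by omega, hpp, Or.inr hpd⟩
  have h6 : ∏ p ∈ T.base, p ^ padicValNat p T.D = T.D := by
    rw [← prod_subset h3, h1]
    intro p hp hp'
    unfold Dat.base at hp
    rw [mem_filter] at hp
    have h7 : ¬ p ∣ T.D := fun h => hp' (Nat.mem_primeFactors.2 ⟨hp.2.1, h, hD⟩)
    rw [padicValNat.eq_zero_of_not_dvd h7, pow_zero]
  have h7 := congrArg (fun n : ℕ => (n : ℝ)) h6
  simp only [Nat.cast_prod, Nat.cast_pow] at h7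
  exact h7

private theorem Q18_prodW (hT : T.OK W0) : ∏ p ∈ T.base, (if p < T.p0 then (p : ℝ) else 1) = W0 := by
  have h1 := Nat.prod_primeFactors_of_squarefree hT.W0_sq
  have hW : W0 ≠ 0 := hT.W0_sq.ne_zero
  have h2 : T.base.filter (fun p => p < T.p0) = W0.primeFactors := by
    ext p
    unfold Dat.base
    rw [mem_filter, mem_filter, mem_range, Nat.mem_primeFactors]
    have h3 := hT.p0_le
    have h4 := hT.y_le
    constructor
    · rintro ⟨⟨-, hp, -⟩, hp0⟩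
      exact ⟨hp, (hT.W0_pr p hp).2 hp0, hW⟩
    · rintro ⟨hp, hpW, -⟩
      have h5 := (hT.W0_pr p hp).1 hpW
      exact ⟨⟨by omega, hp, Or.inl h5⟩, h5⟩
  rw [← prod_filter, h2]
  have h7 := congrArg (fun n : ℕ => (n : ℝ)) h1
  simp only [Nat.cast_prod] at h7
  exact h7

private theorem Q18_loc (hT : T.OK W0) (hS : S.OK3 T W0 Z) (hμ : μ ∈ S.MX) (hν : ν ∈ S.MY) (hb : ¬ S.badpair T 0 T.y0 μ ν) (hX : IsCoprime X (W0 : ℤ))
    {p : ℕ} (hp : p ∈ T.base) :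
    1 / (2 * (if p < T.p0 then (p : ℝ) else 1) ^ S.k * (p : ℝ) ^ padicValNat p T.D) ≤
      lav T S.k p (ycl T p X) False (aq _ μ.1) (aq _ ν.1) ∧
    lav T S.k p (ycl T p X) False (aq _ μ.1) (aq _ ν.1) ≤
      2 * (if p < T.p0 then (p : ℝ) else 1) / (p : ℝ) ^ padicValNat p T.D := by
  have hp' := hp
  unfold Dat.base at hp'
  rw [mem_filter, mem_range] at hp'
  obtain ⟨hpy, hpp, hpc⟩ := hp'
  have hF : Fact p.Prime := ⟨hpp⟩
  have hpr : (0 : ℝ) < p := by exact_mod_cast hpp.pos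
  have hp2 : (2 : ℝ) ≤ p := by exact_mod_cast hpp.two_le
  by_cases hp0 : p < T.p0
  · have hpW : p ∣ W0 := (hT.W0_pr p hpp).2 hp0
    have hpD : p ^ 2 ∣ T.D := (pow_dvd_pow_of_dvd hpW 2).trans hT.W0_D
    have hv : 2 ≤ padicValNat p T.D := (padicValNat_dvd_iff_le hT.D_pos.ne').1 hpD
    obtain ⟨ha, hbb⟩ := Q14_cls hT hS hμ hν hpp hp0
    rw [Q14_small hT hS.k_odd hpp hp0 ha hbb (Q18_ycl hT hX hpp hp0), if_pos hp0]
    obtain ⟨w, hw⟩ : ∃ w, padicValNat p T.D = w + 1 := ⟨padicValNat p T.D - 1, by omega⟩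
    rw [hw, Nat.add_sub_cancel]
    have hx1 : (1 : ℝ) ≤ ((p : ℝ) - 1) ^ S.k := one_le_pow₀ (by linarith)
    have hx2 : ((p : ℝ) - 1) ^ S.k ≤ (p : ℝ) ^ S.k := pow_le_pow_left₀ (by linarith) (by linarith) _
    have hq : (0 : ℝ) < (p : ℝ) ^ w := pow_pos hpr _
    constructor
    · refine one_div_le_one_div_of_le (mul_pos (by linarith) hq) ?_
      rw [pow_succ]
      have h1 : ((p : ℝ) - 1) ^ S.k * (p : ℝ) ^ w ≤ (p : ℝ) ^ S.k * (p : ℝ) ^ w := mul_le_mul_of_nonneg_right hx2 hq.le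
      have h2 : 0 < (p : ℝ) ^ S.k * (p : ℝ) ^ w := mul_pos (pow_pos hpr _) hq
      nlinarith
    · rw [div_le_div_iff₀ (mul_pos (by linarith) hq) (pow_pos hpr _), pow_succ]
      have h1 : (p : ℝ) ^ w * 1 ≤ (p : ℝ) ^ w * ((p : ℝ) - 1) ^ S.k := mul_le_mul_of_nonneg_left hx1 hq.le
      have h2 : 0 < (p : ℝ) * (p : ℝ) ^ w := mul_pos hpr hq
      nlinarith
  · have hpD : p ∣ T.D := hpc.resolve_left hp0
    have hPS : p ∈ T.PS := by
      unfold Dat.PS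
      rw [mem_filter, mem_range]
      exact ⟨hpy, hpp, by omega⟩
    obtain ⟨h1, h2⟩ := Q14_D hT (Q18_p0 hS) hpp (by omega) hpD (Q14_good hT hS hμ hν hb hPS) (ycl T p X)
    rw [if_neg hp0, one_pow, mul_one]
    exact ⟨h1, h2⟩

theorem Q18_base (hT : T.OK W0) (hS : S.OK3 T W0 Z) (hμ : μ ∈ S.MX) (hν : ν ∈ S.MY) (hb : ¬ S.badpair T 0 T.y0 μ ν) (hX : IsCoprime X (W0 : ℤ)) :
    (∏ p ∈ T.base, lav T S.k p (ycl T p X) False (aq _ μ.1) (aq _ ν.1) ≤ 2 ^ T.base.card * W0 / T.D) ∧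
    1 / (2 ^ T.base.card * (W0 : ℝ) ^ S.k * T.D) ≤ ∏ p ∈ T.base, lav T S.k p (ycl T p X) False (aq _ μ.1) (aq _ ν.1) := by
  constructor
  · refine (prod_le_prod (fun p _ => Q18_lav0 _ _ _ _ _ _ _) fun p hp => (Q18_loc hT hS hμ hν hb hX hp).2).trans (le_of_eq ?_)
    rw [prod_div_distrib, prod_mul_distrib, prod_const, Q18_prodD hT, Q18_prodW hT]
  · refine le_trans (le_of_eq ?_) (prod_le_prod (fun p _ => ?_) fun p hp => (Q18_loc hT hS hμ hν hb hX hp).1)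
    · rw [prod_div_distrib, prod_const_one, prod_mul_distrib, prod_mul_distrib, prod_const, prod_pow, Q18_prodD hT, Q18_prodW hT]
    · refine div_nonneg zero_le_one (mul_nonneg (mul_nonneg zero_le_two (pow_nonneg ?_ _)) (pow_nonneg (Nat.cast_nonneg _) _))
      split_ifs
      · exact Nat.cast_nonneg _
      · exact zero_le_one

theorem Q18_Pb (hT : T.OK W0) (hS : S.OK3 T W0 Z) (hμ : μ ∈ S.MX) (hν : ν ∈ S.MY) (hb : ¬ S.badpair T 0 T.y0 μ ν) (hX : IsCoprime X (W0 : ℤ)) :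
    ∑ d ∈ T.PS.powerset, S.Pb T μ ν X d ≤
      (∏ p ∈ T.PS, (1 + 8 * ((S.k + 1 : ℕ) : ℝ) / p)) * (2 ^ T.base.card * (2 ^ T.base.card * W0 / T.D)) := by
  have h1 := Q13_one T.PS T.base (fun p B => lav T S.k p (ycl T p X) B (aq _ μ.1) (aq _ ν.1)) (fun p B => Q18_lav0 _ _ _ _ _ _ _)
    (fun p hp => Q14_one hp _ _ _) (fun p => 1 + 8 * ((S.k + 1 : ℕ) : ℝ) / p)
    (fun p => lav T S.k p (ycl T p X) False (aq _ μ.1) (aq _ ν.1)) (by
      intro p hp hpb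
      beta_reduce
      have e4 := Q14_bad hT (Q18_p0 hS) hp (Q14_good hT hS hμ hν hb hp) (ycl T p X)
      rw [Q14_one hpb, mul_one] at e4
      rw [Q14_one hpb]
      linarith) (fun p _ B _ => Q18_lavF _ _ _ _ _ _ _)
  unfold MS.Pb
  refine h1.trans ?_
  have hpr0 : 0 ≤ ∏ p ∈ T.base, lav T S.k p (ycl T p X) False (aq _ μ.1) (aq _ ν.1) := prod_nonneg fun p _ => Q18_lav0 _ _ _ _ _ _ _
  refine mul_le_mul (Q18_sub _ _ _ fun p _ => Q18_A1 8 (by norm_num) p)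
    (mul_le_mul_of_nonneg_left (Q18_base hT hS hμ hν hb hX).1 (by positivity)) (mul_nonneg (by positivity) hpr0) ?_
  exact prod_nonneg fun p _ => zero_le_one.trans (Q18_A1 8 (by norm_num) p)

end Pool.Agent.Lib.T3
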