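import Pool.Agent.Lib.MP_7b7e48_nt.T3.D3
import Pool.Agent.Lib.MP_7b7e48_nt.TC.QAx
import Pool.Agent.Lib.MP_7b7e48_nt.T3.Q07

/-!
# QAx: the averages `ax` with respect to different moduli (auxiliary module for Q21, Q22)

`ax q G` is the average over the classes modulo `q`; for a function which is periodic modulo `q` it does not change when `q` is replaced by a multiple.
-/

set_option autoImplicit false

open Finset

namespace Pool.Agent.Lib.T3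

open Pool.Agent.Lib.TC

variable {S : MS} {T : Dat} {W0 : ℕ} {Z : Fin (S.k + 1) → ℕ} {M : Msr S} {δ0 δ1 : ℝ} {q Q : ℕ}

theorem QAx_le (hM : M.OK3 T W0 δ0 δ1) (hq1 : Squarefree q) (hq2 : ∀ p : ℕ, p.Prime → p ∣ q → p ≤ T.y0 ∧ (p ∣ W0 ∨ ¬ p ∣ T.N))
    {G : ℤ → ℝ} {C : ℝ} (h : ∀ x, G x ≤ C) : M.ax q G ≤ C := by
  have h1 : M.ax q G ≤ M.ax q (fun _ => C * 1) := QAx_mono (Q07_nonneg hM hq1 hq2) fun x => by rw [mul_one]; exact h x
  rw [QAx_mul q C (fun _ => 1), Q07_one hM hq1 hq2, mul_one] at h1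
  exact h1

theorem QAx_ext (hM : M.OK3 T W0 δ0 δ1) (hQ1 : Squarefree Q) (hQ2 : ∀ p : ℕ, p.Prime → p ∣ Q → p ≤ T.y0 ∧ (p ∣ W0 ∨ ¬ p ∣ T.N))
    (hqQ : q ∣ Q) (G : ℤ → ℝ) (hG : ∀ x x' : ℤ, x ≡ x' [ZMOD q] → G x = G x') : M.ax q G = M.ax Q G := by
  classical
  obtain ⟨q', rfl⟩ := hqQ
  have hco : q.Coprime q' := Nat.coprime_of_squarefree_mul hQ1
  have hq1 : Squarefree q := hQ1.of_mul_left
  have hq1' : Squarefree q' := hQ1.of_mul_right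
  have hq : q ≠ 0 := hq1.ne_zero
  have hq' : q' ≠ 0 := hq1'.ne_zero
  have hgq : M.gq (q * q') = M.gq q * M.gq q' := by
    unfold Msr.gq
    rw [hco.primeFactors_mul, prod_union hco.disjoint_primeFactors]
  have h1 : M.ax q' (fun _ => 1) = 1 := Q07_one hM hq1' (fun p hp hpq => hQ2 p hp (hpq.mul_left q))
  rw [QAx_eq, QAx_eq, hgq]
  rw [QAx_eq] at h1
  have hgcd : ∀ {a b m : ℕ}, a ≡ b [MOD m] → (a.Coprime m ↔ b.Coprime m) := by
    intro a b m h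
    rw [Nat.coprime_iff_gcd_eq_one, Nat.coprime_iff_gcd_eq_one, h.gcd_eq]
  have h2 : ∑ r ∈ (range (q * q')).filter (fun r => M.t2 → r.Coprime (q * q')), G (M.xr r) =
      ∑ z ∈ ((range q).filter (fun r => M.t2 → r.Coprime q)) ×ˢ ((range q').filter (fun r => M.t2 → r.Coprime q')),
        G (M.xr z.1) := by
    refine sum_nbij' (fun r => (r % q, r % q')) (fun z => (Nat.chineseRemainder hco z.1 z.2 : ℕ)) ?_ ?_ ?_ ?_ ?_
    · intro r hr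
      obtain ⟨hr1, hr2⟩ := mem_filter.1 hr
      rw [mem_product, mem_filter, mem_filter, mem_range, mem_range]
      refine ⟨⟨Nat.mod_lt _ (Nat.pos_of_ne_zero hq), fun ht => ?_⟩, ⟨Nat.mod_lt _ (Nat.pos_of_ne_zero hq'), fun ht => ?_⟩⟩
      · exact (hgcd (Nat.mod_modEq r q)).2 (Nat.Coprime.coprime_mul_right_right (hr2 ht))
      · exact (hgcd (Nat.mod_modEq r q')).2 (Nat.Coprime.coprime_mul_left_right (hr2 ht))
    · rintro ⟨a, b⟩ hz
      rw [mem_product, mem_filter, mem_filter] at hz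
      obtain ⟨⟨ha1, ha2⟩, hb1, hb2⟩ := hz
      rw [mem_filter, mem_range]
      refine ⟨Nat.chineseRemainder_lt_mul hco a b hq hq', fun ht => ?_⟩
      have hk := (Nat.chineseRemainder hco a b).2
      exact Nat.Coprime.mul_right ((hgcd hk.1).2 (ha2 ht)) ((hgcd hk.2).2 (hb2 ht))
    · intro r hr
      have hr1 := mem_range.1 (mem_filter.1 hr).1
      have hk := (Nat.chineseRemainder hco (r % q) (r % q')).2
      have h3 : (Nat.chineseRemainder hco (r % q) (r % q') : ℕ) ≡ r [MOD q * q'] :=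
        (Nat.modEq_and_modEq_iff_modEq_mul hco).1 ⟨hk.1.trans (Nat.mod_modEq r q), hk.2.trans (Nat.mod_modEq r q')⟩
      exact Nat.ModEq.eq_of_lt_of_lt h3 (Nat.chineseRemainder_lt_mul hco _ _ hq hq') hr1
    · rintro ⟨a, b⟩ hz
      rw [mem_product, mem_filter, mem_filter, mem_range, mem_range] at hz
      obtain ⟨⟨ha1, -⟩, hb1, -⟩ := hz
      have hk := (Nat.chineseRemainder hco a b).2
      have h3 : (Nat.chineseRemainder hco a b : ℕ) % q = a % q := hk.1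
      have h4 : (Nat.chineseRemainder hco a b : ℕ) % q' = b % q' := hk.2
      rw [Nat.mod_eq_of_lt ha1] at h3
      rw [Nat.mod_eq_of_lt hb1] at h4
      show ((Nat.chineseRemainder hco a b : ℕ) % q, (Nat.chineseRemainder hco a b : ℕ) % q') = (a, b)
      rw [h3, h4]
    · intro r _
      apply hG
      unfold Msr.xr
      apply Int.ModEq.add_right
      apply Int.ModEq.mul_left
      rw [Int.natCast_modEq_iff]
      exact (Nat.mod_modEq r q).symm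
  rw [h2, sum_product]
  have h3 : ∀ a ∈ (range q).filter (fun r => M.t2 → r.Coprime q),
      ∑ b ∈ (range q').filter (fun r => M.t2 → r.Coprime q'), G (M.xr (a, b).1) =
        (∑ b ∈ (range q').filter (fun r => M.t2 → r.Coprime q'), (1 : ℝ)) * G (M.xr a) := by
    intro a _
    rw [sum_mul]
    exact sum_congr rfl fun b _ => by rw [one_mul]
  rw [sum_congr rfl h3, ← mul_sum]
  calc M.gq q * ∑ r ∈ (range q).filter (fun r => M.t2 → r.Coprime q), G (M.xr r) =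
      (M.gq q' * ∑ b ∈ (range q').filter (fun r => M.t2 → r.Coprime q'), (1 : ℝ)) *
        (M.gq q * ∑ r ∈ (range q).filter (fun r => M.t2 → r.Coprime q), G (M.xr r)) := by rw [h1, one_mul]
    _ = _ := by ring

/-- a sum of averages with respect to different moduli -/
theorem QAx_sumle (hM : M.OK3 T W0 δ0 δ1) (hQ1 : Squarefree Q) (hQ2 : ∀ p : ℕ, p.Prime → p ∣ Q → p ≤ T.y0 ∧ (p ∣ W0 ∨ ¬ p ∣ T.N))
    {ι : Type*} (s : Finset ι) (q : ι → ℕ) (hq : ∀ i ∈ s, q i ∣ Q) (K : ι → ℤ → ℝ)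
    (hK : ∀ i ∈ s, ∀ x x' : ℤ, x ≡ x' [ZMOD q i] → K i x = K i x') {B : ℝ} (hB : ∀ x, ∑ i ∈ s, K i x ≤ B) :
    ∑ i ∈ s, M.ax (q i) (K i) ≤ B := by
  have h1 : ∑ i ∈ s, M.ax (q i) (K i) = M.ax Q (fun x => ∑ i ∈ s, K i x) := by
    rw [QAx_sum]
    exact sum_congr rfl fun i hi => QAx_ext hM hQ1 hQ2 (hq i hi) (K i) (hK i hi)
  rw [h1]
  exact QAx_le hM hQ1 hQ2 hB

/-! ### signs and sizes -/

theorem QAx_memX (hS : S.OK3 T W0 Z) {μ : S.TX} (hμ : μ ∈ S.MX) :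
    (∀ i, (μ.1 i).Prime) ∧ (∀ f, (μ.2.1 f).Prime) ∧ ∀ e, (μ.2.2 e).Prime := by
  unfold MS.MX at hμ
  rw [mem_product, mem_product, Fintype.mem_piFinset, Fintype.mem_piFinset, Fintype.mem_piFinset] at hμ
  exact ⟨fun i => (hS.WX_mem i _ (hμ.1 i)).1, fun f => (hS.FX_mem f _ (hμ.2.1 f)).1, fun e => (hS.OX_mem e _ (hμ.2.2 e)).1⟩

/-- the elements of the windows of `Y` need not be primes -/
theorem QAx_memY (hS : S.OK3 T W0 Z) {ν : S.TY} (hν : ν ∈ S.MY) :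
    (∀ i, ν.1 i ∈ S.WY i) ∧ (∀ f, (ν.2.1 f).Prime) ∧ ∀ e, (ν.2.2 e).Prime := by
  unfold MS.MY at hν
  rw [mem_product, mem_product, Fintype.mem_piFinset, Fintype.mem_piFinset, Fintype.mem_piFinset] at hν
  exact ⟨fun i => hν.1 i, fun f => (hS.FY_mem f _ (hν.2.1 f)).1, fun e => (hS.OY_mem e _ (hν.2.2 e)).1⟩

theorem QAx_m1 (hS : S.OK3 T W0 Z) (hM : M.OK3 T W0 δ0 δ1) {μ : S.TX} {ν : S.TY} (hμ : μ ∈ S.MX) (hν : ν ∈ S.MY) : 0 ≤ M.m1 μ ν := by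
  obtain ⟨a1, a2, a3⟩ := QAx_memX hS hμ
  obtain ⟨b1, b2, b3⟩ := QAx_memY hS hν
  unfold Msr.m1 MS.prX MS.prY
  refine mul_nonneg (mul_nonneg (mul_nonneg ?_ ?_) ?_) (mul_nonneg (mul_nonneg ?_ ?_) ?_)
  · exact prod_nonneg fun i _ => (hM.hX_nonneg _ (a1 i)).1
  · exact prod_nonneg fun i _ => (hM.hX_nonneg _ (a2 i)).1
  · exact prod_nonneg fun i _ => (hM.hX_nonneg _ (a3 i)).1
  · exact prod_nonneg fun i _ => (hM.hY_win i _ (b1 i)).1
  · exact prod_nonneg fun i _ => (hM.hY_nonneg _ (b2 i)).1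
  · exact prod_nonneg fun i _ => (hM.hY_nonneg _ (b3 i)).1

/-- replacing the sums over `n` by averages -/
theorem QAx_first (hT : T.OK W0) (hS : S.OK3 T W0 Z) (hM : M.OK3 T W0 δ0 δ1) (hq1 : Squarefree q)
    (hq2 : ∀ p : ℕ, p.Prime → p ∣ q → p ≤ T.y0 ∧ (p ∣ W0 ∨ ¬ p ∣ T.N)) (hq3 : (q : ℝ) ≤ (T.N : ℝ) ^ δ0)
    (G : S.TX → S.TY → ℤ → ℝ) (hG : ∀ μ ν, ∀ x x' : ℤ, x ≡ x' [ZMOD q] → G μ ν x = G μ ν x') (hG1 : ∀ μ ν x, |G μ ν x| ≤ 1) :
    |∑ μ ∈ S.MX, ∑ ν ∈ S.MY, ind (M.gp T μ ν) * ∑ n ∈ range (M.nm + 1), M.Om μ ν n * G μ ν (M.X μ ν n) -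
      M.W * M.ax q (fun x => ∑ μ ∈ S.MX, ∑ ν ∈ S.MY, M.m1 μ ν * (ind (M.gp T μ ν) * G μ ν x))| ≤
      (S.MX.card : ℝ) * S.MY.card * ((T.N : ℝ) ^ (-δ1) * M.W * q) := by
  have h1 : M.W * M.ax q (fun x => ∑ μ ∈ S.MX, ∑ ν ∈ S.MY, M.m1 μ ν * (ind (M.gp T μ ν) * G μ ν x)) =
      ∑ μ ∈ S.MX, ∑ ν ∈ S.MY, ind (M.gp T μ ν) * (M.ms μ ν * M.ax q (G μ ν)) := by
    rw [QAx_sum, mul_sum]
    refine sum_congr rfl fun μ _ => ?_
    rw [QAx_sum, mul_sum]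
    refine sum_congr rfl fun ν _ => ?_
    have h2 : M.ax q (fun x => M.m1 μ ν * (ind (M.gp T μ ν) * G μ ν x)) =
        M.ax q (fun x => (M.m1 μ ν * ind (M.gp T μ ν)) * G μ ν x) := by
      congr 1
      funext x
      ring
    rw [h2, QAx_mul]
    unfold Msr.ms
    ring
  rw [h1, ← sum_sub_distrib]
  have hE : 0 ≤ (T.N : ℝ) ^ (-δ1) * M.W * q := mul_nonneg (mul_nonneg (Real.rpow_nonneg (Nat.cast_nonneg _) _) hM.W_pos.le) (Nat.cast_nonneg _)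
  have h3 : ∀ μ ∈ S.MX, |∑ ν ∈ S.MY, ind (M.gp T μ ν) * ∑ n ∈ range (M.nm + 1), M.Om μ ν n * G μ ν (M.X μ ν n) -
      ∑ ν ∈ S.MY, ind (M.gp T μ ν) * (M.ms μ ν * M.ax q (G μ ν))| ≤ S.MY.card * ((T.N : ℝ) ^ (-δ1) * M.W * q) := by
    intro μ hμ
    rw [← sum_sub_distrib]
    refine (abs_sum_le_sum_abs _ _).trans ?_
    rw [← nsmul_eq_mul]
    refine sum_le_card_nsmul _ _ _ fun ν hν => ?_
    by_cases h4 : M.gp T μ ν
    · rw [ind_true h4, one_mul, one_mul]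
      have h5 := Q07a hT hS hM hμ hν h4.1 hq1 hq2 hq3 (G μ ν) (hG μ ν) 1 (hG1 μ ν)
      rw [mul_one] at h5
      exact h5
    · rw [ind_false h4, zero_mul, zero_mul, sub_zero, abs_zero]
      exact hE
  refine (abs_sum_le_sum_abs _ _).trans ?_
  rw [mul_assoc, ← nsmul_eq_mul]
  exact sum_le_card_nsmul _ _ _ h3

end Pool.Agent.Lib.T3
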