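import Pool.Agent.Lib.MP_7b7e48_nt.T3.D3
import Pool.Agent.Lib.MP_7b7e48_nt.T3.Q07
import Pool.Agent.Lib.MP_7b7e48_nt.T3.QAx
import Pool.Agent.Lib.MP_7b7e48_nt.TC.Q07

/-!
# P05: sums over `n` and `n'` of functions of `X`, `X'` modulo `q`

`q` squarefree, all its primes `≤ y0` and dividing `W0` or not dividing `N`. `S2` is the double sum divided by `m1'`; `ms = W m1`, `ms' = W' m1'`; `V` is an upper bound for `1/m1'` (`hV`).
In the double sum group `n`, `n'` by their classes `r`, `r'` modulo `q` (as in the proof of `Q07a`; `T3.Q07_tau`: the factor `τ` of `n` may be dropped for each variable separately: apply the bijection `r ↦ τ r % q` to the `r`-sum for every fixed `r'`);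
the classes which are not coprime to `q` are empty in type 2. The weight of a class is `ms gq + e`, `|e| ≤ ε = N^(-δ1) W`, for the second variable `ms' gq' + e'`, `|e'| ≤ ε' = N^(-δ1) W'`.
* `P05a`: `|cl cl' - ms gq ms' gq'| ≤ ms gq ε' + ms' gq' ε + ε ε'`; sum over at most `q²` pairs of classes (`gq, gq' ≤ 1`, `m1 ≤ 1`, `N^(-δ1) ≤ 1`): error `≤ 4 C q² N^(-δ1) W W' / m1'` (or apply `Q07a` twice, first to the sum over `n'` for fixed `n`, then to the sum over `n`).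
* `P05b`: with factors `Ψ n`, `Ψ' n'`: class sums bounded by `ms gq Θ + ε1`, `ms' gq' Θ' + ε1'`; `|..| ≤ Θ Θ' W W' m1 ax2 G + C q² V (W m1 Θ ε1' + W' m1' Θ' ε1 + ε1 ε1')` (`m1, m1' ≤ 1`).
* `P05_ax`: `0 ≤ G ≤ C` implies `0 ≤ ax2 G ≤ C` (`Q07_one` for `M` and `M'`).
-/

set_option autoImplicit false

open Finset

namespace Pool.Agent.Lib.T3

open Pool.Agent.Lib.TC

variable {S : MS} {T : Dat} {W0 : ℕ} {Z : Fin (S.k + 1) → ℕ} {M M' : Msr S} {δ0 δ1 : ℝ} {μ : S.TX} {ν : S.TY} {q : ℕ}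

private theorem P05_cop_of (hq2 : ∀ p : ℕ, p.Prime → p ∣ q → p ≤ T.y0 ∧ (p ∣ W0 ∨ ¬ p ∣ T.N)) {l : ℕ} (hl : l.Prime) (h : T.y0 < l) :
    l.Coprime q := by
  rw [Nat.Prime.coprime_iff_not_dvd hl]
  intro hd
  exact absurd (hq2 l hl hd).1 (not_le.2 h)

private theorem P05_z (hT : T.OK W0) (hS : S.OK3 T W0 Z) (i : Fin (S.k + 1)) : T.y0 < Z i := by
  have h1 := hS.Z_lo i
  have h2 := hT.y0_lt
  calc T.y0 < T.z := h2
    _ ≤ T.z ^ 2 := Nat.le_self_pow (by norm_num) _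
    _ ≤ Z i := h1

private theorem P05_copX (hT : T.OK W0) (hS : S.OK3 T W0 Z) (hμ : μ ∈ S.MX)
    (hq2 : ∀ p : ℕ, p.Prime → p ∣ q → p ≤ T.y0 ∧ (p ∣ W0 ∨ ¬ p ∣ T.N)) : (S.prX id μ).Coprime q := by
  simp only [MS.MX, mem_product, Fintype.mem_piFinset] at hμ
  obtain ⟨h1, h2, h3⟩ := hμ
  unfold MS.prX
  refine Nat.Coprime.mul_left (Nat.Coprime.mul_left ?_ ?_) ?_
  · apply Nat.Coprime.prod_left
    intro i _
    obtain ⟨a, _, b, _⟩ := hS.WX_mem i _ (h1 i)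
    have := P05_z hT hS i
    exact P05_cop_of hq2 a (by simp only [id]; omega)
  · apply Nat.Coprime.prod_left
    intro i _
    obtain ⟨a, _, b, _⟩ := hS.FX_mem i _ (h2 i)
    exact P05_cop_of hq2 a b
  · apply Nat.Coprime.prod_left
    intro i _
    obtain ⟨a, _, b, _⟩ := hS.OX_mem i _ (h3 i)
    exact P05_cop_of hq2 a b

private theorem P05_copY (hT : T.OK W0) (hS : S.OK3 T W0 Z) (hν : ν ∈ S.MY)
    (hq2 : ∀ p : ℕ, p.Prime → p ∣ q → p ≤ T.y0 ∧ (p ∣ W0 ∨ ¬ p ∣ T.N)) : (S.prY id ν).Coprime q := by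
  simp only [MS.MY, mem_product, Fintype.mem_piFinset] at hν
  obtain ⟨h1, h2, h3⟩ := hν
  unfold MS.prY
  refine Nat.Coprime.mul_left (Nat.Coprime.mul_left ?_ ?_) ?_
  · apply Nat.Coprime.prod_left
    intro i _
    simp only [id]
    by_contra hnc
    obtain ⟨p, hp, hpl, hpq⟩ := Nat.Prime.not_coprime_iff_dvd.1 hnc
    have hb := hS.WY_big i _ (h1 i) p hp hpl
    have hz := hT.y0_lt
    have hy := (hq2 p hp hpq).1
    omega
  · apply Nat.Coprime.prod_left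
    intro i _
    obtain ⟨a, _, b, _⟩ := hS.FY_mem i _ (h2 i)
    exact P05_cop_of hq2 a b
  · apply Nat.Coprime.prod_left
    intro i _
    obtain ⟨a, _, b, _⟩ := hS.OY_mem i _ (h3 i)
    exact P05_cop_of hq2 a b

private theorem P05_ctau (hT : T.OK W0) (hS : S.OK3 T W0 Z) (hM : M.OK3 T W0 δ0 δ1) (hμ : μ ∈ S.MX) (hν : ν ∈ S.MY)
    (hq2 : ∀ p : ℕ, p.Prime → p ∣ q → p ≤ T.y0 ∧ (p ∣ W0 ∨ ¬ p ∣ T.N)) : (M.tau μ ν).Coprime q := by
  rcases hM.tau_cases with h | h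
  · rw [h.1]
    exact P05_copX hT hS hμ hq2
  · rw [h.1]
    exact P05_copY hT hS hν hq2

private theorem P05_tau (hT : T.OK W0) (hS : S.OK3 T W0 Z) (hM : M.OK3 T W0 δ0 δ1) (hμ : μ ∈ S.MX) (hν : ν ∈ S.MY)
    (hq1 : Squarefree q) (hq2 : ∀ p : ℕ, p.Prime → p ∣ q → p ≤ T.y0 ∧ (p ∣ W0 ∨ ¬ p ∣ T.N))
    (P : ℕ → Prop) [DecidablePred P] (hP : ∀ r, P r ↔ (M.t2 → r.Coprime q))
    (G : ℤ → ℝ) (hG : ∀ x x' : ℤ, x ≡ x' [ZMOD q] → G x = G x') :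
    ∑ r ∈ (range q).filter P, G (M.v * (M.tau μ ν * r : ℕ) + M.x0) = ∑ r ∈ (range q).filter P, G (M.xr r) := by
  have hq : 0 < q := Nat.pos_of_ne_zero hq1.ne_zero
  have hc : (M.tau μ ν).Coprime q := P05_ctau hT hS hM hμ hν hq2
  set τ := M.tau μ ν with hτ
  have hinj : Set.InjOn (fun r => τ * r % q) ((range q).filter P : Finset ℕ) := by
    intro a ha b hb hab
    simp only [coe_filter, mem_range, Set.mem_ofPred_eq] at ha hb
    have h1 : τ * a ≡ τ * b [MOD q] := hab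
    have h2 : a ≡ b [MOD q] := Nat.ModEq.cancel_left_of_coprime (by rw [Nat.gcd_comm]; exact hc) h1
    exact Nat.ModEq.eq_of_lt_of_lt h2 ha.1 hb.1
  have hmaps : ∀ r ∈ (range q).filter P, τ * r % q ∈ (range q).filter P := by
    intro r hr
    simp only [mem_filter, mem_range] at hr ⊢
    refine ⟨Nat.mod_lt _ hq, ?_⟩
    rw [hP]
    intro ht
    have h1 : r.Coprime q := (hP r).1 hr.2 ht
    have h2 : (τ * r).Coprime q := Nat.Coprime.mul_left hc h1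
    unfold Nat.Coprime at h2 ⊢
    rw [← h2]
    exact (Nat.mod_modEq (τ * r) q).gcd_eq
  have himg : ((range q).filter P).image (fun r => τ * r % q) = (range q).filter P := by
    apply eq_of_subset_of_card_le
    · intro x hx
      obtain ⟨r, hr, rfl⟩ := mem_image.1 hx
      exact hmaps r hr
    · rw [card_image_of_injOn hinj]
  conv_rhs => rw [← himg]
  rw [sum_image hinj]
  apply sum_congr rfl
  intro r _
  apply hG
  unfold Msr.xr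
  apply Int.ModEq.add_right
  apply Int.ModEq.mul_left
  rw [Int.natCast_modEq_iff]
  exact (Nat.mod_modEq (τ * r) q).symm

private theorem P05_split (hM : M.OK3 T W0 δ0 δ1)
    (hq1 : Squarefree q) (hq2 : ∀ p : ℕ, p.Prime → p ∣ q → p ≤ T.y0 ∧ (p ∣ W0 ∨ ¬ p ∣ T.N))
    (P : ℕ → Prop) [DecidablePred P] (hP : ∀ r, P r ↔ (M.t2 → r.Coprime q))
    (G : ℤ → ℝ) (hG : ∀ x x' : ℤ, x ≡ x' [ZMOD q] → G x = G x') (Ψ : ℕ → ℝ) :
    ∑ n ∈ range (M.nm + 1), M.Om μ ν n * G (M.X μ ν n) * Ψ n =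
      ∑ r ∈ (range q).filter P, G (M.v * (M.tau μ ν * r : ℕ) + M.x0) *
        ∑ n ∈ (range (M.nm + 1)).filter (fun n => n ≡ r [MOD q]), M.Om μ ν n * Ψ n := by
  have hq : 0 < q := Nat.pos_of_ne_zero hq1.ne_zero
  have h1 : ∑ n ∈ range (M.nm + 1), M.Om μ ν n * G (M.X μ ν n) * Ψ n =
      ∑ r ∈ range q, ∑ n ∈ (range (M.nm + 1)).filter (fun n => n % q = r), M.Om μ ν n * G (M.X μ ν n) * Ψ n := by
    symm
    apply sum_fiberwise_of_maps_to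
    intro n _
    exact mem_range.2 (Nat.mod_lt _ hq)
  rw [h1]
  have h2 : ∀ r ∈ range q, ∑ n ∈ (range (M.nm + 1)).filter (fun n => n % q = r), M.Om μ ν n * G (M.X μ ν n) * Ψ n =
      G (M.v * (M.tau μ ν * r : ℕ) + M.x0) *
        ∑ n ∈ (range (M.nm + 1)).filter (fun n => n ≡ r [MOD q]), M.Om μ ν n * Ψ n := by
    intro r hr
    have hr' : r % q = r := Nat.mod_eq_of_lt (mem_range.1 hr)
    have h3 : (range (M.nm + 1)).filter (fun n => n ≡ r [MOD q]) = (range (M.nm + 1)).filter (fun n => n % q = r) := by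
      apply filter_congr
      intro n _
      unfold Nat.ModEq
      rw [hr']
    rw [h3, mul_sum]
    apply sum_congr rfl
    intro n hn
    by_cases hO : M.Om μ ν n = 0
    · rw [hO]
      ring
    · have h4 : G (M.X μ ν n) = G (M.v * (M.tau μ ν * r : ℕ) + M.x0) := by
        apply hG
        rw [hM.X_eq μ ν n hO]
        apply Int.ModEq.add_right
        rw [mul_assoc]
        apply Int.ModEq.mul_left
        push_cast
        apply Int.ModEq.mul_left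
        rw [Int.natCast_modEq_iff]
        have := (mem_filter.1 hn).2
        unfold Nat.ModEq
        rw [this, hr']
      rw [h4]
      ring
  rw [sum_congr rfl h2]
  symm
  apply sum_subset (filter_subset _ _)
  intro r hr hnr
  have h5 : ¬ P r := fun h => hnr (mem_filter.2 ⟨hr, h⟩)
  rw [hP] at h5
  push Not at h5
  obtain ⟨ht, hcop⟩ := h5
  obtain ⟨p, hp, hpr, hpq⟩ := Nat.Prime.not_coprime_iff_dvd.1 hcop
  have h6 : ∑ n ∈ (range (M.nm + 1)).filter (fun n => n ≡ r [MOD q]), M.Om μ ν n * Ψ n = 0 := by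
    apply sum_eq_zero
    intro n hn
    by_cases hO : M.Om μ ν n = 0
    · rw [hO, zero_mul]
    · exfalso
      refine hM.t2_small ht μ ν n hO p hp (hq2 p hp hpq).1 ?_
      have h7 : n ≡ r [MOD p] := Nat.ModEq.of_dvd hpq (mem_filter.1 hn).2
      exact (h7.dvd_iff (dvd_refl p)).2 hpr
  rw [h6, mul_zero]

private theorem P05_h {h x : ℝ} (hx : 3 ≤ x) (hh : |h - 1 / x| ≤ 2 / x ^ 2) : 0 < h ∧ h ≤ 1 := by
  have hx0 : 0 < x := by linarith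
  obtain ⟨h1, h2⟩ := abs_le.1 hh
  have h3 : 1 / x - 2 / x ^ 2 = (x - 2) / x ^ 2 := by field_simp
  have h4 : 0 < (x - 2) / x ^ 2 := div_pos (by linarith) (by positivity)
  have h5 : 1 / x ≤ 1 / 3 := one_div_le_one_div_of_le (by norm_num) hx
  have h6 : 2 / x ^ 2 ≤ 2 / 9 := by
    apply div_le_div_of_nonneg_left (by norm_num) (by norm_num)
    nlinarith
  constructor <;> linarith

private theorem P05_hw {h x y : ℝ} (hx : 3 ≤ x) (hy : 3 ≤ y) (hh : |h - 1 / x| ≤ 2 / (x * y)) : 0 < h ∧ h ≤ 1 := by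
  have hx0 : 0 < x := by linarith
  have hy0 : 0 < y := by linarith
  obtain ⟨h1, h2⟩ := abs_le.1 hh
  have h3 : 1 / x - 2 / (x * y) = (y - 2) / (x * y) := by field_simp
  have h4 : 0 < (y - 2) / (x * y) := div_pos (by linarith) (by positivity)
  have h5 : 1 / x ≤ 1 / 3 := one_div_le_one_div_of_le (by norm_num) hx
  have h6 : 2 / (x * y) ≤ 2 / 9 := by
    apply div_le_div_of_nonneg_left (by norm_num) (by norm_num)
    nlinarith
  constructor <;> linarith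

private theorem P05_pr {ι : Type*} [Fintype ι] {f : ι → ℝ} (h : ∀ i, 0 < f i ∧ f i ≤ 1) : 0 < ∏ i, f i ∧ ∏ i, f i ≤ 1 :=
  ⟨prod_pos fun i _ => (h i).1, prod_le_one (fun i _ => (h i).1.le) fun i _ => (h i).2⟩

private theorem P05_m2 {a b : ℝ} (ha : 0 < a ∧ a ≤ 1) (hb : 0 < b ∧ b ≤ 1) : 0 < a * b ∧ a * b ≤ 1 :=
  ⟨mul_pos ha.1 hb.1, mul_le_one₀ ha.2 hb.1.le hb.2⟩

/-- `0 < m1 ≤ 1` -/
theorem P05_m1 (hT : T.OK W0) (hS : S.OK3 T W0 Z) (hM : M.OK3 T W0 δ0 δ1) (hμ : μ ∈ S.MX) (hν : ν ∈ S.MY) : 0 < M.m1 μ ν ∧ M.m1 μ ν ≤ 1 := by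
  have hy0 : 3 ≤ T.y0 := by
    have h1 := hS.p0_lo
    have h2 := hT.p0_le
    have h3 := hT.y_le
    have h4 : 1 ≤ (S.k + 1) ^ 2 := Nat.one_le_pow _ _ (Nat.succ_pos _)
    omega
  have hy0r : (3 : ℝ) ≤ T.y0 := by exact_mod_cast hy0
  simp only [MS.MX, mem_product, Fintype.mem_piFinset] at hμ
  simp only [MS.MY, mem_product, Fintype.mem_piFinset] at hν
  obtain ⟨u1, u2, u3⟩ := hμ
  obtain ⟨w1, w2, w3⟩ := hν
  have hXp : ∀ l : ℕ, l.Prime → T.y0 < l → 0 < M.hX l ∧ M.hX l ≤ 1 := fun l hl hl2 =>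
    P05_h (by exact_mod_cast (hy0.trans hl2.le)) (hM.hX_nonneg l hl).2
  have hYp : ∀ l : ℕ, l.Prime → T.y0 < l → 0 < M.hY l ∧ M.hY l ≤ 1 := fun l hl hl2 =>
    P05_h (by exact_mod_cast (hy0.trans hl2.le)) (hM.hY_nonneg l hl).2
  unfold Msr.m1 MS.prX MS.prY
  refine P05_m2 (P05_m2 (P05_m2 (P05_pr fun i => ?_) (P05_pr fun i => ?_)) (P05_pr fun i => ?_))
    (P05_m2 (P05_m2 (P05_pr fun i => ?_) (P05_pr fun i => ?_)) (P05_pr fun i => ?_))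
  · obtain ⟨a, _, b, _⟩ := hS.WX_mem i _ (u1 i)
    have := P05_z hT hS i
    exact hXp _ a (by omega)
  · obtain ⟨a, _, b, _⟩ := hS.FX_mem i _ (u2 i)
    exact hXp _ a b
  · obtain ⟨a, _, b, _⟩ := hS.OX_mem i _ (u3 i)
    exact hXp _ a b
  · obtain ⟨_, _, b, _⟩ := hS.WY_mem i _ (w1 i)
    have h1 := P05_z hT hS i
    have h2 : 3 ≤ ν.1 i := by omega
    exact P05_hw (by exact_mod_cast h2) hy0r (hM.hY_win i _ (w1 i)).2
  · obtain ⟨a, _, b, _⟩ := hS.FY_mem i _ (w2 i)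
    exact hYp _ a b
  · obtain ⟨a, _, b, _⟩ := hS.OY_mem i _ (w3 i)
    exact hYp _ a b

private theorem P05_eq (M M' : Msr S) (q : ℕ) (G : ℤ → ℤ → ℝ) :
    M.ax2 M' q G = M.ax q (fun x => M'.ax q (fun x' => G x x')) := by
  classical
  unfold Msr.ax2 Msr.ax
  refine sum_congr rfl fun r _ => ?_
  rw [mul_sum]
  exact sum_congr rfl fun r' _ => mul_assoc _ _ _

theorem P05_ax (hM : M.OK3 T W0 δ0 δ1) (hM' : M'.OK3 T W0 δ0 δ1) (hq1 : Squarefree q) (hq2 : ∀ p : ℕ, p.Prime → p ∣ q → p ≤ T.y0 ∧ (p ∣ W0 ∨ ¬ p ∣ T.N))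
    {G : ℤ → ℤ → ℝ} {C : ℝ} (hC : ∀ x x', |G x x'| ≤ C) : |M.ax2 M' q G| ≤ C := by
  rw [P05_eq]
  refine (QAx_abs (Q07_nonneg hM hq1 hq2) (G' := fun _ => C) fun x => ?_).trans (QAx_le hM hq1 hq2 fun _ => le_rfl)
  exact (QAx_abs (Q07_nonneg hM' hq1 hq2) (G' := fun _ => C) fun x' => hC x x').trans (QAx_le hM' hq1 hq2 fun _ => le_rfl)

theorem P05_ax_mono (hM : M.OK3 T W0 δ0 δ1) (hM' : M'.OK3 T W0 δ0 δ1) (hq1 : Squarefree q) (hq2 : ∀ p : ℕ, p.Prime → p ∣ q → p ≤ T.y0 ∧ (p ∣ W0 ∨ ¬ p ∣ T.N))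
    {G G' : ℤ → ℤ → ℝ} (h : ∀ x x', G x x' ≤ G' x x') : M.ax2 M' q G ≤ M.ax2 M' q G' := by
  rw [P05_eq, P05_eq]
  exact QAx_mono (Q07_nonneg hM hq1 hq2) fun x => QAx_mono (Q07_nonneg hM' hq1 hq2) fun x' => h x x'

theorem P05_ax_sum {ι : Type*} (s : Finset ι) (a : ι → ℝ) (G : ι → ℤ → ℤ → ℝ) :
    M.ax2 M' q (fun x x' => ∑ i ∈ s, a i * G i x x') = ∑ i ∈ s, a i * M.ax2 M' q (G i) := by
  simp only [P05_eq]
  have h1 : ∀ x : ℤ, M'.ax q (fun x' => ∑ i ∈ s, a i * G i x x') = ∑ i ∈ s, a i * M'.ax q (fun x' => G i x x') := by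
    intro x
    rw [QAx_sum]
    exact sum_congr rfl fun i _ => QAx_mul q (a i) _
  simp only [h1]
  rw [QAx_sum]
  exact sum_congr rfl fun i _ => QAx_mul q (a i) _

/-- a function periodic modulo `q` has the same average modulo a multiple of `q` -/
theorem P05_ax_ext (hM : M.OK3 T W0 δ0 δ1) (hM' : M'.OK3 T W0 δ0 δ1) {Q : ℕ} (hQ1 : Squarefree Q) (hQ2 : ∀ p : ℕ, p.Prime → p ∣ Q → p ≤ T.y0 ∧ (p ∣ W0 ∨ ¬ p ∣ T.N))
    (hqQ : q ∣ Q) (G : ℤ → ℤ → ℝ) (hG : ∀ x y x' y' : ℤ, x ≡ y [ZMOD q] → x' ≡ y' [ZMOD q] → G x x' = G y y') : M.ax2 M' q G = M.ax2 M' Q G := by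
  rw [P05_eq, P05_eq]
  have h1 : ∀ x : ℤ, M'.ax q (fun x' => G x x') = M'.ax Q (fun x' => G x x') := fun x =>
    QAx_ext hM' hQ1 hQ2 hqQ _ fun x' y' h => hG x x x' y' (Int.ModEq.refl x) h
  simp only [h1]
  refine QAx_ext hM hQ1 hQ2 hqQ _ fun x y h => ?_
  have h2 : (fun x' => G x x') = fun x' => G y x' := by
    funext x'
    exact hG x y x' x' h (Int.ModEq.refl x')
  show M'.ax Q (fun x' => G x x') = M'.ax Q (fun x' => G y x')
  rw [h2]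

private theorem P05_V {m V : ℝ} (h0 : 0 < m) (h1 : m ≤ 1) (hV : 1 ≤ V * m) : m⁻¹ ≤ V ∧ 1 ≤ V := by
  have h2 : 0 < V := by
    by_contra hn
    push Not at hn
    have : V * m ≤ 0 := mul_nonpos_of_nonpos_of_nonneg hn h0.le
    linarith
  constructor
  · rw [inv_le_iff_one_le_mul₀ h0]
    exact hV
  · calc (1 : ℝ) ≤ V * m := hV
      _ ≤ V * 1 := mul_le_mul_of_nonneg_left h1 h2.le
      _ = V := mul_one V

theorem P05a (hT : T.OK W0) (hS : S.OK3 T W0 Z) (hM : M.OK3 T W0 δ0 δ1) (hM' : M'.OK3 T W0 δ0 δ1) (hδ : 0 ≤ δ1) (hμ : μ ∈ S.MX) (hν : ν ∈ S.MY)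
    (hadm : M.adm μ ν) (hadm' : M'.adm μ ν)
    (hq1 : Squarefree q) (hq2 : ∀ p : ℕ, p.Prime → p ∣ q → p ≤ T.y0 ∧ (p ∣ W0 ∨ ¬ p ∣ T.N)) (hq3 : (q : ℝ) ≤ (T.N : ℝ) ^ δ0)
    (G : ℤ → ℤ → ℝ) (hG : ∀ x y x' y' : ℤ, x ≡ y [ZMOD q] → x' ≡ y' [ZMOD q] → G x x' = G y y') (C : ℝ) (hC : ∀ x x', |G x x'| ≤ C)
    {V : ℝ} (hV : 1 ≤ V * M'.m1 μ ν) :
    |M.S2 M' μ ν (fun n n' => G (M.X μ ν n) (M'.X μ ν n')) - M.W * M'.W * M.m1 μ ν * M.ax2 M' q G| ≤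
      4 * C * (q : ℝ) ^ 2 * ((T.N : ℝ) ^ (-δ1) * M.W * M'.W * V) := by
  obtain ⟨m0, m1⟩ := P05_m1 hT hS hM hμ hν
  obtain ⟨m0', m1'⟩ := P05_m1 hT hS hM' hμ hν
  obtain ⟨v1, v2⟩ := P05_V m0' m1' hV
  have hq : 0 < q := Nat.pos_of_ne_zero hq1.ne_zero
  have hqr : (1 : ℝ) ≤ q := by exact_mod_cast hq
  have hC0 : 0 ≤ C := le_trans (abs_nonneg _) (hC 0 0)
  obtain ⟨e, he⟩ : ∃ e : ℝ, e = (T.N : ℝ) ^ (-δ1) := ⟨_, rfl⟩
  have he0 : 0 ≤ e := by rw [he]; exact Real.rpow_nonneg (Nat.cast_nonneg _) _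
  have he1 : e ≤ 1 := by
    rw [he]
    apply Real.rpow_le_one_of_one_le_of_nonpos
    · have := hT.N_pos
      exact_mod_cast (by omega : 1 ≤ T.N)
    · linarith
  have hW := hM.W_pos
  have hW' := hM'.W_pos
  -- the inner average
  obtain ⟨F, hF⟩ : ∃ F : ℤ → ℝ, F = fun x => M'.ax q (fun x' => G x x') := ⟨_, rfl⟩
  have hFp : ∀ x y : ℤ, x ≡ y [ZMOD q] → F x = F y := by
    intro x y h
    have h2 : (fun x' => G x x') = fun x' => G y x' := by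
      funext x'
      exact hG x y x' x' h (Int.ModEq.refl x')
    rw [hF]
    show M'.ax q (fun x' => G x x') = M'.ax q (fun x' => G y x')
    rw [h2]
  have hFb : ∀ x, |F x| ≤ C := by
    intro x
    rw [hF]
    exact (QAx_abs (Q07_nonneg hM' hq1 hq2) (G' := fun _ => C) fun x' => hC x x').trans (QAx_le hM' hq1 hq2 fun _ => le_rfl)
  have hin : ∀ x : ℤ, |∑ n' ∈ range (M'.nm + 1), M'.Om μ ν n' * G x (M'.X μ ν n') - M'.ms μ ν * F x| ≤ e * M'.W * q * C := by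
    intro x
    have h := Q07a hT hS hM' hμ hν hadm' hq1 hq2 hq3 (fun x' => G x x') (fun x' y' h => hG x x x' y' (Int.ModEq.refl x) h) C (fun x' => hC x x')
    rw [← he] at h
    rw [hF]
    exact h
  have hout := Q07a hT hS hM hμ hν hadm hq1 hq2 hq3 F hFp C hFb
  rw [← he] at hout
  have hax : M.ax2 M' q G = M.ax q F := by rw [P05_eq, hF]
  have hS2 : M.S2 M' μ ν (fun n n' => G (M.X μ ν n) (M'.X μ ν n')) =
      M'.W * (∑ n ∈ range (M.nm + 1), M.Om μ ν n * F (M.X μ ν n)) +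
        (M'.m1 μ ν)⁻¹ * ∑ n ∈ range (M.nm + 1), M.Om μ ν n *
          (∑ n' ∈ range (M'.nm + 1), M'.Om μ ν n' * G (M.X μ ν n) (M'.X μ ν n') - M'.ms μ ν * F (M.X μ ν n)) := by
    unfold Msr.S2
    have h1 : M'.W = (M'.m1 μ ν)⁻¹ * M'.ms μ ν := by
      unfold Msr.ms
      field_simp
    rw [h1, mul_assoc, ← mul_add]
    congr 1
    rw [mul_sum, ← sum_add_distrib]
    refine sum_congr rfl fun n _ => ?_
    have h2 : ∑ n' ∈ range (M'.nm + 1), M.Om μ ν n * M'.Om μ ν n' * G (M.X μ ν n) (M'.X μ ν n') =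
        M.Om μ ν n * ∑ n' ∈ range (M'.nm + 1), M'.Om μ ν n' * G (M.X μ ν n) (M'.X μ ν n') := by
      rw [mul_sum]
      exact sum_congr rfl fun n' _ => mul_assoc _ _ _
    rw [h2]
    ring
  have hcl : ∑ n ∈ range (M.nm + 1), M.Om μ ν n ≤ 3 * M.W := by
    have h1 := hM.up μ hμ ν hν
    have h2 : M.cl μ ν 1 0 = ∑ n ∈ range (M.nm + 1), M.Om μ ν n := by
      unfold Msr.cl
      refine sum_congr ?_ fun _ _ => rfl
      refine filter_true_of_mem fun n _ => ?_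
      exact Nat.modEq_one
    rw [h2, ← he] at h1
    unfold Msr.ms at h1
    have h3 : M.W * M.m1 μ ν ≤ M.W * 1 := mul_le_mul_of_nonneg_left m1 hW.le
    have h4 : e * M.W ≤ 1 * M.W := mul_le_mul_of_nonneg_right he1 hW.le
    linarith
  have hE : |∑ n ∈ range (M.nm + 1), M.Om μ ν n *
          (∑ n' ∈ range (M'.nm + 1), M'.Om μ ν n' * G (M.X μ ν n) (M'.X μ ν n') - M'.ms μ ν * F (M.X μ ν n))| ≤
      3 * M.W * (e * M'.W * q * C) := by
    have hE0 : 0 ≤ e * M'.W * q * C := by positivity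
    refine (abs_sum_le_sum_abs _ _).trans ?_
    calc ∑ n ∈ range (M.nm + 1), |M.Om μ ν n *
          (∑ n' ∈ range (M'.nm + 1), M'.Om μ ν n' * G (M.X μ ν n) (M'.X μ ν n') - M'.ms μ ν * F (M.X μ ν n))| ≤
          ∑ n ∈ range (M.nm + 1), M.Om μ ν n * (e * M'.W * q * C) := by
          refine sum_le_sum fun n _ => ?_
          rw [abs_mul, abs_of_nonneg (hM.Om_nonneg μ ν n)]
          exact mul_le_mul_of_nonneg_left (hin _) (hM.Om_nonneg μ ν n)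
      _ = (∑ n ∈ range (M.nm + 1), M.Om μ ν n) * (e * M'.W * q * C) := by rw [sum_mul]
      _ ≤ _ := mul_le_mul_of_nonneg_right hcl hE0
  rw [hS2, hax, ← he]
  have hfin : M'.W * (∑ n ∈ range (M.nm + 1), M.Om μ ν n * F (M.X μ ν n)) +
        (M'.m1 μ ν)⁻¹ * (∑ n ∈ range (M.nm + 1), M.Om μ ν n *
          (∑ n' ∈ range (M'.nm + 1), M'.Om μ ν n' * G (M.X μ ν n) (M'.X μ ν n') - M'.ms μ ν * F (M.X μ ν n))) -
        M.W * M'.W * M.m1 μ ν * M.ax q F =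
      M'.W * (∑ n ∈ range (M.nm + 1), M.Om μ ν n * F (M.X μ ν n) - M.ms μ ν * M.ax q F) +
        (M'.m1 μ ν)⁻¹ * (∑ n ∈ range (M.nm + 1), M.Om μ ν n *
          (∑ n' ∈ range (M'.nm + 1), M'.Om μ ν n' * G (M.X μ ν n) (M'.X μ ν n') - M'.ms μ ν * F (M.X μ ν n))) := by
    unfold Msr.ms
    ring
  rw [hfin]
  refine (abs_add_le _ _).trans ?_
  rw [abs_mul, abs_mul, abs_of_pos hW', abs_of_pos (inv_pos.2 m0')]
  have t1 : M'.W * |∑ n ∈ range (M.nm + 1), M.Om μ ν n * F (M.X μ ν n) - M.ms μ ν * M.ax q F| ≤ M'.W * (e * M.W * q * C) :=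
    mul_le_mul_of_nonneg_left hout hW'.le
  have t2 : (M'.m1 μ ν)⁻¹ * |∑ n ∈ range (M.nm + 1), M.Om μ ν n *
          (∑ n' ∈ range (M'.nm + 1), M'.Om μ ν n' * G (M.X μ ν n) (M'.X μ ν n') - M'.ms μ ν * F (M.X μ ν n))| ≤
      V * (3 * M.W * (e * M'.W * q * C)) :=
    mul_le_mul v1 hE (abs_nonneg _) (by linarith)
  have hb : 0 ≤ e * M.W * M'.W * q * C := by positivity
  have t3 : M'.W * (e * M.W * q * C) ≤ V * (e * M.W * M'.W * q * C) := by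
    calc M'.W * (e * M.W * q * C) = 1 * (e * M.W * M'.W * q * C) := by ring
      _ ≤ _ := mul_le_mul_of_nonneg_right v2 hb
  have t4 : V * (e * M.W * M'.W * q * C) ≤ V * (e * M.W * M'.W * (q ^ 2) * C) := by
    have h1 : (q : ℝ) ≤ (q : ℝ) ^ 2 := by nlinarith
    have h2 : 0 ≤ V * (e * M.W * M'.W * C) := by positivity
    calc V * (e * M.W * M'.W * q * C) = V * (e * M.W * M'.W * C) * q := by ring
      _ ≤ V * (e * M.W * M'.W * C) * q ^ 2 := mul_le_mul_of_nonneg_left h1 h2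
      _ = _ := by ring
  calc _ ≤ M'.W * (e * M.W * q * C) + V * (3 * M.W * (e * M'.W * q * C)) := add_le_add t1 t2
    _ ≤ V * (e * M.W * M'.W * q * C) + 3 * (V * (e * M.W * M'.W * q * C)) := by
        have : V * (3 * M.W * (e * M'.W * q * C)) = 3 * (V * (e * M.W * M'.W * q * C)) := by ring
        rw [this]
        linarith
    _ = 4 * (V * (e * M.W * M'.W * q * C)) := by ring
    _ ≤ 4 * (V * (e * M.W * M'.W * (q ^ 2) * C)) := by linarith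
    _ = _ := by ring

theorem P05b (hT : T.OK W0) (hS : S.OK3 T W0 Z) (hM : M.OK3 T W0 δ0 δ1) (hM' : M'.OK3 T W0 δ0 δ1) (hμ : μ ∈ S.MX) (hν : ν ∈ S.MY)
    (hq1 : Squarefree q) (hq2 : ∀ p : ℕ, p.Prime → p ∣ q → p ≤ T.y0 ∧ (p ∣ W0 ∨ ¬ p ∣ T.N))
    (G : ℤ → ℤ → ℝ) (hG : ∀ x y x' y' : ℤ, x ≡ y [ZMOD q] → x' ≡ y' [ZMOD q] → G x x' = G y y') (hG0 : ∀ x x', 0 ≤ G x x') (C : ℝ) (hC : ∀ x x', G x x' ≤ C)
    (Ψ Ψ' : ℕ → ℝ) (Θ Θ' ε ε' : ℝ) (hΘ : 0 ≤ Θ) (hΘ' : 0 ≤ Θ') (hε : 0 ≤ ε) (hε' : 0 ≤ ε')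
    (hΨ : ∀ r : ℕ, (M.t2 → r.Coprime q) → |∑ n ∈ (range (M.nm + 1)).filter (fun n => n ≡ r [MOD q]), M.Om μ ν n * Ψ n| ≤ M.ms μ ν * M.gq q * Θ + ε)
    (hΨ' : ∀ r : ℕ, (M'.t2 → r.Coprime q) → |∑ n ∈ (range (M'.nm + 1)).filter (fun n => n ≡ r [MOD q]), M'.Om μ ν n * Ψ' n| ≤ M'.ms μ ν * M'.gq q * Θ' + ε')
    {V : ℝ} (hV : 1 ≤ V * M'.m1 μ ν) :
    |M.S2 M' μ ν (fun n n' => G (M.X μ ν n) (M'.X μ ν n') * (Ψ n * Ψ' n'))| ≤
      Θ * Θ' * (M.W * M'.W * M.m1 μ ν * M.ax2 M' q G) + C * (q : ℝ) ^ 2 * (V * (M.W * Θ * ε' + M'.W * Θ' * ε + ε * ε')) := by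
  classical
  obtain ⟨m0, m1⟩ := P05_m1 hT hS hM hμ hν
  obtain ⟨m0', m1'⟩ := P05_m1 hT hS hM' hμ hν
  obtain ⟨v1, v2⟩ := P05_V m0' m1' hV
  have hq : 0 < q := Nat.pos_of_ne_zero hq1.ne_zero
  have hqr : (1 : ℝ) ≤ q := by exact_mod_cast hq
  have hC0 : 0 ≤ C := le_trans (hG0 0 0) (hC 0 0)
  have hW := hM.W_pos
  have hW' := hM'.W_pos
  have hg := Q07_nonneg hM hq1 hq2
  obtain ⟨F, hF⟩ : ∃ F : ℤ → ℝ, F = fun x => M'.ax q (fun x' => G x x') := ⟨_, rfl⟩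
  have hFp : ∀ x y : ℤ, x ≡ y [ZMOD q] → F x = F y := by
    intro x y h
    have h2 : (fun x' => G x x') = fun x' => G y x' := by
      funext x'
      exact hG x y x' x' h (Int.ModEq.refl x')
    rw [hF]
    show M'.ax q (fun x' => G x x') = M'.ax q (fun x' => G y x')
    rw [h2]
  have hFb : ∀ x, F x ≤ C := by
    intro x
    rw [hF]
    exact QAx_le hM' hq1 hq2 fun x' => hC x x'
  have hF0 : ∀ x, 0 ≤ F x := by
    intro x
    rw [hF]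
    show 0 ≤ M'.ax q (fun x' => G x x')
    rw [QAx_eq]
    exact mul_nonneg (Q07_nonneg hM' hq1 hq2) (sum_nonneg fun r _ => hG0 _ _)
  obtain ⟨J, hJ⟩ : ∃ J : ℤ → ℝ, J = fun x => ∑ n' ∈ range (M'.nm + 1), M'.Om μ ν n' * G x (M'.X μ ν n') * Ψ' n' := ⟨_, rfl⟩
  have hJp : ∀ x y : ℤ, x ≡ y [ZMOD q] → J x = J y := by
    intro x y h
    rw [hJ]
    refine sum_congr rfl fun n' _ => ?_
    rw [hG x y _ _ h (Int.ModEq.refl _)]
  have hJb : ∀ x : ℤ, |J x| ≤ Θ' * M'.ms μ ν * F x + q * C * ε' := by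
    intro x
    have h := Q07b hT hS hM' hμ hν hq1 hq2 (fun x' => G x x') (fun x' y' h => hG x x x' y' (Int.ModEq.refl x) h)
      (fun x' => hG0 x x') C (fun x' => hC x x') Ψ' Θ' ε' hε' hΨ'
    rw [hJ, hF]
    exact h
  have h1 := P05_split (μ := μ) (ν := ν) hM hq1 hq2 (fun r => M.t2 → r.Coprime q) (fun r => Iff.rfl) J hJp Ψ
  have h2 := P05_tau hT hS hM hμ hν hq1 hq2 (fun r => M.t2 → r.Coprime q) (fun r => Iff.rfl) F hFp
  have hax : M.ax2 M' q G = M.gq q * ∑ r ∈ (range q).filter (fun r => M.t2 → r.Coprime q), F (M.v * (M.tau μ ν * r : ℕ) + M.x0) := by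
    rw [P05_eq, h2, hF]
    unfold Msr.ax
    rw [mul_sum]
  have hone : M.gq q * (((range q).filter (fun r => M.t2 → r.Coprime q)).card : ℝ) = 1 := by
    have h3 := Q07_one hM hq1 hq2
    unfold Msr.ax at h3
    rw [← h3]
    simp only [mul_one, sum_const, nsmul_eq_mul]
    rw [mul_comm]
  have hcard : ((((range q).filter (fun r => M.t2 → r.Coprime q)).card : ℕ) : ℝ) ≤ q := by
    have := card_filter_le (range q) (fun r => M.t2 → r.Coprime q)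
    rw [card_range] at this
    exact_mod_cast this
  have hS2 : M.S2 M' μ ν (fun n n' => G (M.X μ ν n) (M'.X μ ν n') * (Ψ n * Ψ' n')) =
      (M'.m1 μ ν)⁻¹ * ∑ n ∈ range (M.nm + 1), M.Om μ ν n * J (M.X μ ν n) * Ψ n := by
    unfold Msr.S2
    congr 1
    refine sum_congr rfl fun n _ => ?_
    rw [hJ]
    simp only [mul_sum, sum_mul]
    refine sum_congr rfl fun n' _ => ?_
    ring
  have hms : 0 ≤ M.ms μ ν := mul_nonneg hW.le m0.le
  have hms' : 0 ≤ M'.ms μ ν := mul_nonneg hW'.le m0'.le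
  have hb : |∑ n ∈ range (M.nm + 1), M.Om μ ν n * J (M.X μ ν n) * Ψ n| ≤
      Θ * Θ' * (M.ms μ ν * M'.ms μ ν * M.ax2 M' q G) + q * (Θ' * M'.ms μ ν * C * ε) + q * C * ε' * (M.ms μ ν * Θ) +
        q * (q * C * ε' * ε) := by
    rw [h1]
    refine (abs_sum_le_sum_abs _ _).trans ?_
    have h4 : ∀ r ∈ (range q).filter (fun r => M.t2 → r.Coprime q),
        |J (M.v * (M.tau μ ν * r : ℕ) + M.x0) * ∑ n ∈ (range (M.nm + 1)).filter (fun n => n ≡ r [MOD q]), M.Om μ ν n * Ψ n| ≤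
          (Θ * Θ' * (M.ms μ ν * M'.ms μ ν)) * (M.gq q * F (M.v * (M.tau μ ν * r : ℕ) + M.x0)) + Θ' * M'.ms μ ν * C * ε +
            q * C * ε' * (M.ms μ ν * Θ) * M.gq q + q * C * ε' * ε := by
      intro r hr
      have h5 := hΨ r (mem_filter.1 hr).2
      have h6 := hJb (M.v * (M.tau μ ν * r : ℕ) + M.x0)
      rw [abs_mul]
      have h7 : 0 ≤ Θ' * M'.ms μ ν * F (M.v * (M.tau μ ν * r : ℕ) + M.x0) + q * C * ε' :=
        add_nonneg (mul_nonneg (mul_nonneg hΘ' hms') (hF0 _)) (by positivity)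
      refine (mul_le_mul h6 h5 (abs_nonneg _) h7).trans ?_
      have h8 : Θ' * M'.ms μ ν * F (M.v * (M.tau μ ν * r : ℕ) + M.x0) * ε ≤ Θ' * M'.ms μ ν * C * ε :=
        mul_le_mul_of_nonneg_right (mul_le_mul_of_nonneg_left (hFb _) (mul_nonneg hΘ' hms')) hε
      have h9 : (Θ' * M'.ms μ ν * F (M.v * (M.tau μ ν * r : ℕ) + M.x0) + q * C * ε') * (M.ms μ ν * M.gq q * Θ + ε) =
          (Θ * Θ' * (M.ms μ ν * M'.ms μ ν)) * (M.gq q * F (M.v * (M.tau μ ν * r : ℕ) + M.x0)) +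
            Θ' * M'.ms μ ν * F (M.v * (M.tau μ ν * r : ℕ) + M.x0) * ε +
            q * C * ε' * (M.ms μ ν * Θ) * M.gq q + q * C * ε' * ε := by ring
      rw [h9]
      linarith
    refine (sum_le_sum h4).trans ?_
    rw [sum_add_distrib, sum_add_distrib, sum_add_distrib, ← mul_sum, ← mul_sum, ← hax, sum_const, sum_const, sum_const,
      nsmul_eq_mul, nsmul_eq_mul, nsmul_eq_mul]
    have c1 := mul_le_mul_of_nonneg_right hcard (show 0 ≤ Θ' * M'.ms μ ν * C * ε by positivity)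
    have c2 := mul_le_mul_of_nonneg_right hcard (show 0 ≤ q * C * ε' * ε by positivity)
    have c3 : ((((range q).filter (fun r => M.t2 → r.Coprime q)).card : ℕ) : ℝ) * (q * C * ε' * (M.ms μ ν * Θ) * M.gq q) =
        q * C * ε' * (M.ms μ ν * Θ) := by
      calc _ = q * C * ε' * (M.ms μ ν * Θ) * (M.gq q * (((range q).filter (fun r => M.t2 → r.Coprime q)).card : ℝ)) := by ring
        _ = _ := by rw [hone, mul_one]
    rw [c3]
    have c4 : Θ * Θ' * (M.ms μ ν * M'.ms μ ν) * M.ax2 M' q G = Θ * Θ' * (M.ms μ ν * M'.ms μ ν * M.ax2 M' q G) := by ring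
    linarith
  rw [hS2, abs_mul, abs_of_pos (inv_pos.2 m0')]
  refine (mul_le_mul_of_nonneg_left hb (inv_pos.2 m0').le).trans ?_
  have e1 : (M'.m1 μ ν)⁻¹ * (Θ * Θ' * (M.ms μ ν * M'.ms μ ν * M.ax2 M' q G) + q * (Θ' * M'.ms μ ν * C * ε) + q * C * ε' * (M.ms μ ν * Θ) +
        q * (q * C * ε' * ε)) = Θ * Θ' * (M.W * M'.W * M.m1 μ ν * M.ax2 M' q G) + q * (Θ' * M'.W * C * ε) +
        (M'.m1 μ ν)⁻¹ * (q * C * ε' * (M.ms μ ν * Θ) + q * (q * C * ε' * ε)) := by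
    unfold Msr.ms
    field_simp
    ring
  rw [e1]
  have hqq : (q : ℝ) ≤ (q : ℝ) ^ 2 := by nlinarith
  have e2 : q * (Θ' * M'.W * C * ε) ≤ C * (q : ℝ) ^ 2 * (V * (M'.W * Θ' * ε)) := by
    have h0 : 0 ≤ C * (M'.W * Θ' * ε) := by positivity
    have h3 : (q : ℝ) * 1 ≤ (q : ℝ) ^ 2 * V := mul_le_mul hqq v2 zero_le_one (by positivity)
    calc q * (Θ' * M'.W * C * ε) = (q * 1) * (C * (M'.W * Θ' * ε)) := by ring
      _ ≤ ((q : ℝ) ^ 2 * V) * (C * (M'.W * Θ' * ε)) := mul_le_mul_of_nonneg_right h3 h0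
      _ = _ := by ring
  have e3 : (M'.m1 μ ν)⁻¹ * (q * C * ε' * (M.ms μ ν * Θ) + q * (q * C * ε' * ε)) ≤
      C * (q : ℝ) ^ 2 * (V * (M.W * Θ * ε' + ε * ε')) := by
    have h3 : q * C * ε' * (M.ms μ ν * Θ) ≤ (q : ℝ) ^ 2 * C * ε' * (M.W * Θ) := by
      have h4 : M.ms μ ν ≤ M.W := by
        unfold Msr.ms
        calc M.W * M.m1 μ ν ≤ M.W * 1 := mul_le_mul_of_nonneg_left m1 hW.le
          _ = M.W := mul_one _
      have h5 : (q : ℝ) * C * ε' ≤ (q : ℝ) ^ 2 * C * ε' :=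
        mul_le_mul_of_nonneg_right (mul_le_mul_of_nonneg_right hqq hC0) hε'
      exact mul_le_mul h5 (mul_le_mul_of_nonneg_right h4 hΘ) (mul_nonneg hms hΘ) (by positivity)
    have h6 : q * C * ε' * (M.ms μ ν * Θ) + q * (q * C * ε' * ε) ≤ C * (q : ℝ) ^ 2 * (M.W * Θ * ε' + ε * ε') := by
      calc _ ≤ (q : ℝ) ^ 2 * C * ε' * (M.W * Θ) + q * (q * C * ε' * ε) := by linarith
        _ = _ := by ring
    calc _ ≤ V * (C * (q : ℝ) ^ 2 * (M.W * Θ * ε' + ε * ε')) :=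
          mul_le_mul v1 h6 (by positivity) (by linarith)
      _ = _ := by ring
  calc _ ≤ Θ * Θ' * (M.W * M'.W * M.m1 μ ν * M.ax2 M' q G) + C * (q : ℝ) ^ 2 * (V * (M'.W * Θ' * ε)) +
        C * (q : ℝ) ^ 2 * (V * (M.W * Θ * ε' + ε * ε')) := by linarith
    _ = _ := by ring

end Pool.Agent.Lib.T3
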