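import Pool.Agent.Lib.MP_7b7e48_nt.T3.D3
import Pool.Agent.Lib.MP_7b7e48_nt.TC.Q03

/-!
# Q03: the integers behind `Sg`, `M_i` of a colouring

`uI l = α_{l+1} A_l`, `vI l = β_l B_l` (`l < k`; `A_l = fX * oX`, `B_l = fY * oY` are products of marks, `AA`, `BB` for `l < k`). For `q` coprime to all marks (`hq`), in `ZMod q`:
* `Q03_x`: `S.pq N q c μ ν = Loc.pr k x'` with `x' l = rs α l.succ * Loc.sl c (yy) (fr) l`; on the indices `j ≤ k` it equals `Loc.pk x j` with `x l = Loc.ex k x' l`, and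
  `x l * vI l = uI l`: `Loc.sl c y s l = y l * ∏_{e : FE, c e = l.castSucc} s e`, the product over `FE = Fin n0 ⊕ Fin n0` splits (`Fintype.prod_sum_type`) into the free primes of `X`
  (`toU`) and of `Y` (inverse `toU`) of colour `l`; `toU q n` has the value `n` for `n` coprime to `q`, `toU q` of a product of numbers coprime to `q` is the product; `y l = (toU β_l)⁻¹ oX (toU) oY (toU)⁻¹`.
* `Q03_Sg`, `Q03_Mi`: `U14_Sg`, `U14_Mi` with `m = k + 1`, `a = aq q μ.1`, `b = aq q ν.1`, `w l = toU q (vI l)` (`Loc.Sg`, `Loc.Mi` need only the indices `≤ k`: `Loc.Sg_congr`, `Loc.Mi_congr`).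
* `Q03_SI`: `U01_S` with `ca l = toU q (A l)`, `cb l = toU q (B l)`.
* `Q03_pos`: `U14_pos`, `U14_mono`: `al (l+1) vI l < be l uI l` is `B_l < A_l` (`hS.AB`); `β_i < α_i` by the windows (`2 Z i < 3 Z i`; all numbers positive).
* `Q03_size`: every one of the numbers is at most `(k + 2) (prX μ * prY ν)²` (`U14_le`; each mark occurs at most once in `∏ uI`, `∏ vI`, `∏ α β`), `≤ N` by `hS.small`, `hS.num` (`k + 2 ≤ log N`, `(log N) N^(1/5) ≤ N`).
  `Sm (k+1) ≤ (k + 1) ∏_{l ≤ k} (α_l β_l) ∏_{l<k} A_l B_l` by induction (all factors are `≥ 1`).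
-/

set_option autoImplicit false

open Finset

namespace Pool.Agent.Lib.T3

open Pool.Agent.Lib.TC

variable {S : MS} {N q : ℕ} {c : S.Col} {μ : S.TX} {ν : S.TY}

private theorem q03_cop {g h : ℕ} {q : ℕ} (h1 : (g * h).Coprime q) : g.Coprime q ∧ h.Coprime q :=
  ⟨h1.coprime_mul_right, h1.coprime_mul_left⟩

private theorem q03_copP {n : ℕ} {g : Fin n → ℕ} (h1 : (∏ i, id (g i)).Coprime q) (i : Fin n) :
    (g i).Coprime q := by
  refine Nat.Coprime.coprime_dvd_left ?_ h1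
  exact dvd_prod_of_mem (fun i => id (g i)) (mem_univ i)

private theorem q03_X (hq : (S.prX id μ * S.prY id ν).Coprime q) :
    (∀ i, (μ.1 i).Coprime q) ∧ (∀ f, (μ.2.1 f).Coprime q) ∧ ∀ e, (μ.2.2 e).Coprime q := by
  have h1 := (q03_cop hq).1
  unfold MS.prX at h1
  exact ⟨q03_copP (q03_cop (q03_cop h1).1).1, q03_copP (q03_cop (q03_cop h1).1).2,
    q03_copP (q03_cop h1).2⟩

private theorem q03_Y (hq : (S.prX id μ * S.prY id ν).Coprime q) :
    (∀ i, (ν.1 i).Coprime q) ∧ (∀ f, (ν.2.1 f).Coprime q) ∧ ∀ e, (ν.2.2 e).Coprime q := by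
  have h1 := (q03_cop hq).2
  unfold MS.prY at h1
  exact ⟨q03_copP (q03_cop (q03_cop h1).1).1, q03_copP (q03_cop (q03_cop h1).1).2,
    q03_copP (q03_cop h1).2⟩

private theorem q03_toU {n : ℕ} (h : n.Coprime q) : ((toU q n : (ZMod q)ˣ) : ZMod q) = n := by
  unfold toU
  rw [dif_pos h]
  exact ZMod.coe_unitOfCoprime n h

private theorem q03_prod {ι : Type*} (s : Finset ι) (g : ι → ℕ) (h : ∀ i ∈ s, (g i).Coprime q) :
    ((∏ i ∈ s, toU q (g i) : (ZMod q)ˣ) : ZMod q) = ((∏ i ∈ s, id (g i) : ℕ) : ZMod q) := by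
  rw [Units.coe_prod, Nat.cast_prod]
  exact prod_congr rfl fun i hi => q03_toU (h i hi)

private theorem q03_fX (hq : (S.prX id μ * S.prY id ν).Coprime q) (l : ℕ) :
    ((S.fX (toU q) c μ l : (ZMod q)ˣ) : ZMod q) = (S.fX id c μ l : ℕ) :=
  q03_prod _ _ fun i _ => (q03_X hq).2.1 i

private theorem q03_fY (hq : (S.prX id μ * S.prY id ν).Coprime q) (l : ℕ) :
    ((S.fY (toU q) c ν l : (ZMod q)ˣ) : ZMod q) = (S.fY id c ν l : ℕ) :=
  q03_prod _ _ fun i _ => (q03_Y hq).2.1 i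

private theorem q03_oX (hq : (S.prX id μ * S.prY id ν).Coprime q) (l : ℕ) :
    ((S.oX N (toU q) c μ ν l : (ZMod q)ˣ) : ZMod q) = (S.oX N id c μ ν l : ℕ) :=
  q03_prod _ _ fun i _ => (q03_X hq).2.2 i

private theorem q03_oY (hq : (S.prX id μ * S.prY id ν).Coprime q) (l : ℕ) :
    ((S.oY N (toU q) c μ ν l : (ZMod q)ˣ) : ZMod q) = (S.oY N id c μ ν l : ℕ) :=
  q03_prod _ _ fun i _ => (q03_Y hq).2.2 i

private theorem q03_ext {M : Type*} [One M] {n : ℕ} (a : Fin n → M) {i : ℕ} (h : i < n) :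
    ext1 a i = a ⟨i, h⟩ := by
  unfold ext1
  rw [dif_pos h]

/-- the slot as a quotient of units -/
private theorem q03_slot (l : Fin S.k) :
    rs q μ.1 l.succ * Loc.sl c (S.yy N q c μ ν) (S.fr q μ ν) l *
      (toU q (ν.1 l.castSucc) * (S.fY (toU q) c ν l * S.oY N (toU q) c μ ν l)) =
    toU q (μ.1 l.succ) * (S.fX (toU q) c μ l * S.oX N (toU q) c μ ν l) := by
  have h1 : (∏ e, if c e = l.castSucc then S.fr q μ ν e else 1) =
      S.fX (toU q) c μ l * (S.fY (toU q) c ν l)⁻¹ := by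
    rw [Fintype.prod_sum_type]
    congr 1
    · unfold MS.fX
      rw [prod_filter]
      refine prod_congr rfl fun f _ => ?_
      by_cases h : c (Sum.inl f) = l.castSucc
      · rw [if_pos h, if_pos (by rw [h]; rfl)]
        rfl
      · rw [if_neg h, if_neg (show ¬ ((c (Sum.inl f) : ℕ) = l) from fun h' => h (Fin.ext h'))]
    · unfold MS.fY
      rw [prod_filter, ← prod_inv_distrib]
      refine prod_congr rfl fun f _ => ?_
      by_cases h : c (Sum.inr f) = l.castSucc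
      · rw [if_pos h, if_pos (by rw [h]; rfl)]
        rfl
      · rw [if_neg h, if_neg (show ¬ ((c (Sum.inr f) : ℕ) = l) from fun h' => h (Fin.ext h')), inv_one]
  unfold Loc.sl
  rw [h1]
  unfold MS.yy rs
  generalize toU q (μ.1 l.succ) = a1
  generalize toU q (ν.1 l.castSucc) = a2
  generalize S.oX N (toU q) c μ ν l = a3
  generalize S.oY N (toU q) c μ ν l = a4
  generalize S.fX (toU q) c μ l = a5
  generalize S.fY (toU q) c ν l = a6
  calc a1 * (a2⁻¹ * (a3 * a4⁻¹) * (a5 * a6⁻¹)) * (a2 * (a6 * a4)) =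
      (a2⁻¹ * a2) * (a4⁻¹ * a4) * (a6⁻¹ * a6) * (a1 * (a5 * a3)) := by
        simp only [mul_comm, mul_assoc, mul_left_comm]
    _ = _ := by rw [inv_mul_cancel, inv_mul_cancel, inv_mul_cancel, one_mul, one_mul, one_mul]

private theorem q03_vI (hq : (S.prX id μ * S.prY id ν).Coprime q) (l : Fin S.k) :
    ((toU q (ν.1 l.castSucc) * (S.fY (toU q) c ν l * S.oY N (toU q) c μ ν l) : (ZMod q)ˣ) : ZMod q) =
      (S.vI N c μ ν l : ZMod q) := by
  unfold MS.vI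
  rw [Units.val_mul, Units.val_mul, q03_toU ((q03_Y hq).1 _), q03_fY hq, q03_oY hq,
    q03_ext ν.1 (show (l : ℕ) < S.k + 1 by omega)]
  push_cast
  rfl

private theorem q03_uI (hq : (S.prX id μ * S.prY id ν).Coprime q) (l : Fin S.k) :
    ((toU q (μ.1 l.succ) * (S.fX (toU q) c μ l * S.oX N (toU q) c μ ν l) : (ZMod q)ˣ) : ZMod q) =
      (S.uI N c μ ν l : ZMod q) := by
  unfold MS.uI
  rw [Units.val_mul, Units.val_mul, q03_toU ((q03_X hq).1 _), q03_fX hq, q03_oX hq,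
    q03_ext μ.1 (show (l : ℕ) + 1 < S.k + 1 by omega)]
  push_cast
  rfl

private theorem q03_cvI (hq : (S.prX id μ * S.prY id ν).Coprime q) {l : ℕ} (hl : l < S.k) :
    (S.vI N c μ ν l).Coprime q := by
  obtain ⟨h1, h2, h3⟩ := q03_Y hq
  unfold MS.vI MS.fY MS.oY
  rw [q03_ext ν.1 (show l < S.k + 1 by omega)]
  refine Nat.Coprime.mul_left (h1 _) (Nat.Coprime.mul_left ?_ ?_)
  · exact Nat.Coprime.prod_left fun i _ => h2 i
  · exact Nat.Coprime.prod_left fun i _ => h3 i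

private theorem q03_aq {n : ℕ} {a : Fin n → ℕ} (h : ∀ i, (a i).Coprime q) {i : ℕ} (hi : i < n) :
    ((aq q a i : (ZMod q)ˣ) : ZMod q) = (ext1 a i : ℕ) := by
  unfold aq
  rw [Loc.ex_lt _ hi, q03_ext a hi]
  exact q03_toU (h _)

private theorem q03_mX (hμ : μ ∈ S.MX) :
    (∀ i, μ.1 i ∈ S.WX i) ∧ (∀ f, μ.2.1 f ∈ S.FX f) ∧ ∀ e, μ.2.2 e ∈ S.OX e := by
  unfold MS.MX at hμ
  rw [mem_product, mem_product, Fintype.mem_piFinset, Fintype.mem_piFinset, Fintype.mem_piFinset] at hμ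
  exact hμ

private theorem q03_mY (hν : ν ∈ S.MY) :
    (∀ i, ν.1 i ∈ S.WY i) ∧ (∀ f, ν.2.1 f ∈ S.FY f) ∧ ∀ e, ν.2.2 e ∈ S.OY e := by
  unfold MS.MY at hν
  rw [mem_product, mem_product, Fintype.mem_piFinset, Fintype.mem_piFinset, Fintype.mem_piFinset] at hν
  exact hν

private theorem q03_ab {T : Dat} {W0 : ℕ} {Z : Fin (S.k + 1) → ℕ} (hS : S.OK3 T W0 Z) (hμ : μ ∈ S.MX)
    (hν : ν ∈ S.MY) {i : ℕ} (hi : i < S.k + 1) : 0 < ext1 ν.1 i ∧ ext1 ν.1 i < ext1 μ.1 i := by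
  rw [q03_ext μ.1 hi, q03_ext ν.1 hi]
  have h1 := hS.WX_mem _ _ ((q03_mX hμ).1 ⟨i, hi⟩)
  have h2 := hS.WY_mem _ _ ((q03_mY hν).1 ⟨i, hi⟩)
  have h3 := h1.2.2.1
  have h4 := h2.2.2.2.1
  exact ⟨Nat.pos_of_ne_zero h2.1.ne_zero, by omega⟩

private theorem q03_posA {T : Dat} {W0 : ℕ} {Z : Fin (S.k + 1) → ℕ} (hS : S.OK3 T W0 Z) (hμ : μ ∈ S.MX)
    (l : ℕ) : 0 < S.fX id c μ l * S.oX N id c μ ν l :=
  Nat.mul_pos (prod_pos fun f _ => (hS.FX_mem _ _ ((q03_mX hμ).2.1 f)).1.pos)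
    (prod_pos fun e _ => (hS.OX_mem _ _ ((q03_mX hμ).2.2 e)).1.pos)

private theorem q03_posB {T : Dat} {W0 : ℕ} {Z : Fin (S.k + 1) → ℕ} (hS : S.OK3 T W0 Z) (hν : ν ∈ S.MY)
    (l : ℕ) : 0 < S.fY id c ν l * S.oY N id c μ ν l :=
  Nat.mul_pos (prod_pos fun f _ => (hS.FY_mem _ _ ((q03_mY hν).2.1 f)).1.pos)
    (prod_pos fun e _ => (hS.OY_mem _ _ ((q03_mY hν).2.2 e)).1.pos)

private theorem q03_AA {l X : ℕ} (hl : l < S.k) :
    S.AA N c μ ν X l = S.fX id c μ l * S.oX N id c μ ν l := by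
  unfold MS.AA
  rw [if_pos hl]

private theorem q03_BB {l Y : ℕ} (hl : l < S.k) :
    S.BB N c μ ν Y l = S.fY id c ν l * S.oY N id c μ ν l := by
  unfold MS.BB
  rw [if_pos hl]

theorem Q03_SI {T : Dat} {W0 : ℕ} {Z : Fin (S.k + 1) → ℕ} (hS : S.OK3 T W0 Z) (hμ : μ ∈ S.MX) (hν : ν ∈ S.MY)
    (hq : (S.prX id μ * S.prY id ν).Coprime q) :
    ∃ w : (ZMod q)ˣ, (S.SI T.N c μ ν : ZMod q) = w * Loc.Sg (S.k + 1) (aq q μ.1) (aq q ν.1) (S.pq T.N q c μ ν) := by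
  obtain ⟨x, hx1, hx2⟩ := Q03_x (N := T.N) (c := c) hq
  have hA : ∀ i < S.k, (S.AA T.N c μ ν 0 i).Coprime q := by
    intro i hi
    rw [q03_AA hi]
    exact Nat.Coprime.mul_left (Nat.Coprime.prod_left fun f _ => (q03_X hq).2.1 f)
      (Nat.Coprime.prod_left fun f _ => (q03_X hq).2.2 f)
  have hB : ∀ i < S.k, (S.BB T.N c μ ν 0 i).Coprime q := by
    intro i hi
    rw [q03_BB hi]
    exact Nat.Coprime.mul_left (Nat.Coprime.prod_left fun f _ => (q03_Y hq).2.1 f)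
      (Nat.Coprime.prod_left fun f _ => (q03_Y hq).2.2 f)
  have hxx : ∀ i < S.k + 1 - 1, x i = aq q μ.1 (i + 1) * toU q (S.AA T.N c μ ν 0 i) *
      (aq q ν.1 i)⁻¹ * (toU q (S.BB T.N c μ ν 0 i))⁻¹ := by
    intro i hi
    have hi' : i < S.k := by omega
    rw [eq_mul_inv_iff_mul_eq, eq_mul_inv_iff_mul_eq]
    apply Units.ext
    rw [Units.val_mul, Units.val_mul, Units.val_mul, q03_toU (hA i hi'), q03_toU (hB i hi'),
      q03_aq (q03_X hq).1 (show i + 1 < S.k + 1 by omega), q03_aq (q03_Y hq).1 (show i < S.k + 1 by omega)]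
    have h1 := hx2 i hi'
    unfold MS.uI MS.vI at h1
    rw [q03_AA hi', q03_BB hi', mul_assoc, mul_comm ((S.fY id c ν i * S.oY T.N id c μ ν i : ℕ) : ZMod q),
      ← Nat.cast_mul, ← Nat.cast_mul]
    exact h1
  have h1 := U01_S (R := ZMod q) (m := S.k + 1) (by omega) (A := S.AA T.N c μ ν 0)
    (B := S.BB T.N c μ ν 0) (al := ext1 μ.1) (be := ext1 ν.1)
    (fun i hi => (q03_ab hS hμ hν hi).2) (aq q μ.1) (aq q ν.1) (fun l => toU q (S.AA T.N c μ ν 0 l))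
    (fun l => toU q (S.BB T.N c μ ν 0 l)) x
    (fun i hi => q03_aq (q03_X hq).1 hi) (fun i hi => q03_aq (q03_Y hq).1 hi)
    (fun i hi => q03_toU (hA i (by omega))) (fun i hi => q03_toU (hB i (by omega))) hxx
  refine ⟨aq q μ.1 0 * (∏ l ∈ range (S.k + 1), aq q ν.1 l) * ∏ l ∈ range S.k, toU q (S.BB T.N c μ ν 0 l), ?_⟩
  have h2 : Loc.Sg (S.k + 1) (aq q μ.1) (aq q ν.1) (S.pq T.N q c μ ν) =
      Loc.Sg (S.k + 1) (aq q μ.1) (aq q ν.1) (Loc.pk x) :=
    Loc.Sg_congr (fun _ _ => rfl) (fun _ _ => rfl) fun j hj => hx1 j (by omega)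
  unfold MS.SI
  rw [h2, h1, Units.val_mul, Units.val_mul, Units.coe_prod, Units.coe_prod]
  congr 2
  · congr 1
    exact (prod_congr rfl fun i hi => q03_aq (q03_Y hq).1 (mem_range.1 hi)).symm
  · exact (prod_congr rfl fun i hi => q03_toU (hB i (mem_range.1 hi))).symm

theorem Q03_pos {T : Dat} {W0 : ℕ} {Z : Fin (S.k + 1) → ℕ} (hS : S.OK3 T W0 Z) (hμ : μ ∈ S.MX) (hν : ν ∈ S.MY) (hc : c ∈ S.CC) :
    0 < S.SgI T.N c μ ν ∧ 0 < S.SI T.N c μ ν ∧ 0 < S.MiI T.N c μ ν 0 ∧ ∀ i j, i < j → j ≤ S.k → S.MiI T.N c μ ν i < S.MiI T.N c μ ν j := by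
  have hb : ∀ i < S.k + 1, 0 < ext1 ν.1 i := fun i hi => (q03_ab hS hμ hν hi).1
  have hab : ∀ i < S.k + 1, ext1 ν.1 i < ext1 μ.1 i := fun i hi => (q03_ab hS hμ hν hi).2
  have ha : ∀ i < S.k + 1, 0 < ext1 μ.1 i := fun i hi => (hb i hi).trans (hab i hi)
  have hu : ∀ i < S.k + 1 - 1, 0 < S.uI T.N c μ ν i := fun i hi =>
    Nat.mul_pos (ha (i + 1) (by omega)) (q03_posA hS hμ i)
  have hv : ∀ i < S.k + 1 - 1, 0 < S.vI T.N c μ ν i := fun i hi =>
    Nat.mul_pos (hb i (by omega)) (q03_posB hS hν i)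
  have huv : ∀ i < S.k + 1 - 1, ext1 μ.1 (i + 1) * S.vI T.N c μ ν i < ext1 ν.1 i * S.uI T.N c μ ν i := by
    intro i hi
    have hi' : i < S.k := by omega
    have h1 := (hS.AB c hc μ hμ ν hν 0 0 i hi').1
    rw [q03_AA hi', q03_BB hi'] at h1
    have h2 := hb i (by omega)
    have h3 := ha (i + 1) (by omega)
    unfold MS.uI MS.vI
    calc ext1 μ.1 (i + 1) * (ext1 ν.1 i * (S.fY id c ν i * S.oY T.N id c μ ν i)) =
        (ext1 μ.1 (i + 1) * ext1 ν.1 i) * (S.fY id c ν i * S.oY T.N id c μ ν i) := by ring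
      _ < (ext1 μ.1 (i + 1) * ext1 ν.1 i) * (S.fX id c μ i * S.oX T.N id c μ ν i) :=
          Nat.mul_lt_mul_of_pos_left h1 (Nat.mul_pos h3 h2)
      _ = _ := by ring
  obtain ⟨h1, h2⟩ := U14_pos (m := S.k + 1) (by omega) hb hab hu hv
  refine ⟨h1, ?_, h2, ?_⟩
  · unfold MS.SI
    have e1 : Sm (S.AA T.N c μ ν 0) (S.BB T.N c μ ν 0) (ext1 μ.1) (ext1 ν.1) (S.k + 1) =
        Sm (S.AA T.N c μ ν 0) (S.BB T.N c μ ν 0) (ext1 μ.1) (ext1 ν.1) S.k *
          (ext1 ν.1 S.k * S.BB T.N c μ ν 0 (S.k - 1)) +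
        (ext1 μ.1 S.k - ext1 ν.1 S.k) * ∏ l ∈ range S.k, ext1 μ.1 l * S.AA T.N c μ ν 0 l := rfl
    rw [e1]
    refine Nat.add_pos_right _ (Nat.mul_pos ?_ (prod_pos fun l hl => ?_))
    · have := hab S.k (by omega)
      omega
    · rw [mem_range] at hl
      rw [q03_AA hl]
      exact Nat.mul_pos (ha l (by omega)) (q03_posA hS hμ l)
  · intro i j hij hj
    induction j with
    | zero => omega
    | succ j ih =>
      have h3 : S.MiI T.N c μ ν j < S.MiI T.N c μ ν (j + 1) :=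
        U14_mono (m := S.k + 1) hb hab hv huv (by omega)
      rcases Nat.lt_succ_iff_lt_or_eq.1 hij with h4 | h4
      · exact (ih h4 (by omega)).trans h3
      · rw [h4]
        exact h3

private theorem q03_extP {n : ℕ} (g : Fin n → ℕ) : ∏ l ∈ range n, ext1 g l = ∏ i, id (g i) := by
  rw [prod_range]
  exact prod_congr rfl fun i _ => q03_ext g i.2

private theorem q03_fib {n : ℕ} (κ : Fin n → ℕ) (g : Fin n → ℕ) (k : ℕ) :
    (∏ l ∈ range k, ∏ f ∈ univ.filter (fun f => κ f = l), id (g f)) ∣ ∏ f, id (g f) := by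
  have h1 : ∏ l ∈ range k, ∏ f ∈ univ.filter (fun f => κ f = l), id (g f) =
      ∏ f ∈ univ.filter (fun f => κ f < k), id (g f) := by
    rw [← prod_fiberwise_of_maps_to (s := univ.filter (fun f => κ f < k)) (t := range k) (g := κ)
      (fun x hx => by
        rw [mem_filter] at hx
        rw [mem_range]
        exact hx.2) (fun f => id (g f))]
    refine prod_congr rfl fun l hl => ?_
    rw [mem_range] at hl
    refine prod_congr ?_ fun _ _ => rfl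
    ext f
    simp only [mem_filter, mem_univ, true_and]
    constructor
    · intro h
      exact ⟨by omega, h⟩
    · exact fun h => h.2
  rw [h1]
  exact prod_dvd_prod_of_subset _ _ _ (filter_subset _ _)

private theorem q03_prX {T : Dat} {W0 : ℕ} {Z : Fin (S.k + 1) → ℕ} (hS : S.OK3 T W0 Z) (hμ : μ ∈ S.MX) :
    0 < S.prX id μ := by
  unfold MS.prX
  obtain ⟨h1, h2, h3⟩ := q03_mX hμ
  refine Nat.mul_pos (Nat.mul_pos ?_ ?_) ?_
  · exact prod_pos fun i _ => (hS.WX_mem _ _ (h1 i)).1.pos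
  · exact prod_pos fun i _ => (hS.FX_mem _ _ (h2 i)).1.pos
  · exact prod_pos fun i _ => (hS.OX_mem _ _ (h3 i)).1.pos

private theorem q03_prY {T : Dat} {W0 : ℕ} {Z : Fin (S.k + 1) → ℕ} (hS : S.OK3 T W0 Z) (hν : ν ∈ S.MY) :
    0 < S.prY id ν := by
  unfold MS.prY
  obtain ⟨h1, h2, h3⟩ := q03_mY hν
  refine Nat.mul_pos (Nat.mul_pos ?_ ?_) ?_
  · exact prod_pos fun i _ => Nat.pos_of_ne_zero (hS.WY_mem _ _ (h1 i)).1.ne_zero
  · exact prod_pos fun i _ => (hS.FY_mem _ _ (h2 i)).1.pos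
  · exact prod_pos fun i _ => (hS.OY_mem _ _ (h3 i)).1.pos

/-- all `α` and the short cofactors of `X` -/
private theorem q03_dX : (∏ l ∈ range (S.k + 1), ext1 μ.1 l) *
    (∏ l ∈ range S.k, S.fX id c μ l * S.oX N id c μ ν l) ∣ S.prX id μ := by
  unfold MS.prX
  rw [q03_extP, prod_mul_distrib, ← mul_assoc]
  exact Nat.mul_dvd_mul (Nat.mul_dvd_mul_left _ (q03_fib _ _ _)) (q03_fib _ _ _)

private theorem q03_dY : (∏ l ∈ range (S.k + 1), ext1 ν.1 l) *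
    (∏ l ∈ range S.k, S.fY id c ν l * S.oY N id c μ ν l) ∣ S.prY id ν := by
  unfold MS.prY
  rw [q03_extP, prod_mul_distrib, ← mul_assoc]
  exact Nat.mul_dvd_mul (Nat.mul_dvd_mul_left _ (q03_fib _ _ _)) (q03_fib _ _ _)

private theorem q03_Sm {A B al be : ℕ → ℕ} {k : ℕ} (hA : ∀ l < k, 1 ≤ A l) (ha : ∀ l < k + 1, 1 ≤ al l)
    (hB : ∀ l < k, 1 ≤ B l) (hb : ∀ l < k + 1, 1 ≤ be l) : ∀ j ≤ k,
    Sm A B al be (j + 1) ≤ (j + 1) * (((∏ l ∈ range (j + 1), al l) * ∏ l ∈ range j, A l) *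
      ((∏ l ∈ range (j + 1), be l) * ∏ l ∈ range j, B l)) := by
  intro j
  induction j with
  | zero =>
    intro _
    have e : Sm A B al be (0 + 1) = 0 * (be 0 * B (0 - 1)) + (al 0 - be 0) * ∏ l ∈ range 0, al l * A l := rfl
    rw [e]
    simp only [range_zero, prod_empty, zero_mul, zero_add, mul_one, one_mul, prod_range_succ]
    have h1 := hb 0 (by omega)
    calc al 0 - be 0 ≤ al 0 := Nat.sub_le _ _
      _ = al 0 * 1 := (mul_one _).symm
      _ ≤ al 0 * be 0 := Nat.mul_le_mul_left _ h1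
  | succ j ih =>
    intro hj
    have ih := ih (by omega)
    have e : Sm A B al be (j + 1 + 1) = Sm A B al be (j + 1) * (be (j + 1) * B (j + 1 - 1)) +
        (al (j + 1) - be (j + 1)) * ∏ l ∈ range (j + 1), al l * A l := rfl
    rw [e, Nat.add_sub_cancel]
    have h1 := ha (j + 1) (by omega)
    have h2 := hb (j + 1) (by omega)
    have h3 := hA j (by omega)
    have h4 := hB j (by omega)
    rw [prod_mul_distrib, prod_range_succ al (j + 1), prod_range_succ be (j + 1), prod_range_succ A j,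
      prod_range_succ B j]
    have hp1 : 0 < ∏ l ∈ range (j + 1), be l := prod_pos fun l hl => hb l (by rw [mem_range] at hl; omega)
    have hp2 : 0 < ∏ l ∈ range j, B l := prod_pos fun l hl => hB l (by rw [mem_range] at hl; omega)
    generalize ∏ l ∈ range (j + 1), al l = p1 at *
    generalize ∏ l ∈ range (j + 1), be l = p2 at *
    generalize ∏ l ∈ range j, A l = p3 at *
    generalize ∏ l ∈ range j, B l = p4 at *
    have g1 : Sm A B al be (j + 1) * (be (j + 1) * B j) ≤ (j + 1) * (p1 * al (j + 1) * (p3 * A j) * (p2 * be (j + 1) * (p4 * B j))) := by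
      calc Sm A B al be (j + 1) * (be (j + 1) * B j) ≤ ((j + 1) * (p1 * p3 * (p2 * p4))) * (be (j + 1) * B j) :=
            Nat.mul_le_mul_right _ ih
        _ = ((j + 1) * (p1 * p3 * (p2 * p4)) * (be (j + 1) * B j)) * 1 := (mul_one _).symm
        _ ≤ ((j + 1) * (p1 * p3 * (p2 * p4)) * (be (j + 1) * B j)) * (al (j + 1) * A j) :=
            Nat.mul_le_mul_left _ (Nat.mul_pos h1 h3)
        _ = _ := by ring
    have g2 : (al (j + 1) - be (j + 1)) * (p1 * (p3 * A j)) ≤ p1 * al (j + 1) * (p3 * A j) * (p2 * be (j + 1) * (p4 * B j)) := by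
      calc (al (j + 1) - be (j + 1)) * (p1 * (p3 * A j)) ≤ al (j + 1) * (p1 * (p3 * A j)) :=
            Nat.mul_le_mul_right _ (Nat.sub_le _ _)
        _ = (al (j + 1) * (p1 * (p3 * A j))) * 1 := (mul_one _).symm
        _ ≤ (al (j + 1) * (p1 * (p3 * A j))) * (p2 * be (j + 1) * (p4 * B j)) :=
            Nat.mul_le_mul_left _ (Nat.mul_pos (Nat.mul_pos hp1 h2) (Nat.mul_pos hp2 h4))
        _ = _ := by ring
    calc _ ≤ (j + 1) * (p1 * al (j + 1) * (p3 * A j) * (p2 * be (j + 1) * (p4 * B j))) +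
          p1 * al (j + 1) * (p3 * A j) * (p2 * be (j + 1) * (p4 * B j)) := Nat.add_le_add g1 g2
      _ = _ := by ring

private theorem q03_log {N k P : ℕ} (hN : 2 < N) (hk : ((k + 2 : ℕ) : ℝ) ≤ Real.log N)
    (hP : (P : ℝ) ≤ (N : ℝ) ^ (1 / 10 : ℝ)) : (k + 2) * P ^ 2 ≤ N := by
  have hN0 : (0 : ℝ) < N := by
    have : 0 < N := by omega
    exact_mod_cast this
  have hy : (0 : ℝ) < (N : ℝ) ^ (4 / 5 : ℝ) := Real.rpow_pos_of_pos hN0 _
  have h1 : Real.log N = 5 / 4 * Real.log ((N : ℝ) ^ (4 / 5 : ℝ)) := by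
    rw [Real.log_rpow hN0]
    ring
  have h2 : Real.log ((N : ℝ) ^ (4 / 5 : ℝ)) ≤ (N : ℝ) ^ (4 / 5 : ℝ) / 2 := by
    generalize (N : ℝ) ^ (4 / 5 : ℝ) = y at hy
    have h3 : Real.log (Real.sqrt y) = Real.log y / 2 := Real.log_sqrt hy.le
    have h4 := Real.log_le_sub_one_of_pos (Real.sqrt_pos.2 hy)
    have h5 := Real.sq_sqrt hy.le
    nlinarith [sq_nonneg (Real.sqrt y - 2)]
  have h3 : Real.log N ≤ (N : ℝ) ^ (4 / 5 : ℝ) := by
    rw [h1]
    linarith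
  have h4 : (P : ℝ) ^ 2 ≤ (N : ℝ) ^ (1 / 5 : ℝ) := by
    calc (P : ℝ) ^ 2 ≤ ((N : ℝ) ^ (1 / 10 : ℝ)) ^ 2 := pow_le_pow_left₀ (by positivity) hP 2
      _ = (N : ℝ) ^ (1 / 5 : ℝ) := by
          rw [← Real.rpow_natCast, ← Real.rpow_mul hN0.le]
          norm_num
  have h5 : ((k + 2 : ℕ) : ℝ) * (P : ℝ) ^ 2 ≤ N := by
    calc ((k + 2 : ℕ) : ℝ) * (P : ℝ) ^ 2 ≤ (N : ℝ) ^ (4 / 5 : ℝ) * (N : ℝ) ^ (1 / 5 : ℝ) :=
          mul_le_mul (hk.trans h3) h4 (by positivity) hy.le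
      _ = N := by
          rw [← Real.rpow_add hN0]
          norm_num
  exact_mod_cast h5

theorem Q03_size {T : Dat} {W0 : ℕ} {Z : Fin (S.k + 1) → ℕ} (hT : T.OK W0) (hS : S.OK3 T W0 Z) (hμ : μ ∈ S.MX) (hν : ν ∈ S.MY) (hc : c ∈ S.CC) :
    |S.SgI T.N c μ ν| ≤ T.N ∧ S.SI T.N c μ ν ≤ T.N ∧ ∀ i ≤ S.k, |S.MiI T.N c μ ν i| ≤ T.N := by
  have _ := hc
  have hb : ∀ i < S.k + 1, 0 < ext1 ν.1 i := fun i hi => (q03_ab hS hμ hν hi).1
  have hab : ∀ i < S.k + 1, ext1 ν.1 i < ext1 μ.1 i := fun i hi => (q03_ab hS hμ hν hi).2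
  have ha : ∀ i < S.k + 1, 0 < ext1 μ.1 i := fun i hi => (hb i hi).trans (hab i hi)
  have hu : ∀ i < S.k + 1 - 1, 0 < S.uI T.N c μ ν i := fun i hi =>
    Nat.mul_pos (ha (i + 1) (by omega)) (q03_posA hS hμ i)
  have hv : ∀ i < S.k + 1 - 1, 0 < S.vI T.N c μ ν i := fun i hi =>
    Nat.mul_pos (hb i (by omega)) (q03_posB hS hν i)
  have hpX := q03_prX hS hμ
  have hpY := q03_prY hS hν
  have hdX := Nat.le_of_dvd hpX (q03_dX (N := T.N) (c := c) (μ := μ) (ν := ν))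
  have hdY := Nat.le_of_dvd hpY (q03_dY (N := T.N) (c := c) (μ := μ) (ν := ν))
  have hk : ((S.k + 2 : ℕ) : ℝ) ≤ Real.log T.N := by
    refine le_trans ?_ hS.num
    have : S.k + 2 ≤ 3 * (S.k + 1) + 2 * S.n0 + S.nX + S.nY := by omega
    exact_mod_cast this
  have hfin := q03_log hT.N_pos hk (hS.small μ hμ ν hν)
  -- the products of the `u`, `v`
  have hau : ∏ l ∈ range S.k, S.uI T.N c μ ν l ≤ S.prX id μ := by
    refine le_trans ?_ hdX
    unfold MS.uI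
    rw [prod_mul_distrib, prod_range_succ' (fun l => ext1 μ.1 l)]
    refine Nat.mul_le_mul_right _ ?_
    exact Nat.le_mul_of_pos_right _ (ha 0 (by omega))
  have hbv : ∏ l ∈ range S.k, S.vI T.N c μ ν l ≤ S.prY id ν := by
    refine le_trans ?_ hdY
    unfold MS.vI
    rw [prod_mul_distrib, prod_range_succ (fun l => ext1 ν.1 l)]
    refine Nat.mul_le_mul_right _ ?_
    exact Nat.le_mul_of_pos_right _ (hb S.k (by omega))
  have haX : ∏ l ∈ range (S.k + 1), ext1 μ.1 l ≤ S.prX id μ :=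
    le_trans (Nat.le_mul_of_pos_right _ (prod_pos fun l _ => q03_posA hS hμ l)) hdX
  have hbY : ∏ l ∈ range (S.k + 1), ext1 ν.1 l ≤ S.prY id ν :=
    le_trans (Nat.le_mul_of_pos_right _ (prod_pos fun l _ => q03_posB hS hν l)) hdY
  have hQ : (∏ l ∈ range (S.k + 1 - 1), S.uI T.N c μ ν l * S.vI T.N c μ ν l) *
      (∏ l ∈ range (S.k + 1), ext1 μ.1 l * ext1 ν.1 l) ≤ (S.prX id μ * S.prY id ν) ^ 2 := by
    rw [Nat.add_sub_cancel, prod_mul_distrib, prod_mul_distrib, sq]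
    exact Nat.mul_le_mul (Nat.mul_le_mul hau hbv) (Nat.mul_le_mul haX hbY)
  have hfin' : ((S.k : ℤ) + 2) * ((((S.prX id μ * S.prY id ν) ^ 2 : ℕ) : ℤ)) ≤ T.N := by
    exact_mod_cast hfin
  have hQ0 : (0 : ℤ) ≤ (((S.prX id μ * S.prY id ν) ^ 2 : ℕ) : ℤ) := Int.natCast_nonneg _
  refine ⟨?_, ?_, ?_⟩
  · have h1 := (U14_le (m := S.k + 1) hb hab hu hv hQ (i := 0) (by omega)).1
    refine le_trans h1 (le_trans ?_ hfin')
    refine mul_le_mul_of_nonneg_right ?_ hQ0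
    push_cast
    omega
  · unfold MS.SI
    refine le_trans (q03_Sm (k := S.k) ?_ ha ?_ hb S.k le_rfl) ?_
    · intro l hl
      rw [q03_AA hl]
      exact q03_posA hS hμ l
    · intro l hl
      rw [q03_BB hl]
      exact q03_posB hS hν l
    · have e1 : ∏ l ∈ range S.k, S.AA T.N c μ ν 0 l = ∏ l ∈ range S.k, S.fX id c μ l * S.oX T.N id c μ ν l :=
        prod_congr rfl fun l hl => q03_AA (mem_range.1 hl)
      have e2 : ∏ l ∈ range S.k, S.BB T.N c μ ν 0 l = ∏ l ∈ range S.k, S.fY id c ν l * S.oY T.N id c μ ν l :=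
        prod_congr rfl fun l hl => q03_BB (mem_range.1 hl)
      rw [e1, e2]
      refine le_trans ?_ hfin
      refine Nat.mul_le_mul (by omega) (le_trans (Nat.mul_le_mul hdX hdY) ?_)
      exact Nat.le_self_pow (by omega) _
  · intro i hi
    have h1 := (U14_le (m := S.k + 1) hb hab hu hv hQ (i := i) (by omega)).2
    refine le_trans h1 (le_trans ?_ hfin')
    refine mul_le_mul_of_nonneg_right ?_ hQ0
    push_cast
    omega

end Pool.Agent.Lib.T3
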