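import Pool.Agent.Lib.MP_7b7e48_nt.T3.D3
import Pool.Agent.Lib.MP_7b7e48_nt.T3.Q06
import Pool.Agent.Lib.MP_7b7e48_nt.TC.Q22
import Pool.Agent.Lib.MP_7b7e48_nt.TC.Q25

/-!
# P07: upper bound for the sum of `Om Ll Ll` over a class

`|Ll^s(c) Ll^s'(c')| ≤ (Ll^s(c)² + Ll^s'(c')²)/2`, `Ll² ≤ 2 (Ll - Ml)² + 2 Ml²`. `Q06` with `c = c'`, `s = s'`: `∑ Om (Ll - Ml)² ≤ ms gq Th(c,c) + err`, `Th ≤ Th0` (`Th0 = 4 (NJ z + 1)² V3`; see `Msr.Th` in `TC.Q06`, `Msr.Th0` in `TC.Q22`);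
`|Ml| ≤ 21/20 VL ≤ 2` (`VL ≤ 1`; the proof of `Q25_Ml`; here the bound `|Ml| ≤ 2` is the hypothesis `hMl`), `∑ Om ≤ ms gq + N^(-δ1) W` (`hM.eq`).
So the sum is at most `ms gq (2 Th0 + 8) + 2 err + 8 N^(-δ1) W`, and `1 ≤ 2 (NJ z + 1) z^(24 b2)`.
-/

set_option autoImplicit false

open Finset

namespace Pool.Agent.Lib.T3

open Pool.Agent.Lib.TC
open Pool.Agent.Lib.GT (NJ)

section

variable {S : MS} {T : Dat} {W0 : ℕ} {Z : Fin (S.k + 1) → ℕ} {μ : S.TX} {ν : S.TY}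

private theorem P07_zsq (hT : T.OK W0) : T.y0 < T.z ^ 2 := by
  have h1 := hT.y0_lt
  nlinarith

private theorem P07_mX (hT : T.OK W0) (hS : S.OK3 T W0 Z) (hμ : μ ∈ S.MX) :
    (∀ i, (μ.1 i).Prime ∧ T.y0 < μ.1 i) ∧ (∀ f, (μ.2.1 f).Prime ∧ T.y0 < μ.2.1 f) ∧
      ∀ e, (μ.2.2 e).Prime ∧ T.y0 < μ.2.2 e := by
  unfold MS.MX at hμ
  rw [mem_product, mem_product, Fintype.mem_piFinset, Fintype.mem_piFinset, Fintype.mem_piFinset] at hμ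
  have hz := P07_zsq hT
  refine ⟨fun i => ?_, fun f => ?_, fun e => ?_⟩
  · obtain ⟨h1, -, h2, -⟩ := hS.WX_mem i _ (hμ.1 i)
    have := hS.Z_lo i
    exact ⟨h1, by omega⟩
  · obtain ⟨h1, -, h2, -⟩ := hS.FX_mem f _ (hμ.2.1 f)
    exact ⟨h1, h2⟩
  · obtain ⟨h1, -, h2, -⟩ := hS.OX_mem e _ (hμ.2.2 e)
    exact ⟨h1, h2⟩

private theorem P07_mY (hS : S.OK3 T W0 Z) (hν : ν ∈ S.MY) :
    (∀ i, ν.1 i ∈ S.WY i) ∧ (∀ f, (ν.2.1 f).Prime ∧ T.y0 < ν.2.1 f) ∧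
      ∀ e, (ν.2.2 e).Prime ∧ T.y0 < ν.2.2 e := by
  unfold MS.MY at hν
  rw [mem_product, mem_product, Fintype.mem_piFinset, Fintype.mem_piFinset, Fintype.mem_piFinset] at hν
  refine ⟨hν.1, fun f => ?_, fun e => ?_⟩
  · obtain ⟨h1, -, h2, -⟩ := hS.FY_mem f _ (hν.2.1 f)
    exact ⟨h1, h2⟩
  · obtain ⟨h1, -, h2, -⟩ := hS.OY_mem e _ (hν.2.2 e)
    exact ⟨h1, h2⟩

private theorem P07_prod_dvd {ι : Type*} [Fintype ι] (f : ι → ℕ) (y p : ℕ) (hp : p.Prime)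
    (hf : ∀ i, (f i).Prime ∧ y < f i) (h : p ∣ ∏ i, id (f i)) : y < p := by
  obtain ⟨i, -, h1⟩ := (hp.prime.dvd_finset_prod_iff _).1 h
  rw [id, Nat.prime_dvd_prime_iff_eq hp (hf i).1] at h1
  rw [h1]
  exact (hf i).2

private theorem P07_mark_gt (hT : T.OK W0) (hS : S.OK3 T W0 Z) (hμ : μ ∈ S.MX) (hν : ν ∈ S.MY) {p : ℕ}
    (hp : p.Prime) (h : p ∣ S.prX id μ * S.prY id ν) : T.y0 < p := by
  obtain ⟨a1, a2, a3⟩ := P07_mX hT hS hμ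
  obtain ⟨b1, b2, b3⟩ := P07_mY hS hν
  rcases hp.dvd_mul.1 h with h | h
  · unfold MS.prX at h
    rcases hp.dvd_mul.1 h with h | h
    · rcases hp.dvd_mul.1 h with h | h
      · exact P07_prod_dvd _ _ _ hp a1 h
      · exact P07_prod_dvd _ _ _ hp a2 h
    · exact P07_prod_dvd _ _ _ hp a3 h
  · unfold MS.prY at h
    rcases hp.dvd_mul.1 h with h | h
    · rcases hp.dvd_mul.1 h with h | h
      · obtain ⟨i, -, h1⟩ := (hp.prime.dvd_finset_prod_iff _).1 h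
        exact hT.y0_lt.trans (hS.WY_big i _ (b1 i) p hp h1)
      · exact P07_prod_dvd _ _ _ hp b2 h
    · exact P07_prod_dvd _ _ _ hp b3 h

private theorem P07_ms (hT : T.OK W0) (hS : S.OK3 T W0 Z) {M : Msr S} {δ0 δ1 : ℝ} (hM : M.OK3 T W0 δ0 δ1)
    (hμ : μ ∈ S.MX) (hν : ν ∈ S.MY) : 0 ≤ M.ms μ ν := by
  obtain ⟨a1, a2, a3⟩ := P07_mX hT hS hμ
  obtain ⟨b1, b2, b3⟩ := P07_mY hS hν
  unfold Msr.ms Msr.m1 MS.prX MS.prY
  refine mul_nonneg hM.W_pos.le (mul_nonneg (mul_nonneg (mul_nonneg ?_ ?_) ?_) (mul_nonneg (mul_nonneg ?_ ?_) ?_))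
  · exact prod_nonneg fun i _ => (hM.hX_nonneg _ (a1 i).1).1
  · exact prod_nonneg fun i _ => (hM.hX_nonneg _ (a2 i).1).1
  · exact prod_nonneg fun i _ => (hM.hX_nonneg _ (a3 i).1).1
  · exact prod_nonneg fun i _ => (hM.hY_win i _ (b1 i)).1
  · exact prod_nonneg fun i _ => (hM.hY_nonneg _ (b2 i).1).1
  · exact prod_nonneg fun i _ => (hM.hY_nonneg _ (b3 i).1).1

private theorem P07_gq (hT : T.OK W0) {M : Msr S} {δ0 δ1 : ℝ} (hM : M.OK3 T W0 δ0 δ1) {q1 : ℕ}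
    (hq2 : ∀ p : ℕ, p.Prime → p ∣ q1 → p ≤ T.y0 ∧ (p ∣ W0 ∨ ¬ p ∣ T.N)) : 0 ≤ M.gq q1 := by
  have _ := hT
  unfold Msr.gq
  refine prod_nonneg fun p hp => ?_
  have hpp := Nat.prime_of_mem_primeFactors hp
  have h1 := hM.g_small p hpp (hq2 p hpp (Nat.dvd_of_mem_primeFactors hp)).1
  have h2 : (2 : ℝ) ≤ p := by exact_mod_cast hpp.two_le
  by_cases ht : M.t2
  · rw [h1.2 ht]
    exact div_nonneg zero_le_one (by linarith)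
  · rw [h1.1 ht]
    positivity

private theorem P07_Th {M : Msr S} {δ0 δ1 : ℝ} (hM : M.OK3 T W0 δ0 δ1) (c c' : S.Col) : M.Th T c c' μ ν ≤ M.Th0 T := by
  unfold Msr.Th Msr.Th0
  have h1 : 0 ≤ M.V3 T := by
    unfold Msr.V3
    refine prod_nonneg fun p hp => ?_
    unfold Dat.PL at hp
    rw [mem_filter] at hp
    have h := (hM.g_large p hp.2.1 hp.2.2).1
    positivity
  refine mul_le_mul_of_nonneg_right ?_ h1
  exact mul_le_of_le_one_right (by positivity) (min_le_left _ _)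

end

theorem P07 {S : MS} {T : Dat} {W0 : ℕ} {Z : Fin (S.k + 1) → ℕ} {M : Msr S} {δ0 δ1 : ℝ} (hT : T.OK W0) (hS : S.OK3 T W0 Z) (hM : M.OK3 T W0 δ0 δ1)
    {μ : S.TX} {ν : S.TY} (hμ : μ ∈ S.MX) (hν : ν ∈ S.MY) (hadm : M.adm μ ν) (c c' : S.Col) (s s' : Bool) {b2 : ℕ} (hb : 1 ≤ b2)
    (hMl : ∀ s, |M.Ml T s b2| ≤ 2)
    {q1 : ℕ} (hq1 : Squarefree q1) (hq2 : ∀ p : ℕ, p.Prime → p ∣ q1 → p ≤ T.y0 ∧ (p ∣ W0 ∨ ¬ p ∣ T.N))
    (hq3 : (q1 : ℝ) * (T.z : ℝ) ^ (24 * b2) ≤ (T.N : ℝ) ^ δ0) (r : ℕ) (hr : M.t2 → r.Coprime q1) :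
    |∑ n ∈ (range (M.nm + 1)).filter (fun n => n ≡ r [MOD q1]), M.Om μ ν n *
      (M.Ll T s b2 c μ ν (M.X μ ν n) * M.Ll T s' b2 c' μ ν (M.X μ ν n))| ≤
    M.ms μ ν * M.gq q1 * (2 * M.Th0 T + 8) + 10 * ((T.N : ℝ) ^ (-δ1) * M.W * (2 * ((NJ T.z : ℝ) + 1) * (T.z : ℝ) ^ (24 * b2)) ^ 2) := by
  classical
  have hz : 2 ≤ T.z := by
    have h1 := hT.y0_lt
    have h2 := hT.D_le
    have h3 := hT.D_pos
    omega
  have hzr : (1 : ℝ) ≤ (T.z : ℝ) ^ (24 * b2) := one_le_pow₀ (by exact_mod_cast (by omega : 1 ≤ T.z))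
  have hms := P07_ms hT hS hM hμ hν
  have hgq := P07_gq hT hM hq2
  have hE1 : (0 : ℝ) ≤ (T.N : ℝ) ^ (-δ1) * M.W := mul_nonneg (Real.rpow_nonneg (Nat.cast_nonneg _) _) hM.W_pos.le
  have hK : (1 : ℝ) ≤ (2 * ((NJ T.z : ℝ) + 1) * (T.z : ℝ) ^ (24 * b2)) ^ 2 := by
    refine one_le_pow₀ ?_
    have h1 : (0 : ℝ) ≤ NJ T.z := Nat.cast_nonneg _
    have h2 : (1 : ℝ) ≤ 2 * ((NJ T.z : ℝ) + 1) := by linarith
    calc (1 : ℝ) = 1 * 1 := (one_mul 1).symm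
      _ ≤ 2 * ((NJ T.z : ℝ) + 1) * (T.z : ℝ) ^ (24 * b2) := mul_le_mul h2 hzr zero_le_one (by linarith)
  set E : ℝ := (T.N : ℝ) ^ (-δ1) * M.W * (2 * ((NJ T.z : ℝ) + 1) * (T.z : ℝ) ^ (24 * b2)) ^ 2 with hEd
  have hE2 : (T.N : ℝ) ^ (-δ1) * M.W ≤ E := le_mul_of_one_le_right hE1 hK
  -- the class
  have hle : (q1 : ℝ) ≤ (T.N : ℝ) ^ δ0 := le_trans (le_mul_of_one_le_right (Nat.cast_nonneg _) hzr) hq3
  have hcop : q1.Coprime (S.prX id μ * S.prY id ν) := by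
    rw [Nat.coprime_iff_gcd_eq_one]
    by_contra hne
    obtain ⟨p, hp, hpd⟩ := Nat.exists_prime_and_dvd hne
    have h1 := hpd.trans (Nat.gcd_dvd_left _ _)
    have h2 := hpd.trans (Nat.gcd_dvd_right _ _)
    have h4 := (hq2 p hp h1).1
    have h5 := P07_mark_gt hT hS hμ hν hp h2
    omega
  have hcl := hM.eq μ hμ ν hν hadm q1 hq1 hle hcop (fun p hp h => (hq2 p hp h).2) r hr
  unfold Msr.cl at hcl
  have hcl1 := (abs_le.1 hcl).2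
  -- second moments
  have k1 := Q06 hT hS hM hμ hν hadm c c s s hb hq1 hq2 hq3 r hr
  have k2 := Q06 hT hS hM hμ hν hadm c' c' s' s' hb hq1 hq2 hq3 r hr
  have t1 := mul_le_mul_of_nonneg_left (P07_Th (T := T) (μ := μ) (ν := ν) hM c c) (mul_nonneg hms hgq)
  have t2 := mul_le_mul_of_nonneg_left (P07_Th (T := T) (μ := μ) (ν := ν) hM c' c') (mul_nonneg hms hgq)
  have k1' := (abs_le.1 k1).2
  have k2' := (abs_le.1 k2).2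
  set I := (range (M.nm + 1)).filter (fun n => n ≡ r [MOD q1]) with hI
  have hpt : ∀ n ∈ I, |M.Om μ ν n * (M.Ll T s b2 c μ ν (M.X μ ν n) * M.Ll T s' b2 c' μ ν (M.X μ ν n))| ≤
      M.Om μ ν n * ((M.Ll T s b2 c μ ν (M.X μ ν n) - M.Ml T s b2) * (M.Ll T s b2 c μ ν (M.X μ ν n) - M.Ml T s b2)) +
      M.Om μ ν n * ((M.Ll T s' b2 c' μ ν (M.X μ ν n) - M.Ml T s' b2) * (M.Ll T s' b2 c' μ ν (M.X μ ν n) - M.Ml T s' b2)) +
      8 * M.Om μ ν n := by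
    intro n _
    have h0 := hM.Om_nonneg μ ν n
    rw [abs_mul, abs_of_nonneg h0, ← mul_add, mul_comm (8 : ℝ), ← mul_add]
    refine mul_le_mul_of_nonneg_left ?_ h0
    generalize M.Ll T s b2 c μ ν (M.X μ ν n) = A
    generalize M.Ll T s' b2 c' μ ν (M.X μ ν n) = B
    have m1 := abs_le.1 (hMl s)
    have m2 := abs_le.1 (hMl s')
    generalize M.Ml T s b2 = m at *
    generalize M.Ml T s' b2 = m' at *
    have e1 : |A * B| ≤ (A ^ 2 + B ^ 2) / 2 := by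
      rw [abs_le]
      constructor <;> nlinarith [sq_nonneg (A + B), sq_nonneg (A - B)]
    have e2 : A ^ 2 ≤ 2 * ((A - m) * (A - m)) + 8 := by
      have : m ^ 2 ≤ 4 := by nlinarith
      nlinarith [sq_nonneg (A - 2 * m)]
    have e3 : B ^ 2 ≤ 2 * ((B - m') * (B - m')) + 8 := by
      have : m' ^ 2 ≤ 4 := by nlinarith
      nlinarith [sq_nonneg (B - 2 * m')]
    linarith
  refine (abs_sum_le_sum_abs _ _).trans ((sum_le_sum hpt).trans ?_)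
  rw [sum_add_distrib, sum_add_distrib, ← mul_sum]
  have f1 : M.ms μ ν * M.gq q1 * (2 * M.Th0 T + 8) = 2 * (M.ms μ ν * M.gq q1 * M.Th0 T) + 8 * (M.ms μ ν * M.gq q1) := by ring
  rw [f1]
  linarith

end Pool.Agent.Lib.T3
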