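import Pool.Agent.Lib.MP_7b7e48_nt.T3.D3
import Pool.Agent.Lib.MP_7b7e48_nt.TC.Q19
import Pool.Agent.Lib.MP_7b7e48_nt.T3.Q18

/-!
# Q19: two colourings, average over the `α` ((8.1), (8.3) together)

`c'` not a function of `c`, `X` coprime to `W0`. For fixed `ν` and `μ.2 = (free primes, other marks)` sum over `α = μ.1 ∈ piFinset WX`: the summand is `∏ hX (α i)` times a nonnegative function `Φ` of the residues of the
`α_i` modulo `p^(v+1)`, `p ∈ Q = insert p1 base` (the vectors `yy` do not contain the `α`): `Q11_X` with the constant `3 Cα` (`Q11_bt`, `ε = 2/l ≤ 1/2` because `|hX l - 1/l| ≤ 2/l²`). `Φ s = ∏_{p ∈ base} lav2 .. (s p) * (ϑ + lco-average (s p1))` is a product over `Q`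
(`p1 ∉ base` as `p1 > y0`), so `av Φ = ∏_{p ∈ base} av (lav2) * (ϑ + av (..))` (`av_pi`; for the subtype `Q` split off `p1`), at most `∏_{p ∈ base} 4 (v+1)/p^(2v) * (ϑ + 5 (k+1)²/(p1 - 1))` (`Q15`, `Q16`; `p1 ∤ D N`, and in type 2 with `x0 ≠ 0`:
`x0 = c' W0² N`, `0 < |c'| ≤ y0 < p1`, `W0 ≤ D ≤ y0`). Then sum over `μ.2`, `ν`.
The final form: `∏_{p ∈ base} 4 (v+1)/p^(2v) = 4^|base| τ(D)/D²` (`Nat.card_divisors`-type formula; all primes of `D` are in `base`).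
-/

set_option autoImplicit false

open Finset

namespace Pool.Agent.Lib.T3

open Pool.Agent.Lib.TC

section aux

variable {S : MS} {T : Dat} {W0 : ℕ} {Z : Fin (S.k + 1) → ℕ} {M : Msr S} {δ0 δ1 : ℝ} {p1 Q0 : ℕ} {η Cα : ℝ} {X : ℤ}

private theorem q19_ycl (hT : T.OK W0) (hX : IsCoprime X (W0 : ℤ)) {p : ℕ} (hp : p.Prime) (hp0 : p < T.p0) : ¬ p ∣ ycl T p X := by
  have hpW : p ∣ W0 := (hT.W0_pr p hp).2 hp0
  have hpD : p ∣ T.D := (dvd_pow hpW two_ne_zero).trans hT.W0_D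
  intro h
  unfold ycl at h
  have h1 : (0 : ℤ) ≤ (X - T.D * T.N) % p := Int.emod_nonneg _ (by exact_mod_cast hp.ne_zero)
  have h2 : (p : ℤ) ∣ (X - T.D * T.N) % p := by
    have h3 := Int.natCast_dvd_natCast.2 h
    rwa [Int.toNat_of_nonneg h1] at h3
  have h3 : (p : ℤ) ∣ X - T.D * T.N := by
    have h4 := Int.emod_eq_zero_of_dvd h2
    rw [Int.emod_emod_of_dvd _ (dvd_refl _)] at h4
    exact Int.dvd_of_emod_eq_zero h4
  have h4 : (p : ℤ) ∣ (T.D : ℤ) * T.N := Dvd.dvd.mul_right (Int.natCast_dvd_natCast.2 hpD) _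
  have h5 : (p : ℤ) ∣ X := by
    have h6 := dvd_add h3 h4
    rwa [sub_add_cancel] at h6
  exact (Nat.prime_iff_prime_int.1 hp).not_unit (hX.isUnit_of_dvd' h5 (Int.natCast_dvd_natCast.2 hpW))

private theorem q19_sub (hT : T.OK W0) : T.D.primeFactors ⊆ T.base := by
  intro p hp
  have hpp := Nat.prime_of_mem_primeFactors hp
  have hpd := Nat.dvd_of_mem_primeFactors hp
  unfold Dat.base
  rw [mem_filter, mem_range]
  have h4 := Nat.le_of_dvd hT.D_pos hpd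
  have h5 := hT.D_le
  exact ⟨by omega, hpp, Or.inr hpd⟩

private theorem q19_v (hT : T.OK W0) {p : ℕ} (hp : p ∈ T.base) (hp' : p ∉ T.D.primeFactors) : padicValNat p T.D = 0 := by
  unfold Dat.base at hp
  rw [mem_filter] at hp
  have h7 : ¬ p ∣ T.D := fun h => hp' (Nat.mem_primeFactors.2 ⟨hp.2.1, h, hT.D_pos.ne'⟩)
  exact padicValNat.eq_zero_of_not_dvd h7

private theorem q19_prodD (hT : T.OK W0) : ∏ p ∈ T.base, (p : ℝ) ^ padicValNat p T.D = T.D := by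
  have hD := hT.D_pos.ne'
  have h1 : ∏ p ∈ T.D.primeFactors, p ^ padicValNat p T.D = T.D := by
    have h2 := Nat.prod_factorization_pow_eq_self hD
    rw [Finsupp.prod, Nat.support_factorization] at h2
    conv_rhs => rw [← h2]
    refine prod_congr rfl fun p hp => ?_
    rw [Nat.factorization_def _ (Nat.prime_of_mem_primeFactors hp)]
  have h6 : ∏ p ∈ T.base, p ^ padicValNat p T.D = T.D := by
    rw [← prod_subset (q19_sub hT), h1]
    intro p hp hp'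
    rw [q19_v hT hp hp', pow_zero]
  have h7 := congrArg (fun n : ℕ => (n : ℝ)) h6
  simp only [Nat.cast_prod, Nat.cast_pow] at h7
  exact h7

private theorem q19_prodtau (hT : T.OK W0) : ∏ p ∈ T.base, ((padicValNat p T.D : ℝ) + 1) = (T.D.divisors.card : ℝ) := by
  rw [Nat.card_divisors hT.D_pos.ne', Nat.cast_prod, ← prod_subset (q19_sub hT)]
  · refine prod_congr rfl fun p hp => ?_
    rw [Nat.factorization_def _ (Nat.prime_of_mem_primeFactors hp), Nat.cast_add, Nat.cast_one]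
  · intro p hp hp'
    rw [q19_v hT hp hp', Nat.cast_zero, zero_add]

private theorem q19_prod (hT : T.OK W0) : ∏ p ∈ T.base, (4 * ((padicValNat p T.D : ℝ) + 1) / ((p : ℝ) ^ padicValNat p T.D) ^ 2) =
    4 ^ T.base.card * (T.D.divisors.card : ℝ) / (T.D : ℝ) ^ 2 := by
  rw [prod_div_distrib, prod_mul_distrib, prod_const, prod_pow, q19_prodD hT, q19_prodtau hT]

/-- the local factor at `p` -/
private noncomputable def q19_loc (T : Dat) {k : ℕ} {E : Type*} [Fintype E] (p1 : ℕ) (x0 : ℤ) (t2 : Prop) (ϑ : ℝ) (yn : ℕ → ℕ)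
    (c c' : E → Fin (k + 1)) (y y' : ∀ p : ℕ, Fin k → HP T.D p) (be : ∀ p : ℕ, ℕ → HP T.D p) (p : ℕ) (α : Fin (k + 1) → HP T.D p) : ℝ :=
  if p = p1 then ϑ + av fun s : E → HP T.D p => ind (coin T k (p ^ (padicValNat p T.D + 1)) x0 t2 (Loc.ex (k + 1) α) (be p)
    (pj c α (y p) s) (pj c' α (y' p) s))
  else lav2 T p (yn p) False False c c' α (y p) (y' p) (be p)

private theorem q19_loc_nonneg (T : Dat) {k : ℕ} {E : Type*} [Fintype E] (p1 : ℕ) (x0 : ℤ) (t2 : Prop) {ϑ : ℝ} (hϑ : 0 ≤ ϑ) (yn : ℕ → ℕ)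
    (c c' : E → Fin (k + 1)) (y y' : ∀ p : ℕ, Fin k → HP T.D p) (be : ∀ p : ℕ, ℕ → HP T.D p) (p : ℕ) (α : Fin (k + 1) → HP T.D p) :
    0 ≤ q19_loc T p1 x0 t2 ϑ yn c c' y y' be p α := by
  unfold q19_loc
  split_ifs
  · exact add_nonneg hϑ (av_nonneg fun _ => ind_nonneg _)
  · unfold lav2
    exact av_nonneg fun _ => mul_nonneg (ind_nonneg _) (ind_nonneg _)

private theorem q19_p1D (hT : T.OK W0) (hA : S.An3 T p1 Q0 η Cα) : ¬ p1 ∣ T.D := by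
  intro h
  have h1 := Nat.le_of_dvd hT.D_pos h
  have h2 := hT.D_le
  have h3 := hA.p1_lo
  omega

private theorem q19_p1W (hT : T.OK W0) (hA : S.An3 T p1 Q0 η Cα) : ¬ p1 ∣ W0 := fun h =>
  q19_p1D hT hA ((h.trans (dvd_pow_self W0 two_ne_zero)).trans hT.W0_D)

private theorem q19_p1x (hT : T.OK W0) (hA : S.An3 T p1 Q0 η Cα) (hM : M.OK3 T W0 δ0 δ1) : M.t2 → M.x0 ≠ 0 → ¬ (p1 : ℤ) ∣ M.x0 := by
  intro _ h0 h
  obtain ⟨c', hc', hx⟩ := hM.x0_form hT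
  have hpp := Nat.prime_iff_prime_int.1 hA.p1_pr
  rw [hx] at h
  rcases hpp.dvd_or_dvd h with h1 | h1
  · have h2 : p1 ∣ c'.natAbs := Int.natCast_dvd.1 h1
    have h3 : c'.natAbs ≠ 0 := by
      intro h4
      rw [Int.natAbs_eq_zero] at h4
      rw [hx, h4, zero_mul] at h0
      exact h0 rfl
    have h5 := Nat.le_of_dvd (Nat.pos_of_ne_zero h3) h2
    have h6 := hA.p1_lo
    omega
  · have h2 : p1 ∣ W0 ^ 2 * T.N := Int.natCast_dvd_natCast.1 h1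
    rcases (Nat.Prime.dvd_mul hA.p1_pr).1 h2 with h3 | h3
    · exact q19_p1W hT hA (hA.p1_pr.dvd_of_dvd_pow h3)
    · exact hA.p1_N h3

private theorem q19_p1base (hA : S.An3 T p1 Q0 η Cα) : p1 ∉ T.base := by
  intro h
  unfold Dat.base at h
  rw [mem_filter, mem_range] at h
  have h1 := hA.p1_lo
  omega

private theorem q19_wx (hT : T.OK W0) (hS : S.OK3 T W0 Z) (i : Fin (S.k + 1)) {l : ℕ} (hl : l ∈ S.WX i) : l.Prime ∧ 4 ≤ l := by
  have h1 := hS.WX_mem i l hl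
  have h2 := hS.Z_lo i
  have h3 := hT.y0_lt
  have h4 : 1 ≤ T.z := by omega
  have h5 : 1 ≤ T.z ^ 2 := Nat.one_le_pow _ _ h4
  exact ⟨h1.1, by omega⟩

private theorem q19_eps {h l : ℝ} (hl : 4 ≤ l) (hh : |h - 1 / l| ≤ 2 / l ^ 2) : |h - 1 / l| ≤ 1 / 2 * (1 / l) := by
  refine hh.trans ?_
  have hl0 : 0 < l := by linarith
  rw [div_mul_div_comm, one_mul, div_le_div_iff₀ (by positivity) (by positivity)]
  nlinarith

/-- the sum over the `α` -/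
private theorem q19_core (hT : T.OK W0) (hS : S.OK3 T W0 Z)
    (hA : S.An3 T p1 Q0 η Cα) (hM : M.OK3 T W0 δ0 δ1) (hQ0 : (∏ p ∈ T.base, p ^ (padicValNat p T.D + 1)) * p1 ≤ Q0)
    {c c' : S.Col} (hcc : ¬ Fun c c') (hX : IsCoprime X (W0 : ℤ)) {ϑ : ℝ} (hϑ : 0 ≤ ϑ)
    (o : (Fin S.n0 → ℕ) × (Fin S.nX → ℕ)) (ν : S.TY) :
    ∑ α ∈ Fintype.piFinset S.WX, (∏ i, M.hX (α i)) *
      ((∏ p ∈ T.base, S.l2 T c c' (α, o) ν X False False p) * (ϑ + M.lco T p1 c c' (α, o) ν)) ≤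
    (3 * Cα) ^ (S.k + 1) * ((∏ i, ∑ l ∈ S.WX i, M.hX l) * ((4 ^ T.base.card * (T.D.divisors.card : ℝ) / (T.D : ℝ) ^ 2) *
      (ϑ + 5 * ((S.k + 1 : ℕ) : ℝ) ^ 2 / ((p1 : ℝ) - 1)))) := by
  classical
  have hk : 1 ≤ S.k := le_trans (by norm_num) hS.k_lo
  have hp1b := q19_p1base hA
  have hC : 0 ≤ Cα := zero_le_one.trans hA.Cα_lo
  have hp1D := q19_p1D hT hA
  have hp2 := hA.p1_pr.two_le
  have hp1r : (0 : ℝ) < (p1 : ℝ) - 1 := by
    have : (2 : ℝ) ≤ p1 := by exact_mod_cast hp2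
    linarith
  let y : ∀ p : ℕ, Fin S.k → HP T.D p := fun p => S.yy T.N _ c ((fun _ => 0), o) ν
  let y' : ∀ p : ℕ, Fin S.k → HP T.D p := fun p => S.yy T.N _ c' ((fun _ => 0), o) ν
  let be : ∀ p : ℕ, ℕ → HP T.D p := fun p => aq _ ν.1
  let φ : ∀ p : ℕ, (Fin (S.k + 1) → HP T.D p) → ℝ := q19_loc T p1 M.x0 M.t2 ϑ (fun p => ycl T p X) c c' y y' be
  have hφ0 : ∀ (p : ℕ) (α : Fin (S.k + 1) → HP T.D p), 0 ≤ φ p α := fun p α => q19_loc_nonneg T p1 M.x0 M.t2 hϑ _ c c' y y' be p α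
  let Q : Finset ℕ := insert p1 T.base
  let Φ : (∀ p : Q, Fin (S.k + 1) → HP T.D p) → ℝ := fun s => ∏ p : Q, φ p (s p)
  have hQp : ∀ p ∈ Q, p.Prime := by
    intro p hp
    rcases mem_insert.1 hp with h | h
    · rw [h]
      exact hA.p1_pr
    · unfold Dat.base at h
      exact (mem_filter.1 h).2.1
  have hQ1 : ∏ p ∈ Q, p ^ (padicValNat p T.D + 1) ≤ Q0 := by
    rw [prod_insert hp1b, padicValNat.eq_zero_of_not_dvd hp1D, zero_add, pow_one, mul_comm]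
    exact hQ0
  have hbt : ∀ i, BTc T.D M.hX (3 * Cα) Q0 (S.WX i) := fun i =>
    Q11_bt hC (by norm_num : (0 : ℝ) ≤ 1 / 2) le_rfl (fun l hl => (q19_wx hT hS i hl).1.pos)
      (fun l hl => q19_eps (by exact_mod_cast (q19_wx hT hS i hl).2) (hM.hX_nonneg l (q19_wx hT hS i hl).1).2) (hA.bt i)
  have h1 := Q11_X S T.D M.hX (3 * Cα) (by positivity) Q0 hbt (fun i l hl => (hM.hX_nonneg l (q19_wx hT hS i hl).1).1) Q hQp hQ1 Φ
    (fun s => prod_nonneg fun p _ => hφ0 p (s p))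
  -- the value at the residues of the `α`
  have h2 : ∀ α : Fin (S.k + 1) → ℕ, Φ (fun p => rs _ α) =
      (∏ p ∈ T.base, S.l2 T c c' (α, o) ν X False False p) * (ϑ + M.lco T p1 c c' (α, o) ν) := by
    intro α
    have h3 : Φ (fun p => rs _ α) = ∏ p ∈ Q, φ p (rs _ α) := Finset.prod_coe_sort Q (fun p => φ p (rs _ α))
    rw [h3, prod_insert hp1b, mul_comm]
    congr 1
    · refine prod_congr rfl fun p hp => ?_
      have hne : p ≠ p1 := fun h => hp1b (h ▸ hp)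
      exact if_neg hne
    · exact if_pos rfl
  -- the average
  have h4 : av Φ = ∏ p ∈ Q, av (φ p) := by
    have h5 := av_equiv (Equiv.piComm (fun (_ : Fin (S.k + 1)) (p : Q) => HP T.D p)) Φ
    rw [← h5]
    have h6 := av_pi (E := Fin (S.k + 1)) (fun p : Q => HP T.D p) (fun p => φ p)
    exact h6.trans (Finset.prod_coe_sort Q (fun p => av (φ p)))
  have h7 : av (φ p1) ≤ ϑ + 5 * ((S.k + 1 : ℕ) : ℝ) ^ 2 / ((p1 : ℝ) - 1) := by
    have h8 : ∀ α, φ p1 α = ϑ + av fun s : FE S.n0 → HP T.D p1 => ind (coin T S.k (p1 ^ (padicValNat p1 T.D + 1)) M.x0 M.t2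
        (Loc.ex (S.k + 1) α) (be p1) (pj c α (y p1) s) (pj c' α (y' p1) s)) := fun α => if_pos rfl
    rw [av_congr h8, av_add, av_const]
    refine add_le_add le_rfl ?_
    refine Q16 hA.p1_pr ?_ (q19_p1x hT hA hM) hcc _ _ _
    intro h
    rcases (Nat.Prime.dvd_mul hA.p1_pr).1 h with h9 | h9
    · exact hp1D h9
    · exact hA.p1_N h9
  have h9 : ∏ p ∈ T.base, av (φ p) ≤ 4 ^ T.base.card * (T.D.divisors.card : ℝ) / (T.D : ℝ) ^ 2 := by
    rw [← q19_prod hT]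
    refine prod_le_prod (fun p _ => av_nonneg (hφ0 p)) fun p hp => ?_
    have hne : p ≠ p1 := fun h => hp1b (h ▸ hp)
    have h10 : ∀ α, φ p α = lav2 T p (ycl T p X) False False c c' α (y p) (y' p) (be p) := fun α => if_neg hne
    rw [av_congr h10]
    refine Q15 hT hk hp (fun hp0 => q19_ycl hT hX ?_ hp0) False False hcc _ _ _
    exact hQp p (mem_insert_of_mem hp)
  have h11 : av Φ ≤ (4 ^ T.base.card * (T.D.divisors.card : ℝ) / (T.D : ℝ) ^ 2) *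
      (ϑ + 5 * ((S.k + 1 : ℕ) : ℝ) ^ 2 / ((p1 : ℝ) - 1)) := by
    rw [h4, prod_insert hp1b, mul_comm]
    exact mul_le_mul h9 h7 (av_nonneg (hφ0 p1)) (by positivity)
  rw [sum_congr rfl fun α _ => congrArg (fun z : ℝ => (∏ i, M.hX (α i)) * z) (h2 α).symm]
  refine h1.trans ?_
  refine mul_le_mul_of_nonneg_left (mul_le_mul_of_nonneg_left h11 ?_) (by positivity)
  exact prod_nonneg fun i _ => sum_nonneg fun l hl => (hM.hX_nonneg l (q19_wx hT hS i hl).1).1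

end aux

theorem Q19 {S : MS} {T : Dat} {W0 : ℕ} {Z : Fin (S.k + 1) → ℕ} {M : Msr S} {δ0 δ1 : ℝ} {p1 Q0 : ℕ} {η Cα : ℝ} (hT : T.OK W0) (hS : S.OK3 T W0 Z)
    (hA : S.An3 T p1 Q0 η Cα) (hM : M.OK3 T W0 δ0 δ1) (hQ0 : (∏ p ∈ T.base, p ^ (padicValNat p T.D + 1)) * p1 ≤ Q0)
    {c c' : S.Col} (hcc : ¬ Fun c c') {X : ℤ} (hX : IsCoprime X (W0 : ℤ)) {ϑ : ℝ} (hϑ : 0 ≤ ϑ) :
    ∑ μ ∈ S.MX, ∑ ν ∈ S.MY, M.m1 μ ν * ((∏ p ∈ T.base, S.l2 T c c' μ ν X False False p) * (ϑ + M.lco T p1 c c' μ ν)) ≤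
      (3 * Cα) ^ (S.k + 1) * (4 ^ T.base.card * (T.D.divisors.card : ℝ) / (T.D : ℝ) ^ 2) * (ϑ + 5 * ((S.k + 1 : ℕ) : ℝ) ^ 2 / ((p1 : ℝ) - 1)) *
        ∑ μ ∈ S.MX, ∑ ν ∈ S.MY, M.m1 μ ν := by
  classical
  have hL : ∀ F : S.TX → S.TY → ℝ, ∑ μ ∈ S.MX, ∑ ν ∈ S.MY, M.m1 μ ν * F μ ν =
      ∑ o ∈ Fintype.piFinset S.FX ×ˢ Fintype.piFinset S.OX, ∑ ν ∈ S.MY,
        ((∏ f, M.hX (o.1 f)) * (∏ e, M.hX (o.2 e)) * S.prY M.hY ν) *
          ∑ α ∈ Fintype.piFinset S.WX, (∏ i, M.hX (α i)) * F (α, o) ν := by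
    intro F
    unfold MS.MX
    rw [sum_product, sum_comm]
    refine sum_congr rfl fun o _ => ?_
    rw [sum_comm]
    refine sum_congr rfl fun ν _ => ?_
    rw [mul_sum]
    refine sum_congr rfl fun α _ => ?_
    unfold Msr.m1 MS.prX
    ring
  have h1 : ∑ μ ∈ S.MX, ∑ ν ∈ S.MY, M.m1 μ ν = ∑ o ∈ Fintype.piFinset S.FX ×ˢ Fintype.piFinset S.OX, ∑ ν ∈ S.MY,
      ((∏ f, M.hX (o.1 f)) * (∏ e, M.hX (o.2 e)) * S.prY M.hY ν) * ∏ i, ∑ l ∈ S.WX i, M.hX l := by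
    have h2 := hL (fun _ _ => 1)
    simp only [mul_one] at h2
    rw [h2, prod_univ_sum]
  rw [hL (fun μ ν => (∏ p ∈ T.base, S.l2 T c c' μ ν X False False p) * (ϑ + M.lco T p1 c c' μ ν)), h1, mul_sum]
  refine sum_le_sum fun o ho => ?_
  rw [mul_sum]
  refine sum_le_sum fun ν hν => ?_
  have hw : 0 ≤ (∏ f, M.hX (o.1 f)) * (∏ e, M.hX (o.2 e)) * S.prY M.hY ν := by
    rw [mem_product, Fintype.mem_piFinset, Fintype.mem_piFinset] at ho
    unfold MS.MY at hν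
    rw [mem_product, mem_product, Fintype.mem_piFinset, Fintype.mem_piFinset, Fintype.mem_piFinset] at hν
    unfold MS.prY
    refine mul_nonneg (mul_nonneg ?_ ?_) (mul_nonneg (mul_nonneg ?_ ?_) ?_)
    · exact prod_nonneg fun i _ => (hM.hX_nonneg _ (hS.FX_mem _ _ (ho.1 i)).1).1
    · exact prod_nonneg fun i _ => (hM.hX_nonneg _ (hS.OX_mem _ _ (ho.2 i)).1).1
    · exact prod_nonneg fun i _ => (hM.hY_win i _ (hν.1 i)).1
    · exact prod_nonneg fun i _ => (hM.hY_nonneg _ (hS.FY_mem _ _ (hν.2.1 i)).1).1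
    · exact prod_nonneg fun i _ => (hM.hY_nonneg _ (hS.OY_mem _ _ (hν.2.2 i)).1).1
  refine (mul_le_mul_of_nonneg_left (q19_core hT hS hA hM hQ0 hcc hX hϑ o ν) hw).trans (le_of_eq ?_)
  ring

end Pool.Agent.Lib.T3
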