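import Pool.Agent.Lib.MP_7b7e48_nt.T3.D3
import Pool.Agent.Lib.MP_7b7e48_nt.TC.Q05
import Pool.Agent.Lib.MP_7b7e48_nt.T3.Q04

/-!
# Q05: the number of the exceptional primes

`p ∈ exc` implies that `p` divides one of the following nonzero integers (`Q04_card`, `Q04_disj`): `N`, `v`, a mark (`prX μ`, `prY ν`), `SI(c)`, `SI(c')`; `MiI(c,j) - MiI(c,i)`
(`i < j`), the same for `c'`; `Δ_ij = MiI(c,i) SgI(c') - MiI(c',j) SgI(c)`; in type 2 with `hit` at `x0`: `D N MiI(c,i) - (x0 - D N) SgI(c)` (also `c'`).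
They are nonzero: `Q03_pos`; for `Δ_ij` and `x0 ≠ 0`: `¬ co` says that the corresponding element of `ZMod q`, `q = p1^(v+1)`, is not zero, and it is the image of the integer divided by the units `V V'`
(`Q03_Mi`, `Q03_Sg`, `Q03_V`; all marks are coprime to `q` as they are primes `≠ p1`); for `x0 = 0`: `D N (MiI i + SgI) > 0` (`Q03_pos`).
All are at most `N^8` in absolute value (`Q03_size`, `hM.v_le`, `D ≤ y0 < z ≤ N`: `z^2 ≤ Z 0 < a mark ≤ N`, `|x0| ≤ y0 W0² N ≤ N^4` as `W0² ∣ D`), and a nonzero integer `n` has at most `log |n| / log 2 ≤ 2 log |n|` prime factors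
(`Nat.card_primeFactors..`: `2^(#primeFactors) ≤ n`). Number of the integers: `≤ 5 + 2 (k+1)² + (k+1)² + 2 (k+1) ≤ 6 (k+1)²`... so `≤ 6 (k+1)² · 16 log N ≤ 100 (k+1)² log N`.
-/

set_option autoImplicit false

open Finset

namespace Pool.Agent.Lib.T3

open Pool.Agent.Lib.TC

/-- the number of the prime factors -/
private theorem Q05_pf {n : ℕ} (hn : n ≠ 0) : (n.primeFactors.card : ℝ) ≤ 2 * Real.log n := by
  have h1 : 2 ^ n.primeFactors.card ≤ n := by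
    calc 2 ^ n.primeFactors.card = ∏ _p ∈ n.primeFactors, 2 := by rw [prod_const]
      _ ≤ ∏ p ∈ n.primeFactors, p :=
          prod_le_prod' fun p hp => (Nat.prime_of_mem_primeFactors hp).two_le
      _ ≤ n := Nat.le_of_dvd (Nat.pos_of_ne_zero hn) (Nat.prod_primeFactors_dvd n)
  have h2 : ((2 : ℝ) ^ n.primeFactors.card) ≤ n := by exact_mod_cast h1
  have h3 := Real.log_le_log (by positivity) h2
  rw [Real.log_pow] at h3
  have h4 : (1 / 2 : ℝ) ≤ Real.log 2 := by linarith [Real.log_two_gt_d9]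
  have h5 : (n.primeFactors.card : ℝ) * (1 / 2) ≤ n.primeFactors.card * Real.log 2 :=
    mul_le_mul_of_nonneg_left h4 (Nat.cast_nonneg _)
  linarith

private theorem Q05_count (E : Finset ℕ) (hE : ∀ p ∈ E, p.Prime) (L : Finset ℤ) (B : ℝ)
    (hB : 0 ≤ B) (hL : ∀ x ∈ L, Real.log (x.natAbs : ℝ) ≤ B)
    (hcov : ∀ p ∈ E, ∃ x ∈ L, x ≠ 0 ∧ (p : ℤ) ∣ x) : (E.card : ℝ) ≤ L.card * (2 * B) := by
  have h1 : E ⊆ L.biUnion fun x => x.natAbs.primeFactors := by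
    intro p hp
    obtain ⟨x, hx, hx0, hd⟩ := hcov p hp
    rw [mem_biUnion]
    refine ⟨x, hx, ?_⟩
    rw [Nat.mem_primeFactors]
    exact ⟨hE p hp, Int.natCast_dvd.mp hd, Int.natAbs_ne_zero.mpr hx0⟩
  have h2 : ((E.card : ℕ) : ℝ) ≤ ∑ x ∈ L, (x.natAbs.primeFactors.card : ℝ) := by
    exact_mod_cast (card_le_card h1).trans card_biUnion_le
  refine h2.trans ?_
  have h3 : ∑ x ∈ L, (x.natAbs.primeFactors.card : ℝ) ≤ ∑ _x ∈ L, 2 * B := by
    refine sum_le_sum fun x hx => ?_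
    by_cases hx0 : x = 0
    · subst hx0
      simp only [Int.natAbs_zero, Nat.primeFactors_zero, card_empty, Nat.cast_zero]
      linarith
    · exact (Q05_pf (Int.natAbs_ne_zero.mpr hx0)).trans (by linarith [hL x hx])
  refine h3.trans (le_of_eq ?_)
  rw [sum_const, nsmul_eq_mul]

private theorem Q05_log {N : ℕ} (hN : 1 ≤ N) {x : ℤ} (h : |x| ≤ (N : ℤ) ^ 8) :
    Real.log (x.natAbs : ℝ) ≤ 8 * Real.log N := by
  have hlog : 0 ≤ Real.log N := Real.log_nonneg (by exact_mod_cast hN)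
  by_cases hx : x = 0
  · subst hx
    simp only [Int.natAbs_zero, Nat.cast_zero, Real.log_zero]
    linarith
  · have h1 : 0 < (x.natAbs : ℝ) := by exact_mod_cast Int.natAbs_pos.mpr hx
    have h2 : (x.natAbs : ℤ) ≤ (N : ℤ) ^ 8 := by rw [Int.natCast_natAbs]; exact h
    have h3 : (x.natAbs : ℝ) ≤ (N : ℝ) ^ 8 := by exact_mod_cast h2
    have h4 := Real.log_le_log h1 h3
    rw [Real.log_pow] at h4
    exact_mod_cast h4

section

variable {S : MS} {N q : ℕ} {c : S.Col} {μ : S.TX} {ν : S.TY}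

/-- the integer behind `Ti` -/
private theorem Q05_cast (hq : (S.prX id μ * S.prY id ν).Coprime q) {i : ℕ} (hi : i ≤ S.k)
    (D : ℕ) (x0 : ℤ) :
    ((((D : ℤ) * N * S.MiI N c μ ν i - (x0 - D * N) * S.SgI N c μ ν : ℤ)) : ZMod q) =
      (S.VI N c μ ν : ZMod q) * Loc.Ti (S.k + 1) (aq q μ.1) (aq q ν.1) (S.pq N q c μ ν)
        ((D : ZMod q) * N) ((x0 : ZMod q) - D * N) i := by
  unfold Loc.Ti
  push_cast
  rw [Q03_Mi hq hi, Q03_Sg hq]
  ring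

end

section

variable {S : MS} {T : Dat} {W0 : ℕ} {Z : Fin (S.k + 1) → ℕ} {μ : S.TX} {ν : S.TY}

/-- facts on the marks -/
private theorem Q05_marks (hS : S.OK3 T W0 Z) (hμ : μ ∈ S.MX) (hν : ν ∈ S.MY) :
    ((∀ i, μ.1 i ∈ S.WX i) ∧ (∀ f, μ.2.1 f ∈ S.FX f) ∧ ∀ e, μ.2.2 e ∈ S.OX e) ∧
    ((∀ i, ν.1 i ∈ S.WY i) ∧ (∀ f, ν.2.1 f ∈ S.FY f) ∧ ∀ e, ν.2.2 e ∈ S.OY e) := by
  unfold MS.MX at hμ
  unfold MS.MY at hν
  rw [mem_product, mem_product, Fintype.mem_piFinset, Fintype.mem_piFinset,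
    Fintype.mem_piFinset] at hμ hν
  exact ⟨⟨hμ.1, hμ.2.1, hμ.2.2⟩, ⟨hν.1, hν.2.1, hν.2.2⟩⟩

private theorem Q05_cop (hS : S.OK3 T W0 Z) (hμ : μ ∈ S.MX) (hν : ν ∈ S.MY) {p1 Q0 : ℕ} {η Cα : ℝ}
    (hA : S.An3 T p1 Q0 η Cα) (j : ℕ) : (S.prX id μ * S.prY id ν).Coprime (p1 ^ j) := by
  obtain ⟨⟨h1, h2, h3⟩, h4, h5, h6⟩ := Q05_marks hS hμ hν
  have key : ∀ l : ℕ, ∀ s : Finset ℕ, l ∈ s → l.Prime → p1 ∉ s → l.Coprime p1 := by
    intro l s hl hlp hn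
    rw [Nat.coprime_primes hlp hA.p1_pr]
    rintro rfl
    exact hn hl
  apply Nat.Coprime.pow_right
  unfold MS.prX MS.prY
  refine Nat.Coprime.mul_left (Nat.Coprime.mul_left (Nat.Coprime.mul_left ?_ ?_) ?_)
    (Nat.Coprime.mul_left (Nat.Coprime.mul_left ?_ ?_) ?_)
  · exact Nat.Coprime.prod_left fun i _ => key _ _ (h1 i) (hS.WX_mem i _ (h1 i)).1 (hA.p1_W i).1
  · exact Nat.Coprime.prod_left fun i _ => key _ _ (h2 i) (hS.FX_mem i _ (h2 i)).1 (hA.p1_F i).1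
  · exact Nat.Coprime.prod_left fun i _ => key _ _ (h3 i) (hS.OX_mem i _ (h3 i)).1 (hA.p1_OX i)
  · exact Nat.Coprime.prod_left fun i _ => ((hA.p1_pr.coprime_iff_not_dvd).mpr fun hd =>
      absurd (hS.WY_big i _ (h4 i) p1 hA.p1_pr hd) (not_lt.mpr hA.p1_z)).symm
  · exact Nat.Coprime.prod_left fun i _ => key _ _ (h5 i) (hS.FY_mem i _ (h5 i)).1 (hA.p1_F i).2
  · exact Nat.Coprime.prod_left fun i _ => key _ _ (h6 i) (hS.OY_mem i _ (h6 i)).1 (hA.p1_OY i)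

private theorem Q05_prpos (hS : S.OK3 T W0 Z) (hμ : μ ∈ S.MX) (hν : ν ∈ S.MY) :
    0 < S.prX id μ ∧ 0 < S.prY id ν := by
  obtain ⟨⟨h1, h2, h3⟩, h4, h5, h6⟩ := Q05_marks hS hμ hν
  unfold MS.prX MS.prY
  exact ⟨Nat.mul_pos (Nat.mul_pos
      (prod_pos fun i _ => (hS.WX_mem i _ (h1 i)).1.pos)
      (prod_pos fun i _ => (hS.FX_mem i _ (h2 i)).1.pos))
      (prod_pos fun i _ => (hS.OX_mem i _ (h3 i)).1.pos),
    Nat.mul_pos (Nat.mul_pos
      (prod_pos fun i _ => Nat.pos_of_ne_zero (hS.WY_mem i _ (h4 i)).1.ne_zero)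
      (prod_pos fun i _ => (hS.FY_mem i _ (h5 i)).1.pos))
      (prod_pos fun i _ => (hS.OY_mem i _ (h6 i)).1.pos)⟩

private theorem Q05_prN (hT : T.OK W0) (hS : S.OK3 T W0 Z) (hμ : μ ∈ S.MX) (hν : ν ∈ S.MY) :
    S.prX id μ * S.prY id ν ≤ T.N := by
  have h1 := hS.small μ hμ ν hν
  have hN : (1 : ℝ) ≤ T.N := by
    have := hT.N_pos
    exact_mod_cast (by omega : 1 ≤ T.N)
  have h2 : (T.N : ℝ) ^ (1 / 10 : ℝ) ≤ (T.N : ℝ) ^ (1 : ℝ) :=
    Real.rpow_le_rpow_of_exponent_le hN (by norm_num)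
  rw [Real.rpow_one] at h2
  exact_mod_cast h1.trans h2

private theorem Q05_z (hT : T.OK W0) (hS : S.OK3 T W0 Z) (hμ : μ ∈ S.MX) (hν : ν ∈ S.MY) :
    T.z ≤ T.N := by
  obtain ⟨⟨h1, h2, h3⟩, h4, h5, h6⟩ := Q05_marks hS hμ hν
  have hp := Q05_prpos hS hμ hν
  have hn := Q05_prN hT hS hμ hν
  have h7 : μ.1 0 ∣ S.prX id μ := by
    unfold MS.prX
    exact Dvd.dvd.mul_right (Dvd.dvd.mul_right (dvd_prod_of_mem (fun i => id (μ.1 i)) (mem_univ 0)) _) _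
  have h8 : μ.1 0 ≤ S.prX id μ := Nat.le_of_dvd hp.1 h7
  have h9 : S.prX id μ ≤ S.prX id μ * S.prY id ν := Nat.le_mul_of_pos_right _ hp.2
  have h10 := (hS.WX_mem 0 _ (h1 0)).2.2.1
  have h11 := hS.Z_lo 0
  have h12 : T.z ≤ T.z ^ 2 := Nat.le_self_pow (by norm_num) _
  omega

end

theorem Q05 {S : MS} {T : Dat} {W0 : ℕ} {Z : Fin (S.k + 1) → ℕ} {M : Msr S} {δ0 δ1 : ℝ} {p1 Q0 : ℕ} {η Cα : ℝ} (hT : T.OK W0) (hS : S.OK3 T W0 Z)
    (hA : S.An3 T p1 Q0 η Cα) (hM : M.OK3 T W0 δ0 δ1) {μ : S.TX} {ν : S.TY} (hμ : μ ∈ S.MX) (hν : ν ∈ S.MY) {c c' : S.Col} (hc : c ∈ S.CC)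
    (hc' : c' ∈ S.CC) (hco : ¬ M.co T p1 c c' μ ν) :
    ((M.exc T c c' μ ν).card : ℝ) ≤ 100 * ((S.k + 1 : ℕ) : ℝ) ^ 2 * Real.log T.N := by
  classical
  have hN3 : 3 ≤ T.N := hT.N_pos
  have hNz : (3 : ℤ) ≤ (T.N : ℤ) := by exact_mod_cast hN3
  have hlog : 0 ≤ Real.log T.N := Real.log_nonneg (by exact_mod_cast (by omega : 1 ≤ T.N))
  obtain ⟨hP1, hP2⟩ := Q05_prpos hS hμ hν
  have hPN := Q05_prN hT hS hμ hν
  have hzN := Q05_z hT hS hμ hν
  have hpos := Q03_pos hS hμ hν hc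
  have hpos' := Q03_pos hS hμ hν hc'
  have hsz := Q03_size hT hS hμ hν hc
  have hsz' := Q03_size hT hS hμ hν hc'
  have hDN : T.D ≤ T.N := by
    have h1 := hT.D_le
    have h2 := hT.y0_lt
    omega
  have hD0 := hT.D_pos
  have hW : W0 ^ 2 ≤ T.N := (Nat.le_of_dvd hD0 hT.W0_D).trans hDN
  have hx0 : |M.x0| ≤ (T.N : ℤ) ^ 3 := by
    obtain ⟨c0, h1, h2⟩ := hM.x0_form hT
    rw [h2, abs_mul]
    have h3 : |c0| ≤ (T.N : ℤ) := by
      rw [← Int.natCast_natAbs]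
      have h4 := hT.y0_lt
      exact_mod_cast (by omega : c0.natAbs ≤ T.N)
    have h5 : |((W0 ^ 2 * T.N : ℕ) : ℤ)| ≤ (T.N : ℤ) * T.N := by
      rw [abs_of_nonneg (Int.natCast_nonneg _)]
      exact_mod_cast Nat.mul_le_mul_right _ hW
    calc |c0| * |((W0 ^ 2 * T.N : ℕ) : ℤ)| ≤ (T.N : ℤ) * ((T.N : ℤ) * T.N) :=
          mul_le_mul h3 h5 (abs_nonneg _) (by positivity)
      _ = (T.N : ℤ) ^ 3 := by ring
  -- powers of `N`
  have hp8 : ∀ a : ℕ, a ≤ 8 → (T.N : ℤ) ^ a ≤ (T.N : ℤ) ^ 8 := fun a ha =>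
    pow_le_pow_right₀ (by linarith) ha
  have hp3 : 2 * (T.N : ℤ) ^ 3 ≤ (T.N : ℤ) ^ 4 := by
    have h1 : (0 : ℤ) ≤ (T.N : ℤ) ^ 3 := by positivity
    nlinarith
  have hp4 : 2 * (T.N : ℤ) ^ 4 ≤ (T.N : ℤ) ^ 5 := by
    have h1 : (0 : ℤ) ≤ (T.N : ℤ) ^ 4 := by positivity
    nlinarith
  have hp2 : 2 * (T.N : ℤ) ^ 2 ≤ (T.N : ℤ) ^ 3 := by
    have h1 : (0 : ℤ) ≤ (T.N : ℤ) ^ 2 := by positivity
    nlinarith
  have hp1' : 2 * (T.N : ℤ) ≤ (T.N : ℤ) ^ 2 := by nlinarith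
  -- the integers
  obtain ⟨nn, hnn⟩ : ∃ nn : S.Col → ℤ, ∀ c, nn c =
    ((T.N * M.v * S.prX id μ * S.prY id ν * S.SI T.N c μ ν : ℕ) : ℤ) := ⟨_, fun _ => rfl⟩
  obtain ⟨ee, hee⟩ : ∃ ee : S.Col → ℕ → ℤ, ∀ c i, ee c i =
    (T.D : ℤ) * T.N * S.MiI T.N c μ ν i - (M.x0 - T.D * T.N) * S.SgI T.N c μ ν :=
    ⟨_, fun _ _ => rfl⟩
  obtain ⟨df, hdf⟩ : ∃ df : S.Col → ℕ × ℕ → ℤ, ∀ c w, df c w =
    S.MiI T.N c μ ν w.2 - S.MiI T.N c μ ν w.1 := ⟨_, fun _ _ => rfl⟩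
  obtain ⟨dd, hdd⟩ : ∃ dd : ℕ × ℕ → ℤ, ∀ w, dd w =
    S.MiI T.N c μ ν w.1 * S.SgI T.N c' μ ν - S.MiI T.N c' μ ν w.2 * S.SgI T.N c μ ν :=
    ⟨_, fun _ => rfl⟩
  obtain ⟨L, hL⟩ : ∃ L : Finset ℤ, L = ({nn c, nn c'} : Finset ℤ) ∪
    (((range (S.k + 1) ×ˢ range (S.k + 1)).image (df c)) ∪
    (((range (S.k + 1) ×ˢ range (S.k + 1)).image (df c')) ∪
    (((range (S.k + 1) ×ˢ range (S.k + 1)).image dd) ∪
    (((range (S.k + 1)).image (ee c)) ∪ ((range (S.k + 1)).image (ee c')))))) := ⟨_, rfl⟩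
  have hcard : (L.card : ℝ) ≤ 5 * ((S.k + 1 : ℕ) : ℝ) ^ 2 := by
    have h1 : L.card ≤ 2 + ((S.k + 1) * (S.k + 1) + ((S.k + 1) * (S.k + 1) +
        ((S.k + 1) * (S.k + 1) + ((S.k + 1) + (S.k + 1))))) := by
      rw [hL]
      have hr : (range (S.k + 1)).card = S.k + 1 := card_range _
      have hr2 : (range (S.k + 1) ×ˢ range (S.k + 1)).card = (S.k + 1) * (S.k + 1) := by
        rw [card_product, hr]
      refine (card_union_le _ _).trans (Nat.add_le_add (card_le_two) ?_)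
      refine (card_union_le _ _).trans (Nat.add_le_add (card_image_le.trans hr2.le) ?_)
      refine (card_union_le _ _).trans (Nat.add_le_add (card_image_le.trans hr2.le) ?_)
      refine (card_union_le _ _).trans (Nat.add_le_add (card_image_le.trans hr2.le) ?_)
      exact (card_union_le _ _).trans
        (Nat.add_le_add (card_image_le.trans hr.le) (card_image_le.trans hr.le))
    have h2 : 4 ≤ S.k + 1 := by
      have := hS.k_lo
      omega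
    have h3 : 2 + ((S.k + 1) * (S.k + 1) + ((S.k + 1) * (S.k + 1) +
        ((S.k + 1) * (S.k + 1) + ((S.k + 1) + (S.k + 1))))) ≤ 5 * (S.k + 1) ^ 2 := by
      nlinarith
    exact_mod_cast h1.trans h3
  have hbd : ∀ x ∈ L, Real.log (x.natAbs : ℝ) ≤ 8 * Real.log T.N := by
    intro x hx
    refine Q05_log (by omega) ?_
    have hA1 : ∀ c0 : S.Col, S.SI T.N c0 μ ν ≤ T.N → |nn c0| ≤ (T.N : ℤ) ^ 8 := by
      intro c0 h0
      rw [hnn, abs_of_nonneg (Int.natCast_nonneg _)]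
      have h1 : T.N * M.v * S.prX id μ * S.prY id ν * S.SI T.N c0 μ ν ≤
          T.N * T.N * T.N * T.N := by
        rw [mul_assoc (T.N * M.v)]
        exact Nat.mul_le_mul (Nat.mul_le_mul (Nat.mul_le_mul le_rfl hM.v_le) hPN) h0
      have h2 : ((T.N * M.v * S.prX id μ * S.prY id ν * S.SI T.N c0 μ ν : ℕ) : ℤ) ≤
          (T.N : ℤ) * T.N * T.N * T.N := by exact_mod_cast h1
      calc _ ≤ _ := h2
        _ = (T.N : ℤ) ^ 4 := by ring
        _ ≤ _ := hp8 4 (by norm_num)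
    have hA2 : ∀ c0 : S.Col, (∀ i ≤ S.k, |S.MiI T.N c0 μ ν i| ≤ T.N) → ∀ w : ℕ × ℕ, w.1 ≤ S.k →
        w.2 ≤ S.k → |df c0 w| ≤ (T.N : ℤ) ^ 8 := by
      intro c0 h0 w hw1 hw2
      rw [hdf]
      have h1 := abs_sub (S.MiI T.N c0 μ ν w.2) (S.MiI T.N c0 μ ν w.1)
      have h2 := h0 _ hw1
      have h3 := h0 _ hw2
      have h4 := hp8 2 (by norm_num)
      linarith
    have hA3 : ∀ w : ℕ × ℕ, w.1 ≤ S.k → w.2 ≤ S.k → |dd w| ≤ (T.N : ℤ) ^ 8 := by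
      intro w hw1 hw2
      rw [hdd]
      have h1 := abs_sub (S.MiI T.N c μ ν w.1 * S.SgI T.N c' μ ν)
        (S.MiI T.N c' μ ν w.2 * S.SgI T.N c μ ν)
      rw [abs_mul, abs_mul] at h1
      have h2 : |S.MiI T.N c μ ν w.1| * |S.SgI T.N c' μ ν| ≤ (T.N : ℤ) * T.N :=
        mul_le_mul (hsz.2.2 _ hw1) hsz'.1 (abs_nonneg _) (by positivity)
      have h3 : |S.MiI T.N c' μ ν w.2| * |S.SgI T.N c μ ν| ≤ (T.N : ℤ) * T.N :=
        mul_le_mul (hsz'.2.2 _ hw2) hsz.1 (abs_nonneg _) (by positivity)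
      have h4 := hp8 3 (by norm_num)
      have h5 : (T.N : ℤ) * T.N = (T.N : ℤ) ^ 2 := by ring
      rw [h5] at h2 h3
      linarith
    have hA4 : ∀ c0 : S.Col, (∀ i ≤ S.k, |S.MiI T.N c0 μ ν i| ≤ T.N) →
        |S.SgI T.N c0 μ ν| ≤ T.N → ∀ i ≤ S.k, |ee c0 i| ≤ (T.N : ℤ) ^ 8 := by
      intro c0 h0 h0' i hi
      rw [hee]
      have h1 := abs_sub ((T.D : ℤ) * T.N * S.MiI T.N c0 μ ν i)
        ((M.x0 - T.D * T.N) * S.SgI T.N c0 μ ν)
      rw [abs_mul ((T.D : ℤ) * T.N) (S.MiI T.N c0 μ ν i),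
        abs_mul (M.x0 - T.D * T.N) (S.SgI T.N c0 μ ν)] at h1
      have hDz : (T.D : ℤ) ≤ T.N := by exact_mod_cast hDN
      have h2 : |(T.D : ℤ) * T.N| ≤ (T.N : ℤ) ^ 2 := by
        rw [abs_of_nonneg (by positivity)]
        calc (T.D : ℤ) * T.N ≤ (T.N : ℤ) * T.N := mul_le_mul_of_nonneg_right hDz (by positivity)
          _ = (T.N : ℤ) ^ 2 := by ring
      have h3 : |(T.D : ℤ) * T.N| * |S.MiI T.N c0 μ ν i| ≤ (T.N : ℤ) ^ 2 * T.N :=
        mul_le_mul h2 (h0 i hi) (abs_nonneg _) (by positivity)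
      have h4 : |M.x0 - T.D * T.N| ≤ (T.N : ℤ) ^ 3 + (T.N : ℤ) ^ 2 :=
        (abs_sub _ _).trans (add_le_add hx0 h2)
      have h5 : |M.x0 - T.D * T.N| * |S.SgI T.N c0 μ ν| ≤
          ((T.N : ℤ) ^ 3 + (T.N : ℤ) ^ 2) * T.N :=
        mul_le_mul h4 h0' (abs_nonneg _) (by positivity)
      have h6 : (T.N : ℤ) ^ 2 * T.N = (T.N : ℤ) ^ 3 := by ring
      have h7 : ((T.N : ℤ) ^ 3 + (T.N : ℤ) ^ 2) * T.N = (T.N : ℤ) ^ 4 + (T.N : ℤ) ^ 3 := by ring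
      rw [h6] at h3
      rw [h7] at h5
      have h8 := hp8 5 (by norm_num)
      linarith
    rw [hL] at hx
    simp only [mem_union, mem_insert, mem_singleton, mem_image, mem_product, mem_range] at hx
    rcases hx with (hx | hx) | ⟨w, ⟨hw1, hw2⟩, hx⟩ | ⟨w, ⟨hw1, hw2⟩, hx⟩ | ⟨w, ⟨hw1, hw2⟩, hx⟩ |
      ⟨i, hi, hx⟩ | ⟨i, hi, hx⟩
    · rw [hx]; exact hA1 c hsz.2.1
    · rw [hx]; exact hA1 c' hsz'.2.1
    · rw [← hx]; exact hA2 c hsz.2.2 w (by omega) (by omega)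
    · rw [← hx]; exact hA2 c' hsz'.2.2 w (by omega) (by omega)
    · rw [← hx]; exact hA3 w (by omega) (by omega)
    · rw [← hx]; exact hA4 c hsz.2.2 hsz.1 i (by omega)
    · rw [← hx]; exact hA4 c' hsz'.2.2 hsz'.1 i (by omega)
  -- the integers are not zero
  have hv0 := hM.v_pos
  have hz1 : ∀ c0 : S.Col, 0 < S.SI T.N c0 μ ν → nn c0 ≠ 0 := by
    intro c0 h0
    rw [hnn]
    have h1 : 0 < T.N * M.v * S.prX id μ * S.prY id ν * S.SI T.N c0 μ ν := by positivity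
    exact_mod_cast h1.ne'
  obtain ⟨q, hq⟩ : ∃ q : ℕ, q = p1 ^ (padicValNat p1 T.D + 1) := ⟨_, rfl⟩
  have hcq : (S.prX id μ * S.prY id ν).Coprime q := by
    rw [hq]
    exact Q05_cop hS hμ hν hA _
  have hVu : ∀ c0 : S.Col, IsUnit (S.VI T.N c0 μ ν : ZMod q) := fun c0 =>
    (ZMod.isUnit_iff_coprime _ _).mpr (Q03_V hcq)
  unfold Msr.co at hco
  rw [← hq] at hco
  have hz3 : ∀ w : ℕ × ℕ, w.1 ≤ S.k → w.2 ≤ S.k → dd w ≠ 0 := by
    intro w hw1 hw2 h0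
    apply hco
    left
    refine ⟨w.1, hw1, w.2, hw2, ?_⟩
    rw [hdd] at h0
    have h1 : ((S.MiI T.N c μ ν w.1 * S.SgI T.N c' μ ν -
        S.MiI T.N c' μ ν w.2 * S.SgI T.N c μ ν : ℤ) : ZMod q) = 0 := by
      rw [h0, Int.cast_zero]
    rw [Int.cast_sub, Int.cast_mul, Int.cast_mul, Q03_Mi hcq hw1, Q03_Mi hcq hw2, Q03_Sg hcq,
      Q03_Sg hcq, sub_eq_zero] at h1
    have h2 : (S.VI T.N c μ ν : ZMod q) * (S.VI T.N c' μ ν : ZMod q) *
        (Loc.Mi (aq q μ.1) (aq q ν.1) (S.pq T.N q c μ ν) w.1 *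
          Loc.Sg (S.k + 1) (aq q μ.1) (aq q ν.1) (S.pq T.N q c' μ ν)) =
        (S.VI T.N c μ ν : ZMod q) * (S.VI T.N c' μ ν : ZMod q) *
        (Loc.Mi (aq q μ.1) (aq q ν.1) (S.pq T.N q c' μ ν) w.2 *
          Loc.Sg (S.k + 1) (aq q μ.1) (aq q ν.1) (S.pq T.N q c μ ν)) := by
      linear_combination h1
    exact ((hVu c).mul (hVu c')).mul_left_cancel h2
  have hz4 : ∀ c0 : S.Col, c0 = c ∨ c0 = c' → M.t2 → ∀ i ≤ S.k, ee c0 i ≠ 0 := by
    intro c0 hc0 h2 i hi h0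
    rw [hee] at h0
    by_cases hx : M.x0 = 0
    · have h3 : 0 < S.SgI T.N c0 μ ν ∧ 0 < S.MiI T.N c0 μ ν i := by
        have key : ∀ c1 : S.Col, (0 < S.SgI T.N c1 μ ν ∧ 0 < S.SI T.N c1 μ ν ∧
            0 < S.MiI T.N c1 μ ν 0 ∧ ∀ i j, i < j → j ≤ S.k →
            S.MiI T.N c1 μ ν i < S.MiI T.N c1 μ ν j) →
            0 < S.SgI T.N c1 μ ν ∧ 0 < S.MiI T.N c1 μ ν i := by
          intro c1 h
          refine ⟨h.1, ?_⟩
          rcases Nat.eq_zero_or_pos i with h4 | h4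
          · rw [h4]; exact h.2.2.1
          · exact h.2.2.1.trans (h.2.2.2 0 i h4 hi)
        rcases hc0 with rfl | rfl
        · exact key _ hpos
        · exact key _ hpos'
      rw [hx] at h0
      have h5 : (T.D : ℤ) * T.N * (S.MiI T.N c0 μ ν i + S.SgI T.N c0 μ ν) = 0 := by
        linear_combination h0
      have h6 : (0 : ℤ) < (T.D : ℤ) * T.N := by
        have h7 : 0 < T.D * T.N := Nat.mul_pos hD0 (by omega)
        exact_mod_cast h7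
      have h8 : 0 < (T.D : ℤ) * T.N * (S.MiI T.N c0 μ ν i + S.SgI T.N c0 μ ν) :=
        mul_pos h6 (by linarith [h3.1, h3.2])
      linarith
    · have h3 := Q05_cast (c := c0) (N := T.N) hcq hi T.D M.x0
      rw [h0, Int.cast_zero] at h3
      have h4 := ((hVu c0).mul_right_eq_zero).mp h3.symm
      apply hco
      right
      refine ⟨h2, hx, ?_⟩
      rcases hc0 with rfl | rfl
      · exact Or.inl ⟨i, hi, h4⟩
      · exact Or.inr ⟨i, hi, h4⟩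
  -- the covering
  have hPL : ∀ p ∈ T.PL, p.Prime := by
    intro p hp
    unfold Dat.PL at hp
    rw [mem_filter] at hp
    exact hp.2.1
  have hsp : ∀ c0 : S.Col, c0 = c ∨ c0 = c' → 0 < S.SI T.N c0 μ ν → nn c0 ∈ L →
      (∀ i ≤ S.k, ee c0 i ∈ L) → ∀ p ∈ T.PL, p ∈ S.spec T M.v M.x0 M.t2 c0 μ ν →
      ∃ x ∈ L, x ≠ 0 ∧ (p : ℤ) ∣ x := by
    intro c0 hc0 h0 hn1 he1 p hp hs
    by_cases hd : p ∣ T.N * M.v * S.prX id μ * S.prY id ν * S.SI T.N c0 μ ν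
    · refine ⟨nn c0, hn1, hz1 c0 h0, ?_⟩
      rw [hnn]
      exact_mod_cast hd
    · unfold MS.spec at hs
      rw [mem_filter] at hs
      rcases hs.2 with h1 | ⟨h1, i, hi, h2⟩
      · exact absurd h1 hd
      · refine ⟨ee c0 i, he1 i hi, hz4 c0 hc0 h1 i hi, ?_⟩
        have hcp : (S.prX id μ * S.prY id ν).Coprime p := by
          rw [Nat.coprime_comm, (hPL p hp).coprime_iff_not_dvd]
          intro h3
          apply hd
          have h4 : T.N * M.v * S.prX id μ * S.prY id ν * S.SI T.N c0 μ ν =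
              (S.prX id μ * S.prY id ν) * (T.N * M.v * S.SI T.N c0 μ ν) := by ring
          rw [h4]
          exact Dvd.dvd.mul_right h3 _
        rw [hee, ← ZMod.intCast_zmod_eq_zero_iff_dvd, Q05_cast hcp hi, h2, mul_zero]
  have hcov : ∀ p ∈ M.exc T c c' μ ν, ∃ x ∈ L, x ≠ 0 ∧ (p : ℤ) ∣ x := by
    intro p hp
    unfold Msr.exc at hp
    rw [mem_filter] at hp
    obtain ⟨hpL, hpe⟩ := hp
    by_contra hno
    have hmem1 : nn c ∈ L := by
      rw [hL]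
      exact mem_union_left _ (mem_insert_self _ _)
    have hmem1' : nn c' ∈ L := by
      rw [hL]
      exact mem_union_left _ (mem_insert_of_mem (mem_singleton_self _))
    have hmem2 : ∀ w : ℕ × ℕ, w.1 ≤ S.k → w.2 ≤ S.k → df c w ∈ L ∧ df c' w ∈ L ∧ dd w ∈ L := by
      intro w hw1 hw2
      have hw : w ∈ range (S.k + 1) ×ˢ range (S.k + 1) := by
        rw [mem_product, mem_range, mem_range]
        exact ⟨by omega, by omega⟩
      rw [hL]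
      refine ⟨mem_union_right _ (mem_union_left _ (mem_image_of_mem _ hw)),
        mem_union_right _ (mem_union_right _ (mem_union_left _ (mem_image_of_mem _ hw))),
        mem_union_right _ (mem_union_right _ (mem_union_right _
          (mem_union_left _ (mem_image_of_mem _ hw))))⟩
    have hmem4 : ∀ i ≤ S.k, ee c i ∈ L ∧ ee c' i ∈ L := by
      intro i hi
      have hw : i ∈ range (S.k + 1) := by
        rw [mem_range]
        omega
      rw [hL]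
      exact ⟨mem_union_right _ (mem_union_right _ (mem_union_right _ (mem_union_right _
          (mem_union_left _ (mem_image_of_mem _ hw))))),
        mem_union_right _ (mem_union_right _ (mem_union_right _ (mem_union_right _
          (mem_union_right _ (mem_image_of_mem _ hw)))))⟩
    have hs : p ∉ S.spec T M.v M.x0 M.t2 c μ ν := fun h =>
      hno (hsp c (Or.inl rfl) hpos.2.1 hmem1 (fun i hi => (hmem4 i hi).1) p hpL h)
    have hs' : p ∉ S.spec T M.v M.x0 M.t2 c' μ ν := fun h =>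
      hno (hsp c' (Or.inr rfl) hpos'.2.1 hmem1' (fun i hi => (hmem4 i hi).2) p hpL h)
    refine hpe ⟨?_, ?_, ?_⟩
    · refine Q04_card hT hS hM hμ hν hpL hs fun i j hij hj hd => hno ?_
      refine ⟨df c (i, j), (hmem2 (i, j) (by simp only; omega) hj).1, ?_, ?_⟩
      · rw [hdf]
        have := hpos.2.2.2 i j hij hj
        simp only
        omega
      · rw [hdf]
        exact hd
    · refine Q04_card hT hS hM hμ hν hpL hs' fun i j hij hj hd => hno ?_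
      refine ⟨df c' (i, j), (hmem2 (i, j) (by simp only; omega) hj).2.1, ?_, ?_⟩
      · rw [hdf]
        have := hpos'.2.2.2 i j hij hj
        simp only
        omega
      · rw [hdf]
        exact hd
    · refine Q04_disj hT hS hM hμ hν hpL hs hs' fun i hi j hj hd => hno ?_
      refine ⟨dd (i, j), (hmem2 (i, j) hi hj).2.2, hz3 (i, j) hi hj, ?_⟩
      rw [hdd]
      exact hd
  have hE : ∀ p ∈ M.exc T c c' μ ν, p.Prime := by
    intro p hp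
    unfold Msr.exc at hp
    rw [mem_filter] at hp
    exact hPL p hp.1
  have h1 := Q05_count (M.exc T c c' μ ν) hE L (8 * Real.log T.N) (by positivity) hbd hcov
  refine h1.trans ?_
  calc (L.card : ℝ) * (2 * (8 * Real.log T.N)) ≤
        (5 * ((S.k + 1 : ℕ) : ℝ) ^ 2) * (2 * (8 * Real.log T.N)) :=
        mul_le_mul_of_nonneg_right hcard (by positivity)
    _ = 80 * ((S.k + 1 : ℕ) : ℝ) ^ 2 * Real.log T.N := by ring
    _ ≤ 100 * ((S.k + 1 : ℕ) : ℝ) ^ 2 * Real.log T.N :=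
        mul_le_mul_of_nonneg_right (mul_le_mul_of_nonneg_right (by norm_num) (by positivity)) hlog

end Pool.Agent.Lib.T3
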