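import Pool.Agent.Lib.MP_7b7e48_nt.T3.P07
import Pool.Agent.Lib.MP_7b7e48_nt.T3.P08
import Pool.Agent.Lib.MP_7b7e48_nt.T3.P13
import Pool.Agent.Lib.MP_7b7e48_nt.T3.Q05
import Pool.Agent.Lib.MP_7b7e48_nt.TC.Q22

/-!
# P09: the second moments of the large sieves for the pair `(X, X')`, one pair of colourings

`TLA`: differences `Ll - Ml` of the large sieve of `M`, products `Ll' Ll'` for `M'`. `TLB`: differences `Ll' - Ml'` for `M'`, nothing for `M` (`Ψ = 1`). Adapt the proof of `TC.Q22`.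
`G x x' = cg W0 x x' FF2 c d FF2 c' d'` (`0 ≤ G ≤ 1`, periodic modulo `q = qd (d ∪ d')` in both variables: `P02_FF`, `Q17_qd`, `W0 ∣ q`), `C = 1`, `q ≤ W0 y0^(24 b1)`, `RL = (2 (NJ z + 1) z^(24 b2))² ≥ 1`.
* `TLA`: `P05b` with `Ψ` = the product of the differences (`Q06`, `Θ = Th c c'`, `ε = N^(-δ1) W RL`), `Ψ' = Ll' Ll'` (`P07` for `M'`, `Θ' = 2 Th0' + 8`, `ε' = 10 N^(-δ1) W' RL`); error `≤ q² V N^(-δ1) W W' (10 RL Th0 + (2 Th0' + 8) RL + 10 RL²)` (`Th ≤ Th0`, `N^(-δ1) ≤ 1`).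
  Then `Th ≤ Th0 (th0 + ind co)` (`Q05` as in `Q22`), `P04_co` with `Kp = ¬ badpair` for each `d, d' ∈ DS b1` (interchange the sum over `μ, ν` with `ax2`: `P05_ax_sum`, `P05_ax`), `P03_a`, `Q19` (`T3.Q19`); second statement: `Th ≤ Th0 (1 + ind co)`, `P04_co` with `ϑ = 1`, `lco ≤ 1`, `∏_{base} l2 ≤ U6`.
* `TLB`: `P05b` with `Ψ = 1` (`hM.eq`: `Θ = 1`, `ε = N^(-δ1) W`), `Ψ'` = the product of the differences of `M'` (`Q06` for `M'`), `Th' ≤ Th0' (th0 + ind co')`, `co'` the coincidence condition of `M'`: pass to the weights of `M'` by `m1 ≤ 4 m1'` (`P13_ratio`), use `P04_co`, `Q19` for `M'`, and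
  `tot1' ≤ 4 tot1` (`P13_tot`): factor `16`. (`gq1`: `∑` over the classes as in `P05b`.)
-/

set_option autoImplicit false

open Finset
open Pool.Agent.Lib.GT (NJ)

namespace Pool.Agent.Lib.TC

/-- the square of the length of the large sieves -/
noncomputable def RL (T : Dat) (b2 : ℕ) : ℝ := (2 * ((NJ T.z : ℝ) + 1) * (T.z : ℝ) ^ (24 * b2)) ^ 2

noncomputable def Msr.TLA {S : MS} (M M' : Msr S) (T : Dat) (W0 b2 : ℕ) (s s' t t' : Bool) (c c' : S.Col) (d d' : Finset ℕ) : ℝ :=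
  ∑ μ ∈ S.MX, ∑ ν ∈ S.MY, ind (M.gp2 M' T μ ν) * M.S2 M' μ ν fun n n' =>
    cg W0 (M.X μ ν n) (M'.X μ ν n') * (S.FF2 T c μ ν (M.X μ ν n) (M'.X μ ν n') d * S.FF2 T c' μ ν (M.X μ ν n) (M'.X μ ν n') d') *
      (((M.Ll T s b2 c μ ν (M.X μ ν n) - M.Ml T s b2) * (M.Ll T s' b2 c' μ ν (M.X μ ν n) - M.Ml T s' b2)) *
        (M'.Ll T t b2 c μ ν (M'.X μ ν n') * M'.Ll T t' b2 c' μ ν (M'.X μ ν n')))

noncomputable def Msr.TLB {S : MS} (M M' : Msr S) (T : Dat) (W0 b2 : ℕ) (t t' : Bool) (c c' : S.Col) (d d' : Finset ℕ) : ℝ :=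
  ∑ μ ∈ S.MX, ∑ ν ∈ S.MY, ind (M.gp2 M' T μ ν) * M.S2 M' μ ν fun n n' =>
    cg W0 (M.X μ ν n) (M'.X μ ν n') * (S.FF2 T c μ ν (M.X μ ν n) (M'.X μ ν n') d * S.FF2 T c' μ ν (M.X μ ν n) (M'.X μ ν n') d') *
      ((M'.Ll T t b2 c μ ν (M'.X μ ν n') - M'.Ml T t b2) * (M'.Ll T t' b2 c' μ ν (M'.X μ ν n') - M'.Ml T t' b2))

/-- the additive error of one pair `d, d'` -/
noncomputable def Msr.er2L {S : MS} (M M' : Msr S) (T : Dat) (W0 b1 b2 : ℕ) (δ1 V : ℝ) : ℝ :=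
  M.er2 M' T W0 b1 δ1 V * (10 * RL T b2 * M.Th0 T + RL T b2 * (2 * M'.Th0 T + 8) + 10 * RL T b2 ^ 2)

end Pool.Agent.Lib.TC

namespace Pool.Agent.Lib.T3

open Pool.Agent.Lib.TC

variable {S : MS} {T : Dat} {W0 : ℕ} {Z : Fin (S.k + 1) → ℕ} {M M' : Msr S} {δ0 δ1 : ℝ} {p1 Q0 : ℕ} {η η' Cα V : ℝ} {c c' : S.Col} {b1 b2 : ℕ}

/-! ### auxiliary lemmas -/

private theorem p9_sub {d : Finset ℕ} (hd : d ∈ T.DS b1) : d ⊆ T.PS := by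
  unfold Dat.DS at hd
  exact mem_powerset.1 (mem_filter.1 hd).1

private theorem p9_tot (hS : S.OK3 T W0 Z) (hM : M.OK3 T W0 δ0 δ1) : 0 ≤ M.tot1 := by
  unfold Msr.tot1
  exact sum_nonneg fun μ hμ => sum_nonneg fun ν hν => QAx_m1 hS hM hμ hν

private theorem p9_sumle (hS : S.OK3 T W0 Z) (hM : M.OK3 T W0 δ0 δ1) {f g : S.TX → S.TY → ℝ}
    (h : ∀ μ ∈ S.MX, ∀ ν ∈ S.MY, f μ ν ≤ g μ ν) :
    ∑ μ ∈ S.MX, ∑ ν ∈ S.MY, M.m1 μ ν * f μ ν ≤ ∑ μ ∈ S.MX, ∑ ν ∈ S.MY, M.m1 μ ν * g μ ν :=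
  sum_le_sum fun μ hμ => sum_le_sum fun ν hν => mul_le_mul_of_nonneg_left (h μ hμ ν hν) (QAx_m1 hS hM hμ hν)

private theorem p9_const (C : ℝ) : ∑ μ ∈ S.MX, ∑ ν ∈ S.MY, M.m1 μ ν * C = M.tot1 * C := by
  unfold Msr.tot1
  rw [sum_mul]
  exact sum_congr rfl fun μ _ => by rw [sum_mul]

private theorem p9_V3 (hM : M.OK3 T W0 δ0 δ1) : 0 ≤ M.V3 T := by
  unfold Msr.V3
  refine prod_nonneg fun p hp => ?_
  unfold Dat.PL at hp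
  rw [mem_filter] at hp
  have h := (hM.g_large p hp.2.1 hp.2.2).1
  positivity

private theorem p9_Th0 (hM : M.OK3 T W0 δ0 δ1) : 0 ≤ M.Th0 T := by
  unfold Msr.Th0
  exact mul_nonneg (by positivity) (p9_V3 hM)

private theorem p9_Th (hM : M.OK3 T W0 δ0 δ1) (μ : S.TX) (ν : S.TY) : 0 ≤ M.Th T c c' μ ν ∧ M.Th T c c' μ ν ≤ M.Th0 T := by
  have hV := p9_V3 hM
  have h1 : 0 ≤ min 1 ((3 * ((M.exc T c c' μ ν).card : ℝ) + 1) * (2 * ((S.k + 1 : ℕ) : ℝ) / T.y0)) :=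
    le_min zero_le_one (by positivity)
  have h2 : min 1 ((3 * ((M.exc T c c' μ ν).card : ℝ) + 1) * (2 * ((S.k + 1 : ℕ) : ℝ) / T.y0)) ≤ 1 := min_le_left _ _
  unfold Msr.Th Msr.Th0
  refine ⟨mul_nonneg (mul_nonneg (by positivity) h1) hV, ?_⟩
  refine mul_le_mul_of_nonneg_right ?_ hV
  exact mul_le_of_le_one_right (by positivity) h2

private theorem p9_th0 (hT : T.OK W0) : 0 ≤ th0 S T := by
  have hN : (1 : ℝ) ≤ T.N := by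
    have := hT.N_pos
    exact_mod_cast (by omega : 1 ≤ T.N)
  have h := Real.log_nonneg hN
  unfold th0
  positivity

private theorem p9_Th1 (hT : T.OK W0) (hS : S.OK3 T W0 Z) (hA : S.An3 T p1 Q0 η Cα) (hM : M.OK3 T W0 δ0 δ1) (hc : c ∈ S.CC) (hc' : c' ∈ S.CC)
    {μ : S.TX} {ν : S.TY} (hμ : μ ∈ S.MX) (hν : ν ∈ S.MY) :
    M.Th T c c' μ ν ≤ M.Th0 T * (th0 S T + ind (M.co T p1 c c' μ ν)) := by
  have hV := p9_V3 hM
  have hth := p9_th0 (S := S) hT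
  have h1 : min 1 ((3 * ((M.exc T c c' μ ν).card : ℝ) + 1) * (2 * ((S.k + 1 : ℕ) : ℝ) / T.y0)) ≤
      th0 S T + ind (M.co T p1 c c' μ ν) := by
    by_cases hco : M.co T p1 c c' μ ν
    · rw [ind_true hco]
      exact (min_le_left _ _).trans (by linarith)
    · rw [ind_false hco, add_zero]
      refine (min_le_right _ _).trans ?_
      unfold th0
      refine mul_le_mul_of_nonneg_right ?_ (by positivity)
      have h2 := Q05 hT hS hA hM hμ hν hc hc' hco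
      linarith
  unfold Msr.Th Msr.Th0
  have h2 := mul_le_mul_of_nonneg_left h1 (show 0 ≤ 4 * ((NJ T.z : ℝ) + 1) ^ 2 * M.V3 T from mul_nonneg (by positivity) hV)
  calc _ = 4 * ((NJ T.z : ℝ) + 1) ^ 2 * M.V3 T * min 1 ((3 * ((M.exc T c c' μ ν).card : ℝ) + 1) * (2 * ((S.k + 1 : ℕ) : ℝ) / T.y0)) := by ring
    _ ≤ _ := h2

private theorem p9_z (hT : T.OK W0) : 1 ≤ T.z := by
  have h1 := hT.y0_lt
  omega

private theorem p9_RL (hT : T.OK W0) : 1 ≤ RL T b2 := by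
  unfold RL
  refine one_le_pow₀ ?_
  have h1 : (0 : ℝ) ≤ NJ T.z := Nat.cast_nonneg _
  have h2 : (1 : ℝ) ≤ 2 * ((NJ T.z : ℝ) + 1) := by linarith
  have hzr : (1 : ℝ) ≤ (T.z : ℝ) ^ (24 * b2) := one_le_pow₀ (by exact_mod_cast p9_z hT)
  calc (1 : ℝ) = 1 * 1 := (one_mul 1).symm
    _ ≤ 2 * ((NJ T.z : ℝ) + 1) * (T.z : ℝ) ^ (24 * b2) := mul_le_mul h2 hzr zero_le_one (by linarith)

private theorem p9_prod_dvd {ι : Type*} [Fintype ι] (f : ι → ℕ) (y p : ℕ) (hp : p.Prime)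
    (hf : ∀ i, (f i).Prime ∧ y < f i) (h : p ∣ ∏ i, id (f i)) : y < p := by
  obtain ⟨i, -, h1⟩ := (hp.prime.dvd_finsetProd_iff _).1 h
  rw [id, Nat.prime_dvd_prime_iff_eq hp (hf i).1] at h1
  rw [h1]
  exact (hf i).2

private theorem p9_mark_gt (hT : T.OK W0) (hS : S.OK3 T W0 Z) {μ : S.TX} {ν : S.TY} (hμ : μ ∈ S.MX) (hν : ν ∈ S.MY) {p : ℕ}
    (hp : p.Prime) (h : p ∣ S.prX id μ * S.prY id ν) : T.y0 < p := by
  have hz : T.y0 < T.z ^ 2 := by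
    have h1 := hT.y0_lt
    nlinarith
  unfold MS.MX at hμ
  unfold MS.MY at hν
  rw [mem_product, mem_product, Fintype.mem_piFinset, Fintype.mem_piFinset, Fintype.mem_piFinset] at hμ hν
  have a1 : ∀ i, (μ.1 i).Prime ∧ T.y0 < μ.1 i := by
    intro i
    obtain ⟨h1, -, h2, -⟩ := hS.WX_mem i _ (hμ.1 i)
    have := hS.Z_lo i
    exact ⟨h1, by omega⟩
  have a2 : ∀ f, (μ.2.1 f).Prime ∧ T.y0 < μ.2.1 f := by
    intro f
    obtain ⟨h1, -, h2, -⟩ := hS.FX_mem f _ (hμ.2.1 f)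
    exact ⟨h1, h2⟩
  have a3 : ∀ e, (μ.2.2 e).Prime ∧ T.y0 < μ.2.2 e := by
    intro e
    obtain ⟨h1, -, h2, -⟩ := hS.OX_mem e _ (hμ.2.2 e)
    exact ⟨h1, h2⟩
  have b2 : ∀ f, (ν.2.1 f).Prime ∧ T.y0 < ν.2.1 f := by
    intro f
    obtain ⟨h1, -, h2, -⟩ := hS.FY_mem f _ (hν.2.1 f)
    exact ⟨h1, h2⟩
  have b3 : ∀ e, (ν.2.2 e).Prime ∧ T.y0 < ν.2.2 e := by
    intro e
    obtain ⟨h1, -, h2, -⟩ := hS.OY_mem e _ (hν.2.2 e)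
    exact ⟨h1, h2⟩
  rcases hp.dvd_mul.1 h with h | h
  · unfold MS.prX at h
    rcases hp.dvd_mul.1 h with h | h
    · rcases hp.dvd_mul.1 h with h | h
      · exact p9_prod_dvd _ _ _ hp a1 h
      · exact p9_prod_dvd _ _ _ hp a2 h
    · exact p9_prod_dvd _ _ _ hp a3 h
  · unfold MS.prY at h
    rcases hp.dvd_mul.1 h with h | h
    · rcases hp.dvd_mul.1 h with h | h
      · obtain ⟨i, -, h1⟩ := (hp.prime.dvd_finsetProd_iff _).1 h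
        exact hT.y0_lt.trans (hS.WY_big i _ (hν.1 i) p hp h1)
      · exact p9_prod_dvd _ _ _ hp b2 h
    · exact p9_prod_dvd _ _ _ hp b3 h

/-! ### the periodic function -/

private noncomputable def p9_G (S : MS) (T : Dat) (W0 : ℕ) (c c' : S.Col) (z : Finset ℕ × Finset ℕ) (μ : S.TX) (ν : S.TY) (x x' : ℤ) : ℝ :=
  cg W0 x x' * (S.FF2 T c μ ν x x' z.1 * S.FF2 T c' μ ν x x' z.2)

private theorem p9_cg (x x' : ℤ) : 0 ≤ cg W0 x x' ∧ cg W0 x x' ≤ 1 := by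
  unfold cg
  exact ⟨ind_nonneg _, ind_le_one _⟩

private theorem p9_FF (c : S.Col) (μ : S.TX) (ν : S.TY) (x x' : ℤ) (d : Finset ℕ) : 0 ≤ S.FF2 T c μ ν x x' d ∧ S.FF2 T c μ ν x x' d ≤ 1 := by
  unfold MS.FF2
  exact ⟨ind_nonneg _, ind_le_one _⟩

private theorem p9_G_nn (z : Finset ℕ × Finset ℕ) (μ : S.TX) (ν : S.TY) (x x' : ℤ) : 0 ≤ p9_G S T W0 c c' z μ ν x x' :=
  mul_nonneg (p9_cg _ _).1 (mul_nonneg (p9_FF _ _ _ _ _ _).1 (p9_FF _ _ _ _ _ _).1)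

private theorem p9_G_le (z : Finset ℕ × Finset ℕ) (μ : S.TX) (ν : S.TY) (x x' : ℤ) : p9_G S T W0 c c' z μ ν x x' ≤ 1 := by
  unfold p9_G
  have h1 := p9_FF (T := T) c μ ν x x' z.1
  have h2 := p9_FF (T := T) c' μ ν x x' z.2
  calc cg W0 x x' * (S.FF2 T c μ ν x x' z.1 * S.FF2 T c' μ ν x x' z.2) ≤ 1 * (1 * 1) :=
        mul_le_mul (p9_cg _ _).2 (mul_le_mul h1.2 h2.2 h2.1 zero_le_one) (mul_nonneg h1.1 h2.1) zero_le_one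
    _ = 1 := by norm_num

private theorem p9_cg_per {d : Finset ℕ} {x y x' y' : ℤ} (hx : x ≡ y [ZMOD T.qd W0 d]) (hx' : x' ≡ y' [ZMOD T.qd W0 d]) :
    cg W0 x x' = cg W0 y y' := by
  have h1 : x ≡ y [ZMOD (W0 : ℤ)] := hx.of_dvd (Int.natCast_dvd_natCast.2 (QAx_W0_dvd d))
  have h2 : x' ≡ y' [ZMOD (W0 : ℤ)] := hx'.of_dvd (Int.natCast_dvd_natCast.2 (QAx_W0_dvd d))
  have h3 : (IsCoprime x (W0 : ℤ) ∧ x ≡ x' [ZMOD W0]) ↔ (IsCoprime y (W0 : ℤ) ∧ y ≡ y' [ZMOD W0]) :=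
    and_congr (QAx_cop hx) ⟨fun h => h1.symm.trans (h.trans h2), fun h => h1.trans (h.trans h2.symm)⟩
  unfold cg
  rw [propext h3]

private theorem p9_G_per (hT : T.OK W0) {z : Finset ℕ × Finset ℕ} (hz : z ∈ T.DS b1 ×ˢ T.DS b1) (μ : S.TX) (ν : S.TY) {x y x' y' : ℤ}
    (hx : x ≡ y [ZMOD T.qd W0 (z.1 ∪ z.2)]) (hx' : x' ≡ y' [ZMOD T.qd W0 (z.1 ∪ z.2)]) :
    p9_G S T W0 c c' z μ ν x x' = p9_G S T W0 c c' z μ ν y y' := by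
  obtain ⟨hd, hd'⟩ := mem_product.1 hz
  have hu : z.1 ∪ z.2 ⊆ T.PS := union_subset (p9_sub hd) (p9_sub hd')
  unfold p9_G
  rw [P02_FF hT subset_union_left hu hx hx', P02_FF hT subset_union_right hu hx hx', p9_cg_per hx hx']

private noncomputable def p9_K (S : MS) (T : Dat) (W0 : ℕ) (c c' : S.Col) (a : S.TX → S.TY → ℝ) (z : Finset ℕ × Finset ℕ) (x x' : ℤ) : ℝ :=
  ∑ μ ∈ S.MX, ∑ ν ∈ S.MY, a μ ν * p9_G S T W0 c c' z μ ν x x'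

private theorem p9_K_mono {a b : S.TX → S.TY → ℝ} (h : ∀ μ ∈ S.MX, ∀ ν ∈ S.MY, a μ ν ≤ b μ ν) (z : Finset ℕ × Finset ℕ) (x x' : ℤ) :
    p9_K S T W0 c c' a z x x' ≤ p9_K S T W0 c c' b z x x' := by
  unfold p9_K
  exact sum_le_sum fun μ hμ => sum_le_sum fun ν hν => mul_le_mul_of_nonneg_right (h μ hμ ν hν) (p9_G_nn _ _ _ _ _)

private theorem p9_ax_K (q : ℕ) (a : S.TX → S.TY → ℝ) (z : Finset ℕ × Finset ℕ) :
    M.ax2 M' q (p9_K S T W0 c c' a z) = ∑ μ ∈ S.MX, ∑ ν ∈ S.MY, a μ ν * M.ax2 M' q (p9_G S T W0 c c' z μ ν) := by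
  have h1 : p9_K S T W0 c c' a z = fun x x' => ∑ i ∈ S.MX ×ˢ S.MY, a i.1 i.2 * p9_G S T W0 c c' z i.1 i.2 x x' := by
    funext x x'
    unfold p9_K
    rw [sum_product]
  rw [h1, P05_ax_sum (S.MX ×ˢ S.MY) (fun i => a i.1 i.2) (fun i => p9_G S T W0 c c' z i.1 i.2), sum_product]

private theorem p9_sumz (hT : T.OK W0) (hM : M.OK3 T W0 δ0 δ1) (hM' : M'.OK3 T W0 δ0 δ1) {B : ℝ} (hB0 : 0 ≤ B) (a : S.TX → S.TY → ℝ)
    (hB : ∀ x x' : ℤ, ∑ z ∈ T.DS b1 ×ˢ T.DS b1, p9_K S T W0 c c' a z x x' ≤ B) :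
    ∑ z ∈ T.DS b1 ×ˢ T.DS b1, M.ax2 M' (T.qd W0 (z.1 ∪ z.2)) (p9_K S T W0 c c' a z) ≤ B := by
  obtain ⟨hPS1, hPS2, -, -⟩ := Q17_qd hT (subset_refl T.PS)
  have h1 : ∀ z ∈ T.DS b1 ×ˢ T.DS b1, M.ax2 M' (T.qd W0 (z.1 ∪ z.2)) (p9_K S T W0 c c' a z) =
      1 * M.ax2 M' (T.qd W0 T.PS) (p9_K S T W0 c c' a z) := by
    intro z hz
    obtain ⟨hd, hd'⟩ := mem_product.1 hz
    rw [one_mul]
    exact P05_ax_ext hM hM' hPS1 hPS2 (QAx_qd_dvd (union_subset (p9_sub hd) (p9_sub hd'))) _ (fun x y x' y' hx hx' => by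
      unfold p9_K
      refine sum_congr rfl fun μ _ => sum_congr rfl fun ν _ => ?_
      rw [p9_G_per hT hz μ ν hx hx'])
  rw [sum_congr rfl h1, ← P05_ax_sum (T.DS b1 ×ˢ T.DS b1) (fun _ => 1) (fun z => p9_K S T W0 c c' a z)]
  refine (P05_ax_mono hM hM' hPS1 hPS2 (G' := fun _ _ => B) (fun x x' => ?_)).trans ?_
  · simp only [one_mul]
    exact hB x x'
  · exact (le_abs_self _).trans (P05_ax hM hM' hPS1 hPS2 (fun _ _ => by rw [abs_of_nonneg hB0]))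

/-! ### the sums over `d`, `d'` for one pair of classes -/

private theorem p9_mid (hT : T.OK W0) (hS : S.OK3 T W0 Z) (hA : S.An3 T p1 Q0 η Cα) (hM : M.OK3 T W0 δ0 δ1) (hη : 0 ≤ η')
    (hsX : ∀ f, SWc T.N T.D M.hX η' Q0 (S.FX f)) (hsY : ∀ f, SWc T.N T.D M.hY η' Q0 (S.FY f))
    (hQ0 : ∀ d ∈ T.DS b1, ∀ d' ∈ T.DS b1, (∏ p ∈ T.base ∪ d ∪ d', p ^ (padicValNat p T.D + 1)) * p1 ≤ Q0)
    (hc : c ∈ S.CC) (hc' : c' ∈ S.CC) (x x' : ℤ) {ϑ : ℝ} (hϑ : 0 ≤ ϑ)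
    (hTh : ∀ μ ∈ S.MX, ∀ ν ∈ S.MY, M.Th T c c' μ ν ≤ M.Th0 T * (ϑ + ind (M.co T p1 c c' μ ν))) :
    ∑ z ∈ T.DS b1 ×ˢ T.DS b1, p9_K S T W0 c c' (fun μ ν => M.m1 μ ν * (ind (¬ S.badpair T 0 T.y0 μ ν) * M.Th T c c' μ ν)) z x x' ≤
      cg W0 x x' * (M.Th0 T * ((1 + η') ^ (2 * S.n0) * ∑ μ ∈ S.MX, ∑ ν ∈ S.MY, M.m1 μ ν * (ind (¬ S.badpair T 0 T.y0 μ ν) *
        (V4 S T * ((∏ p ∈ T.base, S.l2 T c c' μ ν x False False p) * (ϑ + M.lco T p1 c c' μ ν)))))) := by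
  have hE : 0 ≤ (1 + η') ^ (2 * S.n0) := pow_nonneg (by linarith) _
  have hTh0 := p9_Th0 hM
  have hcg := (p9_cg (W0 := W0) x x').1
  have h1 : ∀ z ∈ T.DS b1 ×ˢ T.DS b1, p9_K S T W0 c c' (fun μ ν => M.m1 μ ν * (ind (¬ S.badpair T 0 T.y0 μ ν) * M.Th T c c' μ ν)) z x x' ≤
      cg W0 x x' * (M.Th0 T * ((1 + η') ^ (2 * S.n0) * ∑ μ ∈ S.MX, ∑ ν ∈ S.MY, M.m1 μ ν * (ind (¬ S.badpair T 0 T.y0 μ ν) *
        ((∏ p ∈ T.base ∪ z.1 ∪ z.2, S.l22 T c c' μ ν x x' (p ∈ z.1) (p ∈ z.2) p) * (ϑ + M.lco T p1 c c' μ ν))))) := by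
    intro z hz
    obtain ⟨hd, hd'⟩ := mem_product.1 hz
    have h2 := P04_co (X := x) (X' := x') hT hS hA hM hη hsX hsY hc hc' (p9_sub hd) (p9_sub hd') (hQ0 z.1 hd z.2 hd')
        (fun μ ν => ¬ S.badpair T 0 T.y0 μ ν) (fun μ μ' ν ν' h h' => QAx_Kbad μ μ' ν ν' h h') hϑ
    refine le_trans ?_ (mul_le_mul_of_nonneg_left (mul_le_mul_of_nonneg_left h2 hTh0) hcg)
    have h3 : cg W0 x x' * (M.Th0 T * ∑ μ ∈ S.MX, ∑ ν ∈ S.MY, M.m1 μ ν * (ind (¬ S.badpair T 0 T.y0 μ ν) * (S.FF2 T c μ ν x x' z.1 * S.FF2 T c' μ ν x x' z.2 *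
        (ϑ + ind (M.co T p1 c c' μ ν))))) = ∑ μ ∈ S.MX, ∑ ν ∈ S.MY, M.m1 μ ν * (cg W0 x x' * (M.Th0 T * (ind (¬ S.badpair T 0 T.y0 μ ν) *
          (S.FF2 T c μ ν x x' z.1 * S.FF2 T c' μ ν x x' z.2 * (ϑ + ind (M.co T p1 c c' μ ν)))))) := by
      rw [mul_sum, mul_sum]
      refine sum_congr rfl fun μ _ => ?_
      rw [mul_sum, mul_sum]
      exact sum_congr rfl fun ν _ => by ring
    rw [h3]
    unfold p9_K
    have h9 : ∑ μ ∈ S.MX, ∑ ν ∈ S.MY, M.m1 μ ν * (ind (¬ S.badpair T 0 T.y0 μ ν) * M.Th T c c' μ ν) * p9_G S T W0 c c' z μ ν x x' =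
        ∑ μ ∈ S.MX, ∑ ν ∈ S.MY, M.m1 μ ν * ((ind (¬ S.badpair T 0 T.y0 μ ν) * M.Th T c c' μ ν) * p9_G S T W0 c c' z μ ν x x') :=
      sum_congr rfl fun μ _ => sum_congr rfl fun ν _ => by ring
    rw [h9]
    refine p9_sumle hS hM fun μ hμ ν hν => ?_
    unfold p9_G
    have h4 := hTh μ hμ ν hν
    have h5 := mul_nonneg (p9_FF (T := T) c μ ν x x' z.1).1 (p9_FF (T := T) c' μ ν x x' z.2).1
    have h6 : 0 ≤ ind (¬ S.badpair T 0 T.y0 μ ν) * (cg W0 x x' * (S.FF2 T c μ ν x x' z.1 * S.FF2 T c' μ ν x x' z.2)) :=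
      mul_nonneg (ind_nonneg _) (mul_nonneg hcg h5)
    calc ind (¬ S.badpair T 0 T.y0 μ ν) * M.Th T c c' μ ν * (cg W0 x x' * (S.FF2 T c μ ν x x' z.1 * S.FF2 T c' μ ν x x' z.2)) =
          M.Th T c c' μ ν * (ind (¬ S.badpair T 0 T.y0 μ ν) * (cg W0 x x' * (S.FF2 T c μ ν x x' z.1 * S.FF2 T c' μ ν x x' z.2))) := by ring
      _ ≤ (M.Th0 T * (ϑ + ind (M.co T p1 c c' μ ν))) * (ind (¬ S.badpair T 0 T.y0 μ ν) * (cg W0 x x' * (S.FF2 T c μ ν x x' z.1 * S.FF2 T c' μ ν x x' z.2))) :=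
          mul_le_mul_of_nonneg_right h4 h6
      _ = _ := by ring
  refine (sum_le_sum h1).trans ?_
  rw [← mul_sum, ← mul_sum, ← mul_sum]
  refine mul_le_mul_of_nonneg_left (mul_le_mul_of_nonneg_left (mul_le_mul_of_nonneg_left ?_ hE) hTh0) hcg
  rw [sum_comm]
  refine sum_le_sum fun μ hμ => ?_
  rw [sum_comm]
  refine sum_le_sum fun ν hν => ?_
  rw [← mul_sum]
  refine mul_le_mul_of_nonneg_left ?_ (QAx_m1 hS hM hμ hν)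
  rw [← mul_sum]
  by_cases hb : S.badpair T 0 T.y0 μ ν
  · rw [ind_false (not_not.2 hb), zero_mul, zero_mul]
  · rw [ind_true hb, one_mul, one_mul, ← sum_mul]
    have hsub : T.DS b1 ⊆ T.PS.powerset := by
      unfold Dat.DS
      exact filter_subset _ _
    have h3 : ∑ z ∈ T.DS b1 ×ˢ T.DS b1, ∏ p ∈ T.base ∪ z.1 ∪ z.2, S.l22 T c c' μ ν x x' (p ∈ z.1) (p ∈ z.2) p ≤
        V4 S T * ∏ p ∈ T.base, S.l2 T c c' μ ν x False False p := by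
      have h4 := P03_a (X := x) (X' := x') hT hS hμ hν hb hc hc'
      rw [← sum_product'] at h4
      rw [← mul_assoc] at h4
      refine le_trans ?_ h4
      refine sum_le_sum_of_subset_of_nonneg (product_subset_product hsub hsub) fun z _ _ => ?_
      exact prod_nonneg fun p _ => P03_l_nonneg _ _ _
    have h5 : 0 ≤ ϑ + M.lco T p1 c c' μ ν := add_nonneg hϑ (QAx_lco p1 c c' μ ν).1
    calc _ ≤ (V4 S T * ∏ p ∈ T.base, S.l2 T c c' μ ν x False False p) * (ϑ + M.lco T p1 c c' μ ν) := mul_le_mul_of_nonneg_right h3 h5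
      _ = _ := by ring

private theorem p9_B (hT : T.OK W0) (hS : S.OK3 T W0 Z) (hA : S.An3 T p1 Q0 η Cα) (hM : M.OK3 T W0 δ0 δ1) (hη : 0 ≤ η')
    (hsX : ∀ f, SWc T.N T.D M.hX η' Q0 (S.FX f)) (hsY : ∀ f, SWc T.N T.D M.hY η' Q0 (S.FY f))
    (hQ0 : ∀ d ∈ T.DS b1, ∀ d' ∈ T.DS b1, (∏ p ∈ T.base ∪ d ∪ d', p ^ (padicValNat p T.D + 1)) * p1 ≤ Q0)
    (hc : c ∈ S.CC) (hc' : c' ∈ S.CC) {ϑ : ℝ} (hϑ : 0 ≤ ϑ)
    (hTh : ∀ μ ∈ S.MX, ∀ ν ∈ S.MY, M.Th T c c' μ ν ≤ M.Th0 T * (ϑ + ind (M.co T p1 c c' μ ν))) (B : ℝ) (hB0 : 0 ≤ B)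
    (hB : ∀ x : ℤ, IsCoprime x (W0 : ℤ) → ∑ μ ∈ S.MX, ∑ ν ∈ S.MY, M.m1 μ ν * (ind (¬ S.badpair T 0 T.y0 μ ν) *
        (V4 S T * ((∏ p ∈ T.base, S.l2 T c c' μ ν x False False p) * (ϑ + M.lco T p1 c c' μ ν)))) ≤ M.tot1 * B) (x x' : ℤ) :
    ∑ z ∈ T.DS b1 ×ˢ T.DS b1, p9_K S T W0 c c' (fun μ ν => M.m1 μ ν * (ind (¬ S.badpair T 0 T.y0 μ ν) * M.Th T c c' μ ν)) z x x' ≤
      M.Th0 T * ((1 + η') ^ (2 * S.n0) * (M.tot1 * B)) := by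
  have hE : 0 ≤ (1 + η') ^ (2 * S.n0) := pow_nonneg (by linarith) _
  have hTh0 := p9_Th0 hM
  have htot := p9_tot hS hM
  have hR : 0 ≤ M.Th0 T * ((1 + η') ^ (2 * S.n0) * (M.tot1 * B)) := mul_nonneg hTh0 (mul_nonneg hE (mul_nonneg htot hB0))
  refine (p9_mid hT hS hA hM hη hsX hsY hQ0 hc hc' x x' hϑ hTh).trans ?_
  by_cases hx : IsCoprime x (W0 : ℤ) ∧ x ≡ x' [ZMOD W0]
  · have h1 : cg W0 x x' = 1 := by
      unfold cg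
      exact ind_true hx
    rw [h1, one_mul]
    exact mul_le_mul_of_nonneg_left (mul_le_mul_of_nonneg_left (hB x hx.1) hE) hTh0
  · have h1 : cg W0 x x' = 0 := by
      unfold cg
      exact ind_false hx
    rw [h1, zero_mul]
    exact hR

private theorem p9_main (hT : T.OK W0) (hS : S.OK3 T W0 Z) (hA : S.An3 T p1 Q0 η Cα) (hM : M.OK3 T W0 δ0 δ1) (hη : 0 ≤ η')
    (hsX : ∀ f, SWc T.N T.D M.hX η' Q0 (S.FX f)) (hsY : ∀ f, SWc T.N T.D M.hY η' Q0 (S.FY f))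
    (hQ0 : ∀ d ∈ T.DS b1, ∀ d' ∈ T.DS b1, (∏ p ∈ T.base ∪ d ∪ d', p ^ (padicValNat p T.D + 1)) * p1 ≤ Q0)
    (hc : c ∈ S.CC) (hc' : c' ∈ S.CC) :
    (¬ Fun c c' → ∀ x x' : ℤ, ∑ z ∈ T.DS b1 ×ˢ T.DS b1,
      p9_K S T W0 c c' (fun μ ν => M.m1 μ ν * (ind (¬ S.badpair T 0 T.y0 μ ν) * M.Th T c c' μ ν)) z x x' ≤
      M.Th0 T * ((1 + η') ^ (2 * S.n0) * (M.tot1 * (V4 S T * (MA S T Cα * (th0 S T + 5 * ((S.k + 1 : ℕ) : ℝ) ^ 2 / ((p1 : ℝ) - 1))))))) ∧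
    ∀ x x' : ℤ, ∑ z ∈ T.DS b1 ×ˢ T.DS b1,
      p9_K S T W0 c c' (fun μ ν => M.m1 μ ν * (ind (¬ S.badpair T 0 T.y0 μ ν) * M.Th T c c' μ ν)) z x x' ≤
      M.Th0 T * ((1 + η') ^ (2 * S.n0) * (M.tot1 * (V4 S T * (2 * U6 T W0)))) := by
  have hV4 : 0 ≤ V4 S T := by
    unfold V4
    positivity
  have hU6 : 0 ≤ U6 T W0 := by
    unfold U6
    positivity
  have hMA : 0 ≤ MA S T Cα := by
    unfold MA
    have := hA.Cα_lo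
    positivity
  have hp1' : (0 : ℝ) < (p1 : ℝ) - 1 := by
    have : (2 : ℝ) ≤ p1 := by exact_mod_cast hA.p1_pr.two_le
    linarith
  have hfr : 0 ≤ 5 * ((S.k + 1 : ℕ) : ℝ) ^ 2 / ((p1 : ℝ) - 1) := div_nonneg (by positivity) hp1'.le
  have hth := p9_th0 (S := S) hT
  have hempty : (∅ : Finset ℕ) ∈ T.DS b1 := by
    unfold Dat.DS
    rw [mem_filter]
    refine ⟨empty_mem_powerset _, ?_⟩
    rw [prod_empty]
    exact Nat.one_le_pow _ _ (by have := hT.D_le; have := hT.D_pos; omega)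
  have hQb : (∏ p ∈ T.base, p ^ (padicValNat p T.D + 1)) * p1 ≤ Q0 := by
    have := hQ0 ∅ hempty ∅ hempty
    rwa [union_empty, union_empty] at this
  refine ⟨fun hF => ?_, ?_⟩
  · refine p9_B hT hS hA hM hη hsX hsY hQ0 hc hc' hth (fun μ hμ ν hν => p9_Th1 hT hS hA hM hc hc' hμ hν) _
      (mul_nonneg hV4 (mul_nonneg hMA (add_nonneg hth hfr))) fun x hx => ?_
    have h1 : ∑ μ ∈ S.MX, ∑ ν ∈ S.MY, M.m1 μ ν * (ind (¬ S.badpair T 0 T.y0 μ ν) *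
        (V4 S T * ((∏ p ∈ T.base, S.l2 T c c' μ ν x False False p) * (th0 S T + M.lco T p1 c c' μ ν)))) ≤
        ∑ μ ∈ S.MX, ∑ ν ∈ S.MY, M.m1 μ ν * (V4 S T * ((∏ p ∈ T.base, S.l2 T c c' μ ν x False False p) * (th0 S T + M.lco T p1 c c' μ ν))) := by
      refine p9_sumle hS hM fun μ hμ ν hν => ?_
      have hl : 0 ≤ ∏ p ∈ T.base, S.l2 T c c' μ ν x False False p := prod_nonneg fun p _ => Q18_l2_nonneg _ _ _
      have h2 := (QAx_lco (T := T) (M := M) p1 c c' μ ν).1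
      exact mul_le_of_le_one_left (mul_nonneg hV4 (mul_nonneg hl (add_nonneg hth h2))) (ind_le_one _)
    refine h1.trans ?_
    have h2 : ∑ μ ∈ S.MX, ∑ ν ∈ S.MY, M.m1 μ ν * (V4 S T * ((∏ p ∈ T.base, S.l2 T c c' μ ν x False False p) * (th0 S T + M.lco T p1 c c' μ ν))) =
        V4 S T * ∑ μ ∈ S.MX, ∑ ν ∈ S.MY, M.m1 μ ν * ((∏ p ∈ T.base, S.l2 T c c' μ ν x False False p) * (th0 S T + M.lco T p1 c c' μ ν)) := by
      rw [mul_sum]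
      refine sum_congr rfl fun μ _ => ?_
      rw [mul_sum]
      exact sum_congr rfl fun ν _ => by ring
    rw [h2]
    have h3 := Q19 hT hS hA hM hQb hF hx hth
    refine (mul_le_mul_of_nonneg_left h3 hV4).trans (le_of_eq ?_)
    unfold MA Msr.tot1
    ring
  · refine p9_B hT hS hA hM hη hsX hsY hQ0 hc hc' zero_le_one (fun μ hμ ν hν => ?_) _
      (mul_nonneg hV4 (mul_nonneg zero_le_two hU6)) fun x hx => ?_
    · refine (p9_Th hM μ ν).2.trans ?_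
      exact le_mul_of_one_le_right (p9_Th0 hM) (by linarith [ind_nonneg (M.co T p1 c c' μ ν)])
    · rw [← p9_const]
      refine p9_sumle hS hM fun μ hμ ν hν => ?_
      by_cases hb : S.badpair T 0 T.y0 μ ν
      · rw [ind_false (not_not.2 hb), zero_mul]
        positivity
      · rw [ind_true hb, one_mul]
        have h1 : ∏ p ∈ T.base, S.l2 T c c' μ ν x False False p ≤ U6 T W0 := by
          refine le_trans (prod_le_prod (fun p _ => Q18_l2_nonneg _ _ _) fun p _ => (Q18_l2_le hc hc' False False p).2.1) ?_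
          exact (Q18_base (X := x) hT hS hμ hν hb hx).1
        have h2 := QAx_lco (T := T) (M := M) p1 c c' μ ν
        refine mul_le_mul_of_nonneg_left ?_ hV4
        calc _ ≤ U6 T W0 * 2 := mul_le_mul h1 (by linarith [h2.2]) (add_nonneg zero_le_one h2.1) hU6
          _ = _ := mul_comm _ _

/-! ### from one pair of tuples to the sum -/

private theorem p9_gen (hT : T.OK W0) (hM : M.OK3 T W0 δ0 δ1) (hM' : M'.OK3 T W0 δ0 δ1) (TL : Finset ℕ → Finset ℕ → ℝ)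
    (H : S.TX → S.TY → ℕ → ℕ → ℝ) (Θ : S.TX → S.TY → ℝ) {Cst E B : ℝ} (hC : 0 ≤ Cst) (hE : 0 ≤ E) (hB0 : 0 ≤ B)
    (hTL : ∀ z : Finset ℕ × Finset ℕ, TL z.1 z.2 = ∑ μ ∈ S.MX, ∑ ν ∈ S.MY, ind (M.gp2 M' T μ ν) * M.S2 M' μ ν fun n n' =>
      p9_G S T W0 c c' z μ ν (M.X μ ν n) (M'.X μ ν n') * H μ ν n n')
    (h1 : ∀ z ∈ T.DS b1 ×ˢ T.DS b1, ∀ μ ∈ S.MX, ∀ ν ∈ S.MY, M.gp2 M' T μ ν →
      |M.S2 M' μ ν fun n n' => p9_G S T W0 c c' z μ ν (M.X μ ν n) (M'.X μ ν n') * H μ ν n n'| ≤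
        Cst * (Θ μ ν * (M.m1 μ ν * M.ax2 M' (T.qd W0 (z.1 ∪ z.2)) (p9_G S T W0 c c' z μ ν))) + E)
    (hB : ∀ x x' : ℤ, ∑ z ∈ T.DS b1 ×ˢ T.DS b1, p9_K S T W0 c c' (fun μ ν => M.m1 μ ν * (ind (M.gp2 M' T μ ν) * Θ μ ν)) z x x' ≤ B) :
    ∑ d ∈ T.DS b1, ∑ d' ∈ T.DS b1, |TL d d'| ≤ Cst * B + (T.DS b1).card ^ 2 * ((S.MX.card : ℝ) * S.MY.card * E) := by
  have h2 : ∀ z ∈ T.DS b1 ×ˢ T.DS b1, |TL z.1 z.2| ≤ Cst * M.ax2 M' (T.qd W0 (z.1 ∪ z.2))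
      (p9_K S T W0 c c' (fun μ ν => M.m1 μ ν * (ind (M.gp2 M' T μ ν) * Θ μ ν)) z) + (S.MX.card : ℝ) * S.MY.card * E := by
    intro z hz
    have e1 : Cst * M.ax2 M' (T.qd W0 (z.1 ∪ z.2))
        (p9_K S T W0 c c' (fun μ ν => M.m1 μ ν * (ind (M.gp2 M' T μ ν) * Θ μ ν)) z) + (S.MX.card : ℝ) * S.MY.card * E =
        ∑ μ ∈ S.MX, ∑ ν ∈ S.MY, (ind (M.gp2 M' T μ ν) *
          (Cst * (Θ μ ν * (M.m1 μ ν * M.ax2 M' (T.qd W0 (z.1 ∪ z.2)) (p9_G S T W0 c c' z μ ν)))) + E) := by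
      rw [p9_ax_K, mul_sum, mul_assoc, ← nsmul_eq_mul, ← sum_const, ← sum_add_distrib]
      refine sum_congr rfl fun μ _ => ?_
      rw [mul_sum, ← nsmul_eq_mul, ← sum_const, ← sum_add_distrib]
      exact sum_congr rfl fun ν _ => by ring
    rw [e1, hTL]
    refine (abs_sum_le_sum_abs _ _).trans (sum_le_sum fun μ hμ => ?_)
    refine (abs_sum_le_sum_abs _ _).trans (sum_le_sum fun ν hν => ?_)
    rw [abs_mul, abs_of_nonneg (ind_nonneg _)]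
    by_cases hg : M.gp2 M' T μ ν
    · rw [ind_true hg, one_mul, one_mul]
      exact h1 z hz μ hμ ν hν hg
    · rw [ind_false hg, zero_mul, zero_mul, zero_add]
      exact hE
  have h3 : ∑ d ∈ T.DS b1, ∑ d' ∈ T.DS b1, |TL d d'| = ∑ z ∈ T.DS b1 ×ˢ T.DS b1, |TL z.1 z.2| := by
    rw [sum_product]
  rw [h3]
  refine (sum_le_sum h2).trans ?_
  rw [sum_add_distrib, ← mul_sum, sum_const, card_product, nsmul_eq_mul]
  have h4 := mul_le_mul_of_nonneg_left (p9_sumz (b1 := b1) hT hM hM' hB0 _ hB) hC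
  push_cast
  have h5 : ((T.DS b1).card : ℝ) * ((T.DS b1).card : ℝ) * ((S.MX.card : ℝ) * S.MY.card * E) =
      ((T.DS b1).card : ℝ) ^ 2 * ((S.MX.card : ℝ) * S.MY.card * E) := by ring
  linarith

/-- the facts about the modulus -/
private theorem p9_q (hT : T.OK W0) (hq : (W0 : ℝ) * (T.y0 : ℝ) ^ (24 * b1) * (T.z : ℝ) ^ (24 * b2) ≤ (T.N : ℝ) ^ δ0)
    {z : Finset ℕ × Finset ℕ} (hz : z ∈ T.DS b1 ×ˢ T.DS b1) :
    Squarefree (T.qd W0 (z.1 ∪ z.2)) ∧ (∀ p : ℕ, p.Prime → p ∣ T.qd W0 (z.1 ∪ z.2) → p ≤ T.y0 ∧ (p ∣ W0 ∨ ¬ p ∣ T.N)) ∧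
    (T.qd W0 (z.1 ∪ z.2) : ℝ) ≤ W0 * (T.y0 : ℝ) ^ (24 * b1) ∧ (T.qd W0 (z.1 ∪ z.2) : ℝ) * (T.z : ℝ) ^ (24 * b2) ≤ (T.N : ℝ) ^ δ0 ∧
    (T.qd W0 (z.1 ∪ z.2) : ℝ) ≤ (T.N : ℝ) ^ δ0 := by
  obtain ⟨hd, hd'⟩ := mem_product.1 hz
  obtain ⟨h1, h2, -, -⟩ := Q17_qd hT (union_subset (p9_sub hd) (p9_sub hd'))
  have h3 := QAx_DS hT hd hd'
  have hzr : (1 : ℝ) ≤ (T.z : ℝ) ^ (24 * b2) := one_le_pow₀ (by exact_mod_cast p9_z hT)
  have h4 : (T.qd W0 (z.1 ∪ z.2) : ℝ) * (T.z : ℝ) ^ (24 * b2) ≤ (T.N : ℝ) ^ δ0 :=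
    (mul_le_mul_of_nonneg_right h3 (by positivity)).trans hq
  exact ⟨h1, h2, h3, h4, (le_mul_of_one_le_right (Nat.cast_nonneg _) hzr).trans h4⟩

/-- the numerical part -/
private theorem p9_num {q w V e W W' R t0 t0' Er : ℝ} (hq0 : 0 ≤ q) (hqw : q ≤ w) (hV : 0 ≤ V) (he : 0 ≤ e) (hW : 0 ≤ W) (hW' : 0 ≤ W')
    (hX : 0 ≤ 10 * R * t0 + R * (2 * t0' + 8) + 10 * R ^ 2)
    (hEr : Er ≤ e * W * W' * (10 * R * t0 + R * (2 * t0' + 8) + 10 * R ^ 2)) :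
    1 * q ^ 2 * (V * Er) ≤ 4 * w ^ 2 * (e * W * W' * V) * (10 * R * t0 + R * (2 * t0' + 8) + 10 * R ^ 2) := by
  have h1 : q ^ 2 ≤ w ^ 2 := pow_le_pow_left₀ hq0 hqw 2
  have h2 : V * Er ≤ V * (e * W * W' * (10 * R * t0 + R * (2 * t0' + 8) + 10 * R ^ 2)) := mul_le_mul_of_nonneg_left hEr hV
  have h3 : 0 ≤ V * (e * W * W' * (10 * R * t0 + R * (2 * t0' + 8) + 10 * R ^ 2)) := by positivity
  calc 1 * q ^ 2 * (V * Er) = q ^ 2 * (V * Er) := by ring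
    _ ≤ q ^ 2 * (V * (e * W * W' * (10 * R * t0 + R * (2 * t0' + 8) + 10 * R ^ 2))) := mul_le_mul_of_nonneg_left h2 (sq_nonneg _)
    _ ≤ w ^ 2 * (V * (e * W * W' * (10 * R * t0 + R * (2 * t0' + 8) + 10 * R ^ 2))) := mul_le_mul_of_nonneg_right h1 h3
    _ ≤ 4 * (w ^ 2 * (V * (e * W * W' * (10 * R * t0 + R * (2 * t0' + 8) + 10 * R ^ 2)))) := by
        have : 0 ≤ w ^ 2 * (V * (e * W * W' * (10 * R * t0 + R * (2 * t0' + 8) + 10 * R ^ 2))) := mul_nonneg (sq_nonneg _) h3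
        linarith
    _ = _ := by ring

private theorem p9_e (hT : T.OK W0) (hδ : 0 ≤ δ1) : 0 ≤ (T.N : ℝ) ^ (-δ1) ∧ (T.N : ℝ) ^ (-δ1) ≤ 1 := by
  have hN : (1 : ℝ) ≤ T.N := by
    have := hT.N_pos
    exact_mod_cast (by omega : 1 ≤ T.N)
  exact ⟨Real.rpow_nonneg (by linarith) _, Real.rpow_le_one_of_one_le_of_nonpos hN (by linarith)⟩

private theorem p9_Vpos (hT : T.OK W0) (hS : S.OK3 T W0 Z) (hM : M.OK3 T W0 δ0 δ1) {μ : S.TX} {ν : S.TY} (hμ : μ ∈ S.MX) (hν : ν ∈ S.MY)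
    (hV : 1 ≤ V * M.m1 μ ν) : 0 ≤ V := by
  obtain ⟨m0, -⟩ := P05_m1 hT hS hM hμ hν
  by_contra h
  push Not at h
  have : V * M.m1 μ ν ≤ 0 := mul_nonpos_of_nonpos_of_nonneg h.le m0.le
  linarith

/-- one pair of tuples, `TLA` -/
private theorem p9_oneA (hT : T.OK W0) (hS : S.OK3 T W0 Z) (hM : M.OK3 T W0 δ0 δ1) (hM' : M'.OK3 T W0 δ0 δ1) (hδ : 0 ≤ δ1)
    (hb : 1 ≤ b2) (hq : (W0 : ℝ) * (T.y0 : ℝ) ^ (24 * b1) * (T.z : ℝ) ^ (24 * b2) ≤ (T.N : ℝ) ^ δ0) (hMl : ∀ s, |M'.Ml T s b2| ≤ 2)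
    (hV : ∀ μ ∈ S.MX, ∀ ν ∈ S.MY, 1 ≤ V * M'.m1 μ ν) (s s' t t' : Bool)
    {z : Finset ℕ × Finset ℕ} (hz : z ∈ T.DS b1 ×ˢ T.DS b1) {μ : S.TX} {ν : S.TY} (hμ : μ ∈ S.MX) (hν : ν ∈ S.MY) (hg : M.gp2 M' T μ ν) :
    |M.S2 M' μ ν fun n n' => p9_G S T W0 c c' z μ ν (M.X μ ν n) (M'.X μ ν n') *
      (((M.Ll T s b2 c μ ν (M.X μ ν n) - M.Ml T s b2) * (M.Ll T s' b2 c' μ ν (M.X μ ν n) - M.Ml T s' b2)) *
        (M'.Ll T t b2 c μ ν (M'.X μ ν n') * M'.Ll T t' b2 c' μ ν (M'.X μ ν n')))| ≤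
      (M.W * M'.W * (2 * M'.Th0 T + 8)) * (M.Th T c c' μ ν * (M.m1 μ ν * M.ax2 M' (T.qd W0 (z.1 ∪ z.2)) (p9_G S T W0 c c' z μ ν))) +
        4 * (W0 * (T.y0 : ℝ) ^ (24 * b1)) ^ 2 * ((T.N : ℝ) ^ (-δ1) * M.W * M'.W * V) *
          (10 * RL T b2 * M.Th0 T + RL T b2 * (2 * M'.Th0 T + 8) + 10 * RL T b2 ^ 2) := by
  obtain ⟨h1, h2, h3, h4, -⟩ := p9_q (b1 := b1) (b2 := b2) hT hq hz
  obtain ⟨he0, he1⟩ := p9_e (T := T) hT hδ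
  have hR := p9_RL (b2 := b2) hT
  have hW := hM.W_pos.le
  have hW' := hM'.W_pos.le
  have ht0 := p9_Th0 hM
  have ht0' := p9_Th0 hM'
  obtain ⟨hTh, hTh'⟩ := p9_Th (c := c) (c' := c') hM μ ν
  have hε : 0 ≤ (T.N : ℝ) ^ (-δ1) * M.W * RL T b2 := by positivity
  have hε' : 0 ≤ 10 * ((T.N : ℝ) ^ (-δ1) * M'.W * RL T b2) := by positivity
  have h5 := P05b hT hS hM hM' hμ hν h1 h2 (p9_G S T W0 c c' z μ ν) (fun x y x' y' hx hx' => p9_G_per hT hz μ ν hx hx') (p9_G_nn z μ ν) 1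
    (p9_G_le z μ ν) (fun n => (M.Ll T s b2 c μ ν (M.X μ ν n) - M.Ml T s b2) * (M.Ll T s' b2 c' μ ν (M.X μ ν n) - M.Ml T s' b2))
    (fun n' => M'.Ll T t b2 c μ ν (M'.X μ ν n') * M'.Ll T t' b2 c' μ ν (M'.X μ ν n'))
    (M.Th T c c' μ ν) (2 * M'.Th0 T + 8) ((T.N : ℝ) ^ (-δ1) * M.W * RL T b2) (10 * ((T.N : ℝ) ^ (-δ1) * M'.W * RL T b2)) hTh (by linarith) hε hε'
    (fun r hr => Q06 hT hS hM hμ hν hg.1 c c' s s' hb h1 h2 h4 r hr)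
    (fun r hr => P07 hT hS hM' hμ hν hg.2.1 c c' t t' hb hMl h1 h2 h4 r hr) (hV μ hμ ν hν)
  refine h5.trans (add_le_add (le_of_eq (by ring)) ?_)
  refine p9_num (Nat.cast_nonneg _) h3 (p9_Vpos hT hS hM' hμ hν (hV μ hμ ν hν)) he0 hW hW' (by positivity) ?_
  generalize hed : (T.N : ℝ) ^ (-δ1) = e at *
  generalize hRd : RL T b2 = R at *
  have hR0 : 0 ≤ R := by linarith
  have hWW : 0 ≤ e * M.W * M'.W := by positivity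
  have k1 : M.W * M.Th T c c' μ ν * (10 * (e * M'.W * R)) ≤ e * M.W * M'.W * (10 * R * M.Th0 T) := by
    have := mul_le_mul_of_nonneg_left hTh' (show 0 ≤ e * M.W * M'.W * (10 * R) by positivity)
    linarith
  have k2 : e * M.W * R * (10 * (e * M'.W * R)) ≤ e * M.W * M'.W * (10 * R ^ 2) := by
    have := mul_le_mul_of_nonneg_right he1 (show 0 ≤ e * M.W * M'.W * (10 * R ^ 2) by positivity)
    linarith
  have k3 : e * M.W * M'.W * (10 * R * M.Th0 T + R * (2 * M'.Th0 T + 8) + 10 * R ^ 2) =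
      e * M.W * M'.W * (10 * R * M.Th0 T) + M'.W * (2 * M'.Th0 T + 8) * (e * M.W * R) + e * M.W * M'.W * (10 * R ^ 2) := by ring
  linarith

/-- one pair of tuples, `TLB` -/
private theorem p9_oneB (hT : T.OK W0) (hS : S.OK3 T W0 Z) (hM : M.OK3 T W0 δ0 δ1) (hM' : M'.OK3 T W0 δ0 δ1) (hδ : 0 ≤ δ1)
    (hb : 1 ≤ b2) (hq : (W0 : ℝ) * (T.y0 : ℝ) ^ (24 * b1) * (T.z : ℝ) ^ (24 * b2) ≤ (T.N : ℝ) ^ δ0)
    (hV : ∀ μ ∈ S.MX, ∀ ν ∈ S.MY, 1 ≤ V * M'.m1 μ ν) (t t' : Bool)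
    {z : Finset ℕ × Finset ℕ} (hz : z ∈ T.DS b1 ×ˢ T.DS b1) {μ : S.TX} {ν : S.TY} (hμ : μ ∈ S.MX) (hν : ν ∈ S.MY) (hg : M.gp2 M' T μ ν) :
    |M.S2 M' μ ν fun n n' => p9_G S T W0 c c' z μ ν (M.X μ ν n) (M'.X μ ν n') *
      ((M'.Ll T t b2 c μ ν (M'.X μ ν n') - M'.Ml T t b2) * (M'.Ll T t' b2 c' μ ν (M'.X μ ν n') - M'.Ml T t' b2))| ≤
      (M.W * M'.W) * (M'.Th T c c' μ ν * (M.m1 μ ν * M.ax2 M' (T.qd W0 (z.1 ∪ z.2)) (p9_G S T W0 c c' z μ ν))) +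
        4 * (W0 * (T.y0 : ℝ) ^ (24 * b1)) ^ 2 * ((T.N : ℝ) ^ (-δ1) * M.W * M'.W * V) *
          (10 * RL T b2 * M.Th0 T + RL T b2 * (2 * M'.Th0 T + 8) + 10 * RL T b2 ^ 2) := by
  obtain ⟨h1, h2, h3, h4, h4'⟩ := p9_q (b1 := b1) (b2 := b2) hT hq hz
  obtain ⟨he0, he1⟩ := p9_e (T := T) hT hδ
  have hR := p9_RL (b2 := b2) hT
  have hW := hM.W_pos.le
  have hW' := hM'.W_pos.le
  have ht0 := p9_Th0 hM
  have ht0' := p9_Th0 hM'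
  obtain ⟨hTh, hTh'⟩ := p9_Th (c := c) (c' := c') hM' μ ν
  have hε : 0 ≤ (T.N : ℝ) ^ (-δ1) * M.W := by positivity
  have hε' : 0 ≤ (T.N : ℝ) ^ (-δ1) * M'.W * RL T b2 := by positivity
  have hcop : (T.qd W0 (z.1 ∪ z.2)).Coprime (S.prX id μ * S.prY id ν) := by
    rw [Nat.coprime_iff_gcd_eq_one]
    by_contra hne
    obtain ⟨p, hp, hpd⟩ := Nat.exists_prime_and_dvd hne
    have e1 := hpd.trans (Nat.gcd_dvd_left _ _)
    have e2 := hpd.trans (Nat.gcd_dvd_right _ _)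
    have e4 := (h2 p hp e1).1
    have e5 := p9_mark_gt hT hS hμ hν hp e2
    omega
  have h5 := P05b hT hS hM hM' hμ hν h1 h2 (p9_G S T W0 c c' z μ ν) (fun x y x' y' hx hx' => p9_G_per hT hz μ ν hx hx') (p9_G_nn z μ ν) 1
    (p9_G_le z μ ν) (fun _ => 1)
    (fun n' => (M'.Ll T t b2 c μ ν (M'.X μ ν n') - M'.Ml T t b2) * (M'.Ll T t' b2 c' μ ν (M'.X μ ν n') - M'.Ml T t' b2))
    1 (M'.Th T c c' μ ν) ((T.N : ℝ) ^ (-δ1) * M.W) ((T.N : ℝ) ^ (-δ1) * M'.W * RL T b2) zero_le_one hTh hε hε'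
    (fun r hr => by
      have hcl := hM.eq μ hμ ν hν hg.1 _ h1 h4' hcop (fun p hp h => (h2 p hp h).2) r hr
      have e1 : ∑ n ∈ (range (M.nm + 1)).filter (fun n => n ≡ r [MOD T.qd W0 (z.1 ∪ z.2)]), M.Om μ ν n * 1 =
          M.cl μ ν (T.qd W0 (z.1 ∪ z.2)) r := by
        unfold Msr.cl
        exact sum_congr rfl fun n _ => mul_one _
      have e2 : 0 ≤ M.cl μ ν (T.qd W0 (z.1 ∪ z.2)) r := by
        unfold Msr.cl
        exact sum_nonneg fun n _ => hM.Om_nonneg μ ν n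
      rw [e1, abs_of_nonneg e2, mul_one]
      have := (abs_le.1 hcl).2
      linarith)
    (fun r hr => Q06 hT hS hM' hμ hν hg.2.1 c c' t t' hb h1 h2 h4 r hr) (hV μ hμ ν hν)
  have h6 : (M.S2 M' μ ν fun n n' => p9_G S T W0 c c' z μ ν (M.X μ ν n) (M'.X μ ν n') *
      ((M'.Ll T t b2 c μ ν (M'.X μ ν n') - M'.Ml T t b2) * (M'.Ll T t' b2 c' μ ν (M'.X μ ν n') - M'.Ml T t' b2))) =
      M.S2 M' μ ν fun n n' => p9_G S T W0 c c' z μ ν (M.X μ ν n) (M'.X μ ν n') * (1 *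
      ((M'.Ll T t b2 c μ ν (M'.X μ ν n') - M'.Ml T t b2) * (M'.Ll T t' b2 c' μ ν (M'.X μ ν n') - M'.Ml T t' b2))) := by
    congr 1
    funext n n'
    rw [one_mul]
  rw [h6]
  refine h5.trans (add_le_add (le_of_eq (by ring)) ?_)
  refine p9_num (Nat.cast_nonneg _) h3 (p9_Vpos hT hS hM' hμ hν (hV μ hμ ν hν)) he0 hW hW' (by positivity) ?_
  generalize hed : (T.N : ℝ) ^ (-δ1) = e at *
  generalize hRd : RL T b2 = R at *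
  have hR0 : 0 ≤ R := by linarith
  have hWW : 0 ≤ e * M.W * M'.W := by positivity
  have k1 : M'.W * M'.Th T c c' μ ν * (e * M.W) ≤ e * M.W * M'.W * M'.Th0 T := by
    have := mul_le_mul_of_nonneg_left hTh' hWW
    linarith
  have k2 : e * M.W * (e * M'.W * R) ≤ e * M.W * M'.W * R := by
    have := mul_le_mul_of_nonneg_right he1 (show 0 ≤ e * M.W * M'.W * R by positivity)
    linarith
  have k4 : M'.Th0 T ≤ R * M'.Th0 T := le_mul_of_one_le_left ht0' hR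
  have k5 : R + M'.Th0 T + R ≤ 10 * R * M.Th0 T + R * (2 * M'.Th0 T + 8) + 10 * R ^ 2 := by
    have e1 : 0 ≤ 10 * R * M.Th0 T := by positivity
    have e2 : 0 ≤ 10 * R ^ 2 := by positivity
    have e3 : 0 ≤ R * M'.Th0 T := by positivity
    linarith
  have k6 := mul_le_mul_of_nonneg_left k5 hWW
  linarith

theorem P09A (hT : T.OK W0) (hS : S.OK3 T W0 Z) (hA : S.An3 T p1 Q0 η Cα) (hM : M.OK3 T W0 δ0 δ1) (hM' : M'.OK3 T W0 δ0 δ1) (hδ : 0 ≤ δ1)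
    (hη : 0 ≤ η') (hsX : ∀ f, SWc T.N T.D M.hX η' Q0 (S.FX f)) (hsY : ∀ f, SWc T.N T.D M.hY η' Q0 (S.FY f))
    (hQ0 : ∀ d ∈ T.DS b1, ∀ d' ∈ T.DS b1, (∏ p ∈ T.base ∪ d ∪ d', p ^ (padicValNat p T.D + 1)) * p1 ≤ Q0)
    (hb : 1 ≤ b2) (hq : (W0 : ℝ) * (T.y0 : ℝ) ^ (24 * b1) * (T.z : ℝ) ^ (24 * b2) ≤ (T.N : ℝ) ^ δ0) (hMl : ∀ s, |M'.Ml T s b2| ≤ 2)
    (hV : ∀ μ ∈ S.MX, ∀ ν ∈ S.MY, 1 ≤ V * M'.m1 μ ν) (hc : c ∈ S.CC) (hc' : c' ∈ S.CC) (s s' t t' : Bool) :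
    (¬ Fun c c' → ∑ d ∈ T.DS b1, ∑ d' ∈ T.DS b1, |M.TLA M' T W0 b2 s s' t t' c c' d d'| ≤
      M.W * M'.W * M.tot1 * (M.Th0 T * (2 * M'.Th0 T + 8) * ((1 + η') ^ (2 * S.n0) *
        (V4 S T * (MA S T Cα * (th0 S T + 5 * ((S.k + 1 : ℕ) : ℝ) ^ 2 / ((p1 : ℝ) - 1)))))) + (T.DS b1).card ^ 2 * M.er2L M' T W0 b1 b2 δ1 V) ∧
    ∑ d ∈ T.DS b1, ∑ d' ∈ T.DS b1, |M.TLA M' T W0 b2 s s' t t' c c' d d'| ≤
      M.W * M'.W * M.tot1 * (M.Th0 T * (2 * M'.Th0 T + 8) * ((1 + η') ^ (2 * S.n0) * (V4 S T * (2 * U6 T W0)))) +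
        (T.DS b1).card ^ 2 * M.er2L M' T W0 b1 b2 δ1 V := by
  obtain ⟨hm1, hm2⟩ := p9_main hT hS hA hM hη hsX hsY hQ0 hc hc'
  have ht0 := p9_Th0 hM
  have ht0' := p9_Th0 hM'
  have hR := p9_RL (b2 := b2) hT
  have hR0 : 0 ≤ RL T b2 := by linarith
  have hW := hM.W_pos.le
  have hW' := hM'.W_pos.le
  have htot := p9_tot hS hM
  obtain ⟨he0, he1⟩ := p9_e (T := T) hT hδ
  have hC : 0 ≤ M.W * M'.W * (2 * M'.Th0 T + 8) := by positivity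
  have hE' : 0 ≤ (1 + η') ^ (2 * S.n0) := pow_nonneg (by linarith) _
  have hV4 : 0 ≤ V4 S T := by
    unfold V4
    positivity
  have hU6 : 0 ≤ U6 T W0 := by
    unfold U6
    positivity
  have hMA : 0 ≤ MA S T Cα := by
    unfold MA
    have := hA.Cα_lo
    positivity
  have hp1' : (0 : ℝ) < (p1 : ℝ) - 1 := by
    have : (2 : ℝ) ≤ p1 := by exact_mod_cast hA.p1_pr.two_le
    linarith
  have hfr : 0 ≤ 5 * ((S.k + 1 : ℕ) : ℝ) ^ 2 / ((p1 : ℝ) - 1) := div_nonneg (by positivity) hp1'.le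
  have hth := p9_th0 (S := S) hT
  -- the error is nonnegative if there is a pair of tuples
  have key : ∀ B : ℝ, 0 ≤ B → (∀ x x' : ℤ, ∑ z ∈ T.DS b1 ×ˢ T.DS b1,
      p9_K S T W0 c c' (fun μ ν => M.m1 μ ν * (ind (¬ S.badpair T 0 T.y0 μ ν) * M.Th T c c' μ ν)) z x x' ≤ B) →
      ∑ d ∈ T.DS b1, ∑ d' ∈ T.DS b1, |M.TLA M' T W0 b2 s s' t t' c c' d d'| ≤
        M.W * M'.W * (2 * M'.Th0 T + 8) * B + (T.DS b1).card ^ 2 * M.er2L M' T W0 b1 b2 δ1 V := by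
    intro B hB0 hB
    have her : M.er2L M' T W0 b1 b2 δ1 V = (S.MX.card : ℝ) * S.MY.card * (4 * (W0 * (T.y0 : ℝ) ^ (24 * b1)) ^ 2 *
        ((T.N : ℝ) ^ (-δ1) * M.W * M'.W * V) * (10 * RL T b2 * M.Th0 T + RL T b2 * (2 * M'.Th0 T + 8) + 10 * RL T b2 ^ 2)) := by
      unfold Msr.er2L Msr.er2
      ring
    by_cases hne : S.MX.Nonempty ∧ S.MY.Nonempty
    · obtain ⟨⟨μ0, hμ0⟩, ⟨ν0, hν0⟩⟩ := hne
      have hV0 : 0 ≤ V := p9_Vpos hT hS hM' hμ0 hν0 (hV μ0 hμ0 ν0 hν0)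
      rw [her]
      refine p9_gen (c := c) (c' := c') hT hM hM' (fun d d' => M.TLA M' T W0 b2 s s' t t' c c' d d')
        (fun μ ν n n' => (((M.Ll T s b2 c μ ν (M.X μ ν n) - M.Ml T s b2) * (M.Ll T s' b2 c' μ ν (M.X μ ν n) - M.Ml T s' b2)) *
          (M'.Ll T t b2 c μ ν (M'.X μ ν n') * M'.Ll T t' b2 c' μ ν (M'.X μ ν n')))) (fun μ ν => M.Th T c c' μ ν) hC (by positivity) hB0
        (fun z => rfl) (fun z hz μ hμ ν hν hg => p9_oneA hT hS hM hM' hδ hb hq hMl hV s s' t t' hz hμ hν hg) (fun x x' => ?_)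
      refine le_trans (sum_le_sum fun z _ => p9_K_mono (fun μ hμ ν hν => ?_) z x x') (hB x x')
      refine mul_le_mul_of_nonneg_left (mul_le_mul_of_nonneg_right (ind_mono fun h => h.2.2) (p9_Th hM μ ν).1) (QAx_m1 hS hM hμ hν)
    · have h0 : ∀ d d', M.TLA M' T W0 b2 s s' t t' c c' d d' = 0 := by
        intro d d'
        unfold Msr.TLA
        rw [not_and_or, not_nonempty_iff_eq_empty, not_nonempty_iff_eq_empty] at hne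
        rcases hne with h | h
        · rw [h, sum_empty]
        · simp only [h, sum_empty, sum_const_zero]
      have h1 : (S.MX.card : ℝ) * S.MY.card = 0 := by
        rw [not_and_or, not_nonempty_iff_eq_empty, not_nonempty_iff_eq_empty] at hne
        rcases hne with h | h
        · rw [h]; simp
        · rw [h]; simp
      rw [her, h1, zero_mul, mul_zero, add_zero]
      simp only [h0, abs_zero, sum_const_zero]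
      exact mul_nonneg hC hB0
  refine ⟨fun hF => ?_, ?_⟩
  · refine (key _ ?_ (hm1 hF)).trans (le_of_eq ?_)
    · exact mul_nonneg ht0 (mul_nonneg hE' (mul_nonneg htot (mul_nonneg hV4 (mul_nonneg hMA (add_nonneg hth hfr)))))
    · ring
  · refine (key _ ?_ hm2).trans (le_of_eq ?_)
    · exact mul_nonneg ht0 (mul_nonneg hE' (mul_nonneg htot (mul_nonneg hV4 (mul_nonneg zero_le_two hU6))))
    · ring

theorem P09B (hT : T.OK W0) (hS : S.OK3 T W0 Z) (hA : S.An3 T p1 Q0 η Cα) (hM : M.OK3 T W0 δ0 δ1) (hM' : M'.OK3 T W0 δ0 δ1) (hδ : 0 ≤ δ1)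
    (hK : 4 * Real.log T.N ≤ T.y0)
    (hη : 0 ≤ η') (hsX : ∀ f, SWc T.N T.D M'.hX η' Q0 (S.FX f)) (hsY : ∀ f, SWc T.N T.D M'.hY η' Q0 (S.FY f))
    (hQ0 : ∀ d ∈ T.DS b1, ∀ d' ∈ T.DS b1, (∏ p ∈ T.base ∪ d ∪ d', p ^ (padicValNat p T.D + 1)) * p1 ≤ Q0)
    (hb : 1 ≤ b2) (hq : (W0 : ℝ) * (T.y0 : ℝ) ^ (24 * b1) * (T.z : ℝ) ^ (24 * b2) ≤ (T.N : ℝ) ^ δ0)
    (hV : ∀ μ ∈ S.MX, ∀ ν ∈ S.MY, 1 ≤ V * M'.m1 μ ν) (hc : c ∈ S.CC) (hc' : c' ∈ S.CC) (t t' : Bool) :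
    (¬ Fun c c' → ∑ d ∈ T.DS b1, ∑ d' ∈ T.DS b1, |M.TLB M' T W0 b2 t t' c c' d d'| ≤
      M.W * M'.W * M.tot1 * (16 * M'.Th0 T * ((1 + η') ^ (2 * S.n0) *
        (V4 S T * (MA S T Cα * (th0 S T + 5 * ((S.k + 1 : ℕ) : ℝ) ^ 2 / ((p1 : ℝ) - 1)))))) + (T.DS b1).card ^ 2 * M.er2L M' T W0 b1 b2 δ1 V) ∧
    ∑ d ∈ T.DS b1, ∑ d' ∈ T.DS b1, |M.TLB M' T W0 b2 t t' c c' d d'| ≤
      M.W * M'.W * M.tot1 * (16 * M'.Th0 T * ((1 + η') ^ (2 * S.n0) * (V4 S T * (2 * U6 T W0)))) +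
        (T.DS b1).card ^ 2 * M.er2L M' T W0 b1 b2 δ1 V := by
  obtain ⟨hm1, hm2⟩ := p9_main hT hS hA hM' hη hsX hsY hQ0 hc hc'
  have ht0 := p9_Th0 hM
  have ht0' := p9_Th0 hM'
  have hR := p9_RL (b2 := b2) hT
  have hR0 : 0 ≤ RL T b2 := by linarith
  have hW := hM.W_pos.le
  have hW' := hM'.W_pos.le
  have htot := p9_tot hS hM
  have htot' := p9_tot hS hM'
  have hTT := P13_tot hT hS hM' hM hK
  obtain ⟨he0, he1⟩ := p9_e (T := T) hT hδ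
  have hC : 0 ≤ M.W * M'.W := by positivity
  have hE' : 0 ≤ (1 + η') ^ (2 * S.n0) := pow_nonneg (by linarith) _
  have hV4 : 0 ≤ V4 S T := by
    unfold V4
    positivity
  have hU6 : 0 ≤ U6 T W0 := by
    unfold U6
    positivity
  have hMA : 0 ≤ MA S T Cα := by
    unfold MA
    have := hA.Cα_lo
    positivity
  have hp1' : (0 : ℝ) < (p1 : ℝ) - 1 := by
    have : (2 : ℝ) ≤ p1 := by exact_mod_cast hA.p1_pr.two_le
    linarith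
  have hfr : 0 ≤ 5 * ((S.k + 1 : ℕ) : ℝ) ^ 2 / ((p1 : ℝ) - 1) := div_nonneg (by positivity) hp1'.le
  have hth := p9_th0 (S := S) hT
  have key : ∀ B : ℝ, 0 ≤ B → (∀ x x' : ℤ, ∑ z ∈ T.DS b1 ×ˢ T.DS b1,
      p9_K S T W0 c c' (fun μ ν => M'.m1 μ ν * (ind (¬ S.badpair T 0 T.y0 μ ν) * M'.Th T c c' μ ν)) z x x' ≤
        M'.Th0 T * ((1 + η') ^ (2 * S.n0) * (M'.tot1 * B))) →
      ∑ d ∈ T.DS b1, ∑ d' ∈ T.DS b1, |M.TLB M' T W0 b2 t t' c c' d d'| ≤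
        M.W * M'.W * M.tot1 * (16 * M'.Th0 T * ((1 + η') ^ (2 * S.n0) * B)) + (T.DS b1).card ^ 2 * M.er2L M' T W0 b1 b2 δ1 V := by
    intro B hB0 hB
    have her : M.er2L M' T W0 b1 b2 δ1 V = (S.MX.card : ℝ) * S.MY.card * (4 * (W0 * (T.y0 : ℝ) ^ (24 * b1)) ^ 2 *
        ((T.N : ℝ) ^ (-δ1) * M.W * M'.W * V) * (10 * RL T b2 * M.Th0 T + RL T b2 * (2 * M'.Th0 T + 8) + 10 * RL T b2 ^ 2)) := by
      unfold Msr.er2L Msr.er2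
      ring
    have hB1 : 0 ≤ 4 * (M'.Th0 T * ((1 + η') ^ (2 * S.n0) * (M'.tot1 * B))) :=
      mul_nonneg (by norm_num) (mul_nonneg ht0' (mul_nonneg hE' (mul_nonneg htot' hB0)))
    have hB2 : 4 * (M'.Th0 T * ((1 + η') ^ (2 * S.n0) * (M'.tot1 * B))) ≤ M.tot1 * (16 * M'.Th0 T * ((1 + η') ^ (2 * S.n0) * B)) := by
      have h1 := mul_le_mul_of_nonneg_right hTT (show 0 ≤ 4 * (M'.Th0 T * ((1 + η') ^ (2 * S.n0) * B)) from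
        mul_nonneg (by norm_num) (mul_nonneg ht0' (mul_nonneg hE' hB0)))
      linarith
    have hB3 : M.W * M'.W * (4 * (M'.Th0 T * ((1 + η') ^ (2 * S.n0) * (M'.tot1 * B)))) ≤
        M.W * M'.W * M.tot1 * (16 * M'.Th0 T * ((1 + η') ^ (2 * S.n0) * B)) := by
      have := mul_le_mul_of_nonneg_left hB2 hC
      linarith
    by_cases hne : S.MX.Nonempty ∧ S.MY.Nonempty
    · obtain ⟨⟨μ0, hμ0⟩, ⟨ν0, hν0⟩⟩ := hne
      have hV0 : 0 ≤ V := p9_Vpos hT hS hM' hμ0 hν0 (hV μ0 hμ0 ν0 hν0)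
      rw [her]
      refine le_trans (p9_gen (c := c) (c' := c') hT hM hM' (fun d d' => M.TLB M' T W0 b2 t t' c c' d d')
        (fun μ ν n n' => ((M'.Ll T t b2 c μ ν (M'.X μ ν n') - M'.Ml T t b2) * (M'.Ll T t' b2 c' μ ν (M'.X μ ν n') - M'.Ml T t' b2)))
        (fun μ ν => M'.Th T c c' μ ν) hC (by positivity) hB1
        (fun z => rfl) (fun z hz μ hμ ν hν hg => p9_oneB hT hS hM hM' hδ hb hq hV t t' hz hμ hν hg) (fun x x' => ?_))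
        (add_le_add hB3 le_rfl)
      have h1 : ∀ z ∈ T.DS b1 ×ˢ T.DS b1, p9_K S T W0 c c' (fun μ ν => M.m1 μ ν * (ind (M.gp2 M' T μ ν) * M'.Th T c c' μ ν)) z x x' ≤
          4 * p9_K S T W0 c c' (fun μ ν => M'.m1 μ ν * (ind (¬ S.badpair T 0 T.y0 μ ν) * M'.Th T c c' μ ν)) z x x' := by
        intro z _
        have h2 : 4 * p9_K S T W0 c c' (fun μ ν => M'.m1 μ ν * (ind (¬ S.badpair T 0 T.y0 μ ν) * M'.Th T c c' μ ν)) z x x' =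
            p9_K S T W0 c c' (fun μ ν => 4 * M'.m1 μ ν * (ind (¬ S.badpair T 0 T.y0 μ ν) * M'.Th T c c' μ ν)) z x x' := by
          unfold p9_K
          rw [mul_sum]
          refine sum_congr rfl fun μ _ => ?_
          rw [mul_sum]
          exact sum_congr rfl fun ν _ => by ring
        rw [h2]
        refine p9_K_mono (fun μ hμ ν hν => ?_) z x x'
        refine mul_le_mul (P13_ratio hT hS hM hM' hK hμ hν) ?_ (mul_nonneg (ind_nonneg _) (p9_Th hM' μ ν).1) ?_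
        · exact mul_le_mul_of_nonneg_right (ind_mono fun h => h.2.2) (p9_Th hM' μ ν).1
        · exact mul_nonneg (by norm_num) (QAx_m1 hS hM' hμ hν)
      refine (sum_le_sum h1).trans ?_
      rw [← mul_sum]
      exact mul_le_mul_of_nonneg_left (hB x x') (by norm_num)
    · have h0 : ∀ d d', M.TLB M' T W0 b2 t t' c c' d d' = 0 := by
        intro d d'
        unfold Msr.TLB
        rw [not_and_or, not_nonempty_iff_eq_empty, not_nonempty_iff_eq_empty] at hne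
        rcases hne with h | h
        · rw [h, sum_empty]
        · simp only [h, sum_empty, sum_const_zero]
      have h1 : (S.MX.card : ℝ) * S.MY.card = 0 := by
        rw [not_and_or, not_nonempty_iff_eq_empty, not_nonempty_iff_eq_empty] at hne
        rcases hne with h | h
        · rw [h]; simp
        · rw [h]; simp
      rw [her, h1, zero_mul, mul_zero, add_zero]
      simp only [h0, abs_zero, sum_const_zero]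
      exact le_trans (mul_nonneg hC hB1) hB3
  refine ⟨fun hF => ?_, ?_⟩
  · exact key _ (mul_nonneg hV4 (mul_nonneg hMA (add_nonneg hth hfr))) (hm1 hF)
  · exact key _ (mul_nonneg hV4 (mul_nonneg zero_le_two hU6)) hm2

end Pool.Agent.Lib.T3
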