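import Pool.Agent.Lib.MP_7b7e48_nt.T3.G01
import Pool.Agent.Lib.MP_7b7e48_nt.T3.P09

/-!
# P11: the second moment of the large sieves, sum over the colourings, for the pair `(X, X')`

`RR2 - RR21 = ∑_{c ∈ CC} ∑_{d ⊆ PS} FF2 c d ∑_{(s,t)} κ_{st} d (Ll s Ll' t - Ml s Ml' t)` (`P02_w`), `κ_{++} = wt false - 2 wt true`, `κ_{+-} = κ_{-+} = wt true`, `κ_{- -} = 0`; `|κ| ≤ NJ y0 + 3`, zero unless `d ∈ DS b1`.
`Ll s Ll' t - Ml s Ml' t = (Ll s - Ml s) Ll' t + Ml s (Ll' t - Ml' t)`, so `RR2 - RR21 = U + V`, `(U + V)² ≤ 2 U² + 2 V²`. `G01_sq` twice, over the index `d ∈ DS b1`, `(s, t) ∈ Bool × Bool`: `U²`: `(NJ y0 + 3)² ∑ |TLA|` (`16` sign choices, `P09A`);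
`V²`: coefficients `κ Ml s`, `|κ Ml s| ≤ 2 (NJ y0 + 3)`: `4 (NJ y0 + 3)² ∑ |TLB|` (`16` sign choices, `P09B`). (As in `TC.Q24`.)
-/

set_option autoImplicit false

open Finset
open Pool.Agent.Lib.GT (NJ)

namespace Pool.Agent.Lib.T3

open Pool.Agent.Lib.TC

variable {S : MS} {T : Dat} {W0 : ℕ} {Z : Fin (S.k + 1) → ℕ} {M M' : Msr S} {δ0 δ1 : ℝ}

private theorem P11_tot (hT : T.OK W0) (hS : S.OK3 T W0 Z) (hM : M.OK3 T W0 δ0 δ1) (hM' : M'.OK3 T W0 δ0 δ1) :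
    0 ≤ M.W * M'.W * M.tot1 := by
  refine mul_nonneg (mul_nonneg hM.W_pos.le hM'.W_pos.le) ?_
  unfold Msr.tot1
  exact sum_nonneg fun μ hμ => sum_nonneg fun ν hν => (P05_m1 hT hS hM hμ hν).1.le

private theorem P11_y0 (hT : T.OK W0) (hS : S.OK3 T W0 Z) : 2 ≤ T.y0 := by
  have h1 := hS.p0_lo
  have h2 := hT.p0_le
  have h3 := hT.y_le
  have h4 : 1 ≤ (S.k + 1) ^ 2 := Nat.one_le_pow _ _ (by omega)
  omega

private theorem P11_Th (hT : T.OK W0) (hS : S.OK3 T W0 Z) (hM : M.OK3 T W0 δ0 δ1) : 0 ≤ M.Th0 T := by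
  unfold Msr.Th0 Msr.V3
  have h2 := P11_y0 hT hS
  refine mul_nonneg (by positivity) (prod_nonneg fun p hp => ?_)
  unfold Dat.PL at hp
  rw [mem_filter] at hp
  have h3 := (hM.g_large p hp.2.1 hp.2.2).1
  positivity

private theorem P11_er (hT : T.OK W0) (hS : S.OK3 T W0 Z) (hM : M.OK3 T W0 δ0 δ1) (hM' : M'.OK3 T W0 δ0 δ1) (b1 b2 : ℕ) {V : ℝ} (hV : 0 ≤ V) :
    0 ≤ M.er2L M' T W0 b1 b2 δ1 V := by
  unfold Msr.er2L Msr.er2 RL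
  have h1 : (0 : ℝ) ≤ (T.N : ℝ) ^ (-δ1) := Real.rpow_nonneg (Nat.cast_nonneg _) _
  have h2 := hM.W_pos.le
  have h3 := hM'.W_pos.le
  have h4 := P11_Th hT hS hM
  have h5 := P11_Th hT hS hM'
  positivity

private theorem P11_V4 (S : MS) (T : Dat) : 0 ≤ V4 S T := by
  unfold V4
  exact mul_nonneg (prod_nonneg fun p _ => by positivity) (by positivity)

private theorem P11_U6 (T : Dat) (W0 : ℕ) : 0 ≤ U6 T W0 := by
  unfold U6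
  positivity

private theorem P11_MA {p1 Q0 : ℕ} {η Cα : ℝ} (hA : S.An3 T p1 Q0 η Cα) : 0 ≤ MA S T Cα := by
  unfold MA
  have h1 := hA.Cα_lo
  have h2 : 0 ≤ 3 * Cα := by linarith
  exact mul_nonneg (pow_nonneg h2 _) (by positivity)

private theorem P11_p1 {p1 Q0 : ℕ} {η Cα : ℝ} (hA : S.An3 T p1 Q0 η Cα) : 0 ≤ 5 * ((S.k + 1 : ℕ) : ℝ) ^ 2 / ((p1 : ℝ) - 1) := by
  have h1 : (2 : ℝ) ≤ p1 := by exact_mod_cast hA.p1_pr.two_le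
  exact div_nonneg (by positivity) (by linarith)

private theorem P11_wt (hT : T.OK W0) (hS : S.OK3 T W0 Z) {b1 : ℕ} (hb1 : 1 ≤ b1) {d : Finset ℕ}
    (hd : d ⊆ T.PS) (hd' : d ∉ T.DS b1) (s : Bool) : wt s b1 T.y0 T.PS d = 0 := by
  have hP : ∀ r ∈ T.PS, r.Prime ∧ r ≤ T.y0 := by
    intro r hr
    unfold Dat.PS at hr
    rw [mem_filter, mem_range] at hr
    exact ⟨hr.2.1, by omega⟩
  have h2 := P11_y0 hT hS
  by_contra h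
  apply hd'
  unfold Dat.DS
  rw [mem_filter, mem_powerset]
  refine ⟨hd, ?_⟩
  have h3 : ((∏ r ∈ d, r : ℕ) : ℝ) ≤ (T.y0 : ℝ) ^ (12 * b1) := by
    cases s with
    | true =>
      have h4 : flUp b1 T.y0 T.PS d ≠ 0 := by simpa [wt] using h
      exact flUp_support hP h2 hb1 hd h4
    | false =>
      have h4 : flLo b1 T.y0 T.PS d ≠ 0 := by simpa [wt] using h
      exact flLo_support hP h2 hb1 hd h4
  exact_mod_cast h3

private noncomputable def P11_ks (T : Dat) (b1 : ℕ) (e : Finset ℕ × (Bool × Bool)) : ℝ :=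
  if e.2.1 then (if e.2.2 then wt false b1 T.y0 T.PS e.1 - 2 * wt true b1 T.y0 T.PS e.1 else wt true b1 T.y0 T.PS e.1)
    else (if e.2.2 then wt true b1 T.y0 T.PS e.1 else 0)

private theorem P11_ks_le (T : Dat) (b1 : ℕ) (e : Finset ℕ × (Bool × Bool)) : |P11_ks T b1 e| ≤ (NJ T.y0 : ℝ) + 3 := by
  obtain ⟨d, s, t⟩ := e
  have h1 : |flUp b1 T.y0 T.PS d| ≤ 1 := abs_flUp_le _ _ _ _
  have h2 : |flLo b1 T.y0 T.PS d| ≤ NJ T.y0 + 1 := abs_flLo_le _ _ _ _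
  have h3 : (0 : ℝ) ≤ NJ T.y0 := Nat.cast_nonneg _
  unfold P11_ks wt
  cases s <;> cases t <;> simp only [if_true, Bool.false_eq_true, if_false]
  · rw [abs_zero]
    linarith
  · linarith
  · linarith
  · refine (abs_sub _ _).trans ?_
    rw [abs_mul, abs_two]
    linarith

private noncomputable def P11_w {S : MS} (M M' : Msr S) (T : Dat) (W0 : ℕ) (i : (S.TX × S.TY) × (ℕ × ℕ)) : ℝ :=
  ind (M.gp2 M' T i.1.1 i.1.2) * ((M'.m1 i.1.1 i.1.2)⁻¹ * (M.Om i.1.1 i.1.2 i.2.1 * M'.Om i.1.1 i.1.2 i.2.2 *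
    cg W0 (M.X i.1.1 i.1.2 i.2.1) (M'.X i.1.1 i.1.2 i.2.2)))

private noncomputable def P11_I {S : MS} (M M' : Msr S) : Finset ((S.TX × S.TY) × (ℕ × ℕ)) :=
  (S.MX ×ˢ S.MY) ×ˢ (range (M.nm + 1) ×ˢ range (M'.nm + 1))

private theorem P11_flat (M M' : Msr S) (T : Dat) (W0 : ℕ) (G : (S.TX × S.TY) × (ℕ × ℕ) → ℝ) :
    ∑ μ ∈ S.MX, ∑ ν ∈ S.MY, ind (M.gp2 M' T μ ν) * M.S2 M' μ ν (fun n n' => cg W0 (M.X μ ν n) (M'.X μ ν n') * G ((μ, ν), (n, n'))) =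
      ∑ i ∈ P11_I M M', P11_w M M' T W0 i * G i := by
  unfold P11_I P11_w Msr.S2
  rw [sum_product, sum_product]
  refine sum_congr rfl fun μ _ => sum_congr rfl fun ν _ => ?_
  rw [sum_product, mul_sum, mul_sum]
  refine sum_congr rfl fun n _ => ?_
  rw [mul_sum, mul_sum]
  refine sum_congr rfl fun n' _ => ?_
  ring

private theorem P11_w_nonneg (hT : T.OK W0) (hS : S.OK3 T W0 Z) (hM : M.OK3 T W0 δ0 δ1) (hM' : M'.OK3 T W0 δ0 δ1) {i : (S.TX × S.TY) × (ℕ × ℕ)}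
    (hi : i ∈ P11_I M M') : 0 ≤ P11_w M M' T W0 i := by
  unfold P11_I at hi
  rw [mem_product, mem_product] at hi
  have h1 := (P05_m1 hT hS hM' hi.1.1 hi.1.2).1
  unfold P11_w cg
  exact mul_nonneg (ind_nonneg _) (mul_nonneg (inv_nonneg.2 h1.le)
    (mul_nonneg (mul_nonneg (hM.Om_nonneg _ _ _) (hM'.Om_nonneg _ _ _)) (ind_nonneg _)))

private noncomputable def P11_FU {S : MS} (M M' : Msr S) (T : Dat) (b2 : ℕ) (c : S.Col) (e : Finset ℕ × (Bool × Bool)) (i : (S.TX × S.TY) × (ℕ × ℕ)) : ℝ :=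
  S.FF2 T c i.1.1 i.1.2 (M.X i.1.1 i.1.2 i.2.1) (M'.X i.1.1 i.1.2 i.2.2) e.1 *
    ((M.Ll T e.2.1 b2 c i.1.1 i.1.2 (M.X i.1.1 i.1.2 i.2.1) - M.Ml T e.2.1 b2) * M'.Ll T e.2.2 b2 c i.1.1 i.1.2 (M'.X i.1.1 i.1.2 i.2.2))

private noncomputable def P11_FV {S : MS} (M M' : Msr S) (T : Dat) (b2 : ℕ) (c : S.Col) (e : Finset ℕ × (Bool × Bool)) (i : (S.TX × S.TY) × (ℕ × ℕ)) : ℝ :=
  S.FF2 T c i.1.1 i.1.2 (M.X i.1.1 i.1.2 i.2.1) (M'.X i.1.1 i.1.2 i.2.2) e.1 *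
    (M'.Ll T e.2.2 b2 c i.1.1 i.1.2 (M'.X i.1.1 i.1.2 i.2.2) - M'.Ml T e.2.2 b2)

private theorem P11_diff (hT : T.OK W0) (hS : S.OK3 T W0 Z) {b1 b2 : ℕ} (hb1 : 1 ≤ b1) (i : (S.TX × S.TY) × (ℕ × ℕ)) :
    M.RR2 M' T b1 b2 i.1.1 i.1.2 (M.X i.1.1 i.1.2 i.2.1) (M'.X i.1.1 i.1.2 i.2.2) -
      M.RR21 M' T b1 b2 i.1.1 i.1.2 (M.X i.1.1 i.1.2 i.2.1) (M'.X i.1.1 i.1.2 i.2.2) =
    ∑ c ∈ S.CC, ∑ e ∈ T.DS b1 ×ˢ (univ : Finset (Bool × Bool)), P11_ks T b1 e * P11_FU M M' T b2 c e i +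
    ∑ c ∈ S.CC, ∑ e ∈ T.DS b1 ×ˢ (univ : Finset (Bool × Bool)), (P11_ks T b1 e * M.Ml T e.2.1 b2) * P11_FV M M' T b2 c e i := by
  have hDS : T.DS b1 ⊆ T.PS.powerset := by
    unfold Dat.DS
    exact filter_subset _ _
  unfold Msr.RR2 Msr.RR21
  rw [← sum_sub_distrib, ← sum_add_distrib]
  refine sum_congr rfl fun c _ => ?_
  rw [P02_w, sum_product, sum_product, ← sum_add_distrib, ← sum_subset hDS]
  · refine sum_congr rfl fun d _ => ?_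
    rw [Fintype.sum_prod_type, Fintype.sum_prod_type, Fintype.sum_bool, Fintype.sum_bool, Fintype.sum_bool, Fintype.sum_bool,
      Fintype.sum_bool, Fintype.sum_bool]
    unfold P11_ks P11_FU P11_FV
    simp only [if_true, Bool.false_eq_true, if_false]
    ring
  · intro d hd hd'
    rw [mem_powerset] at hd
    rw [P11_wt hT hS hb1 hd hd' false, P11_wt hT hS hb1 hd hd' true]
    ring

private theorem P11_sumF {C : Type*} (CC : Finset C) (P : C × C → Prop) [DecidablePred P] (B : C × C → ℝ)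
    (A0 E A1 A2 R nF : ℝ) (hA0 : 0 ≤ A0) (hE : 0 ≤ E) (hA2 : 0 ≤ A2) (hF : (((CC ×ˢ CC).filter P).card : ℝ) ≤ nF)
    (hB : ∀ q ∈ CC ×ˢ CC, B q ≤ A0 * (E * (A1 + (if P q then 1 else 0) * A2)) + R) :
    ∑ q ∈ CC ×ˢ CC, B q ≤ A0 * (E * ((CC.card : ℝ) ^ 2 * A1 + nF * A2)) + (CC.card : ℝ) ^ 2 * R := by
  refine (sum_le_sum hB).trans ?_
  rw [sum_add_distrib, sum_const, nsmul_eq_mul, card_product, ← mul_sum, ← mul_sum, sum_add_distrib, sum_const,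
    nsmul_eq_mul, card_product, ← sum_mul, sum_boole]
  push_cast
  have h5 : (((CC ×ˢ CC).filter P).card : ℝ) * A2 ≤ nF * A2 := mul_le_mul_of_nonneg_right hF hA2
  have h7 : A0 * (E * ((CC.card : ℝ) * CC.card * A1 + (((CC ×ˢ CC).filter P).card : ℝ) * A2)) ≤
      A0 * (E * ((CC.card : ℝ) ^ 2 * A1 + nF * A2)) := by
    refine mul_le_mul_of_nonneg_left (mul_le_mul_of_nonneg_left ?_ hE) hA0
    have h8 : (CC.card : ℝ) * CC.card * A1 = (CC.card : ℝ) ^ 2 * A1 := by ring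
    linarith
  have h9 : (CC.card : ℝ) * CC.card * R = (CC.card : ℝ) ^ 2 * R := by ring
  linarith

/-- the sum over the sign choices -/
private theorem P11_signs {D : Finset (Finset ℕ)} (g : Finset ℕ × (Bool × Bool) → Finset ℕ × (Bool × Bool) → ℝ) (K : ℝ)
    (h : ∀ e e' : Bool × Bool, ∑ d ∈ D, ∑ d' ∈ D, g (d, e) (d', e') ≤ K) :
    ∑ e ∈ D ×ˢ (univ : Finset (Bool × Bool)), ∑ e' ∈ D ×ˢ (univ : Finset (Bool × Bool)), g e e' ≤ 16 * K := by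
  have h0 : ∑ e ∈ D ×ˢ (univ : Finset (Bool × Bool)), ∑ e' ∈ D ×ˢ (univ : Finset (Bool × Bool)), g e e' =
      ∑ s : Bool × Bool, ∑ s' : Bool × Bool, ∑ d ∈ D, ∑ d' ∈ D, g (d, s) (d', s') := by
    rw [sum_product_right]
    refine sum_congr rfl fun s _ => ?_
    have h1 : ∀ d ∈ D, ∑ e' ∈ D ×ˢ (univ : Finset (Bool × Bool)), g (d, s) e' =
        ∑ s' : Bool × Bool, ∑ d' ∈ D, g (d, s) (d', s') := by
      intro d _
      rw [sum_product_right]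
    rw [sum_congr rfl h1, sum_comm]
  rw [h0]
  refine (sum_le_sum fun s _ => sum_le_sum fun s' _ => h s s').trans ?_
  rw [sum_const, sum_const, card_univ]
  simp only [Fintype.card_prod, Fintype.card_bool, nsmul_eq_mul]
  norm_num
  linarith

theorem P11 {S : MS} {T : Dat} {W0 : ℕ} {Z : Fin (S.k + 1) → ℕ} {M M' : Msr S} {δ0 δ1 : ℝ} {p1 Q0 : ℕ} {η η' Cα V : ℝ} {b1 b2 : ℕ} (hT : T.OK W0)
    (hS : S.OK3 T W0 Z) (hA : S.An3 T p1 Q0 η Cα) (hM : M.OK3 T W0 δ0 δ1) (hM' : M'.OK3 T W0 δ0 δ1) (hδ : 0 ≤ δ1) (hK : 4 * Real.log T.N ≤ T.y0)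
    (hη : 0 ≤ η') (hsX : ∀ f, SWc T.N T.D M.hX η' Q0 (S.FX f)) (hsY : ∀ f, SWc T.N T.D M.hY η' Q0 (S.FY f))
    (hsX' : ∀ f, SWc T.N T.D M'.hX η' Q0 (S.FX f)) (hsY' : ∀ f, SWc T.N T.D M'.hY η' Q0 (S.FY f))
    (hQ0 : ∀ d ∈ T.DS b1, ∀ d' ∈ T.DS b1, (∏ p ∈ T.base ∪ d ∪ d', p ^ (padicValNat p T.D + 1)) * p1 ≤ Q0)
    (hb1 : 1 ≤ b1) (hb2 : 1 ≤ b2) (hq : (W0 : ℝ) * (T.y0 : ℝ) ^ (24 * b1) * (T.z : ℝ) ^ (24 * b2) ≤ (T.N : ℝ) ^ δ0)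
    (hMl : ∀ s, |M.Ml T s b2| ≤ 2) (hMl' : ∀ s, |M'.Ml T s b2| ≤ 2)
    (hV : ∀ μ ∈ S.MX, ∀ ν ∈ S.MY, 1 ≤ V * M'.m1 μ ν) (hV0 : 0 ≤ V) (nF : ℝ)
    (hF : open Classical in (((S.CC ×ˢ S.CC).filter fun q => Fun q.1 q.2).card : ℝ) ≤ nF) :
    ∑ μ ∈ S.MX, ∑ ν ∈ S.MY, ind (M.gp2 M' T μ ν) * M.S2 M' μ ν (fun n n' => cg W0 (M.X μ ν n) (M'.X μ ν n') *
      (M.RR2 M' T b1 b2 μ ν (M.X μ ν n) (M'.X μ ν n') - M.RR21 M' T b1 b2 μ ν (M.X μ ν n) (M'.X μ ν n')) ^ 2) ≤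
    32 * ((NJ T.y0 : ℝ) + 3) ^ 2 * (M.W * M'.W * M.tot1 * ((M.Th0 T * (2 * M'.Th0 T + 8) + 64 * M'.Th0 T) * ((1 + η') ^ (2 * S.n0) *
      ((S.CC.card : ℝ) ^ 2 * (V4 S T * (MA S T Cα * (th0 S T + 5 * ((S.k + 1 : ℕ) : ℝ) ^ 2 / ((p1 : ℝ) - 1)))) + nF * (V4 S T * (2 * U6 T W0))))) +
      (S.CC.card : ℝ) ^ 2 * ((T.DS b1).card ^ 2 * M.er2L M' T W0 b1 b2 δ1 V) * 5) := by
  classical
  have hWt : 0 ≤ M.W * M'.W * M.tot1 := P11_tot hT hS hM hM'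
  have her := P11_er (b1 := b1) (b2 := b2) hT hS hM hM' hV0
  have hV4 := P11_V4 S T
  have hU6 := P11_U6 T W0
  have hMA := P11_MA hA
  have hp1 := P11_p1 hA
  have hTh := P11_Th hT hS hM
  have hTh' := P11_Th hT hS hM'
  have hth : 0 ≤ th0 S T := by
    unfold th0
    have h1 : 0 ≤ Real.log T.N := Real.log_natCast_nonneg _
    positivity
  have hκ0 : (0 : ℝ) ≤ (NJ T.y0 : ℝ) + 3 := by positivity
  obtain ⟨κ, hκ⟩ : ∃ κ, κ = (NJ T.y0 : ℝ) + 3 := ⟨_, rfl⟩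
  obtain ⟨E, hE⟩ : ∃ E, E = (1 + η') ^ (2 * S.n0) := ⟨_, rfl⟩
  obtain ⟨A1, hA1⟩ : ∃ A1, A1 = V4 S T * (MA S T Cα * (th0 S T + 5 * ((S.k + 1 : ℕ) : ℝ) ^ 2 / ((p1 : ℝ) - 1))) := ⟨_, rfl⟩
  obtain ⟨A2, hA2⟩ : ∃ A2, A2 = V4 S T * (2 * U6 T W0) := ⟨_, rfl⟩
  have hE0 : 0 ≤ E := by
    rw [hE]
    positivity
  have hA10 : 0 ≤ A1 := by
    rw [hA1]
    exact mul_nonneg hV4 (mul_nonneg hMA (by linarith))
  have hA20 : 0 ≤ A2 := by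
    rw [hA2]
    exact mul_nonneg hV4 (by linarith)
  have hkb : ∀ e, |P11_ks T b1 e| ≤ κ := by
    intro e
    rw [hκ]
    exact P11_ks_le T b1 e
  rw [← hκ] at hκ0
  -- flatten
  rw [P11_flat M M' T W0 (fun i => (M.RR2 M' T b1 b2 i.1.1 i.1.2 (M.X i.1.1 i.1.2 i.2.1) (M'.X i.1.1 i.1.2 i.2.2) -
      M.RR21 M' T b1 b2 i.1.1 i.1.2 (M.X i.1.1 i.1.2 i.2.1) (M'.X i.1.1 i.1.2 i.2.2)) ^ 2)]
  have hUV : ∀ i ∈ P11_I M M', P11_w M M' T W0 i * (M.RR2 M' T b1 b2 i.1.1 i.1.2 (M.X i.1.1 i.1.2 i.2.1) (M'.X i.1.1 i.1.2 i.2.2) -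
      M.RR21 M' T b1 b2 i.1.1 i.1.2 (M.X i.1.1 i.1.2 i.2.1) (M'.X i.1.1 i.1.2 i.2.2)) ^ 2 ≤
      2 * (P11_w M M' T W0 i * (∑ c ∈ S.CC, ∑ e ∈ T.DS b1 ×ˢ (univ : Finset (Bool × Bool)), P11_ks T b1 e * P11_FU M M' T b2 c e i) ^ 2) +
      2 * (P11_w M M' T W0 i * (∑ c ∈ S.CC, ∑ e ∈ T.DS b1 ×ˢ (univ : Finset (Bool × Bool)),
        (P11_ks T b1 e * M.Ml T e.2.1 b2) * P11_FV M M' T b2 c e i) ^ 2) := by
    intro i hi
    rw [P11_diff hT hS hb1 i]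
    have h1 := P11_w_nonneg hT hS hM hM' hi
    obtain ⟨u, hu⟩ : ∃ u, u = ∑ c ∈ S.CC, ∑ e ∈ T.DS b1 ×ˢ (univ : Finset (Bool × Bool)), P11_ks T b1 e * P11_FU M M' T b2 c e i := ⟨_, rfl⟩
    obtain ⟨v, hv⟩ : ∃ v, v = ∑ c ∈ S.CC, ∑ e ∈ T.DS b1 ×ˢ (univ : Finset (Bool × Bool)),
        (P11_ks T b1 e * M.Ml T e.2.1 b2) * P11_FV M M' T b2 c e i := ⟨_, rfl⟩
    rw [← hu, ← hv]
    have h2 : P11_w M M' T W0 i * (u + v) ^ 2 + P11_w M M' T W0 i * (u - v) ^ 2 =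
        2 * (P11_w M M' T W0 i * u ^ 2) + 2 * (P11_w M M' T W0 i * v ^ 2) := by ring
    have h3 : 0 ≤ P11_w M M' T W0 i * (u - v) ^ 2 := mul_nonneg h1 (sq_nonneg _)
    linarith
  refine (sum_le_sum hUV).trans ?_
  rw [sum_add_distrib, ← mul_sum, ← mul_sum]
  have hU := G01_sq S.CC (T.DS b1 ×ˢ (univ : Finset (Bool × Bool))) (P11_I M M') (P11_w M M' T W0) (P11_ks T b1)
    (fun c e i => P11_FU M M' T b2 c e i) κ (fun e _ => hkb e)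
  have hV' := G01_sq S.CC (T.DS b1 ×ˢ (univ : Finset (Bool × Bool))) (P11_I M M') (P11_w M M' T W0)
    (fun e => P11_ks T b1 e * M.Ml T e.2.1 b2)
    (fun c e i => P11_FV M M' T b2 c e i) (κ * 2) (fun e _ => by
      rw [abs_mul]
      exact mul_le_mul (hkb e) (hMl e.2.1) (abs_nonneg _) hκ0)
  have hTA : ∀ (c c' : S.Col) (e e' : Finset ℕ × (Bool × Bool)),
      ∑ i ∈ P11_I M M', P11_w M M' T W0 i * (P11_FU M M' T b2 c e i * P11_FU M M' T b2 c' e' i) =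
      M.TLA M' T W0 b2 e.2.1 e'.2.1 e.2.2 e'.2.2 c c' e.1 e'.1 := by
    intro c c' e e'
    rw [← P11_flat M M' T W0 (fun i => P11_FU M M' T b2 c e i * P11_FU M M' T b2 c' e' i)]
    unfold Msr.TLA
    refine sum_congr rfl fun μ _ => sum_congr rfl fun ν _ => ?_
    congr 1
    congr 1
    funext n n'
    unfold P11_FU
    ring
  have hTB : ∀ (c c' : S.Col) (e e' : Finset ℕ × (Bool × Bool)),
      ∑ i ∈ P11_I M M', P11_w M M' T W0 i * (P11_FV M M' T b2 c e i * P11_FV M M' T b2 c' e' i) =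
      M.TLB M' T W0 b2 e.2.2 e'.2.2 c c' e.1 e'.1 := by
    intro c c' e e'
    rw [← P11_flat M M' T W0 (fun i => P11_FV M M' T b2 c e i * P11_FV M M' T b2 c' e' i)]
    unfold Msr.TLB
    refine sum_congr rfl fun μ _ => sum_congr rfl fun ν _ => ?_
    congr 1
    congr 1
    funext n n'
    unfold P11_FV
    ring
  obtain ⟨R, hR⟩ : ∃ R, R = ((T.DS b1).card : ℝ) ^ 2 * M.er2L M' T W0 b1 b2 δ1 V := ⟨_, rfl⟩
  obtain ⟨P, hP⟩ : ∃ P, P = M.W * M'.W * M.tot1 := ⟨_, rfl⟩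
  have hsA : ∀ q ∈ S.CC ×ˢ S.CC, ∑ e ∈ T.DS b1 ×ˢ (univ : Finset (Bool × Bool)), ∑ e' ∈ T.DS b1 ×ˢ (univ : Finset (Bool × Bool)),
      |∑ i ∈ P11_I M M', P11_w M M' T W0 i * (P11_FU M M' T b2 q.1 e i * P11_FU M M' T b2 q.2 e' i)| ≤
      16 * (P * (M.Th0 T * (2 * M'.Th0 T + 8))) * (E * (A1 + (if Fun q.1 q.2 then 1 else 0) * A2)) + 16 * R := by
    intro q hqm
    rw [mem_product] at hqm
    refine (P11_signs _ (P * (M.Th0 T * (2 * M'.Th0 T + 8)) * (E * (A1 + (if Fun q.1 q.2 then 1 else 0) * A2)) + R) ?_).trans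
      (le_of_eq (by ring))
    intro s s'
    simp only [hTA]
    have h0 : 0 ≤ P * (M.Th0 T * (2 * M'.Th0 T + 8)) := by
      rw [hP]
      exact mul_nonneg hWt (mul_nonneg hTh (by linarith))
    by_cases hFn : Fun q.1 q.2
    · have h1 := (P09A hT hS hA hM hM' hδ hη hsX hsY hQ0 hb2 hq hMl' hV hqm.1 hqm.2 s.1 s'.1 s.2 s'.2).2
      rw [← hE, ← hA2, ← hR, ← hP] at h1
      rw [if_pos hFn]
      refine h1.trans ?_
      have h4 : P * (M.Th0 T * (2 * M'.Th0 T + 8)) * (E * A2) ≤ P * (M.Th0 T * (2 * M'.Th0 T + 8)) * (E * (A1 + 1 * A2)) :=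
        mul_le_mul_of_nonneg_left (mul_le_mul_of_nonneg_left (by linarith) hE0) h0
      have h5 : P * (M.Th0 T * (2 * M'.Th0 T + 8) * (E * A2)) = P * (M.Th0 T * (2 * M'.Th0 T + 8)) * (E * A2) := by ring
      linarith
    · have h1 := (P09A hT hS hA hM hM' hδ hη hsX hsY hQ0 hb2 hq hMl' hV hqm.1 hqm.2 s.1 s'.1 s.2 s'.2).1 hFn
      rw [← hE, ← hA1, ← hR, ← hP] at h1
      rw [if_neg hFn]
      refine h1.trans ?_
      have h5 : P * (M.Th0 T * (2 * M'.Th0 T + 8) * (E * A1)) = P * (M.Th0 T * (2 * M'.Th0 T + 8)) * (E * (A1 + 0 * A2)) := by ring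
      linarith
  have hsB : ∀ q ∈ S.CC ×ˢ S.CC, ∑ e ∈ T.DS b1 ×ˢ (univ : Finset (Bool × Bool)), ∑ e' ∈ T.DS b1 ×ˢ (univ : Finset (Bool × Bool)),
      |∑ i ∈ P11_I M M', P11_w M M' T W0 i * (P11_FV M M' T b2 q.1 e i * P11_FV M M' T b2 q.2 e' i)| ≤
      16 * (P * (16 * M'.Th0 T)) * (E * (A1 + (if Fun q.1 q.2 then 1 else 0) * A2)) + 16 * R := by
    intro q hqm
    rw [mem_product] at hqm
    refine (P11_signs _ (P * (16 * M'.Th0 T) * (E * (A1 + (if Fun q.1 q.2 then 1 else 0) * A2)) + R) ?_).trans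
      (le_of_eq (by ring))
    intro s s'
    simp only [hTB]
    have h0 : 0 ≤ P * (16 * M'.Th0 T) := by
      rw [hP]
      exact mul_nonneg hWt (by linarith)
    by_cases hFn : Fun q.1 q.2
    · have h1 := (P09B hT hS hA hM hM' hδ hK hη hsX' hsY' hQ0 hb2 hq hV hqm.1 hqm.2 s.2 s'.2).2
      rw [← hE, ← hA2, ← hR, ← hP] at h1
      rw [if_pos hFn]
      refine h1.trans ?_
      have h4 : P * (16 * M'.Th0 T) * (E * A2) ≤ P * (16 * M'.Th0 T) * (E * (A1 + 1 * A2)) :=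
        mul_le_mul_of_nonneg_left (mul_le_mul_of_nonneg_left (by linarith) hE0) h0
      have h5 : P * (16 * M'.Th0 T * (E * A2)) = P * (16 * M'.Th0 T) * (E * A2) := by ring
      linarith
    · have h1 := (P09B hT hS hA hM hM' hδ hK hη hsX' hsY' hQ0 hb2 hq hV hqm.1 hqm.2 s.2 s'.2).1 hFn
      rw [← hE, ← hA1, ← hR, ← hP] at h1
      rw [if_neg hFn]
      refine h1.trans ?_
      have h5 : P * (16 * M'.Th0 T * (E * A1)) = P * (16 * M'.Th0 T) * (E * (A1 + 0 * A2)) := by ring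
      linarith
  have h0A : 0 ≤ 16 * (P * (M.Th0 T * (2 * M'.Th0 T + 8))) := by
    rw [hP]
    exact mul_nonneg (by norm_num) (mul_nonneg hWt (mul_nonneg hTh (by linarith)))
  have h0B : 0 ≤ 16 * (P * (16 * M'.Th0 T)) := by
    rw [hP]
    exact mul_nonneg (by norm_num) (mul_nonneg hWt (by linarith))
  have htA := P11_sumF S.CC (fun q => Fun q.1 q.2) _ _ E A1 A2 (16 * R) nF h0A hE0 hA20 hF hsA
  have htB := P11_sumF S.CC (fun q => Fun q.1 q.2) _ _ E A1 A2 (16 * R) nF h0B hE0 hA20 hF hsB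
  have hU2 := hU.trans (mul_le_mul_of_nonneg_left htA (sq_nonneg κ))
  have hV2 := hV'.trans (mul_le_mul_of_nonneg_left htB (sq_nonneg (κ * 2)))
  rw [← hκ, ← hE, ← hA1, ← hA2, ← hR, ← hP]
  refine (add_le_add (mul_le_mul_of_nonneg_left hU2 (by norm_num : (0 : ℝ) ≤ 2))
    (mul_le_mul_of_nonneg_left hV2 (by norm_num : (0 : ℝ) ≤ 2))).trans (le_of_eq ?_)
  ring

end Pool.Agent.Lib.T3
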