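import Pool.Agent.Lib.MP_7b7e48_nt.T3.QN1
import Pool.Agent.Lib.MP_7b7e48_nt.T3.P08
import Pool.Agent.Lib.MP_7b7e48_nt.T3.P12

/-!
# PN1: the small factors for the pair

`1 + 48 m/p ≤ (1 + 24 m/p)²`, `1 + 16 m/p ≤ 1 + 24 m/p`, `1 - 16 m/p ≥ (1 - 8 m/p)³` (`8 m/p ≤ 1/8`, `p ≥ p0 ≥ 64 m²`); `QN1`.
-/

set_option autoImplicit false

open Finset

namespace Pool.Agent.Lib.T3

open Pool.Agent.Lib.TC

private theorem PN1_hr {S : MS} {T : Dat} {W0 : ℕ} {Z : Fin (S.k + 1) → ℕ} (hS : S.OK3 T W0 Z) {p : ℕ} (hp : p ∈ T.PS) :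
    0 ≤ 8 * ((S.k + 1 : ℕ) : ℝ) / p ∧ 8 * ((S.k + 1 : ℕ) : ℝ) / p ≤ 1 / 8 := by
  unfold Dat.PS at hp
  rw [mem_filter, mem_range] at hp
  have h1 : 64 * (S.k + 1) ^ 2 ≤ p := hS.p0_lo.trans hp.2.2
  have hm : (1 : ℝ) ≤ ((S.k + 1 : ℕ) : ℝ) := by exact_mod_cast (by omega : 1 ≤ S.k + 1)
  have h2 : 64 * ((S.k + 1 : ℕ) : ℝ) ^ 2 ≤ p := by exact_mod_cast h1
  have h3 : (0 : ℝ) < p := by nlinarith
  refine ⟨by positivity, ?_⟩
  rw [div_le_iff₀ h3]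
  nlinarith

theorem PN1 (c : PC) (hc : c.OK) : ∃ N0 : ℕ, ∀ (S : MS) (T : Dat) (M : Msr S) (W0 : ℕ) (Z : Fin (S.k + 1) → ℕ) (p1 Q0 pb : ℕ) (η : ℝ),
    PH3 c S T M W0 Z p1 Q0 pb η → N0 ≤ T.N →
    0 ≤ V4 S T ∧ V4 S T ≤ (Real.log T.N) ^ (3 / 100 : ℝ) ∧ 0 ≤ V5 S T W0 ∧ V5 S T W0 ≤ (Real.log T.N) ^ (1 / 10 : ℝ) / T.D ∧
    (Real.log T.N) ^ (-(3 / 100) : ℝ) ≤ VS2 S T := by
  obtain ⟨N0, hN0⟩ := QN1 c hc
  refine ⟨max N0 3, fun S T M W0 Z p1 Q0 pb η h hN => ?_⟩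
  obtain ⟨e1, -, e3, e4, e5, -, -, -⟩ := hN0 S T M W0 Z p1 Q0 pb η h (le_trans (le_max_left _ _) hN)
  set K := Real.log T.N with hK
  have hN3 : (3 : ℝ) ≤ T.N := by exact_mod_cast le_trans (le_max_right _ _) hN
  have hK1 : 1 ≤ K := by
    rw [hK, Real.le_log_iff_exp_le (by linarith)]
    have h6 := Real.exp_one_lt_d9
    linarith
  have hK0 : 0 < K := by linarith
  have hT := h.hT
  have hD : (0 : ℝ) < T.D := by exact_mod_cast hT.D_pos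
  have hWp : 1 ≤ W0 := by
    have h1 : W0 ≠ 0 := fun h0 => by
      have := hT.W0_sq
      rw [h0] at this
      exact not_squarefree_zero this
    omega
  have hW1 : (W0 : ℝ) ≤ K ^ (1 / 100 : ℝ) := by
    refine le_trans ?_ e5
    have h1 : (1 : ℝ) ≤ W0 := by exact_mod_cast hWp
    calc (W0 : ℝ) = (W0 : ℝ) ^ 1 := (pow_one _).symm
      _ ≤ (W0 : ℝ) ^ (S.k + 1) := pow_le_pow_right₀ h1 (by omega)
  have hW0 : (0 : ℝ) ≤ W0 := Nat.cast_nonneg _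
  have hr : (0 : ℝ) ≤ K ^ (1 / 100 : ℝ) := Real.rpow_nonneg hK0.le _
  obtain ⟨x, hx⟩ : ∃ x : ℕ → ℝ, ∀ p, x p = 8 * ((S.k + 1 : ℕ) : ℝ) / p := ⟨_, fun _ => rfl⟩
  have hx0 : ∀ p ∈ T.PS, 0 ≤ x p ∧ x p ≤ 1 / 8 := fun p hp => by
    rw [hx]
    exact PN1_hr h.hS hp
  have x16 : ∀ p : ℕ, 16 * ((S.k + 1 : ℕ) : ℝ) / p = 2 * x p := fun p => by rw [hx]; ring
  have x24 : ∀ p : ℕ, 24 * ((S.k + 1 : ℕ) : ℝ) / p = 3 * x p := fun p => by rw [hx]; ring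
  have x48 : ∀ p : ℕ, 48 * ((S.k + 1 : ℕ) : ℝ) / p = 6 * x p := fun p => by rw [hx]; ring
  have h24 : (0 : ℝ) ≤ ∏ p ∈ T.PS, (1 + 24 * ((S.k + 1 : ℕ) : ℝ) / p) := prod_nonneg fun p _ => by positivity
  have h48 : ∏ p ∈ T.PS, (1 + 48 * ((S.k + 1 : ℕ) : ℝ) / p) ≤ K ^ (1 / 100 : ℝ) * K ^ (1 / 100 : ℝ) := by
    refine le_trans ?_ (mul_le_mul e3 e3 h24 hr)
    rw [← prod_mul_distrib]
    refine prod_le_prod (fun p _ => by positivity) fun p hp => ?_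
    rw [x48, x24]
    have := (hx0 p hp).1
    nlinarith
  have h16 : ∏ p ∈ T.PS, (1 + 16 * ((S.k + 1 : ℕ) : ℝ) / p) ≤ K ^ (1 / 100 : ℝ) := by
    refine le_trans (prod_le_prod (fun p _ => by positivity) fun p hp => ?_) e3
    rw [x16, x24]
    have := (hx0 p hp).1
    linarith
  have h22 : (2 : ℝ) ^ T.base.card * 2 ^ T.base.card ≤ K ^ (1 / 100 : ℝ) := by
    refine le_trans (le_of_eq ?_) e1
    rw [← mul_pow]
    norm_num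
  refine ⟨?_, ?_, ?_, ?_, ?_⟩
  · rw [V4]
    positivity
  · rw [V4]
    calc (∏ p ∈ T.PS, (1 + 48 * ((S.k + 1 : ℕ) : ℝ) / p)) * 4 ^ T.base.card
        ≤ (K ^ (1 / 100 : ℝ) * K ^ (1 / 100 : ℝ)) * K ^ (1 / 100 : ℝ) := mul_le_mul h48 e1 (by positivity) (by positivity)
      _ = K ^ (3 / 100 : ℝ) := by
          rw [← Real.rpow_add hK0, ← Real.rpow_add hK0]
          norm_num
  · rw [V5]
    positivity
  · have h3 : V5 S T W0 = ((∏ p ∈ T.PS, (1 + 16 * ((S.k + 1 : ℕ) : ℝ) / p)) * ((2 ^ T.base.card * 2 ^ T.base.card) * W0)) / T.D := by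
      rw [V5]
      ring
    rw [h3]
    refine div_le_div_of_nonneg_right ?_ hD.le
    calc (∏ p ∈ T.PS, (1 + 16 * ((S.k + 1 : ℕ) : ℝ) / p)) * ((2 ^ T.base.card * 2 ^ T.base.card) * W0)
        ≤ K ^ (1 / 100 : ℝ) * (K ^ (1 / 100 : ℝ) * K ^ (1 / 100 : ℝ)) :=
          mul_le_mul h16 (mul_le_mul h22 hW1 hW0 hr) (by positivity) hr
      _ = K ^ (3 / 100 : ℝ) := by
          rw [← Real.rpow_add hK0, ← Real.rpow_add hK0]
          norm_num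
      _ ≤ K ^ (1 / 10 : ℝ) := Real.rpow_le_rpow_of_exponent_le hK1 (by norm_num)
  · have h5 : VS S T ^ 3 ≤ VS2 S T := by
      unfold VS VS2
      rw [← prod_pow]
      refine prod_le_prod (fun p hp => ?_) fun p hp => ?_
      · rw [← hx]
        have := (hx0 p hp).2
        exact pow_nonneg (by linarith) _
      · rw [← hx, x16]
        obtain ⟨a, b⟩ := hx0 p hp
        nlinarith [mul_nonneg a a, mul_nonneg (mul_nonneg a a) a]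
    refine le_trans ?_ h5
    calc K ^ (-(3 / 100) : ℝ) = (K ^ (-(1 / 100) : ℝ)) ^ 3 := by
          rw [← Real.rpow_natCast, ← Real.rpow_mul hK0.le]
          norm_num
      _ ≤ VS S T ^ 3 := pow_le_pow_left₀ (Real.rpow_nonneg hK0.le _) e4 3

end Pool.Agent.Lib.T3
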