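import Pool.Agent.Lib.MP_7b7e48_nt.TC.QN1
import Pool.Agent.Lib.MP_7b7e48_nt.T3.QN0
import Pool.Agent.Lib.MP_7b7e48_nt.TC.Q21
import Pool.Agent.Lib.MP_bc6037_nt.DivBound
import Pool.Agent.Lib.MP_5d7b92_nt.UA.Me

/-!
# QN1: the small factors are at most `K^(1/100)`

`K = log N`, `m = k + 1`, `N` large in terms of the constants.
* `base` = the primes of `D` (`p < p0` divides `W0`, `W0² ∣ D`; `p ∣ D` implies `p ≤ D ≤ y0`). `2^|base| ≤ τ(D) ≤ C_ε D^ε` (`card_divisors_le_rpow`), `D ≤ K^CD`, `ε = 1/(1000 (CD + 1))`; so `4^|base|`, `τ(D) ≤ K^(1/100)`.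
* `∏_{PS} (1 + 24 m/p) ≤ exp (24 m ∑_{p ≤ y0} 1/p)`, `∑_{p ≤ y0} 1/p ≤ log log y0 + C` (`mertens_two`), `log y0 ≤ 2 (CY + 1) log K`: a power of `log K`. The same for `VS ≥ exp (- 16 m ∑ 1/p)` (`8 m/p ≤ 1/8`, `p ≥ 64 m²`; `1 - x ≥ exp (-2x)`).
* `NJ y = log₂ log₂ y + 1`; `W0 ≤ W1`, `(3 Cα)^(k+1)`, `m`: constants.
-/

set_option autoImplicit false

open Finset
open Pool.Agent.Lib.GT (NJ)

namespace Pool.Agent.Lib.T3

open Pool.Agent.Lib.TC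

private theorem QN1_const (C : ℝ) {e : ℝ} (he : 0 < e) : ∀ᶠ K : ℝ in Filter.atTop, C ≤ K ^ e :=
  (tendsto_rpow_atTop he).eventually_ge_atTop C

private theorem QN1_log (a b : ℝ) (n : ℕ) {e : ℝ} (he : 0 < e) : ∀ᶠ K : ℝ in Filter.atTop, a * (Real.log K) ^ n + b ≤ K ^ e := by
  have h1 := (isLittleO_log_rpow_rpow_atTop (n : ℝ) he).bound (c := 1 / (2 * (|a| + 1))) (by positivity)
  have h2 := QN1_const (2 * |b|) he
  filter_upwards [h1, h2, Filter.eventually_ge_atTop (1 : ℝ)] with K h1 h2 h3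
  have h4 : 0 ≤ K ^ e := Real.rpow_nonneg (by linarith) _
  have h5 : 0 ≤ Real.log K := Real.log_nonneg h3
  rw [Real.rpow_natCast, Real.norm_eq_abs, Real.norm_eq_abs, abs_of_nonneg h4, abs_of_nonneg (pow_nonneg h5 n)] at h1
  have h6 : 0 ≤ (Real.log K) ^ n := pow_nonneg h5 n
  have h7 : a * (Real.log K) ^ n ≤ (|a| + 1) * (1 / (2 * (|a| + 1)) * K ^ e) := by
    calc a * (Real.log K) ^ n ≤ (|a| + 1) * (Real.log K) ^ n := mul_le_mul_of_nonneg_right (by linarith [le_abs_self a]) h6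
      _ ≤ (|a| + 1) * (1 / (2 * (|a| + 1)) * K ^ e) := mul_le_mul_of_nonneg_left h1 (by positivity)
  have h8 : (|a| + 1) * (1 / (2 * (|a| + 1)) * K ^ e) = K ^ e / 2 := by
    have : |a| + 1 ≠ 0 := by positivity
    field_simp
  have h9 := le_abs_self b
  linarith

private theorem QN1_ev (CY m : ℕ) (C1 C2 W1 Cα ζ : ℝ) : ∃ N0 : ℕ, ∀ N : ℕ, N0 ≤ N →
    3 ≤ Real.log N ∧ C1 ^ 2 ≤ (Real.log N) ^ (8 / 1000 : ℝ) ∧
    (Real.exp C2 * ((CY + 1) * Real.log (Real.log N))) ^ (24 * m) ≤ (Real.log N) ^ (1 / 100 : ℝ) ∧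
    W1 ^ m ≤ (Real.log N) ^ (1 / 100 : ℝ) ∧ (3 * Cα) ^ m ≤ (Real.log N) ^ (1 / 100 : ℝ) ∧
    2 * (CY + 1) * Real.log (Real.log N) + 3 ≤ (Real.log N) ^ (1 / 100 : ℝ) ∧
    2 * (Real.log (2 * ζ) + Real.log (Real.log N)) + 2 ≤ (Real.log N) ^ (1 / 100 : ℝ) ∧
    2 ≤ (Real.log N) ^ (1 / 100 : ℝ) := by
  have h1 := QN1_const (C1 ^ 2) (e := 8 / 1000) (by norm_num)
  have h2 := QN1_log ((Real.exp C2 * (CY + 1)) ^ (24 * m)) 0 (24 * m) (e := 1 / 100) (by norm_num)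
  have h3 := QN1_const (W1 ^ m) (e := 1 / 100) (by norm_num)
  have h4 := QN1_const ((3 * Cα) ^ m) (e := 1 / 100) (by norm_num)
  have h5 := QN1_log (2 * (CY + 1)) 3 1 (e := 1 / 100) (by norm_num)
  have h6 := QN1_log 2 (2 * Real.log (2 * ζ) + 2) 1 (e := 1 / 100) (by norm_num)
  have h7 := QN1_const 2 (e := 1 / 100) (by norm_num)
  have h8 : ∀ᶠ K : ℝ in Filter.atTop, 3 ≤ K ∧ C1 ^ 2 ≤ K ^ (8 / 1000 : ℝ) ∧
      (Real.exp C2 * ((CY + 1) * Real.log K)) ^ (24 * m) ≤ K ^ (1 / 100 : ℝ) ∧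
      W1 ^ m ≤ K ^ (1 / 100 : ℝ) ∧ (3 * Cα) ^ m ≤ K ^ (1 / 100 : ℝ) ∧
      2 * (CY + 1) * Real.log K + 3 ≤ K ^ (1 / 100 : ℝ) ∧
      2 * (Real.log (2 * ζ) + Real.log K) + 2 ≤ K ^ (1 / 100 : ℝ) ∧ 2 ≤ K ^ (1 / 100 : ℝ) := by
    filter_upwards [h1, h2, h3, h4, h5, h6, h7, Filter.eventually_ge_atTop (3 : ℝ)] with K h1 h2 h3 h4 h5 h6 h7 h8
    refine ⟨h8, h1, ?_, h3, h4, ?_, ?_, h7⟩
    · rw [← mul_assoc, mul_pow]
      linarith
    · rw [pow_one] at h5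
      exact h5
    · rw [pow_one] at h6
      linarith
  have h9 := (Real.tendsto_log_atTop.comp tendsto_natCast_atTop_atTop).eventually h8
  obtain ⟨N0, hN0⟩ := Filter.eventually_atTop.1 h9
  exact ⟨N0, fun N hN => hN0 N hN⟩

private theorem QN1_nlog (n : ℕ) : (Nat.log 2 n : ℝ) ≤ 2 * Real.log n := by
  rcases Nat.eq_zero_or_pos n with h | h
  · subst h
    simp
  · have h1 : 2 ^ Nat.log 2 n ≤ n := Nat.pow_log_le_self 2 h.ne'
    have h2 : ((2 : ℝ) ^ Nat.log 2 n) ≤ n := by exact_mod_cast h1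
    have h3 := Real.log_le_log (by positivity) h2
    rw [Real.log_pow] at h3
    have h4 := Real.log_two_gt_d9
    have h5 : (Nat.log 2 n : ℝ) * (1 / 2) ≤ (Nat.log 2 n : ℝ) * Real.log 2 :=
      mul_le_mul_of_nonneg_left (by linarith) (Nat.cast_nonneg _)
    linarith

private theorem QN1_omega {n : ℕ} (hn : n ≠ 0) : 2 ^ n.primeFactors.card ≤ n.divisors.card := by
  rw [Nat.card_divisors hn, ← prod_const]
  refine prod_le_prod' fun p hp => ?_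
  have h1 : 0 < n.factorization p := by
    rw [Nat.mem_primeFactors] at hp
    exact hp.1.factorization_pos_of_dvd hn hp.2.1
  omega

private theorem QN1_base {T : Dat} {W0 : ℕ} (hT : T.OK W0) : 2 ^ T.base.card ≤ T.D.divisors.card := by
  have h0 : T.D ≠ 0 := hT.D_pos.ne'
  have h1 : T.base ⊆ T.D.primeFactors := by
    intro p hp
    rw [Dat.base, mem_filter] at hp
    obtain ⟨-, h2, h3⟩ := hp
    rw [Nat.mem_primeFactors]
    refine ⟨h2, ?_, h0⟩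
    rcases h3 with h3 | h3
    · exact ((hT.W0_pr p h2).2 h3 |>.trans (dvd_pow_self W0 two_ne_zero)).trans hT.W0_D
    · exact h3
  exact (Nat.pow_le_pow_right (by norm_num) (card_le_card h1)).trans (QN1_omega h0)

private theorem QN1_exp {x : ℝ} (h0 : 0 ≤ x) (h1 : x ≤ 1 / 2) : Real.exp (-(2 * x)) ≤ 1 - x := by
  have h2 := Real.add_one_le_exp (2 * x)
  have h3 : 0 < 1 - x := by linarith
  rw [Real.exp_neg, inv_le_comm₀ (Real.exp_pos _) h3]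
  refine le_trans ?_ h2
  rw [inv_le_iff_one_le_mul₀ h3]
  nlinarith

private theorem QN1_PS {T : Dat} : ∑ p ∈ T.PS, 1 / (p : ℝ) ≤ Pool.Agent.Lib.MP_5d7b92_nt.UA.P1 T.y0 := by
  unfold Pool.Agent.Lib.MP_5d7b92_nt.UA.P1
  refine sum_le_sum_of_subset_of_nonneg ?_ fun p _ _ => by positivity
  intro p hp
  rw [Dat.PS, mem_filter] at hp
  rw [Pool.Agent.Lib.MP_5d7b92_nt.UA.PR, mem_filter]
  exact ⟨hp.1, hp.2.1⟩

private theorem QN1_up {S : MS} {T : Dat} (a : ℝ) (ha : 0 ≤ a) :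
    ∏ p ∈ T.PS, (1 + a * ((S.k + 1 : ℕ) : ℝ) / p) ≤ Real.exp (a * ((S.k + 1 : ℕ) : ℝ) * ∑ p ∈ T.PS, 1 / (p : ℝ)) := by
  rw [mul_sum, Real.exp_sum]
  refine prod_le_prod (fun p _ => by positivity) fun p _ => ?_
  have h := Real.add_one_le_exp (a * ((S.k + 1 : ℕ) : ℝ) * (1 / (p : ℝ)))
  refine le_trans (le_of_eq ?_) h
  ring

private theorem QN1_lo {S : MS} {T : Dat} {W0 : ℕ} {Z : Fin (S.k + 1) → ℕ} (hS : S.OK3 T W0 Z) :
    Real.exp (-(16 * ((S.k + 1 : ℕ) : ℝ) * ∑ p ∈ T.PS, 1 / (p : ℝ))) ≤ VS S T := by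
  rw [mul_sum, ← sum_neg_distrib, Real.exp_sum, VS]
  refine prod_le_prod (fun p _ => (Real.exp_pos _).le) fun p hp => ?_
  rw [Dat.PS, mem_filter] at hp
  have h1 : 64 * (S.k + 1) ^ 2 ≤ p := hS.p0_lo.trans hp.2.2
  have h2 : 64 * ((S.k + 1 : ℕ) : ℝ) ^ 2 ≤ p := by exact_mod_cast h1
  have h3 : (1 : ℝ) ≤ ((S.k + 1 : ℕ) : ℝ) := by
    push_cast
    have : (0 : ℝ) ≤ S.k := Nat.cast_nonneg _
    linarith
  have h4 : (0 : ℝ) < p := by nlinarith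
  have h5 : 8 * ((S.k + 1 : ℕ) : ℝ) / p ≤ 1 / 2 := by
    rw [div_le_iff₀ h4]
    nlinarith
  have h6 := QN1_exp (x := 8 * ((S.k + 1 : ℕ) : ℝ) / p) (by positivity) h5
  refine le_trans (le_of_eq ?_) h6
  congr 1
  ring

private theorem QN1_P1 {C2 : ℝ} (hM : ∀ w : ℕ, 3 ≤ w → |Pool.Agent.Lib.MP_5d7b92_nt.UA.P1 w - Real.log (Real.log w)| ≤ C2)
    {y : ℕ} (hy : 3 ≤ y) {L : ℝ} (hL : Real.log y ≤ L) (n : ℕ) :
    Real.exp ((n : ℝ) * Pool.Agent.Lib.MP_5d7b92_nt.UA.P1 y) ≤ (Real.exp C2 * L) ^ n := by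
  have h1 := (abs_le.1 (hM y hy)).2
  have h2 : 0 < Real.log y := Real.log_pos (by exact_mod_cast (by omega : 1 < y))
  rw [mul_comm (n : ℝ), Real.exp_mul, Real.rpow_natCast]
  refine pow_le_pow_left₀ (Real.exp_pos _).le ?_ n
  calc Real.exp (Pool.Agent.Lib.MP_5d7b92_nt.UA.P1 y) ≤ Real.exp (C2 + Real.log (Real.log y)) := Real.exp_le_exp.2 (by linarith)
    _ = Real.exp C2 * Real.log y := by rw [Real.exp_add, Real.exp_log h2]
    _ ≤ Real.exp C2 * L := mul_le_mul_of_nonneg_left hL (Real.exp_pos _).le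

theorem QN1 (c : PC) (hc : c.OK) : ∃ N0 : ℕ, ∀ (S : MS) (T : Dat) (M : Msr S) (W0 : ℕ) (Z : Fin (S.k + 1) → ℕ) (p1 Q0 pb : ℕ) (η : ℝ),
    PH3 c S T M W0 Z p1 Q0 pb η → N0 ≤ T.N →
    (4 : ℝ) ^ T.base.card ≤ (Real.log T.N) ^ (1 / 100 : ℝ) ∧ (T.D.divisors.card : ℝ) ≤ (Real.log T.N) ^ (1 / 100 : ℝ) ∧
    ∏ p ∈ T.PS, (1 + 24 * ((S.k + 1 : ℕ) : ℝ) / p) ≤ (Real.log T.N) ^ (1 / 100 : ℝ) ∧
    (Real.log T.N) ^ (-(1 / 100) : ℝ) ≤ VS S T ∧ (W0 : ℝ) ^ (S.k + 1) ≤ (Real.log T.N) ^ (1 / 100 : ℝ) ∧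
    (3 * c.Cα) ^ (S.k + 1) ≤ (Real.log T.N) ^ (1 / 100 : ℝ) ∧ (NJ T.y0 : ℝ) + 2 ≤ (Real.log T.N) ^ (1 / 100 : ℝ) ∧
    (NJ T.z : ℝ) + 1 ≤ (Real.log T.N) ^ (1 / 100 : ℝ) := by
  obtain ⟨C1, hC1, hdiv⟩ := Pool.Agent.Lib.MP_bc6037_nt.card_divisors_le_rpow (η := 1 / (1000 * ((c.CD : ℝ) + 1))) (by positivity)
  obtain ⟨C2, hC2, hM2⟩ := Pool.Agent.Lib.MP_5d7b92_nt.UA.mertens_two
  obtain ⟨N0, hN0⟩ := QN1_ev c.CY (c.k + 1) C1 C2 c.W1 c.Cα c.ζ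
  refine ⟨N0, fun S T M W0 Z p1 Q0 pb η h hN => ?_⟩
  obtain ⟨e1, e2, e3, e4, e5, e6, e7, e8⟩ := hN0 T.N hN
  set K := Real.log T.N with hK
  have hK0 : 0 < K := by linarith
  have hK1 : 1 ≤ K := by linarith
  have hT := h.hT
  have hD0 : T.D ≠ 0 := hT.D_pos.ne'
  -- the divisors of `D`
  have d1 : (T.D.divisors.card : ℝ) ≤ C1 * K ^ (1 / 1000 : ℝ) := by
    refine (hdiv T.D hD0).trans (mul_le_mul_of_nonneg_left ?_ (by linarith))
    calc (T.D : ℝ) ^ (1 / (1000 * ((c.CD : ℝ) + 1))) ≤ (K ^ c.CD) ^ (1 / (1000 * ((c.CD : ℝ) + 1))) :=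
          Real.rpow_le_rpow (Nat.cast_nonneg _) h.hD (by positivity)
      _ = K ^ ((c.CD : ℝ) * (1 / (1000 * ((c.CD : ℝ) + 1)))) := by
          rw [← Real.rpow_natCast, ← Real.rpow_mul hK0.le]
      _ ≤ K ^ (1 / 1000 : ℝ) := by
          refine Real.rpow_le_rpow_of_exponent_le hK1 ?_
          have h1 : (0 : ℝ) ≤ c.CD := Nat.cast_nonneg _
          rw [mul_one_div, div_le_iff₀ (by positivity)]
          linarith
  have d0 : (1 : ℝ) ≤ (T.D.divisors.card : ℝ) := by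
    have : 0 < T.D.divisors.card := card_pos.2 ⟨1, Nat.one_mem_divisors.2 hD0⟩
    exact_mod_cast this
  have d2 : (T.D.divisors.card : ℝ) ^ 2 ≤ K ^ (1 / 100 : ℝ) := by
    calc (T.D.divisors.card : ℝ) ^ 2 ≤ (C1 * K ^ (1 / 1000 : ℝ)) ^ 2 := pow_le_pow_left₀ (by linarith) d1 2
      _ = C1 ^ 2 * K ^ (2 / 1000 : ℝ) := by
          rw [mul_pow]
          congr 1
          rw [← Real.rpow_natCast, ← Real.rpow_mul hK0.le]
          norm_num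
      _ ≤ K ^ (8 / 1000 : ℝ) * K ^ (2 / 1000 : ℝ) := mul_le_mul_of_nonneg_right e2 (Real.rpow_nonneg hK0.le _)
      _ = K ^ (1 / 100 : ℝ) := by
          rw [← Real.rpow_add hK0]
          norm_num
  have d3 : (T.D.divisors.card : ℝ) ≤ K ^ (1 / 100 : ℝ) := by nlinarith
  have d4 : (4 : ℝ) ^ T.base.card ≤ K ^ (1 / 100 : ℝ) := by
    have h1 : ((2 : ℝ) ^ T.base.card) ≤ T.D.divisors.card := by exact_mod_cast QN1_base hT
    calc (4 : ℝ) ^ T.base.card = ((2 : ℝ) ^ T.base.card) ^ 2 := by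
          rw [← pow_mul, mul_comm, pow_mul]
          norm_num
      _ ≤ (T.D.divisors.card : ℝ) ^ 2 := pow_le_pow_left₀ (by positivity) h1 2
      _ ≤ _ := d2
  -- the products
  have hCY : 1 ≤ c.CY := by
    have := hc.Y1
    omega
  have hyK : K ≤ T.y0 := by
    calc K = K ^ 1 := (pow_one K).symm
      _ ≤ K ^ c.CY := pow_le_pow_right₀ hK1 hCY
      _ ≤ T.y0 := h.hy1
  have hy3 : 3 ≤ T.y0 := by
    have : (3 : ℝ) ≤ T.y0 := e1.trans hyK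
    exact_mod_cast this
  have hly : Real.log T.y0 ≤ (c.CY + 1) * Real.log K := by
    have h1 : (0 : ℝ) < T.y0 := by
      have : 0 < T.y0 := by omega
      exact_mod_cast this
    calc Real.log T.y0 ≤ Real.log (K ^ (c.CY + 1)) := Real.log_le_log h1 h.hy2
      _ = (c.CY + 1) * Real.log K := by
          rw [Real.log_pow]
          push_cast
          ring
  have hm : ((S.k + 1 : ℕ) : ℝ) = ((c.k + 1 : ℕ) : ℝ) := by rw [h.hk]
  have hexp : Real.exp (24 * ((S.k + 1 : ℕ) : ℝ) * ∑ p ∈ T.PS, 1 / (p : ℝ)) ≤ K ^ (1 / 100 : ℝ) := by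
    calc Real.exp (24 * ((S.k + 1 : ℕ) : ℝ) * ∑ p ∈ T.PS, 1 / (p : ℝ))
        ≤ Real.exp (((24 * (c.k + 1) : ℕ) : ℝ) * Pool.Agent.Lib.MP_5d7b92_nt.UA.P1 T.y0) := by
          rw [Real.exp_le_exp, hm]
          have h1 : (24 : ℝ) * ((c.k + 1 : ℕ) : ℝ) = ((24 * (c.k + 1) : ℕ) : ℝ) := by push_cast; ring
          rw [h1]
          exact mul_le_mul_of_nonneg_left QN1_PS (Nat.cast_nonneg _)
      _ ≤ (Real.exp C2 * ((c.CY + 1) * Real.log K)) ^ (24 * (c.k + 1)) := QN1_P1 hM2 hy3 hly _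
      _ ≤ K ^ (1 / 100 : ℝ) := e3
  have hup := (QN1_up (S := S) (T := T) 24 (by norm_num)).trans hexp
  have hlo : K ^ (-(1 / 100) : ℝ) ≤ VS S T := by
    refine le_trans ?_ (QN1_lo h.hS)
    rw [Real.rpow_neg hK0.le, Real.exp_neg]
    refine inv_anti₀ (Real.exp_pos _) (le_trans (Real.exp_le_exp.2 ?_) hexp)
    refine mul_le_mul_of_nonneg_right ?_ (sum_nonneg fun p _ => by positivity)
    refine mul_le_mul_of_nonneg_right (by norm_num) (Nat.cast_nonneg _)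
  have hW : (W0 : ℝ) ^ (S.k + 1) ≤ K ^ (1 / 100 : ℝ) := by
    rw [h.hk]
    refine le_trans (pow_le_pow_left₀ (Nat.cast_nonneg _) ?_ _) e4
    exact_mod_cast h.hW
  have hα : (3 * c.Cα) ^ (S.k + 1) ≤ K ^ (1 / 100 : ℝ) := by
    rw [h.hk]
    exact e5
  refine ⟨d4, d3, hup, hlo, hW, hα, ?_, ?_⟩
  · rw [NJ]
    push_cast
    have h1 : ((Nat.log 2 (Nat.log 2 T.y0) : ℕ) : ℝ) ≤ ((Nat.log 2 T.y0 : ℕ) : ℝ) := by
      exact_mod_cast Nat.log_le_self 2 _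
    have h2 := QN1_nlog T.y0
    linarith
  · rw [NJ]
    push_cast
    have hz0 : 0 < T.z := by
      have := hT.y0_lt
      omega
    have hz0' : (0 : ℝ) < T.z := by exact_mod_cast hz0
    have hNpos : (0 : ℝ) < T.N := by
      have := hT.N_pos
      exact_mod_cast (by omega : 0 < T.N)
    have h1 : Real.log T.z ≤ c.ζ * K := by
      have := Real.log_le_log hz0' h.hz2
      rw [Real.log_rpow hNpos] at this
      exact this
    have h2 := QN1_nlog T.z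
    have h3 := QN1_nlog (Nat.log 2 T.z)
    rcases Nat.eq_zero_or_pos (Nat.log 2 T.z) with h4 | h4
    · rw [h4]
      simp only [Nat.log_zero_right, Nat.cast_zero]
      linarith
    · have h5 : (0 : ℝ) < ((Nat.log 2 T.z : ℕ) : ℝ) := by exact_mod_cast h4
      have h6 : Real.log ((Nat.log 2 T.z : ℕ) : ℝ) ≤ Real.log (2 * c.ζ) + Real.log K := by
        rw [← Real.log_mul (by have := hc.ζp; positivity) hK0.ne']
        refine Real.log_le_log h5 ?_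
        linarith
      linarith

/-- consequences -/
theorem QN1_U (c : PC) (hc : c.OK) : ∃ N0 : ℕ, ∀ (S : MS) (T : Dat) (M : Msr S) (W0 : ℕ) (Z : Fin (S.k + 1) → ℕ) (p1 Q0 pb : ℕ) (η : ℝ),
    PH3 c S T M W0 Z p1 Q0 pb η → N0 ≤ T.N →
    0 ≤ U4 S T ∧ U4 S T ≤ (Real.log T.N) ^ (1 / 50 : ℝ) ∧ 0 ≤ U5 S T W0 ∧ U5 S T W0 ≤ (Real.log T.N) ^ (1 / 10 : ℝ) / T.D ∧
    0 ≤ U6 T W0 ∧ U6 T W0 ≤ (Real.log T.N) ^ (1 / 50 : ℝ) / T.D ∧ 0 ≤ MA S T c.Cα ∧ MA S T c.Cα ≤ (Real.log T.N) ^ (1 / 20 : ℝ) / (T.D : ℝ) ^ 2 := by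
  obtain ⟨N0, hN0⟩ := QN1 c hc
  refine ⟨max N0 3, fun S T M W0 Z p1 Q0 pb η h hN => ?_⟩
  obtain ⟨e1, e2, e3, -, e5, e6, -, -⟩ := hN0 S T M W0 Z p1 Q0 pb η h (le_trans (le_max_left _ _) hN)
  set K := Real.log T.N with hK
  have hN3 : (3 : ℝ) ≤ T.N := by exact_mod_cast le_trans (le_max_right _ _) hN
  have hK1 : 1 ≤ K := by
    rw [hK, Real.le_log_iff_exp_le (by linarith)]
    have h6 := Real.exp_one_lt_d9
    linarith
  have hK0 : 0 < K := by linarith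
  have hT := h.hT
  have hD : (0 : ℝ) < T.D := by exact_mod_cast hT.D_pos
  have hWp : 1 ≤ W0 := by
    have h1 : W0 ≠ 0 := fun h0 => by
      have := hT.W0_sq
      rw [h0] at this
      exact not_squarefree_zero this
    omega
  have hW1 : (W0 : ℝ) ≤ K ^ (1 / 100 : ℝ) := by
    refine le_trans ?_ e5
    have h1 : (1 : ℝ) ≤ W0 := by exact_mod_cast hWp
    calc (W0 : ℝ) = (W0 : ℝ) ^ 1 := (pow_one _).symm
      _ ≤ (W0 : ℝ) ^ (S.k + 1) := pow_le_pow_right₀ h1 (by omega)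
  have hW0 : (0 : ℝ) ≤ W0 := Nat.cast_nonneg _
  have h24 : (0 : ℝ) ≤ ∏ p ∈ T.PS, (1 + 24 * ((S.k + 1 : ℕ) : ℝ) / p) := prod_nonneg fun p _ => by positivity
  have h8 : (0 : ℝ) ≤ ∏ p ∈ T.PS, (1 + 8 * ((S.k + 1 : ℕ) : ℝ) / p) := prod_nonneg fun p _ => by positivity
  have h8' : ∏ p ∈ T.PS, (1 + 8 * ((S.k + 1 : ℕ) : ℝ) / p) ≤ K ^ (1 / 100 : ℝ) := by
    refine le_trans (prod_le_prod (fun p _ => by positivity) fun p _ => ?_) e3
    have h1 : 8 * ((S.k + 1 : ℕ) : ℝ) / p ≤ 24 * ((S.k + 1 : ℕ) : ℝ) / p := by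
      refine div_le_div_of_nonneg_right ?_ (Nat.cast_nonneg _)
      have : (0 : ℝ) ≤ ((S.k + 1 : ℕ) : ℝ) := Nat.cast_nonneg _
      linarith
    linarith
  have hr : (0 : ℝ) ≤ K ^ (1 / 100 : ℝ) := Real.rpow_nonneg hK0.le _
  have hr2 : K ^ (1 / 100 : ℝ) * K ^ (1 / 100 : ℝ) = K ^ (1 / 50 : ℝ) := by
    rw [← Real.rpow_add hK0]
    norm_num
  have h2 : (2 : ℝ) ^ T.base.card ≤ K ^ (1 / 100 : ℝ) :=
    (pow_le_pow_left₀ (by norm_num) (by norm_num) _).trans e1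
  have h22 : (2 : ℝ) ^ T.base.card * 2 ^ T.base.card ≤ K ^ (1 / 100 : ℝ) := by
    refine le_trans (le_of_eq ?_) e1
    rw [← mul_pow]
    norm_num
  refine ⟨?_, ?_, ?_, ?_, ?_, ?_, ?_, ?_⟩
  · rw [U4]
    positivity
  · rw [U4, ← hr2]
    exact mul_le_mul e3 e1 (by positivity) hr
  · rw [U5]
    positivity
  · have h3 : U5 S T W0 = ((∏ p ∈ T.PS, (1 + 8 * ((S.k + 1 : ℕ) : ℝ) / p)) * ((2 ^ T.base.card * 2 ^ T.base.card) * W0)) / T.D := by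
      rw [U5]
      ring
    rw [h3]
    refine div_le_div_of_nonneg_right ?_ hD.le
    calc (∏ p ∈ T.PS, (1 + 8 * ((S.k + 1 : ℕ) : ℝ) / p)) * ((2 ^ T.base.card * 2 ^ T.base.card) * W0)
        ≤ K ^ (1 / 100 : ℝ) * (K ^ (1 / 100 : ℝ) * K ^ (1 / 100 : ℝ)) :=
          mul_le_mul h8' (mul_le_mul h22 hW1 hW0 hr) (by positivity) hr
      _ = K ^ (3 / 100 : ℝ) := by
          rw [← Real.rpow_add hK0, ← Real.rpow_add hK0]
          norm_num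
      _ ≤ K ^ (1 / 10 : ℝ) := Real.rpow_le_rpow_of_exponent_le hK1 (by norm_num)
  · rw [U6]
    positivity
  · rw [U6, ← hr2]
    refine div_le_div_of_nonneg_right ?_ hD.le
    exact mul_le_mul h2 hW1 hW0 hr
  · rw [MA]
    have := hc.α1
    positivity
  · have h3 : MA S T c.Cα = ((3 * c.Cα) ^ (S.k + 1) * (4 ^ T.base.card * (T.D.divisors.card : ℝ))) / (T.D : ℝ) ^ 2 := by
      rw [MA]
      ring
    rw [h3]
    refine div_le_div_of_nonneg_right ?_ (by positivity)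
    calc (3 * c.Cα) ^ (S.k + 1) * (4 ^ T.base.card * (T.D.divisors.card : ℝ))
        ≤ K ^ (1 / 100 : ℝ) * (K ^ (1 / 100 : ℝ) * K ^ (1 / 100 : ℝ)) :=
          mul_le_mul e6 (mul_le_mul e1 e2 (Nat.cast_nonneg _) hr) (by positivity) hr
      _ = K ^ (3 / 100 : ℝ) := by
          rw [← Real.rpow_add hK0, ← Real.rpow_add hK0]
          norm_num
      _ ≤ K ^ (1 / 20 : ℝ) := Real.rpow_le_rpow_of_exponent_le hK1 (by norm_num)

end Pool.Agent.Lib.T3
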