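import Pool.Agent.Lib.MP_7b7e48_nt.TC.QN2
import Pool.Agent.Lib.MP_7b7e48_nt.T3.QN0
import Pool.Agent.Lib.MP_7b7e48_nt.TC.Q22
import Pool.Agent.Lib.MP_5d7b92_nt.UA.Me

/-!
# QN2: the densities of the large sieve

`K = log N`, `m = k + 1`, `|g p - 1/p| ≤ 2/p²` for `p ∈ PL = {y0 < p ≤ z}`, `exp (K/(log K)²) ≤ z ≤ N^ζ ≤ N`, `K^CY ≤ y0 ≤ K^(CY+1)`. Mertens (`mertens_two`): `∑_{y0 < p ≤ z} 1/p = log log z - log log y0 + O(1)`, between `log K - 3 log log K - C` and `log K + C` (`log log z ≥ log K - 2 log log K`, `log y0 ≤ (CY + 1) log K`).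
`V3 = ∏ (1 + 3 m g) ≤ exp (3 m ∑ g)`, `∑ 2/p² ≤ 2/y0`. `VL = ∏ (1 - m g) ≤ exp (- m ∑ g)`, and `≥ exp (- m ∑ g - 2 m² ∑ g²)` (`m g ≤ 1/2`), `∑ g² ≤ 4/y0`.
-/

set_option autoImplicit false

open Finset

namespace Pool.Agent.Lib.T3

open Pool.Agent.Lib.TC

private theorem QN2_ev (CY m : ℕ) (C : ℝ) : ∃ N0 : ℕ, ∀ N : ℕ, N0 ≤ N →
    3 ≤ Real.log N ∧ 1 ≤ Real.log (Real.log N) ∧
    3 * (m : ℝ) * (2 * C + 1) + 1 ≤ 1 / 20 * Real.log (Real.log N) ∧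
    (m : ℝ) * (3 * Real.log (Real.log (Real.log N)) + Real.log ((CY : ℝ) + 1) + 2 * C + 1) ≤ 1 / 20 * Real.log (Real.log N) := by
  have h8 : ∀ᶠ L : ℝ in Filter.atTop, 1 ≤ L ∧ 3 * (m : ℝ) * (2 * C + 1) + 1 ≤ 1 / 20 * L ∧
      (m : ℝ) * (3 * Real.log L + Real.log ((CY : ℝ) + 1) + 2 * C + 1) ≤ 1 / 20 * L := by
    have h1 := Real.isLittleO_log_id_atTop.bound (c := 1 / (200 * ((m : ℝ) + 1))) (by positivity)
    filter_upwards [h1, Filter.eventually_ge_atTop (1 : ℝ), Filter.eventually_ge_atTop (20 * (3 * (m : ℝ) * (2 * C + 1) + 1)),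
      Filter.eventually_ge_atTop (40 * ((m : ℝ) * (Real.log ((CY : ℝ) + 1) + 2 * C + 1)))] with L h1 h2 h3 h4
    refine ⟨h2, by linarith, ?_⟩
    rw [Real.norm_eq_abs, Real.norm_eq_abs, id, abs_of_nonneg (by linarith : (0 : ℝ) ≤ L), abs_of_nonneg (Real.log_nonneg h2)] at h1
    have hm : (0 : ℝ) ≤ m := Nat.cast_nonneg m
    have h5 : (m : ℝ) * (3 * Real.log L) ≤ 1 / 40 * L := by
      calc (m : ℝ) * (3 * Real.log L) ≤ (m : ℝ) * (3 * (1 / (200 * ((m : ℝ) + 1)) * L)) := by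
            refine mul_le_mul_of_nonneg_left ?_ hm
            linarith
        _ = ((m : ℝ) / ((m : ℝ) + 1)) * (3 / 200 * L) := by
            have : (m : ℝ) + 1 ≠ 0 := by positivity
            field_simp
        _ ≤ 1 * (3 / 200 * L) := by
            refine mul_le_mul_of_nonneg_right ?_ (by linarith)
            rw [div_le_one (by positivity)]
            linarith
        _ ≤ 1 / 40 * L := by linarith
    nlinarith
  have h9 := (Real.tendsto_log_atTop.comp (Real.tendsto_log_atTop.comp tendsto_natCast_atTop_atTop)).eventually h8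
  have h10 := (Real.tendsto_log_atTop.comp tendsto_natCast_atTop_atTop).eventually (Filter.eventually_ge_atTop (3 : ℝ))
  obtain ⟨N0, hN0⟩ := Filter.eventually_atTop.1 (h10.and h9)
  exact ⟨N0, fun N hN => ⟨(hN0 N hN).1, (hN0 N hN).2.1, (hN0 N hN).2.2.1, (hN0 N hN).2.2.2⟩⟩

private theorem QN2_PL {T : Dat} {p : ℕ} (hp : p ∈ T.PL) : p.Prime ∧ T.y0 < p ∧ p ≤ T.z := by
  unfold Dat.PL at hp
  rw [mem_filter, mem_range] at hp
  exact ⟨hp.2.1, hp.2.2, by omega⟩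

private theorem QN2_sum {T : Dat} (h : T.y0 ≤ T.z) : ∑ p ∈ T.PL, 1 / (p : ℝ) =
    Pool.Agent.Lib.MP_5d7b92_nt.UA.P1 T.z - Pool.Agent.Lib.MP_5d7b92_nt.UA.P1 T.y0 := by
  unfold Pool.Agent.Lib.MP_5d7b92_nt.UA.P1
  have hsub : Pool.Agent.Lib.MP_5d7b92_nt.UA.PR T.y0 ⊆ Pool.Agent.Lib.MP_5d7b92_nt.UA.PR T.z := by
    intro p hp
    rw [Pool.Agent.Lib.MP_5d7b92_nt.UA.mem_PR] at hp ⊢
    exact ⟨hp.1.trans h, hp.2⟩
  rw [eq_sub_iff_add_eq, ← sum_sdiff hsub]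
  congr 1
  refine sum_congr ?_ fun _ _ => rfl
  ext p
  unfold Dat.PL
  rw [mem_filter, mem_range, mem_sdiff, Pool.Agent.Lib.MP_5d7b92_nt.UA.mem_PR, Pool.Agent.Lib.MP_5d7b92_nt.UA.mem_PR]
  constructor
  · rintro ⟨h1, h2, h3⟩
    exact ⟨⟨by omega, h2⟩, fun h4 => by omega⟩
  · rintro ⟨⟨h1, h2⟩, h3⟩
    refine ⟨by omega, h2, ?_⟩
    by_contra h4
    exact h3 ⟨by omega, h2⟩

private theorem QN2_sq {T : Dat} (h0 : 0 < T.y0) (h : T.y0 ≤ T.z) : ∑ p ∈ T.PL, ((p : ℝ) ^ 2)⁻¹ ≤ 1 / (T.y0 : ℝ) := by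
  have h1 := sum_Ioc_inv_sq_le_sub (α := ℝ) (k := T.y0) (n := T.z) h0.ne' h
  have h2 : ∑ p ∈ T.PL, ((p : ℝ) ^ 2)⁻¹ ≤ ∑ i ∈ Ioc T.y0 T.z, ((i : ℝ) ^ 2)⁻¹ := by
    refine sum_le_sum_of_subset_of_nonneg ?_ (fun i _ _ => by positivity)
    intro p hp
    obtain ⟨_, h3, h4⟩ := QN2_PL hp
    exact mem_Ioc.2 ⟨h3, h4⟩
  have h3 : (0 : ℝ) ≤ (T.z : ℝ)⁻¹ := by positivity
  rw [one_div]
  linarith

private theorem QN2_exp {x : ℝ} (h0 : 0 ≤ x) (h1 : x ≤ 1 / 2) : Real.exp (-(x + 2 * x ^ 2)) ≤ 1 - x := by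
  have h2 := Real.add_one_le_exp (x + 2 * x ^ 2)
  have h3 : 0 < 1 - x := by linarith
  rw [Real.exp_neg, inv_le_comm₀ (Real.exp_pos _) h3]
  refine le_trans ?_ h2
  rw [inv_le_iff_one_le_mul₀ h3]
  nlinarith [mul_nonneg h0 h0, mul_nonneg (mul_nonneg h0 h0) (sub_nonneg.2 h1)]

theorem QN2 (c : PC) (hc : c.OK) : ∃ N0 : ℕ, ∀ (S : MS) (T : Dat) (M : Msr S) (W0 : ℕ) (Z : Fin (S.k + 1) → ℕ) (p1 Q0 pb : ℕ) (η : ℝ),
    PH3 c S T M W0 Z p1 Q0 pb η → N0 ≤ T.N →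
    (Real.log T.N) ^ (-((c.k : ℝ) + 1) - 1 / 20) ≤ M.VL T ∧ M.VL T ≤ (Real.log T.N) ^ (-((c.k : ℝ) + 1) + 1 / 20) ∧
    0 ≤ M.V3 T ∧ M.V3 T ≤ (Real.log T.N) ^ (3 * ((c.k : ℝ) + 1) + 1 / 20) := by
  obtain ⟨C2, hC2, hM2⟩ := Pool.Agent.Lib.MP_5d7b92_nt.UA.mertens_two
  obtain ⟨N0, hN0⟩ := QN2_ev c.CY (c.k + 1) C2
  refine ⟨N0, fun S T M W0 Z p1 Q0 pb η h hN => ?_⟩
  obtain ⟨e1, e2, e3, e4⟩ := hN0 T.N hN
  set K := Real.log T.N with hK
  set L := Real.log K with hL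
  have hK0 : 0 < K := by linarith
  have hK1 : 1 ≤ K := by linarith
  have hT := h.hT
  have hCY : 1 ≤ c.CY := by
    have := hc.Y1
    omega
  have hyK : K ≤ T.y0 := by
    calc K = K ^ 1 := (pow_one K).symm
      _ ≤ K ^ c.CY := pow_le_pow_right₀ hK1 hCY
      _ ≤ T.y0 := h.hy1
  have hy3 : 3 ≤ T.y0 := by
    have : (3 : ℝ) ≤ T.y0 := e1.trans hyK
    exact_mod_cast this
  have hyz : T.y0 ≤ T.z := hT.y0_lt.le
  have hy0 : (0 : ℝ) < T.y0 := by linarith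
  have hz0' : (0 : ℝ) < T.z := by
    have : 0 < T.z := by omega
    exact_mod_cast this
  have hNpos : (0 : ℝ) < T.N := by
    have := hT.N_pos
    exact_mod_cast (by omega : 0 < T.N)
  -- the logarithms
  have hly : Real.log T.y0 ≤ (c.CY + 1) * L := by
    calc Real.log T.y0 ≤ Real.log (K ^ (c.CY + 1)) := Real.log_le_log hy0 h.hy2
      _ = (c.CY + 1) * L := by
          rw [Real.log_pow]
          push_cast
          ring
  have hly1 : 1 ≤ Real.log T.y0 := e2.trans (Real.log_le_log hK0 hyK)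
  have hlly0 : 0 ≤ Real.log (Real.log T.y0) := Real.log_nonneg hly1
  have hlly : Real.log (Real.log T.y0) ≤ Real.log ((c.CY : ℝ) + 1) + Real.log L := by
    rw [← Real.log_mul (by positivity) (by linarith)]
    exact Real.log_le_log (by linarith) hly
  have hζ : c.ζ ≤ 1 := by
    have h1 := hc.ζ1
    have h2 := hc.δ1l
    have h3 := hc.ζp
    have h4 : (1 : ℝ) ≤ c.b2 := by exact_mod_cast hc.b2p
    nlinarith
  have hlz1 : Real.log T.z ≤ K := by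
    have h1 : Real.log T.z ≤ c.ζ * K := by
      have := Real.log_le_log hz0' h.hz2
      rw [Real.log_rpow hNpos] at this
      exact this
    nlinarith
  have hlz2 : K / L ^ 2 ≤ Real.log T.z := by
    rw [Real.le_log_iff_exp_le hz0']
    exact h.hz1
  have hL0 : 0 < L := by linarith
  have hlz0 : 0 < K / L ^ 2 := by positivity
  have hllz1 : Real.log (Real.log T.z) ≤ L := Real.log_le_log (hlz0.trans_le hlz2) hlz1
  have hllz2 : L - 2 * Real.log L ≤ Real.log (Real.log T.z) := by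
    have h1 : Real.log (K / L ^ 2) = L - 2 * Real.log L := by
      rw [Real.log_div hK0.ne' (by positivity), Real.log_pow]
      push_cast
      ring
    rw [← h1]
    exact Real.log_le_log hlz0 hlz2
  -- Mertens
  have hz3 : 3 ≤ T.z := by omega
  have m1 := abs_le.1 (hM2 T.z hz3)
  have m2 := abs_le.1 (hM2 T.y0 hy3)
  set s := ∑ p ∈ T.PL, 1 / (p : ℝ) with hs
  have hs1 : s ≤ L + 2 * C2 := by
    rw [hs, QN2_sum hyz]
    linarith [m1.2, m2.1]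
  have hs2 : L - 3 * Real.log L - Real.log ((c.CY : ℝ) + 1) - 2 * C2 ≤ s := by
    rw [hs, QN2_sum hyz]
    linarith [m1.1, m2.2]
  -- the densities
  have hg : ∀ p ∈ T.PL, 0 ≤ M.g p ∧ |M.g p - 1 / p| ≤ 2 * ((p : ℝ) ^ 2)⁻¹ := by
    intro p hp
    obtain ⟨h1, h2, _⟩ := QN2_PL hp
    have h3 := h.hM.g_large p h1 h2
    rw [div_eq_mul_inv] at h3
    rw [div_eq_mul_inv 2] at h3
    exact ⟨h3.1, by rw [div_eq_mul_inv]; exact h3.2⟩
  set G := ∑ p ∈ T.PL, M.g p with hG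
  have hsq := QN2_sq (T := T) (by omega) hyz
  have hy1 : 1 / (T.y0 : ℝ) ≤ 1 / 3 := one_div_le_one_div_of_le (by norm_num) (by exact_mod_cast hy3)
  have hGs : |G - s| ≤ 1 := by
    rw [hG, hs, ← sum_sub_distrib]
    refine (abs_sum_le_sum_abs _ _).trans ?_
    refine (sum_le_sum fun p hp => (hg p hp).2).trans ?_
    rw [← mul_sum]
    linarith
  have hGs' := abs_le.1 hGs
  set m : ℝ := ((S.k + 1 : ℕ) : ℝ) with hm
  have hmk : m = (c.k : ℝ) + 1 := by rw [hm, h.hk]; push_cast; rfl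
  have hmk' : m = ((c.k + 1 : ℕ) : ℝ) := by rw [hm, h.hk]
  rw [← hmk'] at e3 e4
  have hm1 : 1 ≤ m := by
    rw [hmk]
    have : (0 : ℝ) ≤ c.k := Nat.cast_nonneg _
    linarith
  have hp0 : 64 * m ^ 2 ≤ T.y0 := by
    have h1 := h.hS.p0_lo
    have h2 := hT.p0_le
    have h3 := hT.y_le
    have h4 : 64 * (S.k + 1) ^ 2 ≤ T.y0 := by omega
    rw [hm]
    exact_mod_cast h4
  have hrp : ∀ t : ℝ, K ^ t = Real.exp (L * t) := fun t => Real.rpow_def_of_pos hK0 t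
  have hsm : ∀ p ∈ T.PL, 0 ≤ m * M.g p ∧ m * M.g p ≤ 1 / 2 ∧ M.g p ^ 2 ≤ 4 * ((p : ℝ) ^ 2)⁻¹ := by
    intro p hp
    obtain ⟨h1, h2, _⟩ := QN2_PL hp
    obtain ⟨g0, g1⟩ := hg p hp
    have hp2 : (2 : ℝ) ≤ p := by exact_mod_cast h1.two_le
    have hpp : (0 : ℝ) < p := by linarith
    have hpy : (T.y0 : ℝ) < p := by exact_mod_cast h2
    have h4 : M.g p ≤ 2 / p := by
      have h5 := (abs_le.1 g1).2
      have h6 : 2 * ((p : ℝ) ^ 2)⁻¹ ≤ 1 / p := by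
        rw [← div_eq_mul_inv, div_le_div_iff₀ (by positivity) hpp]
        nlinarith
      have h7 : 2 / (p : ℝ) = 1 / p + 1 / p := by ring
      linarith
    refine ⟨mul_nonneg (by linarith) g0, ?_, ?_⟩
    · calc m * M.g p ≤ m * (2 / p) := mul_le_mul_of_nonneg_left h4 (by linarith)
        _ ≤ 1 / 2 := by
          rw [mul_div_assoc', div_le_div_iff₀ hpp (by norm_num)]
          nlinarith
    · calc M.g p ^ 2 ≤ (2 / p) ^ 2 := pow_le_pow_left₀ g0 h4 2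
        _ = 4 * ((p : ℝ) ^ 2)⁻¹ := by
          rw [div_pow, div_eq_mul_inv]
          norm_num
  refine ⟨?_, ?_, ?_, ?_⟩
  · -- lower bound for `VL`
    have h1 : Real.exp (-(m * G + 2 * m ^ 2 * ∑ p ∈ T.PL, M.g p ^ 2)) ≤ M.VL T := by
      have h2 : -(m * G + 2 * m ^ 2 * ∑ p ∈ T.PL, M.g p ^ 2) = ∑ p ∈ T.PL, -(m * M.g p + 2 * (m * M.g p) ^ 2) := by
        rw [hG, sum_neg_distrib, sum_add_distrib, mul_sum, mul_sum]
        congr 2
        refine sum_congr rfl fun p _ => ?_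
        ring
      rw [h2, Real.exp_sum, Msr.VL]
      exact prod_le_prod (fun p _ => (Real.exp_pos _).le) fun p hp => QN2_exp (hsm p hp).1 (hsm p hp).2.1
    refine le_trans ?_ h1
    rw [hrp, Real.exp_le_exp, ← hmk]
    have h3 : ∑ p ∈ T.PL, M.g p ^ 2 ≤ 4 * (1 / T.y0) := by
      calc ∑ p ∈ T.PL, M.g p ^ 2 ≤ ∑ p ∈ T.PL, 4 * ((p : ℝ) ^ 2)⁻¹ := sum_le_sum fun p hp => (hsm p hp).2.2
        _ = 4 * ∑ p ∈ T.PL, ((p : ℝ) ^ 2)⁻¹ := by rw [mul_sum]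
        _ ≤ _ := mul_le_mul_of_nonneg_left hsq (by norm_num)
    have h4 : 2 * m ^ 2 * ∑ p ∈ T.PL, M.g p ^ 2 ≤ 1 := by
      calc 2 * m ^ 2 * ∑ p ∈ T.PL, M.g p ^ 2 ≤ 2 * m ^ 2 * (4 * (1 / T.y0)) := mul_le_mul_of_nonneg_left h3 (by positivity)
        _ = 8 * m ^ 2 / T.y0 := by ring
        _ ≤ 1 := by
          rw [div_le_one hy0]
          nlinarith
    have h5 : m * G ≤ m * (L + 2 * C2 + 1) := mul_le_mul_of_nonneg_left (by linarith [hGs'.2]) (by linarith)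
    have h6 : m * (2 * C2 + 1) ≤ 3 * m * (2 * C2 + 1) := by
      have : 0 ≤ m * (2 * C2 + 1) := by positivity
      linarith
    nlinarith
  · -- upper bound for `VL`
    have h1 : M.VL T ≤ Real.exp (-(m * G)) := by
      have h2 : -(m * G) = ∑ p ∈ T.PL, -(m * M.g p) := by
        rw [hG, sum_neg_distrib, mul_sum]
      rw [h2, Real.exp_sum, Msr.VL]
      refine prod_le_prod (fun p hp => ?_) fun p hp => ?_
      · have := (hsm p hp).2.1
        show 0 ≤ 1 - m * M.g p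
        linarith
      · have := Real.add_one_le_exp (-(m * M.g p))
        show 1 - m * M.g p ≤ _
        linarith
    refine h1.trans ?_
    rw [hrp, Real.exp_le_exp, ← hmk]
    have h5 : m * (L - 3 * Real.log L - Real.log ((c.CY : ℝ) + 1) - 2 * C2 - 1) ≤ m * G :=
      mul_le_mul_of_nonneg_left (by linarith [hGs'.1]) (by linarith)
    nlinarith
  · unfold Msr.V3
    refine prod_nonneg fun p hp => ?_
    have := (hsm p hp).1
    show 0 ≤ 1 + 3 * (m * M.g p)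
    linarith
  · have h1 : M.V3 T ≤ Real.exp (3 * m * G) := by
      have h2 : 3 * m * G = ∑ p ∈ T.PL, 3 * (m * M.g p) := by
        rw [hG, mul_sum]
        refine sum_congr rfl fun p _ => ?_
        ring
      rw [h2, Real.exp_sum, Msr.V3]
      refine prod_le_prod (fun p hp => ?_) fun p hp => ?_
      · have := (hsm p hp).1
        show 0 ≤ 1 + 3 * (m * M.g p)
        linarith
      · have := Real.add_one_le_exp (3 * (m * M.g p))
        show 1 + 3 * (m * M.g p) ≤ _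
        linarith
    refine h1.trans ?_
    rw [hrp, Real.exp_le_exp, ← hmk]
    have h5 : 3 * m * G ≤ 3 * m * (L + 2 * C2 + 1) := mul_le_mul_of_nonneg_left (by linarith [hGs'.2]) (by linarith)
    nlinarith

end Pool.Agent.Lib.T3
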