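import Pool.Agent.Lib.MP_7b7e48_nt.T3.QN4
import Pool.Agent.Lib.MP_7b7e48_nt.T3.P09
import Pool.Agent.Lib.MP_7b7e48_nt.T3.QN1
import Pool.Agent.Lib.MP_7b7e48_nt.T3.QN2

/-!
# PN2: the additive errors for the pair

`K = log N`, `V = N^(δ1/16)`. `tot1 ≥ K^(-2 Cf)/4` (`QN4`: `0 < tot1`; better: the lower bound inside its proof). `er2 = |MX| |MY| 4 (W0 y0^(24 b1))² N^(-δ1) W W' V ≤ N^(δ1/8 + δ1/16 + small - δ1) W W'`; `RL = (2 (NJ z + 1) z^(24 b2))² ≤ z^(50 b2)`, `er2L ≤ er2 · (K^C z^(100 b2))`, `z^(100 b2) ≤ N^(100 b2 ζ) ≤ N^(δ1/8)` (`ζ1`),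
`Th0, Th0' ≤ K^C` (`QN2`, `QN1`). Everything is at most `N^(-δ1/4) W W' ≤ W W' tot1 K^(-E)`.
-/

set_option autoImplicit false

open Finset
open Pool.Agent.Lib.GT (NJ)

namespace Pool.Agent.Lib.T3

open Pool.Agent.Lib.TC

private theorem PN2_ev (A : ℕ) (δ : ℝ) (hδ : 0 < δ) (C : ℝ) (hC : 0 < C) :
    ∀ᶠ N : ℕ in Filter.atTop, C * (Real.log N) ^ A ≤ (N : ℝ) ^ δ := by
  have h1 := isLittleO_log_rpow_rpow_atTop (A : ℝ) hδ
  have h2 := h1.bound (show (0 : ℝ) < 1 / C by positivity)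
  have h3 := tendsto_natCast_atTop_atTop (R := ℝ) |>.eventually h2
  filter_upwards [h3, Filter.eventually_ge_atTop 1] with N h4 hN
  have hN1 : (1 : ℝ) ≤ N := by exact_mod_cast hN
  have h5 : 0 ≤ Real.log N := Real.log_nonneg hN1
  rw [Real.rpow_natCast, Real.norm_of_nonneg (pow_nonneg h5 _),
    Real.norm_of_nonneg (Real.rpow_nonneg (by linarith) _)] at h4
  calc C * (Real.log N) ^ A ≤ C * (1 / C * (N : ℝ) ^ δ) := mul_le_mul_of_nonneg_left h4 hC.le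
    _ = _ := by field_simp

private theorem PN2_h {h : ℕ → ℝ} {y l : ℕ} (hh : ∀ p : ℕ, p.Prime → 0 ≤ h p ∧ |h p - 1 / p| ≤ 2 / (p : ℝ) ^ 2) (hl : l.Prime)
    (hy : 0 < y) (hyl : y ≤ l) : (1 - 2 / (y : ℝ)) * (1 / (l : ℝ)) ≤ h l := by
  have h3 := (abs_le.1 (hh l hl).2).1
  have hl0 : (0 : ℝ) < l := by exact_mod_cast hl.pos
  have hy0 : (0 : ℝ) < y := by exact_mod_cast hy
  have hyl' : (y : ℝ) ≤ l := by exact_mod_cast hyl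
  have h4 : (2 : ℝ) / (l : ℝ) ^ 2 = 2 / l * (1 / l) := by
    field_simp
  have h5 : (2 : ℝ) / l * (1 / l) ≤ 2 / y * (1 / l) :=
    mul_le_mul_of_nonneg_right (div_le_div_of_nonneg_left (by norm_num) hy0 hyl') (by positivity)
  rw [h4] at h3
  have h6 : (1 - 2 / (y : ℝ)) * (1 / (l : ℝ)) = 1 / l - 2 / y * (1 / l) := by ring
  rw [h6]
  linarith

private theorem PN2_prod {ι : Type*} [Fintype ι] (h : ℕ → ℝ) (a : ℝ) (ha : 0 ≤ a) (l : ι → ℕ) (H : ∀ i, a * (1 / (l i : ℝ)) ≤ h (l i)) :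
    a ^ Fintype.card ι * ∏ i, (1 / (l i : ℝ)) ≤ ∏ i, h (l i) := by
  rw [← card_univ, ← prod_const, ← prod_mul_distrib]
  exact prod_le_prod (fun i _ => mul_nonneg ha (by positivity)) (fun i _ => H i)

private theorem PN2_three (h : ℕ → ℝ) (a : ℝ) (ha : 0 ≤ a) {n1 n2 n3 : ℕ} (l1 : Fin n1 → ℕ) (l2 : Fin n2 → ℕ) (l3 : Fin n3 → ℕ)
    (H1 : ∀ i, a * (1 / (l1 i : ℝ)) ≤ h (l1 i)) (H2 : ∀ i, a * (1 / (l2 i : ℝ)) ≤ h (l2 i)) (H3 : ∀ i, a * (1 / (l3 i : ℝ)) ≤ h (l3 i)) :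
    a ^ (n1 + n2 + n3) * ((∏ i, (1 / (l1 i : ℝ))) * (∏ i, (1 / (l2 i : ℝ))) * ∏ i, (1 / (l3 i : ℝ))) ≤
      (∏ i, h (l1 i)) * (∏ i, h (l2 i)) * ∏ i, h (l3 i) := by
  have h1 := PN2_prod h a ha l1 H1
  have h2 := PN2_prod h a ha l2 H2
  have h3 := PN2_prod h a ha l3 H3
  rw [Fintype.card_fin] at h1 h2 h3
  have p1 : 0 ≤ a ^ n1 * ∏ i, (1 / (l1 i : ℝ)) := mul_nonneg (pow_nonneg ha _) (prod_nonneg fun i _ => by positivity)
  have p2 : 0 ≤ a ^ n2 * ∏ i, (1 / (l2 i : ℝ)) := mul_nonneg (pow_nonneg ha _) (prod_nonneg fun i _ => by positivity)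
  have p3 : 0 ≤ a ^ n3 * ∏ i, (1 / (l3 i : ℝ)) := mul_nonneg (pow_nonneg ha _) (prod_nonneg fun i _ => by positivity)
  calc _ = (a ^ n1 * ∏ i, (1 / (l1 i : ℝ))) * (a ^ n2 * ∏ i, (1 / (l2 i : ℝ))) * (a ^ n3 * ∏ i, (1 / (l3 i : ℝ))) := by
        rw [pow_add, pow_add]
        ring
    _ ≤ _ := mul_le_mul (mul_le_mul h1 h2 p2 (p1.trans h1)) h3 p3 (mul_nonneg (p1.trans h1) (p2.trans h2))

private theorem PN2_half {y n : ℕ} (h : 4 * (n : ℝ) ≤ y) (hy : 2 ≤ y) : (1 / 2 : ℝ) ≤ (1 - 2 / (y : ℝ)) ^ n := by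
  have hy0 : (2 : ℝ) ≤ y := by exact_mod_cast hy
  have hyp : (0 : ℝ) < y := by linarith
  have h1 : (2 : ℝ) / y ≤ 1 := by
    rw [div_le_one hyp]
    exact hy0
  have h2 := one_add_mul_le_pow (show (-2 : ℝ) ≤ -(2 / (y : ℝ)) by linarith) n
  have h3 : (n : ℝ) * (2 / y) ≤ 1 / 2 := by
    rw [← mul_div_assoc, div_le_iff₀ hyp]
    linarith
  have h4 : (1 : ℝ) + -(2 / (y : ℝ)) = 1 - 2 / y := by ring
  rw [h4] at h2
  have h5 : (n : ℝ) * -(2 / (y : ℝ)) = -((n : ℝ) * (2 / y)) := by ring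
  rw [h5] at h2
  linarith

/-- lower bound for the mass of the tuples -/
private theorem PN2_low {S : MS} {T : Dat} {M : Msr S} {W0 : ℕ} {Z : Fin (S.k + 1) → ℕ} {δ0 δ1 : ℝ} (hT : T.OK W0) (hS : S.OK3 T W0 Z)
    (hM : M.OK3 T W0 δ0 δ1) (hy : 4 * Real.log T.N ≤ T.y0) (hK : 1 ≤ Real.log T.N) (r : ℝ) (hr : 0 ≤ r)
    (hrX : r ≤ ∑ μ ∈ S.MX, S.prX (fun l => 1 / (l : ℝ)) μ) (hrY : r ≤ ∑ ν ∈ S.MY, S.prY (fun l => 1 / (l : ℝ)) ν) :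
    r ^ 2 / 4 ≤ M.tot1 := by
  have hy4 : (4 : ℝ) ≤ T.y0 := by linarith
  have hy2 : 2 ≤ T.y0 := by
    have : (2 : ℝ) ≤ T.y0 := by linarith
    exact_mod_cast this
  have hyp : 0 < T.y0 := by omega
  have hyz := hT.y0_lt
  have hZ : ∀ i, T.y0 ≤ Z i := by
    intro i
    have h1 := hS.Z_lo i
    have h2 : T.z ≤ T.z ^ 2 := Nat.le_self_pow (by norm_num) _
    omega
  have ha : 0 ≤ 1 - 2 / (T.y0 : ℝ) := by
    have h1 : (2 : ℝ) / T.y0 ≤ 1 := by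
      rw [div_le_one (by linarith)]
      linarith
    linarith
  have hnum := hS.num
  push_cast at hnum
  have hX : ∀ μ ∈ S.MX, (1 / 2) * S.prX (fun l => 1 / (l : ℝ)) μ ≤ S.prX M.hX μ := by
    intro μ hμ
    unfold MS.MX at hμ
    rw [mem_product, mem_product, Fintype.mem_piFinset, Fintype.mem_piFinset, Fintype.mem_piFinset] at hμ
    obtain ⟨m1, m2, m3⟩ := hμ
    have h1 := PN2_three M.hX (1 - 2 / (T.y0 : ℝ)) ha μ.1 μ.2.1 μ.2.2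
      (fun i => by
        obtain ⟨a1, -, a3, -⟩ := hS.WX_mem i _ (m1 i)
        have := hZ i
        exact PN2_h hM.hX_nonneg a1 hyp (by omega))
      (fun f => by
        obtain ⟨a1, -, a3, -⟩ := hS.FX_mem f _ (m2 f)
        exact PN2_h hM.hX_nonneg a1 hyp a3.le)
      (fun e => by
        obtain ⟨a1, -, a3, -⟩ := hS.OX_mem e _ (m3 e)
        exact PN2_h hM.hX_nonneg a1 hyp a3.le)
    have h2 : (1 / 2 : ℝ) ≤ (1 - 2 / (T.y0 : ℝ)) ^ (S.k + 1 + S.n0 + S.nX) := by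
      refine PN2_half ?_ hy2
      push_cast
      have q1 : (0 : ℝ) ≤ S.k := Nat.cast_nonneg _
      have q2 : (0 : ℝ) ≤ S.n0 := Nat.cast_nonneg _
      have q3 : (0 : ℝ) ≤ S.nX := Nat.cast_nonneg _
      have q4 : (0 : ℝ) ≤ S.nY := Nat.cast_nonneg _
      linarith
    refine le_trans (mul_le_mul_of_nonneg_right h2 ?_) h1
    unfold MS.prX
    refine mul_nonneg (mul_nonneg (prod_nonneg fun i _ => ?_) (prod_nonneg fun i _ => ?_)) (prod_nonneg fun i _ => ?_) <;> positivity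
  have hY : ∀ ν ∈ S.MY, (1 / 2) * S.prY (fun l => 1 / (l : ℝ)) ν ≤ S.prY M.hY ν := by
    intro ν hν
    unfold MS.MY at hν
    rw [mem_product, mem_product, Fintype.mem_piFinset, Fintype.mem_piFinset, Fintype.mem_piFinset] at hν
    obtain ⟨m1, m2, m3⟩ := hν
    have h1 := PN2_three M.hY (1 - 2 / (T.y0 : ℝ)) ha ν.1 ν.2.1 ν.2.2
      (fun i => by
        obtain ⟨-, -, a3, -⟩ := hS.WY_mem i _ (m1 i)
        have h5 := (abs_le.1 (hM.hY_win i _ (m1 i)).2).1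
        have h6 : (0 : ℝ) < ν.1 i := by exact_mod_cast (by omega : 0 < ν.1 i)
        have h7 : (0 : ℝ) < T.y0 := by exact_mod_cast hyp
        have h8 : (1 - 2 / (T.y0 : ℝ)) * (1 / (ν.1 i : ℝ)) = 1 / (ν.1 i : ℝ) - 2 / ((ν.1 i : ℝ) * T.y0) := by
          field_simp
        linarith)
      (fun f => by
        obtain ⟨a1, -, a3, -⟩ := hS.FY_mem f _ (m2 f)
        exact PN2_h hM.hY_nonneg a1 hyp a3.le)
      (fun e => by
        obtain ⟨a1, -, a3, -⟩ := hS.OY_mem e _ (m3 e)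
        exact PN2_h hM.hY_nonneg a1 hyp a3.le)
    have h2 : (1 / 2 : ℝ) ≤ (1 - 2 / (T.y0 : ℝ)) ^ (S.k + 1 + S.n0 + S.nY) := by
      refine PN2_half ?_ hy2
      push_cast
      have q1 : (0 : ℝ) ≤ S.k := Nat.cast_nonneg _
      have q2 : (0 : ℝ) ≤ S.n0 := Nat.cast_nonneg _
      have q3 : (0 : ℝ) ≤ S.nX := Nat.cast_nonneg _
      have q4 : (0 : ℝ) ≤ S.nY := Nat.cast_nonneg _
      linarith
    refine le_trans (mul_le_mul_of_nonneg_right h2 ?_) h1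
    unfold MS.prY
    refine mul_nonneg (mul_nonneg (prod_nonneg fun i _ => ?_) (prod_nonneg fun i _ => ?_)) (prod_nonneg fun i _ => ?_) <;> positivity
  have hsX : r / 2 ≤ ∑ μ ∈ S.MX, S.prX M.hX μ := by
    calc r / 2 = (1 / 2) * r := by ring
      _ ≤ (1 / 2) * ∑ μ ∈ S.MX, S.prX (fun l => 1 / (l : ℝ)) μ := mul_le_mul_of_nonneg_left hrX (by norm_num)
      _ = ∑ μ ∈ S.MX, (1 / 2) * S.prX (fun l => 1 / (l : ℝ)) μ := mul_sum _ _ _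
      _ ≤ _ := sum_le_sum hX
  have hsY : r / 2 ≤ ∑ ν ∈ S.MY, S.prY M.hY ν := by
    calc r / 2 = (1 / 2) * r := by ring
      _ ≤ (1 / 2) * ∑ ν ∈ S.MY, S.prY (fun l => 1 / (l : ℝ)) ν := mul_le_mul_of_nonneg_left hrY (by norm_num)
      _ = ∑ ν ∈ S.MY, (1 / 2) * S.prY (fun l => 1 / (l : ℝ)) ν := mul_sum _ _ _
      _ ≤ _ := sum_le_sum hY
  have htot : M.tot1 = (∑ μ ∈ S.MX, S.prX M.hX μ) * ∑ ν ∈ S.MY, S.prY M.hY ν := by
    unfold Msr.tot1 Msr.m1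
    rw [sum_mul_sum]
  rw [htot]
  calc r ^ 2 / 4 = r / 2 * (r / 2) := by ring
    _ ≤ _ := mul_le_mul hsX hsY (by linarith) (by linarith)

theorem PN2 (c : PC) (hc : c.OK) (E : ℕ) : ∃ N0 : ℕ, ∀ (S : MS) (T : Dat) (M M' : Msr S) (W0 : ℕ) (Z : Fin (S.k + 1) → ℕ) (p1 Q0 pb : ℕ) (η : ℝ),
    PH3 c S T M W0 Z p1 Q0 pb η → PH3 c S T M' W0 Z p1 Q0 pb η → N0 ≤ T.N →
    0 < M.tot1 ∧ 0 ≤ M.er2 M' T W0 c.b1 c.δ1 ((T.N : ℝ) ^ (c.δ1 / 16)) ∧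
    M.er2 M' T W0 c.b1 c.δ1 ((T.N : ℝ) ^ (c.δ1 / 16)) ≤ M.W * M'.W * M.tot1 / (Real.log T.N) ^ E ∧
    0 ≤ M.er2L M' T W0 c.b1 c.b2 c.δ1 ((T.N : ℝ) ^ (c.δ1 / 16)) ∧
    M.er2L M' T W0 c.b1 c.b2 c.δ1 ((T.N : ℝ) ^ (c.δ1 / 16)) ≤ M.W * M'.W * M.tot1 / (Real.log T.N) ^ E ∧
    (S.MX.card : ℝ) * S.MY.card * ((T.N : ℝ) ^ (-c.δ1) * M.W) ≤ M.W * M.tot1 / (Real.log T.N) ^ E := by
  classical
  have hδ := hc.δ1p
  have hδl := hc.δ1l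
  obtain ⟨Ca, hCa⟩ : ∃ Ca : ℝ, Ca = 4 * ((c.W1 : ℝ) ^ 2 + 1) := ⟨_, rfl⟩
  have hCa0 : 0 < Ca := by
    rw [hCa]
    positivity
  have ev1 := PN2_ev (2 * ((c.CY + 1) * (24 * c.b1))) (c.δ1 / 8) (by positivity) Ca hCa0
  have ev2 := PN2_ev (2 * c.Cf + E) (c.δ1 / 2) (by positivity) 4 (by norm_num)
  have ev4 := PN2_ev (3 * (c.k + 1) + 1) (c.δ1 / 32) (by positivity) 66 (by norm_num)
  have ev3 : ∀ᶠ N : ℕ in Filter.atTop, (2 : ℝ) ≤ Real.log N :=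
    (Real.tendsto_log_atTop.comp tendsto_natCast_atTop_atTop).eventually_ge_atTop 2
  obtain ⟨N0, hN0⟩ := Filter.eventually_atTop.mp (ev1.and (ev2.and (ev3.and ev4)))
  obtain ⟨N1, hN1⟩ := QN1 c hc
  obtain ⟨N2, hN2⟩ := QN2 c hc
  refine ⟨max N0 (max N1 N2), fun S T M M' W0 Z p1 Q0 pb η hP hP' hN => ?_⟩
  obtain ⟨e1, e2, e3, e4⟩ := hN0 T.N ((le_max_left _ _).trans hN)
  have hNN1 : N1 ≤ T.N := ((le_max_left _ _).trans (le_max_right _ _)).trans hN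
  have hNN2 : N2 ≤ T.N := ((le_max_right _ _).trans (le_max_right _ _)).trans hN
  obtain ⟨-, -, -, -, -, -, -, q8⟩ := hN1 S T M W0 Z p1 Q0 pb η hP hNN1
  obtain ⟨-, -, v0, v1⟩ := hN2 S T M W0 Z p1 Q0 pb η hP hNN2
  obtain ⟨-, -, v0', v1'⟩ := hN2 S T M' W0 Z p1 Q0 pb η hP' hNN2
  clear hN0 hN1 hN2
  have hNp : 2 < T.N := hP.hT.N_pos
  have hN1 : (1 : ℝ) ≤ T.N := by exact_mod_cast (show 1 ≤ T.N by omega)
  have hN0' : (0 : ℝ) < T.N := by linarith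
  set K := Real.log T.N with hKd
  have hK0 : 0 < K := by linarith
  have hK1 : 1 ≤ K := by linarith
  -- `4 K ≤ y0`
  have hy4 : 4 * K ≤ T.y0 := by
    refine le_trans ?_ hP.hy1
    have h1 : 3 ≤ c.CY := by
      have := hc.Y1
      omega
    calc 4 * K = 2 ^ 2 * K := by ring
      _ ≤ K ^ 2 * K := mul_le_mul_of_nonneg_right (pow_le_pow_left₀ (by norm_num) e3 2) hK0.le
      _ = K ^ 3 := by ring
      _ ≤ K ^ c.CY := pow_le_pow_right₀ hK1 h1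
  have hlow := PN2_low hP.hT hP.hS hP.hM hy4 hK1 (1 / K ^ c.Cf) (by positivity) hP.hrX hP.hrY
  have htot : 0 < M.tot1 := lt_of_lt_of_le (by positivity) hlow
  have hW := hP.hM.W_pos
  have hW' := hP'.hM.W_pos
  -- the small quantity
  have hsm : (T.N : ℝ) ^ (-(c.δ1 / 2)) ≤ M.tot1 / K ^ E := by
    rw [le_div_iff₀ (by positivity)]
    refine le_trans ?_ hlow
    rw [Real.rpow_neg hN0'.le]
    have hp : 0 < (T.N : ℝ) ^ (c.δ1 / 2) := by positivity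
    have h1 : (1 / K ^ c.Cf) ^ 2 / 4 = 1 / (4 * K ^ (2 * c.Cf)) := by
      rw [div_pow, one_pow, ← pow_mul, mul_comm c.Cf 2, div_div, mul_comm]
    rw [h1, inv_mul_eq_div, div_le_div_iff₀ hp (by positivity), one_mul]
    calc K ^ E * (4 * K ^ (2 * c.Cf)) = 4 * K ^ (2 * c.Cf + E) := by
          rw [pow_add]
          ring
      _ ≤ _ := e2
  have hfin : ∀ X P : ℝ, ∀ a : ℝ, 0 ≤ P → X ≤ P * (T.N : ℝ) ^ a → a ≤ -(c.δ1 / 2) → X ≤ P * M.tot1 / K ^ E := by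
    intro X P a hP0 hX ha
    refine hX.trans ?_
    rw [mul_div_assoc]
    refine mul_le_mul_of_nonneg_left (le_trans ?_ hsm) hP0
    exact Real.rpow_le_rpow_of_exponent_le hN1 ha
  have hcard := hP.hcard
  have hcard0 : 0 ≤ (S.MX.card : ℝ) * S.MY.card := by positivity
  have hbig : 4 * ((W0 : ℝ) * (T.y0 : ℝ) ^ (24 * c.b1)) ^ 2 ≤ (T.N : ℝ) ^ (c.δ1 / 8) := by
    refine le_trans ?_ e1
    have h1 : (W0 : ℝ) ≤ c.W1 := by exact_mod_cast hP.hW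
    have h2 : (T.y0 : ℝ) ^ (24 * c.b1) ≤ (K ^ (c.CY + 1)) ^ (24 * c.b1) := pow_le_pow_left₀ (by positivity) hP.hy2 _
    have h3 : (W0 : ℝ) * (T.y0 : ℝ) ^ (24 * c.b1) ≤ c.W1 * (K ^ (c.CY + 1)) ^ (24 * c.b1) :=
      mul_le_mul h1 h2 (by positivity) (by positivity)
    calc 4 * ((W0 : ℝ) * (T.y0 : ℝ) ^ (24 * c.b1)) ^ 2 ≤ 4 * (c.W1 * (K ^ (c.CY + 1)) ^ (24 * c.b1)) ^ 2 :=
          mul_le_mul_of_nonneg_left (pow_le_pow_left₀ (by positivity) h3 2) (by norm_num)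
      _ = 4 * (c.W1 : ℝ) ^ 2 * K ^ (2 * ((c.CY + 1) * (24 * c.b1))) := by
          rw [← pow_mul, mul_pow, ← pow_mul, mul_comm 2 ((c.CY + 1) * (24 * c.b1))]
          ring
      _ ≤ Ca * K ^ (2 * ((c.CY + 1) * (24 * c.b1))) := mul_le_mul_of_nonneg_right (by rw [hCa]; linarith) (by positivity)
  have her0 : 0 ≤ M.er2 M' T W0 c.b1 c.δ1 ((T.N : ℝ) ^ (c.δ1 / 16)) := by
    unfold Msr.er2
    positivity
  have her : M.er2 M' T W0 c.b1 c.δ1 ((T.N : ℝ) ^ (c.δ1 / 16)) ≤ M.W * M'.W * (T.N : ℝ) ^ (-(11 * c.δ1 / 16)) := by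
    unfold Msr.er2
    calc (S.MX.card : ℝ) * S.MY.card * (4 * (W0 * (T.y0 : ℝ) ^ (24 * c.b1)) ^ 2 * ((T.N : ℝ) ^ (-c.δ1) * M.W * M'.W * (T.N : ℝ) ^ (c.δ1 / 16)))
        ≤ (T.N : ℝ) ^ (c.δ1 / 8) * ((T.N : ℝ) ^ (c.δ1 / 8) * ((T.N : ℝ) ^ (-c.δ1) * M.W * M'.W * (T.N : ℝ) ^ (c.δ1 / 16))) :=
          mul_le_mul hcard (mul_le_mul_of_nonneg_right hbig (by positivity)) (by positivity) (by positivity)
      _ = M.W * M'.W * ((T.N : ℝ) ^ (c.δ1 / 8) * (T.N : ℝ) ^ (c.δ1 / 8) * (T.N : ℝ) ^ (-c.δ1) * (T.N : ℝ) ^ (c.δ1 / 16)) := by ring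
      _ = M.W * M'.W * (T.N : ℝ) ^ (-(11 * c.δ1 / 16)) := by
          rw [← Real.rpow_add hN0', ← Real.rpow_add hN0', ← Real.rpow_add hN0']
          congr 2
          ring
  -- the large sieve
  have hz2 : 2 ≤ T.z := by
    have h1 := hP.hT.y0_lt
    have h2 : (2 : ℝ) ≤ T.y0 := by linarith
    have h3 : 2 ≤ T.y0 := by exact_mod_cast h2
    omega
  have hNJ : 2 * (NJ T.z + 1) ≤ T.z ^ 3 := by
    have h1 : NJ T.z ≤ T.z + 1 := by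
      unfold NJ
      have h2 : Nat.log 2 (Nat.log 2 T.z) ≤ T.z := (Nat.log_le_self _ _).trans (Nat.log_le_self _ _)
      omega
    have h2 : 2 * (T.z + 2) ≤ T.z ^ 3 := by
      have h3 : T.z ^ 3 = T.z * T.z * T.z := by ring
      rw [h3]
      nlinarith [Nat.mul_le_mul hz2 hz2]
    omega
  have hNJr : 2 * ((NJ T.z : ℝ) + 1) ≤ (T.z : ℝ) ^ 3 := by exact_mod_cast hNJ
  have hz1 : (1 : ℝ) ≤ T.z := by exact_mod_cast (show 1 ≤ T.z by omega)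
  have hzp : (0 : ℝ) < T.z := by linarith
  have hb2 : (1 : ℝ) ≤ c.b2 := by exact_mod_cast hc.b2p
  have hζ := hc.ζp
  have hζ1 := hc.ζ1
  have hR1 : 1 ≤ RL T c.b2 := by
    unfold RL
    refine one_le_pow₀ ?_
    have h1 : (0 : ℝ) ≤ NJ T.z := Nat.cast_nonneg _
    have h2 : (1 : ℝ) ≤ 2 * ((NJ T.z : ℝ) + 1) := by linarith
    have hzr : (1 : ℝ) ≤ (T.z : ℝ) ^ (24 * c.b2) := one_le_pow₀ hz1
    calc (1 : ℝ) = 1 * 1 := (one_mul 1).symm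
      _ ≤ 2 * ((NJ T.z : ℝ) + 1) * (T.z : ℝ) ^ (24 * c.b2) := mul_le_mul h2 hzr zero_le_one (by linarith)
  have hR0 : 0 ≤ RL T c.b2 := by linarith
  have hbz : RL T c.b2 ≤ (T.N : ℝ) ^ (3 * c.δ1 / 40) := by
    unfold RL
    calc (2 * ((NJ T.z : ℝ) + 1) * (T.z : ℝ) ^ (24 * c.b2)) ^ 2 ≤ ((T.z : ℝ) ^ 3 * (T.z : ℝ) ^ (24 * c.b2)) ^ 2 :=
          pow_le_pow_left₀ (by positivity) (mul_le_mul_of_nonneg_right hNJr (by positivity)) 2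
      _ = (T.z : ℝ) ^ (6 + 48 * c.b2) := by
          rw [← pow_add, ← pow_mul]
          congr 1
          ring
      _ ≤ (T.z : ℝ) ^ (60 * c.b2) := by
          refine pow_le_pow_right₀ hz1 ?_
          have := hc.b2p
          omega
      _ ≤ ((T.N : ℝ) ^ c.ζ) ^ (60 * c.b2) := pow_le_pow_left₀ hzp.le hP.hz2 _
      _ = (T.N : ℝ) ^ (c.ζ * (60 * c.b2)) := by
          rw [← Real.rpow_natCast, ← Real.rpow_mul hN0'.le]
          push_cast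
          rfl
      _ ≤ (T.N : ℝ) ^ (3 * c.δ1 / 40) := by
          refine Real.rpow_le_rpow_of_exponent_le hN1 ?_
          have h1 : 0 ≤ c.b2 * c.ζ := by positivity
          nlinarith
  -- `Th0`
  have hTh : ∀ M1 : Msr S, 0 ≤ M1.V3 T → M1.V3 T ≤ K ^ (3 * ((c.k : ℝ) + 1) + 1 / 20) →
      0 ≤ M1.Th0 T ∧ M1.Th0 T ≤ 4 * K ^ (3 * (c.k + 1) + 1) := by
    intro M1 w0 w1
    have hn0 : (0 : ℝ) ≤ (NJ T.z : ℝ) + 1 := by positivity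
    unfold Msr.Th0
    refine ⟨by positivity, ?_⟩
    have h1 : ((NJ T.z : ℝ) + 1) ^ 2 ≤ (K ^ (1 / 100 : ℝ)) ^ 2 := pow_le_pow_left₀ hn0 q8 2
    have h2 : (K ^ (1 / 100 : ℝ)) ^ 2 = K ^ (1 / 50 : ℝ) := by
      rw [← Real.rpow_natCast, ← Real.rpow_mul hK0.le]
      norm_num
    rw [h2] at h1
    calc 4 * ((NJ T.z : ℝ) + 1) ^ 2 * M1.V3 T ≤ 4 * K ^ (1 / 50 : ℝ) * K ^ (3 * ((c.k : ℝ) + 1) + 1 / 20) :=
          mul_le_mul (mul_le_mul_of_nonneg_left h1 (by norm_num)) w1 w0 (by positivity)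
      _ = 4 * K ^ (1 / 50 + (3 * ((c.k : ℝ) + 1) + 1 / 20)) := by
          rw [mul_assoc, ← Real.rpow_add hK0]
      _ ≤ 4 * K ^ (((3 * (c.k + 1) + 1 : ℕ) : ℝ)) := by
          refine mul_le_mul_of_nonneg_left (Real.rpow_le_rpow_of_exponent_le hK1 ?_) (by norm_num)
          push_cast
          linarith
      _ = _ := by rw [Real.rpow_natCast]
  obtain ⟨t0, t1⟩ := hTh M v0 v1
  obtain ⟨t0', t1'⟩ := hTh M' v0' v1'
  have hKp : 1 ≤ K ^ (3 * (c.k + 1) + 1) := one_le_pow₀ hK1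
  have hsum : 10 * M.Th0 T + 2 * M'.Th0 T + 18 ≤ (T.N : ℝ) ^ (c.δ1 / 32) := by linarith
  have hfac : 10 * RL T c.b2 * M.Th0 T + RL T c.b2 * (2 * M'.Th0 T + 8) + 10 * RL T c.b2 ^ 2 ≤
      (T.N : ℝ) ^ (3 * c.δ1 / 20 + c.δ1 / 32) := by
    have h1 : RL T c.b2 ≤ RL T c.b2 ^ 2 := by nlinarith
    have h2 : RL T c.b2 ^ 2 ≤ (T.N : ℝ) ^ (3 * c.δ1 / 20) := by
      calc RL T c.b2 ^ 2 ≤ ((T.N : ℝ) ^ (3 * c.δ1 / 40)) ^ 2 := pow_le_pow_left₀ hR0 hbz 2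
        _ = (T.N : ℝ) ^ (3 * c.δ1 / 20) := by
            rw [← Real.rpow_natCast, ← Real.rpow_mul hN0'.le]
            congr 1
            push_cast
            ring
    have h3 : 0 ≤ 10 * M.Th0 T + (2 * M'.Th0 T + 8) := by linarith
    calc 10 * RL T c.b2 * M.Th0 T + RL T c.b2 * (2 * M'.Th0 T + 8) + 10 * RL T c.b2 ^ 2
        = RL T c.b2 * (10 * M.Th0 T + (2 * M'.Th0 T + 8)) + 10 * RL T c.b2 ^ 2 := by ring
      _ ≤ RL T c.b2 ^ 2 * (10 * M.Th0 T + (2 * M'.Th0 T + 8)) + 10 * RL T c.b2 ^ 2 :=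
          add_le_add (mul_le_mul_of_nonneg_right h1 h3) le_rfl
      _ = RL T c.b2 ^ 2 * (10 * M.Th0 T + 2 * M'.Th0 T + 18) := by ring
      _ ≤ (T.N : ℝ) ^ (3 * c.δ1 / 20) * (T.N : ℝ) ^ (c.δ1 / 32) :=
          mul_le_mul h2 hsum (by linarith) (by positivity)
      _ = _ := by rw [← Real.rpow_add hN0']
  have hWW : 0 ≤ M.W * M'.W := by positivity
  refine ⟨htot, her0, hfin _ _ _ hWW her (by linarith), ?_, ?_, ?_⟩
  · unfold Msr.er2L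
    refine mul_nonneg her0 ?_
    positivity
  · refine hfin _ _ (-(11 * c.δ1 / 16) + (3 * c.δ1 / 20 + c.δ1 / 32)) hWW ?_ (by linarith)
    unfold Msr.er2L
    calc _ ≤ M.W * M'.W * (T.N : ℝ) ^ (-(11 * c.δ1 / 16)) * (T.N : ℝ) ^ (3 * c.δ1 / 20 + c.δ1 / 32) :=
          mul_le_mul her hfac (by positivity) (by positivity)
      _ = _ := by
          rw [mul_assoc, ← Real.rpow_add hN0']
  · refine hfin _ _ (-(7 * c.δ1 / 8)) hW.le ?_ (by linarith)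
    calc (S.MX.card : ℝ) * S.MY.card * ((T.N : ℝ) ^ (-c.δ1) * M.W)
        ≤ (T.N : ℝ) ^ (c.δ1 / 8) * ((T.N : ℝ) ^ (-c.δ1) * M.W) :=
          mul_le_mul_of_nonneg_right hcard (by positivity)
      _ = M.W * ((T.N : ℝ) ^ (c.δ1 / 8) * (T.N : ℝ) ^ (-c.δ1)) := by ring
      _ = M.W * (T.N : ℝ) ^ (-(7 * c.δ1 / 8)) := by
          rw [← Real.rpow_add hN0']
          congr 2
          ring

end Pool.Agent.Lib.T3
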