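import Pool.Agent.Lib.MP_7b7e48_nt.T3.D3
import Pool.Agent.Lib.MP_7b7e48_nt.T3.G3
import Pool.Agent.Lib.MP_7b7e48_nt.TC.S7F1
import Pool.Agent.Lib.MP_7b7e48_nt.T3.S7C2

/-!
# S7F1: `q ∣ S` for a modulus `q` which does not depend on the windows; the form `Ff` with `p ∤ X`

* `sepS`: two tuples `μ`, `μ'` which agree except in the window `0`, the same `ν`: `AI`, `BI` agree (`AI_inv`, `BI_inv`), `q ∣ SmR` for both (`SI_eq`), `th_unique`: `q ∣ α_0 - α'_0`,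
  so `α_0 < α'_0` gives `α_0 + q ≤ α'_0`.
* `S7F1`: `mass_one` with `i = 0`.
* `S7F1X`: moreover `X_unique` with `n = k + 1`, `DN = D N`, `Y = Y0`: `p ∣ α_0 - α'_0`; `p` and `q` coprime: `α_0`, `α'_0` differ by at least `p q`.
-/

set_option autoImplicit false

open Finset

namespace Pool.Agent.Lib.T3

open Pool.Agent.Lib.TC

variable {S : MS} {T : Dat} {Z : ℕ → ℕ} {hX hY : ℕ → ℝ} {V : ℝ}

theorem sepS (hG : S.Geo3 T Z hX hY V) (c : S.Col) {μ μ' : S.TX} {ν : S.TY} (hμ : μ ∈ S.MX) (hμ' : μ' ∈ S.MX) (hν : ν ∈ S.MY) (h : S.agX 0 μ μ') {q : ℕ}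
    (h1 : q ∣ S.SI T.N c μ ν) (h1' : q ∣ S.SI T.N c μ' ν) (h2 : IsCoprime (q : ℤ) (S.RI T.N c μ ν 0)) (hlt : μ.1 0 < μ'.1 0) :
    μ.1 0 + q ≤ μ'.1 0 := by
  have hA : S.AI T.N c μ' ν = S.AI T.N c μ ν := AI_inv c h.1.symm rfl
  have hB : S.BI T.N c μ' ν = S.BI T.N c μ ν := BI_inv c h.1.symm rfl
  have e1 : (q : ℤ) ∣ SmR (S.AI T.N c μ ν) (S.BI T.N c μ ν) (aI μ.1) (aI ν.1) (S.k + 1) := by
    rw [← SI_eq hG c hμ hν]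
    exact_mod_cast h1
  have e2 : (q : ℤ) ∣ SmR (S.AI T.N c μ ν) (S.BI T.N c μ ν) (aI μ'.1) (aI ν.1) (S.k + 1) := by
    rw [← hA, ← hB, ← SI_eq hG c hμ' hν]
    exact_mod_cast h1'
  have ha : ∀ j, j ≠ 0 → aI μ.1 j = aI μ'.1 j := by
    intro j hj
    apply S7F1_congr
    intro l hl
    apply h.2
    intro h0
    rw [h0] at hl
    exact hj hl.symm
  have e3 := th_unique (Nat.le_add_left 1 S.k) ha h2 e1 e2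
  have e4 : aI μ.1 0 = (μ.1 0 : ℕ) := S7F1_val μ.1 0
  have e5 : aI μ'.1 0 = (μ'.1 0 : ℕ) := S7F1_val μ'.1 0
  rw [e4, e5] at e3
  exact S7F1_gap e3 hlt

theorem S7F1 (hG : S.Geo3 T Z hX hY V) (c : S.Col) {q : S.TX → S.TY → ℕ} (hq : S.Inv q) {Q : ℕ} (hQ : 0 < Q) (E : S.TX → S.TY → Prop)
    (hE : ∀ μ ∈ S.MX, ∀ ν ∈ S.MY, E μ ν → q μ ν ∣ S.SI T.N c μ ν ∧ IsCoprime (q μ ν : ℤ) (S.RI T.N c μ ν 0) ∧ Q ≤ q μ ν) :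
    S.mass hX hY E ≤ V * (1 / Q + 1 / Z 0) * S.full hX hY := by
  refine mass_one hG E 0 hQ ?_
  intro μ hμ μ' hμ' ν hν h h' hag hlt
  obtain ⟨a1, a2, a3⟩ := hE μ hμ ν hν h
  obtain ⟨b1, -, -⟩ := hE μ' hμ' ν hν h'
  rw [← hq μ μ' ν ν hag.1 rfl] at b1
  have := sepS hG c hμ hμ' hν hag a1 b1 a2 hlt
  omega

theorem S7F1X (hG : S.Geo3 T Z hX hY V) (c : S.Col) {q P : S.TX → S.TY → ℕ} (hq : S.Inv q) (hP : S.Inv P) {Q : ℕ} (hQ : 0 < Q) {i : ℕ} (hi : i < S.k + 1)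
    (Y0 : ℤ) (E : S.TX → S.TY → Prop)
    (hE : ∀ μ ∈ S.MX, ∀ ν ∈ S.MY, E μ ν → (q μ ν ∣ S.SI T.N c μ ν ∧ IsCoprime (q μ ν : ℤ) (S.RI T.N c μ ν 0)) ∧
      ((P μ ν).Prime ∧ (P μ ν).Coprime (q μ ν) ∧ Q ≤ P μ ν * q μ ν ∧ ((P μ ν : ℕ) : ℤ) ∣ S.FI T c μ ν Y0 i ∧
        ¬ ((P μ ν : ℕ) : ℤ) ∣ (Y0 + T.D * T.N) * S.RI T.N c μ ν 0)) :
    S.mass hX hY E ≤ V * (1 / Q + 1 / Z 0) * S.full hX hY := by
  refine mass_one hG E 0 hQ ?_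
  intro μ hμ μ' hμ' ν hν h h' hag hlt
  obtain ⟨⟨a1, a2⟩, a3, a4, a5, a6, a7⟩ := hE μ hμ ν hν h
  obtain ⟨⟨b1, -⟩, -, -, -, b6, -⟩ := hE μ' hμ' ν hν h'
  rw [← hq μ μ' ν ν hag.1 rfl] at b1
  rw [← hP μ μ' ν ν hag.1 rfl] at b6
  have hA : S.AI T.N c μ' ν = S.AI T.N c μ ν := AI_inv c hag.1.symm rfl
  have hB : S.BI T.N c μ' ν = S.BI T.N c μ ν := BI_inv c hag.1.symm rfl
  rw [MS.FI] at a6 b6
  rw [hA, hB] at b6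
  have ha : ∀ j, j ≠ 0 → aI μ.1 j = aI μ'.1 j := by
    intro j hj
    apply S7F1_congr
    intro l hl
    apply hag.2
    intro h0
    rw [h0] at hl
    exact hj hl.symm
  have e1 : (q μ ν : ℤ) ∣ SmR (S.AI T.N c μ ν) (S.BI T.N c μ ν) (aI μ.1) (aI ν.1) (S.k + 1) := by
    rw [← SI_eq hG c hμ hν]
    exact_mod_cast a1
  have e2 : (q μ ν : ℤ) ∣ SmR (S.AI T.N c μ ν) (S.BI T.N c μ ν) (aI μ'.1) (aI ν.1) (S.k + 1) := by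
    rw [← hA, ← hB, ← SI_eq hG c hμ' hν]
    exact_mod_cast b1
  have e3 := th_unique (Nat.le_add_left 1 S.k) ha a2 e1 e2
  have e6 := X_unique hi (Nat.prime_iff_prime_int.mp a3) ha a7 a6 b6
  have e4 : aI μ.1 0 = (μ.1 0 : ℕ) := S7F1_val μ.1 0
  have e5 : aI μ'.1 0 = (μ'.1 0 : ℕ) := S7F1_val μ'.1 0
  rw [e4, e5] at e3 e6
  have e7 : ((P μ ν * q μ ν : ℕ) : ℤ) ∣ ((μ.1 0 : ℕ) : ℤ) - ((μ'.1 0 : ℕ) : ℤ) := by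
    rw [Nat.cast_mul]
    exact (Nat.isCoprime_iff_coprime.mpr a4).mul_dvd e6 e3
  have := S7F1_gap e7 hlt
  omega

end Pool.Agent.Lib.T3
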