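import Pool.Agent.Lib.MP_7b7e48_nt.T3.S7G1
import Pool.Agent.Lib.MP_7b7e48_nt.T3.S7F3

/-!
# S7G2: a mark of `Y` divides `S`

`G2_h`: a mark `P = vY e` of colour `h < k` with `P ∣ SI`. `P ∣ BI h` (`fr_Y`), so `S_modB` (`n = k + 1`, `h + 1 < k + 1`; `SI_eq`): `P ∣ (∏_{l≤h} a_l A_l) HI (h+1)`, and `P` divides no `a_l`, `A_l`: `P ∣ HI (h+1)`.
`S7F3` with `q = D`, `Q = D`, `Q1 = y0`, `P`; `cnt_le`, `inv3` (`i = 0`, `j = h + 1`). `IsCoprime D (RI 0)`: `cop_RI`, `fr_small`.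
`G2`: sum over `h < k` and the colour `k` (`G1_Yk`): `cnt_Un`.
-/

set_option autoImplicit false

open Finset

namespace Pool.Agent.Lib.T3

open Pool.Agent.Lib.TC

variable {S : MS} {T : Dat} {M : Msr S} {W0 : ℕ} {δ0 δ1 : ℝ} {Z : ℕ → ℕ} {V : ℝ} {Cd : S.TX → S.TY → ℕ → Prop}

private theorem S7G2_copD (h : S.H73 T M W0 δ0 δ1 Z V Cd) (c : S.Col) {μ : S.TX} {ν : S.TY} (hμ : μ ∈ S.MX) (hν : ν ∈ S.MY) :
    IsCoprime (T.D : ℤ) (S.RI T.N c μ ν 0) := by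
  have hG := h.geo
  apply cop_RI c _ (by exact_mod_cast hG.D0.ne')
  intro p hp hpD
  have hp' : p.natAbs.Prime := Int.prime_iff_natAbs_prime.mp hp
  have hD : p.natAbs ∣ T.D := by
    have := Int.natAbs_dvd_natAbs.mpr hpD
    rwa [Int.natAbs_natCast] at this
  obtain ⟨-, f2, -, f4⟩ := fr_small hG c hμ hν hp' (hG.Dy _ hp' hD)
  exact ⟨fun l hl => f2 l (Int.natAbs_dvd.mpr hl), fun l hl => f4 l (Int.natAbs_dvd.mpr hl)⟩

theorem G2_h (h : S.H73 T M W0 δ0 δ1 Z V Cd) {c : S.Col} (hc : c ∈ S.CC) (e : S.NY) {g : ℕ} (hg : g < S.k) :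
    M.cnt (fun μ ν n => M.Bs T Cd c μ ν n ∧ S.vY ν e ∣ S.SI T.N c μ ν ∧ S.lY T.N c μ ν e = g) ≤ M.ub T V δ1 := by
  have hG := h.geo
  have h1 := cnt_le h (fun μ ν n => M.Bs T Cd c μ ν n ∧ S.vY ν e ∣ S.SI T.N c μ ν ∧ S.lY T.N c μ ν e = g)
    (fun μ ν => S.cop μ ν ∧ T.D ∣ S.SI T.N c μ ν ∧ S.vY ν e ∣ S.SI T.N c μ ν ∧ S.lY T.N c μ ν e = g) (by
      rintro μ hμ ν hν n _ ⟨a1, a2, a3⟩
      obtain ⟨b1, b2, -⟩ := Bs_facts h hc hμ hν a1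
      exact ⟨a1.1, b1, b2, a2, a3⟩)
  have h2 : S.mass M.hX M.hY (fun μ ν => S.cop μ ν ∧ T.D ∣ S.SI T.N c μ ν ∧ S.vY ν e ∣ S.SI T.N c μ ν ∧
      S.lY T.N c μ ν e = g) ≤ 2 * V ^ 2 * (1 / (T.D : ℝ) + 1 / Z 0) * (1 / (T.y0 : ℝ) + 1 / Z (g + 1)) * S.full M.hX M.hY := by
    refine S7F3 hG c (q := fun _ _ => T.D) (fun _ _ _ _ _ _ => rfl) (P := fun _ ν => S.vY ν e) ?_ hG.D0
      (by have := hG.y1; omega) hg _ ?_
    · intro μ μ' ν ν' _ hν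
      simp only [MS.vY, hν]
    · rintro μ hμ ν hν ⟨a1, a2, a3, a4⟩
      obtain ⟨f1, f2, -, -, -, f6, f7, f8, f9, f10⟩ := fr_Y hG c hμ hν a1 e
      rw [a4] at f6 f7
      have hp := Nat.prime_iff_prime_int.mp f1
      refine ⟨⟨a2, S7G2_copD h c hμ hν, le_refl _⟩, f1, f2.le, ?_, f7, f10⟩
      have e1 : ((S.vY ν e : ℕ) : ℤ) ∣ SmR (S.AI T.N c μ ν) (S.BI T.N c μ ν) (aI μ.1) (aI ν.1) (S.k + 1) := by
        rw [← SI_eq hG c hμ hν]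
        exact_mod_cast a3
      have e2 := S_modB (n := S.k + 1) (h := g) (by omega) (A := S.AI T.N c μ ν) (a := aI μ.1) (b := aI ν.1) (f6 hg)
      have e3 := (dvd_sub_right e1).mp e2
      refine (hp.dvd_or_dvd e3).resolve_left ?_
      intro e4
      rw [hp.dvd_finset_prod_iff] at e4
      obtain ⟨l, -, hl⟩ := e4
      rcases hp.dvd_or_dvd hl with e5 | e5
      · exact f9 l e5
      · exact f8 l e5
  have h3 := inv3 h (Nat.zero_le S.k) (show g + 1 ≤ S.k from hg)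
  have h4 := mul_le_mul_of_nonneg_right h3 (full_nonneg hG)
  have h5 := mul_le_mul_of_nonneg_left (h2.trans h4) h.ok.W_pos.le
  refine h1.trans ?_
  rw [Msr.ub, Msr.tot]
  have h6 : M.W * (8 * V ^ 2 / (T.y0 * T.D) * S.full M.hX M.hY) =
      8 * V ^ 2 / (T.y0 * T.D) * (M.W * ((∑ μ ∈ S.MX, S.prX M.hX μ) * ∑ ν ∈ S.MY, S.prY M.hY ν)) := by
    rw [MS.full]
    ring
  linarith

theorem G2 (h : S.H73 T M W0 δ0 δ1 Z V Cd) {c : S.Col} (hc : c ∈ S.CC) (e : S.NY) :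
    M.cnt (fun μ ν n => M.Bs T Cd c μ ν n ∧ S.vY ν e ∣ S.SI T.N c μ ν) ≤ (S.k + 1) * M.ub T V δ1 := by
  have hG := h.geo
  have h1 := cnt_Un h (range (S.k + 1)) (E := fun μ ν n => M.Bs T Cd c μ ν n ∧ S.vY ν e ∣ S.SI T.N c μ ν)
    (fun g μ ν n => M.Bs T Cd c μ ν n ∧ S.vY ν e ∣ S.SI T.N c μ ν ∧ S.lY T.N c μ ν e = g) (by
      rintro μ hμ ν hν n _ ⟨a1, a2⟩
      obtain ⟨-, -, -, -, f5, -⟩ := fr_Y hG c hμ hν a1.1.2 e
      exact ⟨S.lY T.N c μ ν e, mem_range.mpr (by omega), a1, a2, rfl⟩)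
  have h2 : ∑ g ∈ range (S.k + 1), M.cnt (fun μ ν n => M.Bs T Cd c μ ν n ∧ S.vY ν e ∣ S.SI T.N c μ ν ∧
      S.lY T.N c μ ν e = g) ≤ ∑ _g ∈ range (S.k + 1), M.ub T V δ1 := by
    apply sum_le_sum
    intro g hg
    rw [mem_range] at hg
    rcases Nat.lt_or_ge g S.k with h0 | h0
    · exact G2_h h hc e h0
    · have h3 : g = S.k := by omega
      rw [h3]
      exact G1_Yk h hc e
  refine h1.trans (h2.trans (le_of_eq ?_))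
  rw [sum_const, card_range, nsmul_eq_mul]
  push_cast
  ring

end Pool.Agent.Lib.T3
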