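import Pool.Agent.Lib.MP_7b7e48_nt.T3.S7G0
import Pool.Agent.Lib.MP_7b7e48_nt.TC.U15

/-!
# S7E (T3): the class of `n` when a prime `p ∤ S` divides `t_i`; composite windows of `Y`, `τ = prX` or `τ = prY`

`μ`, `ν`, `c` fixed, `n`, `n'` with `Bs`, `p ∣ tI_i` for both, `p ∤ SI`, `p ∤ v`. `tI_facts` for `X = X(n)`, `X(n')` gives two cycles; the short cofactors `A_l`, `B_l` (`l < k`) are the same, `e_k = SI/D` is the same.
`U15_Y` (TC/U15.lean, `m = k + 1`): `(t'_i - t_i) Π = - e_k (Y' - Y)`, `Π = ∏_{l≤i} α_l ∏_{l<i} A_l ∏_{i≤l≤k} β_l ∏_{i≤l<k} B_l`, and `Y' - Y = X' - X = v τ (n' - n)` (`X_eq`).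
* `E_free`: `p ∤ prX prY` : `p ∣ e_k v τ (n' - n)`, `p ∤ e_k` (`p ∤ SI`), `p ∤ v`, `p ∤ τ` (`τ = prX` or `prY`): `p ∣ n' - n`.
* `E_mark`: `p ∣ A_l` for some `l < i`, or `p ∣ B_l` for some `i ≤ l < k`: then `p ∣ Π`, so `p² ∣ (t'_i - t_i) Π`, `p² ∣ v τ (n' - n) e_k`, `p² ∣ τ (n' - n)`. If `p ∤ τ`: `p² ∣ n' - n`. If `p ∣ τ` then `τ = prX id μ` or `prY id ν` is squarefree
  (distinct primes, `ix`; coprime squarefree window elements, `iy`, `wc`, `wz`), so `p ∣ n' - n`.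
-/

set_option autoImplicit false

open Finset

namespace Pool.Agent.Lib.T3

open Pool.Agent.Lib.TC

variable {S : MS} {T : Dat} {M : Msr S} {W0 : ℕ} {δ0 δ1 : ℝ} {Z : ℕ → ℕ} {V : ℝ} {Cd : S.TX → S.TY → ℕ → Prop}

private theorem S7E_sqf (s : Finset ℕ) (hs : ∀ p ∈ s, p.Prime) : Squarefree (∏ p ∈ s, p) := by
  classical
  induction s using Finset.induction_on with
  | empty => rw [prod_empty]; exact squarefree_one
  | insert a s ha ih =>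
    rw [prod_insert ha]
    have h1 : a.Coprime (∏ p ∈ s, p) := by
      refine Nat.Coprime.prod_right fun q hq => ?_
      refine (Nat.coprime_primes (hs a (mem_insert_self _ _)) (hs q (mem_insert_of_mem hq))).2 ?_
      rintro rfl
      exact ha hq
    rw [Nat.squarefree_mul h1]
    exact ⟨(hs a (mem_insert_self _ _)).squarefree, ih fun q hq => hs q (mem_insert_of_mem hq)⟩

private theorem S7E_prX (h : S.H73 T M W0 δ0 δ1 Z V Cd) {μ : S.TX} (hμ : μ ∈ S.MX) : Squarefree (S.prX id μ) := by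
  classical
  have hg := h.geo
  have hμ' := hμ
  simp only [MS.MX, mem_product, Fintype.mem_piFinset] at hμ'
  have hinj := hg.ix μ hμ
  have h1 : S.prX id μ = ∏ j, (Sum.elim μ.1 (S.vX μ)) j := by
    unfold MS.prX MS.vX
    rw [Fintype.prod_sum_type, Fintype.prod_sum_type]
    simp only [id, Sum.elim_inl, Sum.elim_inr]
    rw [mul_assoc]
  have h2 : ∏ j, (Sum.elim μ.1 (S.vX μ)) j = ∏ p ∈ univ.image (Sum.elim μ.1 (S.vX μ)), p := by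
    rw [prod_image fun a _ b _ hab => hinj hab]
  rw [h1, h2]
  refine S7E_sqf _ fun p hp => ?_
  rw [mem_image] at hp
  obtain ⟨j, _, rfl⟩ := hp
  rcases j with i | j | j
  · exact (hg.wx i _ (hμ'.1 i)).1
  · exact (hg.fx j _ (hμ'.2.1 j)).1
  · exact (hg.ox j _ (hμ'.2.2 j)).1

private theorem S7E_sqf2 {ι : Type*} [DecidableEq ι] (s : Finset ι) (g : ι → ℕ) (hs : ∀ i ∈ s, Squarefree (g i))
    (hc : ∀ i ∈ s, ∀ j ∈ s, i ≠ j → (g i).Coprime (g j)) : Squarefree (∏ i ∈ s, g i) := by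
  induction s using Finset.induction_on with
  | empty => rw [prod_empty]; exact squarefree_one
  | insert a s ha ih =>
    rw [prod_insert ha]
    have h1 : (g a).Coprime (∏ i ∈ s, g i) := by
      refine Nat.Coprime.prod_right fun q hq => ?_
      refine hc a (mem_insert_self _ _) q (mem_insert_of_mem hq) ?_
      rintro rfl
      exact ha hq
    rw [Nat.squarefree_mul h1]
    exact ⟨hs a (mem_insert_self _ _), ih (fun i hi => hs i (mem_insert_of_mem hi))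
      (fun i hi j hj => hc i (mem_insert_of_mem hi) j (mem_insert_of_mem hj))⟩

private theorem S7E_cop {z w p : ℕ} (hw : ∀ r : ℕ, r.Prime → r ∣ w → z < r) (hp : p.Prime) (hpz : p ≤ z) : w.Coprime p := by
  rw [Nat.coprime_comm, Nat.Prime.coprime_iff_not_dvd hp]
  intro h
  have := hw p hp h
  omega

private theorem S7E_prY (h : S.H73 T M W0 δ0 δ1 Z V Cd) {ν : S.TY} (hν : ν ∈ S.MY) : Squarefree (S.prY id ν) := by
  classical
  have hg := h.geo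
  have hν' := hν
  simp only [MS.MY, mem_product, Fintype.mem_piFinset] at hν'
  have hinj := hg.iy ν hν
  have h1 : S.prY id ν = ∏ j, (Sum.elim ν.1 (S.vY ν)) j := by
    unfold MS.prY MS.vY
    rw [Fintype.prod_sum_type, Fintype.prod_sum_type]
    simp only [id, Sum.elim_inl, Sum.elim_inr]
    rw [mul_assoc]
  have hpr : ∀ j, (S.vY ν j).Prime ∧ S.vY ν j ≤ T.z := by
    intro j
    rcases j with j | j
    · have := hg.fy j _ (hν'.2.1 j)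
      exact ⟨this.1, this.2.2.1⟩
    · have := hg.oy j _ (hν'.2.2 j)
      exact ⟨this.1, this.2.2.1⟩
  rw [h1]
  refine S7E_sqf2 univ _ ?_ ?_
  · intro j _
    rcases j with i | j
    · exact (hg.wy i _ (hν'.1 i)).1
    · exact (hpr j).1.squarefree
  · intro a _ b _ hab
    rcases a with i | a
    · rcases b with j | b
      · have hij : i ≠ j := fun e => hab (by rw [e])
        exact hg.wc i j hij _ (hν'.1 i) _ (hν'.1 j)
      · exact S7E_cop (hg.wz i _ (hν'.1 i)) (hpr b).1 (hpr b).2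
    · rcases b with j | b
      · exact (S7E_cop (hg.wz j _ (hν'.1 j)) (hpr a).1 (hpr a).2).symm
      · exact (Nat.coprime_primes (hpr a).1 (hpr b).1).2 fun e => hab (hinj e)

/-- `τ` is squarefree -/
private theorem S7E_tau (h : S.H73 T M W0 δ0 δ1 Z V Cd) {μ : S.TX} {ν : S.TY} (hμ : μ ∈ S.MX) (hν : ν ∈ S.MY) :
    Squarefree (M.tau μ ν) := by
  rcases h.ok.tau_cases with hc1 | hc1
  · rw [hc1.1 μ ν]
    exact S7E_prX h hμ
  · rw [hc1.1 μ ν]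
    exact S7E_prY h hν

/-- the slope identity for two values of `n` -/
private theorem S7E_slope (h : S.H73 T M W0 δ0 δ1 Z V Cd) {c : S.Col} (hc : c ∈ S.CC) {μ : S.TX} {ν : S.TY} (hμ : μ ∈ S.MX) (hν : ν ∈ S.MY)
    {i n n' : ℕ} (hi : i < S.k + 1) (hB : M.Bs T Cd c μ ν n) (hB' : M.Bs T Cd c μ ν n') :
    ∃ ek : ℤ, ((T.D : ℤ) * ek = (S.SI T.N c μ ν : ℤ)) ∧
    (((S.tI T c μ ν (M.X μ ν n') i : ℕ) : ℤ) - ((S.tI T c μ ν (M.X μ ν n) i : ℕ) : ℤ)) *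
      ((∏ l ∈ range (i + 1), ((ext1 μ.1 l : ℕ) : ℤ)) * (∏ l ∈ range i, (S.AA T.N c μ ν (M.X μ ν n) l : ℤ)) *
        ((∏ l ∈ Ico i (S.k + 1), ((ext1 ν.1 l : ℕ) : ℤ)) * ∏ l ∈ Ico i S.k, (S.BB T.N c μ ν (M.X μ ν n - T.D * T.N) l : ℤ))) =
      -(ek * ((M.v : ℤ) * M.tau μ ν * ((n' : ℤ) - n))) := by
  have hg := h.geo
  obtain ⟨ha, hO, hC, hLL⟩ := hB
  obtain ⟨ha', hO', hC', hLL'⟩ := hB'
  have hD := h.cD c hc μ hμ ν hν n ha hO hC hLL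
  obtain ⟨e, t, hcyc, hlast, _, hY, _, hform⟩ := tI_facts hg hc hμ hν ha.2 (h.ok.X_dvd μ ν n hO) (h.ok.Y_dvd μ ν n hO)
    (h.ok.Y_pos μ ν n hO) (h.ok.X_big μ ν n hO) hD
  obtain ⟨e', t', hcyc', hlast', _, hY', _, hform'⟩ := tI_facts hg hc hμ hν ha.2 (h.ok.X_dvd μ ν n' hO') (h.ok.Y_dvd μ ν n' hO')
    (h.ok.Y_pos μ ν n' hO') (h.ok.X_big μ ν n' hO') hD
  have hek : e S.k = e' S.k := Nat.eq_of_mul_eq_mul_left hg.D0 (hlast.trans hlast'.symm)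
  have hAA : ∀ l < S.k + 1 - 1, S.AA T.N c μ ν (M.X μ ν n) l = S.AA T.N c μ ν (M.X μ ν n') l ∧
      S.BB T.N c μ ν (M.X μ ν n - T.D * T.N) l = S.BB T.N c μ ν (M.X μ ν n' - T.D * T.N) l := by
    intro l hl
    rw [Nat.add_sub_cancel] at hl
    unfold MS.AA MS.BB
    rw [if_pos hl, if_pos hl, if_pos hl, if_pos hl]
    exact ⟨rfl, rfl⟩
  have hek' : e (S.k + 1 - 1) = e' (S.k + 1 - 1) := by
    rw [Nat.add_sub_cancel]
    exact hek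
  have hU := U15_Y hcyc hcyc' hAA hek' hi
  rw [Nat.add_sub_cancel] at hU
  refine ⟨(e S.k : ℤ), ?_, ?_⟩
  · exact_mod_cast hlast
  · rw [(hform i hi).1, (hform' i hi).1, hU]
    have hp := h.ok.Y_pos μ ν n hO
    have hp' := h.ok.Y_pos μ ν n' hO'
    have e1 : (∏ l ∈ range (S.k + 1), (((ext1 ν.1 l : ℕ) : ℤ) * (S.BB T.N c μ ν (M.X μ ν n - T.D * T.N) l : ℤ))) =
        (M.X μ ν n : ℤ) - T.D * T.N := by
      have hh := congrArg (fun x : ℕ => (x : ℤ)) hY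
      simp only [Nat.cast_prod, Nat.cast_mul] at hh
      rw [hh, Nat.cast_sub hp.le, Nat.cast_mul]
    have e2 : (∏ l ∈ range (S.k + 1), (((ext1 ν.1 l : ℕ) : ℤ) * (S.BB T.N c μ ν (M.X μ ν n' - T.D * T.N) l : ℤ))) =
        (M.X μ ν n' : ℤ) - T.D * T.N := by
      have hh := congrArg (fun x : ℕ => (x : ℤ)) hY'
      simp only [Nat.cast_prod, Nat.cast_mul] at hh
      rw [hh, Nat.cast_sub hp'.le, Nat.cast_mul]
    rw [e1, e2, h.ok.X_eq μ ν n hO, h.ok.X_eq μ ν n' hO']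
    ring

private theorem S7E_ek {p : ℕ} {ek : ℤ} {c : S.Col} {μ : S.TX} {ν : S.TY} (h1 : (T.D : ℤ) * ek = (S.SI T.N c μ ν : ℤ))
    (hS : ¬ p ∣ S.SI T.N c μ ν) : ¬ (p : ℤ) ∣ ek := by
  intro h
  apply hS
  have h2 : (p : ℤ) ∣ (S.SI T.N c μ ν : ℤ) := by
    rw [← h1]
    exact Dvd.dvd.mul_left h _
  exact_mod_cast h2

private theorem S7E_mod {q n n' : ℕ} (h : (q : ℤ) ∣ (n' : ℤ) - n) : n ≡ n' [MOD q] :=
  (Nat.modEq_iff_dvd).2 h

theorem E_free (h : S.H73 T M W0 δ0 δ1 Z V Cd) {c : S.Col} (hc : c ∈ S.CC) {μ : S.TX} {ν : S.TY} (hμ : μ ∈ S.MX) (hν : ν ∈ S.MY) {p i n n' : ℕ}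
    (hp : p.Prime) (hi : i < S.k + 1) (hS : ¬ p ∣ S.SI T.N c μ ν) (hv : ¬ p ∣ M.v) (hm : ¬ p ∣ S.prX id μ * S.prY id ν)
    (hB : M.Bs T Cd c μ ν n) (hB' : M.Bs T Cd c μ ν n') (ht : p ∣ S.tI T c μ ν (M.X μ ν n) i) (ht' : p ∣ S.tI T c μ ν (M.X μ ν n') i) :
    n ≡ n' [MOD p] := by
  obtain ⟨ek, h1, h2⟩ := S7E_slope h hc hμ hν hi hB hB'
  have hpZ : Prime (p : ℤ) := Nat.prime_iff_prime_int.1 hp
  have hek := S7E_ek h1 hS
  have h3 : (p : ℤ) ∣ ((S.tI T c μ ν (M.X μ ν n') i : ℕ) : ℤ) - ((S.tI T c μ ν (M.X μ ν n) i : ℕ) : ℤ) :=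
    dvd_sub (Int.natCast_dvd_natCast.2 ht') (Int.natCast_dvd_natCast.2 ht)
  have h4 : (p : ℤ) ∣ ek * ((M.v : ℤ) * M.tau μ ν * ((n' : ℤ) - n)) := by
    have h5 := Dvd.dvd.mul_right h3 ((∏ l ∈ range (i + 1), ((ext1 μ.1 l : ℕ) : ℤ)) * (∏ l ∈ range i, (S.AA T.N c μ ν (M.X μ ν n) l : ℤ)) *
        ((∏ l ∈ Ico i (S.k + 1), ((ext1 ν.1 l : ℕ) : ℤ)) * ∏ l ∈ Ico i S.k, (S.BB T.N c μ ν (M.X μ ν n - T.D * T.N) l : ℤ)))
    rw [h2] at h5
    exact (dvd_neg.1 h5)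
  have hvZ : ¬ (p : ℤ) ∣ (M.v : ℤ) := fun hh => hv (Int.natCast_dvd_natCast.1 hh)
  have htau : ¬ (p : ℤ) ∣ (M.tau μ ν : ℤ) := by
    intro hh
    have hh' := Int.natCast_dvd_natCast.1 hh
    rcases h.ok.tau_cases with hc1 | hc1
    · rw [hc1.1 μ ν] at hh'
      exact hm (Dvd.dvd.mul_right hh' _)
    · rw [hc1.1 μ ν] at hh'
      exact hm (Dvd.dvd.mul_left hh' _)
  rcases hpZ.dvd_or_dvd h4 with h5 | h5
  · exact absurd h5 hek
  · rcases hpZ.dvd_or_dvd h5 with h6 | h6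
    · rcases hpZ.dvd_or_dvd h6 with h7 | h7
      · exact absurd h7 hvZ
      · exact absurd h7 htau
    · exact S7E_mod h6

theorem E_mark (h : S.H73 T M W0 δ0 δ1 Z V Cd) {c : S.Col} (hc : c ∈ S.CC) {μ : S.TX} {ν : S.TY} (hμ : μ ∈ S.MX) (hν : ν ∈ S.MY) {p i n n' : ℕ}
    (hp : p.Prime) (hi : i < S.k + 1) (hS : ¬ p ∣ S.SI T.N c μ ν) (hv : ¬ p ∣ M.v)
    (hm : (∃ l < i, l < S.k ∧ (p : ℤ) ∣ S.AI T.N c μ ν l) ∨ ∃ l, i ≤ l ∧ l < S.k ∧ (p : ℤ) ∣ S.BI T.N c μ ν l)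
    (hB : M.Bs T Cd c μ ν n) (hB' : M.Bs T Cd c μ ν n') (ht : p ∣ S.tI T c μ ν (M.X μ ν n) i) (ht' : p ∣ S.tI T c μ ν (M.X μ ν n') i) :
    n ≡ n' [MOD (if p ∣ M.tau μ ν then p else p ^ 2)] := by
  obtain ⟨ek, h1, h2⟩ := S7E_slope h hc hμ hν hi hB hB'
  have hpZ : Prime (p : ℤ) := Nat.prime_iff_prime_int.1 hp
  have hek := S7E_ek h1 hS
  have h3 : (p : ℤ) ∣ ((S.tI T c μ ν (M.X μ ν n') i : ℕ) : ℤ) - ((S.tI T c μ ν (M.X μ ν n) i : ℕ) : ℤ) :=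
    dvd_sub (Int.natCast_dvd_natCast.2 ht') (Int.natCast_dvd_natCast.2 ht)
  have hPi : (p : ℤ) ∣ (∏ l ∈ range (i + 1), ((ext1 μ.1 l : ℕ) : ℤ)) * (∏ l ∈ range i, (S.AA T.N c μ ν (M.X μ ν n) l : ℤ)) *
        ((∏ l ∈ Ico i (S.k + 1), ((ext1 ν.1 l : ℕ) : ℤ)) * ∏ l ∈ Ico i S.k, (S.BB T.N c μ ν (M.X μ ν n - T.D * T.N) l : ℤ)) := by
    rcases hm with ⟨l, hl, hlk, hd⟩ | ⟨l, hl, hlk, hd⟩
    · have e1 : (S.AA T.N c μ ν (M.X μ ν n) l : ℤ) = S.AI T.N c μ ν l := by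
        unfold MS.AI MS.AA
        rw [if_pos hlk, if_pos hlk, if_pos hlk]
      refine Dvd.dvd.mul_right (Dvd.dvd.mul_left ?_ _) _
      refine dvd_trans ?_ (dvd_prod_of_mem _ (mem_range.2 hl))
      rw [e1]
      exact hd
    · have e1 : (S.BB T.N c μ ν (M.X μ ν n - T.D * T.N) l : ℤ) = S.BI T.N c μ ν l := by
        unfold MS.BI MS.BB
        rw [if_pos hlk, if_pos hlk, if_pos hlk]
      refine Dvd.dvd.mul_left (Dvd.dvd.mul_left ?_ _) _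
      refine dvd_trans ?_ (dvd_prod_of_mem _ (mem_Ico.2 ⟨hl, hlk⟩))
      rw [e1]
      exact hd
  have h4 : (p : ℤ) ^ 2 ∣ ek * ((M.v : ℤ) * ((M.tau μ ν : ℤ) * ((n' : ℤ) - n))) := by
    have h5 := mul_dvd_mul h3 hPi
    rw [h2] at h5
    have h6 := dvd_neg.1 h5
    have e3 : ek * ((M.v : ℤ) * ((M.tau μ ν : ℤ) * ((n' : ℤ) - n))) = ek * ((M.v : ℤ) * M.tau μ ν * ((n' : ℤ) - n)) := by ring
    rw [e3, pow_two]
    exact h6
  have hvZ : ¬ (p : ℤ) ∣ (M.v : ℤ) := fun hh => hv (Int.natCast_dvd_natCast.1 hh)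
  have h7 : (p : ℤ) ^ 2 ∣ (M.tau μ ν : ℤ) * ((n' : ℤ) - n) := by
    have h8 := hpZ.pow_dvd_of_dvd_mul_left 2 hek h4
    exact hpZ.pow_dvd_of_dvd_mul_left 2 hvZ h8
  by_cases hτ : p ∣ M.tau μ ν
  · rw [if_pos hτ]
    obtain ⟨w, hw⟩ := hτ
    have hsq : ¬ p ∣ w := by
      rintro ⟨w', rfl⟩
      have hs := S7E_tau h hμ hν
      have := hs p ⟨w', by rw [hw]; ring⟩
      exact hp.one_lt.ne' (Nat.isUnit_iff.1 this)
    have h9 : (p : ℤ) * p ∣ p * ((w : ℤ) * ((n' : ℤ) - n)) := by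
      have e4 : (p : ℤ) * ((w : ℤ) * ((n' : ℤ) - n)) = (M.tau μ ν : ℤ) * ((n' : ℤ) - n) := by
        rw [hw]
        push_cast
        ring
      rw [e4, ← pow_two]
      exact h7
    have h10 := (mul_dvd_mul_iff_left (show (p : ℤ) ≠ 0 by exact_mod_cast hp.ne_zero)).1 h9
    rcases hpZ.dvd_or_dvd h10 with h11 | h11
    · exact absurd (Int.natCast_dvd_natCast.1 h11) hsq
    · exact S7E_mod h11
  · rw [if_neg hτ]
    have hτZ : ¬ (p : ℤ) ∣ (M.tau μ ν : ℤ) := fun hh => hτ (Int.natCast_dvd_natCast.1 hh)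
    have h12 := hpZ.pow_dvd_of_dvd_mul_left 2 hτZ h7
    refine S7E_mod ?_
    rw [Nat.cast_pow]
    exact h12

end Pool.Agent.Lib.T3
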