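import Pool.Agent.Lib.MP_7b7e48_nt.T3.D3
import Pool.Agent.Lib.MP_7b7e48_nt.T3.G3
import Pool.Agent.Lib.MP_7b7e48_nt.TC.S7F2
import Pool.Agent.Lib.MP_7b7e48_nt.T3.S7F1

/-!
# S7F2: `q ∣ S` and `P ∣ Gs i`: windows `0` and `h` of `X`

`mass_twoX` with `i := 0`, `j := h` (`h ≥ 1` since `i < h`), moduli `Q` (separation in the window `0`: `sepS`) and `Q1`: for `μ`, `μ'` with `μ.2 = μ'.2` which agree outside the windows `0`, `h`,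
the integer vectors agree except `α_0`, `α_h`; `P` (the same for both) divides `Gs i` for both: `G_unique` (its hypothesis on `a`, `a'` is only for `j > i ≥ 0`): `P ∣ α_h - α'_h`.
-/

set_option autoImplicit false

open Finset

namespace Pool.Agent.Lib.T3

open Pool.Agent.Lib.TC

variable {S : MS} {T : Dat} {Z : ℕ → ℕ} {hX hY : ℕ → ℝ} {V : ℝ}

theorem S7F2 (hG : S.Geo3 T Z hX hY V) (c : S.Col) {q P : S.TX → S.TY → ℕ} (hq : S.Inv q) (hP : S.Inv P) {Q Q1 : ℕ} (hQ : 0 < Q) (hQ1 : 0 < Q1) {i h : ℕ}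
    (hi : i < h) (hh : h ≤ S.k) (E : S.TX → S.TY → Prop)
    (hE : ∀ μ ∈ S.MX, ∀ ν ∈ S.MY, E μ ν → (q μ ν ∣ S.SI T.N c μ ν ∧ IsCoprime (q μ ν : ℤ) (S.RI T.N c μ ν 0) ∧ Q ≤ q μ ν) ∧
      ((P μ ν).Prime ∧ Q1 ≤ P μ ν ∧ ((P μ ν : ℕ) : ℤ) ∣ S.GI T.N c μ ν i ∧ (h < S.k → ((P μ ν : ℕ) : ℤ) ∣ S.AI T.N c μ ν h) ∧
        (∀ l, l ≠ h → ¬ ((P μ ν : ℕ) : ℤ) ∣ S.AI T.N c μ ν l) ∧ (∀ l, l ≠ h → ¬ ((P μ ν : ℕ) : ℤ) ∣ aI μ.1 l) ∧
        (∀ l, h < l → ¬ ((P μ ν : ℕ) : ℤ) ∣ aI ν.1 l * S.BI T.N c μ ν (l - 1)))) :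
    S.mass hX hY E ≤ V ^ 2 * (1 / Q + 1 / Z 0) * (1 / Q1 + 1 / Z h) * S.full hX hY := by
  have hh' : h < S.k + 1 := by omega
  have h0h : (0 : Fin (S.k + 1)) ≠ ⟨h, hh'⟩ := by
    intro h0
    have h1 := congrArg Fin.val h0
    have h2 : (0 : ℕ) = h := h1
    omega
  refine mass_twoX hG E h0h hQ hQ1 ?_ ?_
  · intro μ hμ μ' hμ' ν hν h1 h1' hag hlt
    obtain ⟨⟨a1, a2, a3⟩, -⟩ := hE μ hμ ν hν h1
    obtain ⟨⟨b1, -, -⟩, -⟩ := hE μ' hμ' ν hν h1'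
    rw [← hq μ μ' ν ν hag.1 rfl] at b1
    have := sepS hG c hμ hμ' hν hag a1 b1 a2 hlt
    omega
  · intro μ hμ μ' hμ' ν hν h1 h1' hag hag' hlt
    obtain ⟨-, a1, a2, a3, a4, a5, a6, a7⟩ := hE μ hμ ν hν h1
    obtain ⟨-, -, -, b3, -⟩ := hE μ' hμ' ν hν h1'
    rw [← hP μ μ' ν ν hag rfl] at b3
    have hA : S.AI T.N c μ' ν = S.AI T.N c μ ν := AI_inv c hag.symm rfl
    have hB : S.BI T.N c μ' ν = S.BI T.N c μ ν := BI_inv c hag.symm rfl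
    rw [MS.GI] at a3 b3
    rw [hA, hB] at b3
    have ha : ∀ j, i < j → j ≠ h → aI μ.1 j = aI μ'.1 j := by
      intro j hj hjh
      apply S7F1_congr
      intro l hl
      apply hag'
      · intro h0
        have h3 : (l : ℕ) = 0 := by rw [h0]; rfl
        omega
      · intro h0
        have h3 : (l : ℕ) = h := by rw [h0]
        omega
    have e1 := G_unique hi hh' (Nat.prime_iff_prime_int.mp a1) ha (fun hlt' => a4 (by omega))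
      (fun l _ hl => a5 l (by omega)) (fun l _ hl => a6 l (by omega)) (fun l hl _ => a7 l hl) a3 b3
    have e4 : aI μ.1 h = (μ.1 ⟨h, hh'⟩ : ℕ) := S7F1_val μ.1 ⟨h, hh'⟩
    have e5 : aI μ'.1 h = (μ'.1 ⟨h, hh'⟩ : ℕ) := S7F1_val μ'.1 ⟨h, hh'⟩
    rw [e4, e5] at e1
    have := S7F1_gap e1 hlt
    omega

end Pool.Agent.Lib.T3
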