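import Pool.Agent.Lib.MP_7b7e48_nt.T3.S7G0
import Pool.Agent.Lib.MP_7b7e48_nt.T3.S7F2
import Pool.Agent.Lib.MP_7b7e48_nt.T3.S7E

/-!
# S7G3 (for `Geo3`, port of TC/S7G3): a non-window mark `P = vX e` of `X` divides `t_i`, `P ∤ S`

`P ∣ X`, `P ∤ D N` (`fr_X`, primes of `D` are `≤ y0`). `P ∣ tI i`, so `P ∣ FI (X - D N) i` (`Bs_facts`), so by `FI_X`: `P ∣ (∏_{l<i} a_l A_l) (a_i GI i)`. Let `g = lX e` be the colour of `P`, `g ≤ k`.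
* `G3_lt` (`i < g`): `P` divides no `a_l` and no `A_l`, `l ≠ g` : `P ∣ GI i`. `S7F2` with `h = g`, `q = D`, `Q = D`, `Q1 = y0`; `cnt_le`, `inv3`.
* `G3_eq` (`i = g`): `P ∣ GI g`: impossible: `g < k`: `G_self` (`P ∣ A_g`), `g = k`: `G_top`. So the count is `0 ≤ ub`.
* `G3_gt` (`g < i`, so `g < k`): `E_mark` (`P ∣ A_g`), `P ∈ PL` (`y0 < P ≤ z`), `P ∤ v` (`adm`): for fixed `μ`, `ν` the `n` are in one class: `n_cls2`: `≤ 4/P ms + err`, `4/P ≤ 4/y0`. `cnt_le'` with `θ = 4/y0`, `E'` = `cop`, `D ∣ SI` (and `E` for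
  some `n`), whose mass is `≤ V (1/D + 1/Z 0) full ≤ 2 V/D full` (`S7F1` with `q = D`): `8 V/(y0 D) ≤ 8 V²/(y0 D)`.
-/

set_option autoImplicit false

open Finset

namespace Pool.Agent.Lib.T3

open Pool.Agent.Lib.TC

variable {S : MS} {T : Dat} {M : Msr S} {W0 : ℕ} {δ0 δ1 : ℝ} {Z : ℕ → ℕ} {V : ℝ} {Cd : S.TX → S.TY → ℕ → Prop}

private theorem g3_Inv (e : S.NX) : S.Inv (fun μ _ => S.vX μ e) := by
  intro μ μ' ν ν' h _
  show S.vX μ e = S.vX μ' e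
  unfold MS.vX
  rw [h]

private theorem g3_InvD : S.Inv (fun _ _ => T.D) := fun _ _ _ _ _ _ => rfl

private theorem g3_dvd (μ : S.TX) (e : S.NX) : S.vX μ e ∣ S.prX id μ := by
  unfold MS.prX
  rcases e with f | e
  · exact Dvd.dvd.mul_right (Dvd.dvd.mul_left (dvd_prod_of_mem (fun f => id (μ.2.1 f)) (mem_univ f)) _) _
  · exact Dvd.dvd.mul_left (dvd_prod_of_mem (fun e => id (μ.2.2 e)) (mem_univ e)) _

private theorem g3_copD (h : S.H73 T M W0 δ0 δ1 Z V Cd) (c : S.Col) {μ : S.TX} {ν : S.TY} (hμ : μ ∈ S.MX) (hν : ν ∈ S.MY) :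
    IsCoprime ((T.D : ℕ) : ℤ) (S.RI T.N c μ ν 0) := by
  refine cop_RI c (fun p hp hpD => ?_) (by have := h.geo.D0; exact_mod_cast this.ne')
  have hpn : p.natAbs.Prime := Int.prime_iff_natAbs_prime.mp hp
  have h1 : p.natAbs ∣ T.D := by
    have h2 := Int.natAbs_dvd_natAbs.mpr hpD
    rwa [Int.natAbs_natCast] at h2
  have h2 := fr_small h.geo c hμ hν hpn (h.geo.Dy _ hpn h1)
  exact ⟨fun l hl => h2.2.1 l (Int.natAbs_dvd.mpr hl), fun l hl => h2.2.2.2 l (Int.natAbs_dvd.mpr hl)⟩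

private theorem g3_DN (h : S.H73 T M W0 δ0 δ1 Z V Cd) {P : ℕ} (hp : P.Prime) (hy : T.y0 < P) (hN : ¬ P ∣ T.N) :
    ¬ ((P : ℕ) : ℤ) ∣ (T.D : ℤ) * T.N := by
  intro hd
  have h1 : P ∣ T.D * T.N := by exact_mod_cast hd
  rcases (hp.dvd_mul).mp h1 with h2 | h2
  · have := h.geo.Dy P hp h2
    omega
  · exact hN h2

private theorem g3_pos (h : S.H73 T M W0 δ0 δ1 Z V Cd) : (0 : ℝ) < T.y0 ∧ (0 : ℝ) < T.D ∧ 1 ≤ V := by
  have h1 := h.geo.y1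
  have h2 := h.geo.D0
  exact ⟨by exact_mod_cast (by omega : 0 < T.y0), by exact_mod_cast h2, h.geo.V1⟩

private theorem g3_Wfull (h : S.H73 T M W0 δ0 δ1 Z V Cd) : M.tot = M.W * S.full M.hX M.hY ∧ 0 ≤ M.W * S.full M.hX M.hY :=
  ⟨rfl, mul_nonneg h.ok.W_pos.le (full_nonneg h.geo)⟩

private theorem g3_err (h : S.H73 T M W0 δ0 δ1 Z V Cd) : 0 ≤ M.err T δ1 := by
  unfold Msr.err
  exact mul_nonneg (Real.rpow_nonneg (Nat.cast_nonneg _) _) h.ok.W_pos.le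

private theorem g3_ub0 (h : S.H73 T M W0 δ0 δ1 Z V Cd) : 0 ≤ M.ub T V δ1 := by
  obtain ⟨h1, h2, h3⟩ := g3_pos h
  obtain ⟨h4, h5⟩ := g3_Wfull h
  have h6 := g3_err h
  unfold Msr.ub
  rw [h4]
  have : 0 ≤ 8 * V ^ 2 / (T.y0 * T.D) := by positivity
  exact add_nonneg (mul_nonneg this h5) (by positivity)

private theorem g3_ub (h : S.H73 T M W0 δ0 δ1 Z V Cd) {m c1 : ℝ} (hm : m ≤ c1 * S.full M.hX M.hY)
    (hc : c1 ≤ 8 * V ^ 2 / (T.y0 * T.D)) :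
    M.W * m + S.MX.card * S.MY.card * M.err T δ1 ≤ M.ub T V δ1 := by
  obtain ⟨h4, h5⟩ := g3_Wfull h
  unfold Msr.ub
  rw [h4]
  have h6 : M.W * m ≤ M.W * (c1 * S.full M.hX M.hY) := mul_le_mul_of_nonneg_left hm h.ok.W_pos.le
  have h7 : M.W * (c1 * S.full M.hX M.hY) = c1 * (M.W * S.full M.hX M.hY) := by ring
  have h8 := mul_le_mul_of_nonneg_right hc h5
  linarith

private theorem g3_ms (h : S.H73 T M W0 δ0 δ1 Z V Cd) {μ : S.TX} {ν : S.TY} (hμ : μ ∈ S.MX) (hν : ν ∈ S.MY) :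
    0 ≤ M.ms μ ν := by
  have hg := h.geo
  unfold Msr.ms Msr.m1
  refine mul_nonneg h.ok.W_pos.le (mul_nonneg ?_ ?_)
  · unfold MS.prX
    simp only [MS.MX, mem_product, Fintype.mem_piFinset] at hμ
    refine mul_nonneg (mul_nonneg (prod_nonneg fun i _ => ?_) (prod_nonneg fun i _ => ?_)) (prod_nonneg fun i _ => ?_)
    · exact (hg.hX0 _ (hg.wx i _ (hμ.1 i)).1).1
    · exact (hg.hX0 _ (hg.fx i _ (hμ.2.1 i)).1).1
    · exact (hg.hX0 _ (hg.ox i _ (hμ.2.2 i)).1).1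
  · unfold MS.prY
    simp only [MS.MY, mem_product, Fintype.mem_piFinset] at hν
    refine mul_nonneg (mul_nonneg (prod_nonneg fun i _ => ?_) (prod_nonneg fun i _ => ?_)) (prod_nonneg fun i _ => ?_)
    · exact (hg.hYw i _ (hν.1 i)).1
    · exact (hg.hY0 _ (hg.fy i _ (hν.2.1 i)).1).1
    · exact (hg.hY0 _ (hg.oy i _ (hν.2.2 i)).1).1

private theorem g3_mass0 : S.mass M.hX M.hY (fun _ _ => False) = 0 := by
  unfold MS.mass
  simp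

/-- `P ∣ t_i` gives `P ∣ GI i` when `P` divides none of the `a_l`, `A_l`, `l < i`, `a_i` -/
private theorem g3_GI (h : S.H73 T M W0 δ0 δ1 Z V Cd) {c : S.Col} (hc : c ∈ S.CC) (e : S.NX) {i : ℕ} (hi : i ≤ S.k)
    {μ : S.TX} {ν : S.TY} (hμ : μ ∈ S.MX) (hν : ν ∈ S.MY) {n : ℕ} (hB : M.Bs T Cd c μ ν n)
    (hl : i ≤ S.lX T.N c μ ν e) (ht : S.vX μ e ∣ S.tI T c μ ν (M.X μ ν n) i) :
    ((S.vX μ e : ℕ) : ℤ) ∣ S.GI T.N c μ ν i := by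
  obtain ⟨hcop, -, hX, -, -, -, hF⟩ := Bs_facts h hc hμ hν hB
  obtain ⟨hp, hy, -, hN, -, -, hA, -, ha, -⟩ := fr_X h.geo c hμ hν hcop e
  have hpi : Prime ((S.vX μ e : ℕ) : ℤ) := Nat.prime_iff_prime_int.mp hp
  have h1 : ((S.vX μ e : ℕ) : ℤ) ∣ S.FI T c μ ν ((M.X μ ν n : ℤ) - T.D * T.N) i :=
    (Int.natCast_dvd_natCast.mpr ht).trans (hF i (by omega)).2.2
  have h2 : ((S.vX μ e : ℕ) : ℤ) ∣ ((M.X μ ν n : ℕ) : ℤ) :=
    Int.natCast_dvd_natCast.mpr ((g3_dvd μ e).trans hX)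
  have h3 := FI_X c μ ν (by omega) hpi h2 (g3_DN h hp hy hN) h1
  rcases hpi.dvd_or_dvd h3 with h4 | h4
  · exfalso
    rw [hpi.dvd_finsetProd_iff] at h4
    obtain ⟨l, hl1, hl2⟩ := h4
    rw [mem_range] at hl1
    rcases hpi.dvd_or_dvd hl2 with h5 | h5
    · exact ha l h5
    · exact hA l (by omega) h5
  · exact (hpi.dvd_or_dvd h4).resolve_left (ha i)

theorem G3_lt (h : S.H73 T M W0 δ0 δ1 Z V Cd) {c : S.Col} (hc : c ∈ S.CC) (e : S.NX) {i g : ℕ} (hi : i < g) (hg : g ≤ S.k) :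
    M.cnt (fun μ ν n => M.Bs T Cd c μ ν n ∧ S.lX T.N c μ ν e = g ∧ S.vX μ e ∣ S.tI T c μ ν (M.X μ ν n) i) ≤ M.ub T V δ1 := by
  have hg0 := h.geo
  have h1 := cnt_le h (fun μ ν n => M.Bs T Cd c μ ν n ∧ S.lX T.N c μ ν e = g ∧ S.vX μ e ∣ S.tI T c μ ν (M.X μ ν n) i)
    (fun μ ν => S.cop μ ν ∧ T.D ∣ S.SI T.N c μ ν ∧ S.lX T.N c μ ν e = g ∧ ((S.vX μ e : ℕ) : ℤ) ∣ S.GI T.N c μ ν i)
    (fun μ hμ ν hν n _ hE => by
      obtain ⟨hB, hl, ht⟩ := hE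
      have hf := Bs_facts h hc hμ hν hB
      exact ⟨hB.1, hf.1, hf.2.1, hl, g3_GI h hc e (by omega) hμ hν hB (by omega) ht⟩)
  refine h1.trans ?_
  have h2 := S7F2 hg0 c (q := fun _ _ => T.D) (P := fun μ _ => S.vX μ e) g3_InvD (g3_Inv e) (Q := T.D) (Q1 := T.y0)
    hg0.D0 hg0.y1 hi hg
    (fun μ ν => S.cop μ ν ∧ T.D ∣ S.SI T.N c μ ν ∧ S.lX T.N c μ ν e = g ∧ ((S.vX μ e : ℕ) : ℤ) ∣ S.GI T.N c μ ν i)
    (fun μ hμ ν hν hE => by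
      obtain ⟨hcop, hD, hl, hG⟩ := hE
      obtain ⟨hp, hy, hz, hN, hlk, hA1, hA2, hB2, ha, hb⟩ := fr_X hg0 c hμ hν hcop e
      refine ⟨⟨hD, g3_copD h c hμ hν, le_rfl⟩, hp, hy.le, hG, ?_, ?_, fun l _ => ha l, fun l _ hd => ?_⟩
      · intro hgk
        have h3 := hA1 (by omega)
        rwa [hl] at h3
      · rw [hl] at hA2
        exact hA2
      · have hpi : Prime ((S.vX μ e : ℕ) : ℤ) := Nat.prime_iff_prime_int.mp hp
        rcases hpi.dvd_or_dvd hd with h3 | h3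
        · exact hb l h3
        · exact hB2 _ h3)
  refine g3_ub h h2 ?_
  have h3 := inv3 h (Nat.zero_le S.k) hg
  refine le_trans ?_ h3
  obtain ⟨hy, hD, hV⟩ := g3_pos h
  have h4 : 0 ≤ V ^ 2 * (1 / (T.D : ℝ) + 1 / Z 0) * (1 / (T.y0 : ℝ) + 1 / Z g) := by positivity
  calc V ^ 2 * (1 / (T.D : ℝ) + 1 / Z 0) * (1 / (T.y0 : ℝ) + 1 / Z g)
      ≤ 2 * (V ^ 2 * (1 / (T.D : ℝ) + 1 / Z 0) * (1 / (T.y0 : ℝ) + 1 / Z g)) := by linarith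
    _ = _ := by ring

theorem G3_eq (h : S.H73 T M W0 δ0 δ1 Z V Cd) {c : S.Col} (hc : c ∈ S.CC) (e : S.NX) {i : ℕ} (hi : i ≤ S.k) :
    M.cnt (fun μ ν n => M.Bs T Cd c μ ν n ∧ S.lX T.N c μ ν e = i ∧ S.vX μ e ∣ S.tI T c μ ν (M.X μ ν n) i) ≤ M.ub T V δ1 := by
  have hg0 := h.geo
  have h1 := cnt_le h (fun μ ν n => M.Bs T Cd c μ ν n ∧ S.lX T.N c μ ν e = i ∧ S.vX μ e ∣ S.tI T c μ ν (M.X μ ν n) i)
    (fun _ _ => False)
    (fun μ hμ ν hν n _ hE => by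
      obtain ⟨hB, hl, ht⟩ := hE
      refine ⟨hB.1, ?_⟩
      have hf := Bs_facts h hc hμ hν hB
      have hG := g3_GI h hc e hi hμ hν hB (by omega) ht
      obtain ⟨hp, hy, hz, hN, hlk, hA1, hA2, hB2, ha, hb⟩ := fr_X hg0 c hμ hν hf.1 e
      have hpi : Prime ((S.vX μ e : ℕ) : ℤ) := Nat.prime_iff_prime_int.mp hp
      rcases Nat.lt_or_ge i S.k with hik | hik
      · have h3 := hA1 (by omega)
        rw [hl] at h3
        refine G_self (n := S.k + 1) (h := i) (by omega) hpi h3 (fun l _ _ hd => ?_) hG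
        rcases hpi.dvd_or_dvd hd with h4 | h4
        · exact hb l h4
        · exact hB2 _ h4
      · have hik' : i = S.k := by omega
        rw [hik', MS.GI] at hG
        have h4 := G_top (S.AI T.N c μ ν) (S.BI T.N c μ ν) (aI μ.1) (aI ν.1) (n := S.k + 1) (by omega)
        rw [Nat.add_sub_cancel] at h4
        rw [h4] at hG
        exact hpi.not_dvd_one hG)
  refine h1.trans ?_
  rw [g3_mass0]
  refine g3_ub h (c1 := 0) (by rw [zero_mul]) ?_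
  obtain ⟨hy, hD, hV⟩ := g3_pos h
  positivity

theorem G3_gt (h : S.H73 T M W0 δ0 δ1 Z V Cd) {c : S.Col} (hc : c ∈ S.CC) (e : S.NX) {i : ℕ} (hi : i ≤ S.k) :
    M.cnt (fun μ ν n => M.Bs T Cd c μ ν n ∧ S.lX T.N c μ ν e < i ∧ ¬ S.vX μ e ∣ S.SI T.N c μ ν ∧ S.vX μ e ∣ S.tI T c μ ν (M.X μ ν n) i) ≤
      M.ub T V δ1 := by
  classical
  have hg0 := h.geo
  obtain ⟨hy0, hD0, hV⟩ := g3_pos h
  have h1 := cnt_le' h (fun μ ν n => M.Bs T Cd c μ ν n ∧ S.lX T.N c μ ν e < i ∧ ¬ S.vX μ e ∣ S.SI T.N c μ ν ∧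
      S.vX μ e ∣ S.tI T c μ ν (M.X μ ν n) i)
    (fun μ ν => S.cop μ ν ∧ T.D ∣ S.SI T.N c μ ν) (θ := 4 / T.y0) (by positivity)
    (fun μ hμ ν hν n _ hE => ⟨hE.1.1, hE.1.1.2, (Bs_facts h hc hμ hν hE.1).2.1⟩)
    (fun μ hμ ν hν ha hE' => by
      obtain ⟨hp, hy, hz, hN, hlk, hA1, hA2, hB2, ha', hb⟩ := fr_X hg0 c hμ hν hE'.1 e
      have hPL : S.vX μ e ∈ T.PL := by
        unfold Dat.PL
        rw [mem_filter, mem_range]
        exact ⟨by omega, hp, hy⟩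
      have hdv : S.vX μ e ∣ S.prX id μ * S.prY id ν := Dvd.dvd.mul_right (g3_dvd μ e) _
      have hv : ¬ S.vX μ e ∣ M.v := by
        intro hd
        have h2 := Nat.dvd_gcd hdv hd
        rw [ha.1] at h2
        exact hp.one_lt.ne' (Nat.dvd_one.mp h2)
      refine (n_cls2 h hμ hν ha hPL hdv _ (fun n n' hn hn' _ _ => ?_)).trans ?_
      · exact E_mark h hc hμ hν hp (by omega) hn.2.2.1 hv
          (Or.inl ⟨S.lX T.N c μ ν e, hn.2.1, by omega, hA1 (by have := hn.2.1; omega)⟩) hn.1 hn'.1 hn.2.2.2 hn'.2.2.2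
      · have h3 : 4 / ((S.vX μ e : ℕ) : ℝ) ≤ 4 / T.y0 := by
          apply div_le_div_of_nonneg_left (by norm_num) hy0
          exact_mod_cast hy.le
        have h4 := mul_le_mul_of_nonneg_right h3 (g3_ms h hμ hν)
        linarith)
  refine h1.trans ?_
  have h2 := S7F1 hg0 c (q := fun _ _ => T.D) g3_InvD (Q := T.D) hg0.D0
    (fun μ ν => S.cop μ ν ∧ T.D ∣ S.SI T.N c μ ν)
    (fun μ hμ ν hν hE => ⟨hE.2, g3_copD h c hμ hν, le_rfl⟩)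
  have h3 : 4 / (T.y0 : ℝ) * (M.W * S.mass M.hX M.hY (fun μ ν => S.cop μ ν ∧ T.D ∣ S.SI T.N c μ ν)) =
      M.W * (4 / T.y0 * S.mass M.hX M.hY (fun μ ν => S.cop μ ν ∧ T.D ∣ S.SI T.N c μ ν)) := by ring
  rw [h3]
  refine g3_ub h (c1 := 4 / T.y0 * (V * (1 / T.D + 1 / Z 0))) ?_ ?_
  · calc _ ≤ 4 / (T.y0 : ℝ) * (V * (1 / T.D + 1 / Z 0) * S.full M.hX M.hY) :=
          mul_le_mul_of_nonneg_left h2 (by positivity)
      _ = _ := by ring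
  · have h4 := inv2 h (Nat.zero_le S.k)
    have h5 : V * 1 ≤ V * V := mul_le_mul_of_nonneg_left hV (by linarith)
    calc 4 / (T.y0 : ℝ) * (V * (1 / T.D + 1 / Z 0)) ≤ 4 / T.y0 * (2 * V / T.D) :=
          mul_le_mul_of_nonneg_left h4 (by positivity)
      _ = 8 * (V * 1) / (T.y0 * T.D) := by field_simp; ring
      _ ≤ 8 * (V * V) / (T.y0 * T.D) := by gcongr
      _ = _ := by ring

/-- all colours together: `k + 2` cases -/
theorem G3 (h : S.H73 T M W0 δ0 δ1 Z V Cd) {c : S.Col} (hc : c ∈ S.CC) (e : S.NX) {i : ℕ} (hi : i ≤ S.k) :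
    M.cnt (fun μ ν n => M.Bs T Cd c μ ν n ∧ ¬ S.vX μ e ∣ S.SI T.N c μ ν ∧ S.vX μ e ∣ S.tI T c μ ν (M.X μ ν n) i) ≤ (S.k + 3) * M.ub T V δ1 := by
  have hg0 := h.geo
  have hub := g3_ub0 h
  have h1 := cnt_Un h (range (S.k + 2))
    (E := fun μ ν n => M.Bs T Cd c μ ν n ∧ ¬ S.vX μ e ∣ S.SI T.N c μ ν ∧ S.vX μ e ∣ S.tI T c μ ν (M.X μ ν n) i)
    (fun j μ ν n => if i < j ∧ j ≤ S.k then
        (M.Bs T Cd c μ ν n ∧ S.lX T.N c μ ν e = j ∧ S.vX μ e ∣ S.tI T c μ ν (M.X μ ν n) i)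
      else if j = i then (M.Bs T Cd c μ ν n ∧ S.lX T.N c μ ν e = i ∧ S.vX μ e ∣ S.tI T c μ ν (M.X μ ν n) i)
      else (M.Bs T Cd c μ ν n ∧ S.lX T.N c μ ν e < i ∧ ¬ S.vX μ e ∣ S.SI T.N c μ ν ∧
        S.vX μ e ∣ S.tI T c μ ν (M.X μ ν n) i))
    (fun μ hμ ν hν n _ hE => by
      obtain ⟨hB, hS, ht⟩ := hE
      have hf := Bs_facts h hc hμ hν hB
      obtain ⟨-, -, -, -, hlk, -⟩ := fr_X hg0 c hμ hν hf.1 e
      rcases Nat.lt_trichotomy (S.lX T.N c μ ν e) i with hl | hl | hl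
      · refine ⟨S.k + 1, mem_range.mpr (by omega), ?_⟩
        rw [if_neg (by omega), if_neg (by omega)]
        exact ⟨hB, hl, hS, ht⟩
      · refine ⟨i, mem_range.mpr (by omega), ?_⟩
        rw [if_neg (by omega), if_pos rfl]
        exact ⟨hB, hl, ht⟩
      · refine ⟨S.lX T.N c μ ν e, mem_range.mpr (by omega), ?_⟩
        rw [if_pos ⟨hl, hlk⟩]
        exact ⟨hB, rfl, ht⟩)
  refine h1.trans ?_
  have h2 : ∀ j ∈ range (S.k + 2), M.cnt (fun μ ν n => if i < j ∧ j ≤ S.k then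
        (M.Bs T Cd c μ ν n ∧ S.lX T.N c μ ν e = j ∧ S.vX μ e ∣ S.tI T c μ ν (M.X μ ν n) i)
      else if j = i then (M.Bs T Cd c μ ν n ∧ S.lX T.N c μ ν e = i ∧ S.vX μ e ∣ S.tI T c μ ν (M.X μ ν n) i)
      else (M.Bs T Cd c μ ν n ∧ S.lX T.N c μ ν e < i ∧ ¬ S.vX μ e ∣ S.SI T.N c μ ν ∧
        S.vX μ e ∣ S.tI T c μ ν (M.X μ ν n) i)) ≤ M.ub T V δ1 := by
    intro j _
    by_cases hj : i < j ∧ j ≤ S.k
    · simp only [if_pos hj]
      exact G3_lt h hc e hj.1 hj.2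
    · by_cases hj2 : j = i
      · simp only [if_neg hj, if_pos hj2]
        exact G3_eq h hc e hi
      · simp only [if_neg hj, if_neg hj2]
        exact G3_gt h hc e hi
  refine (sum_le_sum h2).trans ?_
  rw [sum_const, card_range, nsmul_eq_mul]
  refine mul_le_mul_of_nonneg_right ?_ hub
  push_cast
  linarith

end Pool.Agent.Lib.T3
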