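import Pool.Agent.Lib.MP_7b7e48_nt.T3.G3
import Pool.Agent.Lib.MP_7b7e48_nt.TC.S7D2

/-!
# S7D2 for `Geo3`: the marks of a pair of coprime tuples (copy of TC/S7D2)

As `TC/S7D2.lean`; the windows of `Y` are squarefree numbers with prime factors `> z` and windows of different indices are coprime: a prime which divides `aI ν.1 l` divides a window of `Y`, so it is `> z` and no mark of `X` (`cop`), no non-window mark of `Y` (these are `≤ z`).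
`fr_WY`: for a prime factor `r` of the window `j` of `Y`. `fr_DY`: for a divisor `> 1` of the window `j` of `Y`.
-/

set_option autoImplicit false

open Finset

namespace Pool.Agent.Lib.T3

open Pool.Agent.Lib.TC

variable {S : MS} {T : Dat} {Z : ℕ → ℕ} {hX hY : ℕ → ℝ} {V : ℝ}

private theorem d2_memX {μ : S.TX} (hμ : μ ∈ S.MX) :
    (∀ i, μ.1 i ∈ S.WX i) ∧ (∀ f, μ.2.1 f ∈ S.FX f) ∧ ∀ e, μ.2.2 e ∈ S.OX e := by
  rw [MS.MX, mem_product, mem_product, Fintype.mem_piFinset, Fintype.mem_piFinset, Fintype.mem_piFinset] at hμ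
  exact ⟨hμ.1, hμ.2.1, hμ.2.2⟩

private theorem d2_memY {ν : S.TY} (hν : ν ∈ S.MY) :
    (∀ i, ν.1 i ∈ S.WY i) ∧ (∀ f, ν.2.1 f ∈ S.FY f) ∧ ∀ e, ν.2.2 e ∈ S.OY e := by
  rw [MS.MY, mem_product, mem_product, Fintype.mem_piFinset, Fintype.mem_piFinset, Fintype.mem_piFinset] at hν
  exact ⟨hν.1, hν.2.1, hν.2.2⟩

private theorem d2_primeX (hG : S.Geo3 T Z hX hY V) {μ : S.TX} (hμ : μ ∈ S.MX) (e : S.NX) :
    (S.vX μ e).Prime ∧ T.y0 < S.vX μ e ∧ S.vX μ e ≤ T.z ∧ ¬ S.vX μ e ∣ T.N := by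
  obtain ⟨-, h2, h3⟩ := d2_memX hμ
  rcases e with f | e
  · exact hG.fx f _ (h2 f)
  · exact hG.ox e _ (h3 e)

private theorem d2_primeY (hG : S.Geo3 T Z hX hY V) {ν : S.TY} (hν : ν ∈ S.MY) (e : S.NY) :
    (S.vY ν e).Prime ∧ T.y0 < S.vY ν e ∧ S.vY ν e ≤ T.z ∧ ¬ S.vY ν e ∣ T.N := by
  obtain ⟨-, h2, h3⟩ := d2_memY hν
  rcases e with f | e
  · exact hG.fy f _ (h2 f)
  · exact hG.oy e _ (h3 e)

private theorem d2_Z (hG : S.Geo3 T Z hX hY V) (i : Fin (S.k + 1)) : T.y0 ≤ Z i := by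
  have h := hG.zZ i (by have := i.2; omega)
  have h1 := hG.D0
  have h2 := hG.yz
  have h3 : T.z * 1 ≤ T.z * T.D := Nat.mul_le_mul_left _ h1
  omega

private theorem d2_winX (hG : S.Geo3 T Z hX hY V) {μ : S.TX} (hμ : μ ∈ S.MX) (i : Fin (S.k + 1)) :
    (μ.1 i).Prime ∧ T.y0 < μ.1 i := by
  have h := hG.wx i _ ((d2_memX hμ).1 i)
  have h2 := d2_Z hG i
  exact ⟨h.1, by have := h.2.1; omega⟩

private theorem d2_winY (hG : S.Geo3 T Z hX hY V) {ν : S.TY} (hν : ν ∈ S.MY) (i : Fin (S.k + 1)) {r : ℕ} (hr : r.Prime)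
    (h : r ∣ ν.1 i) : T.z < r := hG.wz i _ ((d2_memY hν).1 i) r hr h

private theorem d2_one {p : ℕ} (hp : p.Prime) : ¬ ((p : ℕ) : ℤ) ∣ 1 := by
  intro h
  have h1 : ((p : ℕ) : ℤ) ∣ ((1 : ℕ) : ℤ) := by rw [Nat.cast_one]; exact h
  rw [Int.natCast_dvd_natCast, Nat.dvd_one] at h1
  exact hp.one_lt.ne' h1

private theorem d2_AI (N : ℕ) (c : S.Col) {μ : S.TX} {ν : S.TY} (hμ : ∀ e, (S.vX μ e).Prime) {p : ℕ} (hp : p.Prime) {l : ℕ}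
    (h : ((p : ℕ) : ℤ) ∣ S.AI N c μ ν l) : ∃ e, p = S.vX μ e ∧ S.lX N c μ ν e = l := by
  unfold MS.AI at h
  by_cases hl : l < S.k
  · rw [if_pos hl, Int.natCast_dvd_natCast, MS.AA, if_pos hl, hp.dvd_mul] at h
    rcases h with h | h
    · rw [MS.fX, hp.prime.dvd_finsetProd_iff] at h
      obtain ⟨f, hf, h⟩ := h
      exact ⟨Sum.inl f, (Nat.prime_dvd_prime_iff_eq hp (hμ (Sum.inl f))).1 h, (mem_filter.1 hf).2⟩
    · rw [MS.oX, hp.prime.dvd_finsetProd_iff] at h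
      obtain ⟨f, hf, h⟩ := h
      exact ⟨Sum.inr f, (Nat.prime_dvd_prime_iff_eq hp (hμ (Sum.inr f))).1 h, (mem_filter.1 hf).2⟩
  · rw [if_neg hl] at h
    exact absurd h (d2_one hp)

private theorem d2_BI (N : ℕ) (c : S.Col) {μ : S.TX} {ν : S.TY} (hν : ∀ e, (S.vY ν e).Prime) {p : ℕ} (hp : p.Prime) {l : ℕ}
    (h : ((p : ℕ) : ℤ) ∣ S.BI N c μ ν l) : ∃ e, p = S.vY ν e ∧ S.lY N c μ ν e = l := by
  unfold MS.BI at h
  by_cases hl : l < S.k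
  · rw [if_pos hl, Int.natCast_dvd_natCast, MS.BB, if_pos hl, hp.dvd_mul] at h
    rcases h with h | h
    · rw [MS.fY, hp.prime.dvd_finsetProd_iff] at h
      obtain ⟨f, hf, h⟩ := h
      exact ⟨Sum.inl f, (Nat.prime_dvd_prime_iff_eq hp (hν (Sum.inl f))).1 h, (mem_filter.1 hf).2⟩
    · rw [MS.oY, hp.prime.dvd_finsetProd_iff] at h
      obtain ⟨f, hf, h⟩ := h
      exact ⟨Sum.inr f, (Nat.prime_dvd_prime_iff_eq hp (hν (Sum.inr f))).1 h, (mem_filter.1 hf).2⟩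
  · rw [if_neg hl] at h
    exact absurd h (d2_one hp)

private theorem d2_AI_dvd (N : ℕ) (c : S.Col) (μ : S.TX) (ν : S.TY) (e : S.NX) (h : S.lX N c μ ν e < S.k) :
    ((S.vX μ e : ℕ) : ℤ) ∣ S.AI N c μ ν (S.lX N c μ ν e) := by
  unfold MS.AI
  rw [if_pos h, Int.natCast_dvd_natCast, MS.AA, if_pos h]
  rcases e with f | e
  · refine Dvd.dvd.mul_right ?_ _
    exact dvd_prod_of_mem (fun f => id (μ.2.1 f)) (mem_filter.2 ⟨mem_univ f, rfl⟩)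
  · refine Dvd.dvd.mul_left ?_ _
    exact dvd_prod_of_mem (fun e => id (μ.2.2 e)) (mem_filter.2 ⟨mem_univ e, rfl⟩)

private theorem d2_BI_dvd (N : ℕ) (c : S.Col) (μ : S.TX) (ν : S.TY) (e : S.NY) (h : S.lY N c μ ν e < S.k) :
    ((S.vY ν e : ℕ) : ℤ) ∣ S.BI N c μ ν (S.lY N c μ ν e) := by
  unfold MS.BI
  rw [if_pos h, Int.natCast_dvd_natCast, MS.BB, if_pos h]
  rcases e with f | e
  · refine Dvd.dvd.mul_right ?_ _
    exact dvd_prod_of_mem (fun f => id (ν.2.1 f)) (mem_filter.2 ⟨mem_univ f, rfl⟩)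
  · refine Dvd.dvd.mul_left ?_ _
    exact dvd_prod_of_mem (fun e => id (ν.2.2 e)) (mem_filter.2 ⟨mem_univ e, rfl⟩)

private theorem d2_vX_dvd (μ : S.TX) (e : S.NX) : S.vX μ e ∣ S.prX id μ := by
  unfold MS.prX
  rcases e with f | e
  · exact Dvd.dvd.mul_right (Dvd.dvd.mul_left (dvd_prod_of_mem (fun f => id (μ.2.1 f)) (mem_univ f)) _) _
  · exact Dvd.dvd.mul_left (dvd_prod_of_mem (fun e => id (μ.2.2 e)) (mem_univ e)) _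

private theorem d2_wX_dvd (μ : S.TX) (i : Fin (S.k + 1)) : μ.1 i ∣ S.prX id μ :=
  Dvd.dvd.mul_right (Dvd.dvd.mul_right (dvd_prod_of_mem (fun i => id (μ.1 i)) (mem_univ i)) _) _

private theorem d2_vY_dvd (ν : S.TY) (e : S.NY) : S.vY ν e ∣ S.prY id ν := by
  unfold MS.prY
  rcases e with f | e
  · exact Dvd.dvd.mul_right (Dvd.dvd.mul_left (dvd_prod_of_mem (fun f => id (ν.2.1 f)) (mem_univ f)) _) _
  · exact Dvd.dvd.mul_left (dvd_prod_of_mem (fun e => id (ν.2.2 e)) (mem_univ e)) _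

private theorem d2_wY_dvd (ν : S.TY) (i : Fin (S.k + 1)) : ν.1 i ∣ S.prY id ν :=
  Dvd.dvd.mul_right (Dvd.dvd.mul_right (dvd_prod_of_mem (fun i => id (ν.1 i)) (mem_univ i)) _) _

private theorem d2_aI {n : ℕ} {α : Fin n → ℕ} {p : ℕ} (hp : p.Prime) (hα : ∀ i, (α i).Prime) {l : ℕ}
    (h : ((p : ℕ) : ℤ) ∣ aI α l) : ∃ i : Fin n, (i : ℕ) = l ∧ p = α i := by
  unfold aI ext1 at h
  by_cases hl : l < n
  · rw [dif_pos hl, Int.natCast_dvd_natCast] at h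
    exact ⟨⟨l, hl⟩, rfl, (Nat.prime_dvd_prime_iff_eq hp (hα _)).1 h⟩
  · rw [dif_neg hl, Nat.cast_one] at h
    exact absurd h (d2_one hp)

private theorem d2_aI' {n : ℕ} {α : Fin n → ℕ} {p : ℕ} (hp : p.Prime) {l : ℕ}
    (h : ((p : ℕ) : ℤ) ∣ aI α l) : ∃ i : Fin n, (i : ℕ) = l ∧ p ∣ α i := by
  unfold aI ext1 at h
  by_cases hl : l < n
  · rw [dif_pos hl, Int.natCast_dvd_natCast] at h
    exact ⟨⟨l, hl⟩, rfl, h⟩
  · rw [dif_neg hl, Nat.cast_one] at h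
    exact absurd h (d2_one hp)

private theorem d2_cop {μ : S.TX} {ν : S.TY} (hc : S.cop μ ν) {p : ℕ} (hp : p.Prime) (h1 : p ∣ S.prX id μ) (h2 : p ∣ S.prY id ν) :
    False :=
  Nat.not_coprime_of_dvd_of_dvd hp.one_lt h1 h2 hc

private theorem d2_fr (hG : S.Geo3 T Z hX hY V) (c : S.Col) {μ : S.TX} {ν : S.TY} (hμ : μ ∈ S.MX) (hν : ν ∈ S.MY) {p : ℕ} (hp : p.Prime)
    (h1 : ∀ e, p ≠ S.vX μ e) (h2 : ∀ e, p ≠ S.vY ν e) (h3 : ∀ i, p ≠ μ.1 i) (h4 : ∀ i, ¬ p ∣ ν.1 i) : S.Fr T.N c μ ν p := by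
  refine ⟨fun l h => ?_, fun l h => ?_, fun l h => ?_, fun l h => ?_⟩
  · obtain ⟨e, he, -⟩ := d2_AI T.N c (fun e => (d2_primeX hG hμ e).1) hp h
    exact h1 e he
  · obtain ⟨e, he, -⟩ := d2_BI T.N c (fun e => (d2_primeY hG hν e).1) hp h
    exact h2 e he
  · obtain ⟨i, -, hi⟩ := d2_aI hp (fun i => (d2_winX hG hμ i).1) h
    exact h3 i hi
  · obtain ⟨i, -, hi⟩ := d2_aI' hp h
    exact h4 i hi

/-- a prime which is no mark -/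
theorem fr_of_not_dvd (hG : S.Geo3 T Z hX hY V) (c : S.Col) {μ : S.TX} {ν : S.TY} (hμ : μ ∈ S.MX) (hν : ν ∈ S.MY) {p : ℕ} (hp : p.Prime)
    (h : ¬ p ∣ S.prX id μ * S.prY id ν) : S.Fr T.N c μ ν p := by
  refine d2_fr hG c hμ hν hp (fun e he => ?_) (fun e he => ?_) (fun i hi => ?_) (fun i hi => ?_)
  · exact h (he ▸ Dvd.dvd.mul_right (d2_vX_dvd μ e) _)
  · exact h (he ▸ Dvd.dvd.mul_left (d2_vY_dvd ν e) _)
  · exact h (hi ▸ Dvd.dvd.mul_right (d2_wX_dvd μ i) _)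
  · exact h ((hi.trans (d2_wY_dvd ν i)).mul_left _)

/-- the marks are prime to `D` (and to every number whose prime factors are `≤ y0`) -/
theorem fr_small (hG : S.Geo3 T Z hX hY V) (c : S.Col) {μ : S.TX} {ν : S.TY} (hμ : μ ∈ S.MX) (hν : ν ∈ S.MY) {p : ℕ} (hp : p.Prime)
    (h : p ≤ T.y0) : S.Fr T.N c μ ν p := by
  refine d2_fr hG c hμ hν hp (fun e he => ?_) (fun e he => ?_) (fun i hi => ?_) (fun i hi => ?_)
  · have := (d2_primeX hG hμ e).2.1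
    omega
  · have := (d2_primeY hG hν e).2.1
    omega
  · have := (d2_winX hG hμ i).2
    omega
  · have := d2_winY hG hν i hp hi
    have := hG.yz
    omega

/-- a non-window mark of `X` -/
theorem fr_X (hG : S.Geo3 T Z hX hY V) (c : S.Col) {μ : S.TX} {ν : S.TY} (hμ : μ ∈ S.MX) (hν : ν ∈ S.MY) (hc : S.cop μ ν) (e : S.NX) :
    (S.vX μ e).Prime ∧ T.y0 < S.vX μ e ∧ S.vX μ e ≤ T.z ∧ ¬ S.vX μ e ∣ T.N ∧ S.lX T.N c μ ν e ≤ S.k ∧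
    (S.lX T.N c μ ν e < S.k → ((S.vX μ e : ℕ) : ℤ) ∣ S.AI T.N c μ ν (S.lX T.N c μ ν e)) ∧
    (∀ l, l ≠ S.lX T.N c μ ν e → ¬ ((S.vX μ e : ℕ) : ℤ) ∣ S.AI T.N c μ ν l) ∧ (∀ l, ¬ ((S.vX μ e : ℕ) : ℤ) ∣ S.BI T.N c μ ν l) ∧
    (∀ l, ¬ ((S.vX μ e : ℕ) : ℤ) ∣ aI μ.1 l) ∧ (∀ l, ¬ ((S.vX μ e : ℕ) : ℤ) ∣ aI ν.1 l) := by
  obtain ⟨hp, hy, hz, hN⟩ := d2_primeX hG hμ e
  have hinj := hG.ix μ hμ
  refine ⟨hp, hy, hz, hN, ?_, d2_AI_dvd T.N c μ ν e, fun l hl h => ?_, fun l h => ?_, fun l h => ?_, fun l h => ?_⟩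
  · rcases e with f | e
    · exact Nat.lt_succ_iff.1 (c (Sum.inl f)).2
    · exact Nat.lt_succ_iff.1 (S.kX T.N c μ ν e).2
  · obtain ⟨e', he', hl'⟩ := d2_AI T.N c (fun e => (d2_primeX hG hμ e).1) hp h
    have h1 : (Sum.inr e : Fin (S.k + 1) ⊕ S.NX) = Sum.inr e' := hinj he'
    rw [Sum.inr.injEq] at h1
    rw [h1] at hl
    exact hl hl'.symm
  · obtain ⟨e', he', -⟩ := d2_BI T.N c (fun e => (d2_primeY hG hν e).1) hp h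
    exact d2_cop hc hp (d2_vX_dvd μ e) (he' ▸ d2_vY_dvd ν e')
  · obtain ⟨i, -, hi⟩ := d2_aI hp (fun i => (d2_winX hG hμ i).1) h
    have h1 : (Sum.inr e : Fin (S.k + 1) ⊕ S.NX) = Sum.inl i := hinj hi
    exact absurd h1 Sum.inr_ne_inl
  · obtain ⟨i, -, hi⟩ := d2_aI' hp h
    exact d2_cop hc hp (d2_vX_dvd μ e) (hi.trans (d2_wY_dvd ν i))

/-- a non-window mark of `Y` -/
theorem fr_Y (hG : S.Geo3 T Z hX hY V) (c : S.Col) {μ : S.TX} {ν : S.TY} (hμ : μ ∈ S.MX) (hν : ν ∈ S.MY) (hc : S.cop μ ν) (e : S.NY) :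
    (S.vY ν e).Prime ∧ T.y0 < S.vY ν e ∧ S.vY ν e ≤ T.z ∧ ¬ S.vY ν e ∣ T.N ∧ S.lY T.N c μ ν e ≤ S.k ∧
    (S.lY T.N c μ ν e < S.k → ((S.vY ν e : ℕ) : ℤ) ∣ S.BI T.N c μ ν (S.lY T.N c μ ν e)) ∧
    (∀ l, l ≠ S.lY T.N c μ ν e → ¬ ((S.vY ν e : ℕ) : ℤ) ∣ S.BI T.N c μ ν l) ∧ (∀ l, ¬ ((S.vY ν e : ℕ) : ℤ) ∣ S.AI T.N c μ ν l) ∧
    (∀ l, ¬ ((S.vY ν e : ℕ) : ℤ) ∣ aI μ.1 l) ∧ (∀ l, ¬ ((S.vY ν e : ℕ) : ℤ) ∣ aI ν.1 l) := by
  obtain ⟨hp, hy, hz, hN⟩ := d2_primeY hG hν e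
  have hinj := hG.iy ν hν
  refine ⟨hp, hy, hz, hN, ?_, d2_BI_dvd T.N c μ ν e, fun l hl h => ?_, fun l h => ?_, fun l h => ?_, fun l h => ?_⟩
  · rcases e with f | e
    · exact Nat.lt_succ_iff.1 (c (Sum.inr f)).2
    · exact Nat.lt_succ_iff.1 (S.kY T.N c μ ν e).2
  · obtain ⟨e', he', hl'⟩ := d2_BI T.N c (fun e => (d2_primeY hG hν e).1) hp h
    have h1 : (Sum.inr e : Fin (S.k + 1) ⊕ S.NY) = Sum.inr e' := hinj he'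
    rw [Sum.inr.injEq] at h1
    rw [h1] at hl
    exact hl hl'.symm
  · obtain ⟨e', he', -⟩ := d2_AI T.N c (fun e => (d2_primeX hG hμ e).1) hp h
    exact d2_cop hc hp (he' ▸ d2_vX_dvd μ e') (d2_vY_dvd ν e)
  · obtain ⟨i, -, hi⟩ := d2_aI hp (fun i => (d2_winX hG hμ i).1) h
    exact d2_cop hc hp (hi ▸ d2_wX_dvd μ i) (d2_vY_dvd ν e)
  · obtain ⟨i, -, hi⟩ := d2_aI' hp h
    have := d2_winY hG hν i hp hi
    omega

/-- a window of `X` -/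
theorem fr_WX (hG : S.Geo3 T Z hX hY V) (c : S.Col) {μ : S.TX} {ν : S.TY} (hμ : μ ∈ S.MX) (hν : ν ∈ S.MY) (hc : S.cop μ ν) (j : Fin (S.k + 1)) :
    (∀ l, ¬ ((μ.1 j : ℕ) : ℤ) ∣ S.AI T.N c μ ν l) ∧ (∀ l, ¬ ((μ.1 j : ℕ) : ℤ) ∣ S.BI T.N c μ ν l) ∧
    (∀ l, l ≠ (j : ℕ) → ¬ ((μ.1 j : ℕ) : ℤ) ∣ aI μ.1 l) ∧ (∀ l, ¬ ((μ.1 j : ℕ) : ℤ) ∣ aI ν.1 l) := by
  have hp := (d2_winX hG hμ j).1
  have hinj := hG.ix μ hμ
  refine ⟨fun l h => ?_, fun l h => ?_, fun l hl h => ?_, fun l h => ?_⟩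
  · obtain ⟨e', he', -⟩ := d2_AI T.N c (fun e => (d2_primeX hG hμ e).1) hp h
    have h1 : (Sum.inl j : Fin (S.k + 1) ⊕ S.NX) = Sum.inr e' := hinj he'
    exact absurd h1 Sum.inl_ne_inr
  · obtain ⟨e', he', -⟩ := d2_BI T.N c (fun e => (d2_primeY hG hν e).1) hp h
    exact d2_cop hc hp (d2_wX_dvd μ j) (he' ▸ d2_vY_dvd ν e')
  · obtain ⟨i, hil, hi⟩ := d2_aI hp (fun i => (d2_winX hG hμ i).1) h
    have h1 : (Sum.inl j : Fin (S.k + 1) ⊕ S.NX) = Sum.inl i := hinj hi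
    rw [Sum.inl.injEq] at h1
    rw [h1] at hl
    exact hl hil.symm
  · obtain ⟨i, -, hi⟩ := d2_aI' hp h
    exact d2_cop hc hp (d2_wX_dvd μ j) (hi.trans (d2_wY_dvd ν i))

/-- a prime factor of a window of `Y` -/
theorem fr_WY (hG : S.Geo3 T Z hX hY V) (c : S.Col) {μ : S.TX} {ν : S.TY} (hμ : μ ∈ S.MX) (hν : ν ∈ S.MY) (hc : S.cop μ ν) (j : Fin (S.k + 1))
    {r : ℕ} (hp : r.Prime) (hr : r ∣ ν.1 j) :
    (∀ l, ¬ (r : ℤ) ∣ S.AI T.N c μ ν l) ∧ (∀ l, ¬ (r : ℤ) ∣ S.BI T.N c μ ν l) ∧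
    (∀ l, ¬ (r : ℤ) ∣ aI μ.1 l) ∧ (∀ l, l ≠ (j : ℕ) → ¬ (r : ℤ) ∣ aI ν.1 l) := by
  have hz := d2_winY hG hν j hp hr
  have hrY : r ∣ S.prY id ν := hr.trans (d2_wY_dvd ν j)
  refine ⟨fun l h => ?_, fun l h => ?_, fun l h => ?_, fun l hl h => ?_⟩
  · obtain ⟨e', he', -⟩ := d2_AI T.N c (fun e => (d2_primeX hG hμ e).1) hp h
    exact d2_cop hc hp (he' ▸ d2_vX_dvd μ e') hrY
  · obtain ⟨e', he', -⟩ := d2_BI T.N c (fun e => (d2_primeY hG hν e).1) hp h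
    have := (d2_primeY hG hν e').2.2.1
    omega
  · obtain ⟨i, -, hi⟩ := d2_aI hp (fun i => (d2_winX hG hμ i).1) h
    exact d2_cop hc hp (hi ▸ d2_wX_dvd μ i) hrY
  · obtain ⟨i, hil, hi⟩ := d2_aI' hp h
    have hij : i ≠ j := by
      rintro rfl
      exact hl hil.symm
    have hcop := hG.wc i j hij _ ((d2_memY hν).1 i) _ ((d2_memY hν).1 j)
    exact Nat.not_coprime_of_dvd_of_dvd hp.one_lt hi hr hcop

/-- a divisor `> 1` of a window of `Y` -/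
theorem fr_DY (hG : S.Geo3 T Z hX hY V) (c : S.Col) {μ : S.TX} {ν : S.TY} (hμ : μ ∈ S.MX) (hν : ν ∈ S.MY) (hc : S.cop μ ν) (j : Fin (S.k + 1))
    {d : ℕ} (hd : 1 < d) (hr : d ∣ ν.1 j) :
    (∀ l, ¬ (d : ℤ) ∣ S.AI T.N c μ ν l) ∧ (∀ l, ¬ (d : ℤ) ∣ S.BI T.N c μ ν l) ∧
    (∀ l, ¬ (d : ℤ) ∣ aI μ.1 l) ∧ (∀ l, l ≠ (j : ℕ) → ¬ (d : ℤ) ∣ aI ν.1 l) := by
  have hp : d.minFac.Prime := Nat.minFac_prime hd.ne'
  have hpd : ((d.minFac : ℕ) : ℤ) ∣ (d : ℤ) := Int.natCast_dvd_natCast.2 (Nat.minFac_dvd d)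
  obtain ⟨h1, h2, h3, h4⟩ := fr_WY hG c hμ hν hc j hp ((Nat.minFac_dvd d).trans hr)
  exact ⟨fun l h => h1 l (hpd.trans h), fun l h => h2 l (hpd.trans h), fun l h => h3 l (hpd.trans h),
    fun l hl h => h4 l hl (hpd.trans h)⟩

/-- a number prime to all `β_l`, `B_l` is prime to `Rs 0` -/
theorem cop_RI (c : S.Col) {μ : S.TX} {ν : S.TY} {q : ℤ} (h : ∀ p : ℤ, Prime p → p ∣ q →
    (∀ l, ¬ p ∣ S.BI T.N c μ ν l) ∧ ∀ l, ¬ p ∣ aI ν.1 l) (hq : q ≠ 0) : IsCoprime q (S.RI T.N c μ ν 0) := by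
  refine isCoprime_of_prime_dvd (fun h' => hq h'.1) fun p hp hpq hpR => ?_
  obtain ⟨h1, h2⟩ := h p hp hpq
  rw [MS.RI, Rs, hp.dvd_mul, hp.dvd_finsetProd_iff] at hpR
  rcases hpR with hpR | ⟨l, -, hl⟩
  · exact h2 0 hpR
  · rcases hp.dvd_mul.1 hl with hl | hl
    · exact h2 l hl
    · exact h1 (l - 1) hl

end Pool.Agent.Lib.T3
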