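import Pool.Agent.Lib.MP_7b7e48_nt.T3.D3
import Pool.Agent.Lib.MP_7b7e48_nt.T3.G3
import Pool.Agent.Lib.MP_7b7e48_nt.TC.S7N

/-!
# S7N: hypotheses of section 7; sums over `n` for a fixed pair of tuples

* `n_all`: `M.OK.eq` with `q = 1`, `r = 0` (`gq 1 = 1`; `n ≡ 0 [MOD 1]` always).
* `n_cls2`: if some `n₀` satisfies `E` with `Om ≠ 0` then all of them are in its class modulo `p` (if `p ∣ tau`) resp. `p ^ 2`: `eq2`.
* `n_cls1`: the same with the class modulo `p`, `p` no mark: `eq` with `q = p`: `gq p = g p ≤ 1/p + 2/p² ≤ 4/p`, unless `t2` and `p ∣ n₀`: then `eq0` with `q = 1`.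
  (`1 ≤ p ≤ z ≤ N^δ0`; `p` is prime to `W0 N`: only needed if `M.OK.eq` asks for it.)
-/

set_option autoImplicit false

open Finset

namespace Pool.Agent.Lib.T3

open Pool.Agent.Lib.TC

/-- The hypotheses of section 7. `Cd`: further conditions on `n` (such as `X` coprime to `W0 N`) -/
structure _root_.Pool.Agent.Lib.TC.MS.H73 (S : MS) (T : Dat) (M : Msr S) (W0 : ℕ) (δ0 δ1 : ℝ) (Z : ℕ → ℕ) (V : ℝ) (Cd : S.TX → S.TY → ℕ → Prop) : Prop where
  geo : S.Geo3 T Z M.hX M.hY V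
  ok : M.OK3 T W0 δ0 δ1
  z0 : (T.z : ℝ) ≤ (T.N : ℝ) ^ δ0
  d0 : 0 ≤ δ0
  w0 : ∀ p, p.Prime → p ∣ W0 → p ≤ T.y0
  cN : ∀ μ ∈ S.MX, ∀ ν ∈ S.MY, ∀ n, M.Om μ ν n ≠ 0 → Cd μ ν n → (M.X μ ν n).Coprime T.N
  yz2 : T.y0 * T.D ≤ T.z
  x0f : ∃ c' : ℤ, c'.natAbs ≤ T.y0 ∧ M.x0 = c' * (W0 ^ 2 * T.N : ℕ)
  cD : ∀ c ∈ S.CC, ∀ μ ∈ S.MX, ∀ ν ∈ S.MY, ∀ n, M.adm μ ν → M.Om μ ν n ≠ 0 → Cd μ ν n → S.LL T c μ ν (M.X μ ν n) → T.D ∣ S.SI T.N c μ ν

variable {S : MS} {T : Dat} {M : Msr S} {W0 : ℕ} {δ0 δ1 : ℝ} {Z : ℕ → ℕ} {V : ℝ} {Cd : S.TX → S.TY → ℕ → Prop}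

private theorem S7N_ms (h : S.H73 T M W0 δ0 δ1 Z V Cd) {μ : S.TX} {ν : S.TY} (hμ : μ ∈ S.MX) (hν : ν ∈ S.MY) :
    0 ≤ M.ms μ ν := by
  have hg := h.geo
  unfold Msr.ms Msr.m1
  refine mul_nonneg h.ok.W_pos.le (mul_nonneg ?_ ?_)
  · unfold MS.prX
    simp only [MS.MX, mem_product, Fintype.mem_piFinset] at hμ
    refine mul_nonneg (mul_nonneg (prod_nonneg fun i _ => ?_) (prod_nonneg fun i _ => ?_)) (prod_nonneg fun i _ => ?_)
    · exact (hg.hX0 _ (hg.wx i _ (hμ.1 i)).1).1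
    · exact (hg.hX0 _ (hg.fx i _ (hμ.2.1 i)).1).1
    · exact (hg.hX0 _ (hg.ox i _ (hμ.2.2 i)).1).1
  · unfold MS.prY
    simp only [MS.MY, mem_product, Fintype.mem_piFinset] at hν
    refine mul_nonneg (mul_nonneg (prod_nonneg fun i _ => ?_) (prod_nonneg fun i _ => ?_)) (prod_nonneg fun i _ => ?_)
    · exact (hg.hYw i _ (hν.1 i)).1
    · exact (hg.hY0 _ (hg.fy i _ (hν.2.1 i)).1).1
    · exact (hg.hY0 _ (hg.oy i _ (hν.2.2 i)).1).1

private theorem S7N_err (h : S.H73 T M W0 δ0 δ1 Z V Cd) : 0 ≤ M.err T δ1 := by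
  unfold Msr.err
  exact mul_nonneg (Real.rpow_nonneg (Nat.cast_nonneg _) _) h.ok.W_pos.le

private theorem S7N_nonneg (h : S.H73 T M W0 δ0 δ1 Z V Cd) {μ : S.TX} {ν : S.TY} (hμ : μ ∈ S.MX) (hν : ν ∈ S.MY) {x : ℝ} (hx : 0 ≤ x) :
    0 ≤ x * M.ms μ ν + M.err T δ1 :=
  add_nonneg (mul_nonneg hx (S7N_ms h hμ hν)) (S7N_err h)

theorem n_all (h : S.H73 T M W0 δ0 δ1 Z V Cd) {μ : S.TX} {ν : S.TY} (hμ : μ ∈ S.MX) (hν : ν ∈ S.MY) (ha : M.adm μ ν) :
    ∑ n ∈ range (M.nm + 1), M.Om μ ν n ≤ M.ms μ ν + M.err T δ1 := by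
  have hN : (1 : ℝ) ≤ (T.N : ℝ) := by
    have := h.geo.N2
    exact_mod_cast (by omega : 1 ≤ T.N)
  have h1 := h.ok.eq μ hμ ν hν ha 1 squarefree_one (by
    rw [Nat.cast_one]; exact Real.one_le_rpow hN h.d0) (Nat.coprime_one_left _)
    (fun p hp hp1 => absurd (Nat.dvd_one.mp hp1) hp.one_lt.ne') 0 (fun _ => Nat.coprime_one_right _)
  have h2 : M.cl μ ν 1 0 = ∑ n ∈ range (M.nm + 1), M.Om μ ν n := by
    unfold Msr.cl
    rw [filter_true_of_mem]
    intro n _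
    exact Nat.modEq_one
  have h3 : M.gq 1 = 1 := by simp [Msr.gq]
  rw [h2, h3, mul_one] at h1
  have h4 := (abs_le.mp h1).2
  unfold Msr.err
  linarith

open Classical in
theorem n_cls2 (h : S.H73 T M W0 δ0 δ1 Z V Cd) {μ : S.TX} {ν : S.TY} (hμ : μ ∈ S.MX) (hν : ν ∈ S.MY) (ha : M.adm μ ν) {p : ℕ} (hp : p ∈ T.PL)
    (hp1 : p ∣ S.prX id μ * S.prY id ν) (E : ℕ → Prop)
    (hE : ∀ n n', E n → E n' → M.Om μ ν n ≠ 0 → M.Om μ ν n' ≠ 0 → n ≡ n' [MOD (if p ∣ M.tau μ ν then p else p ^ 2)]) :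
    ∑ n ∈ range (M.nm + 1), (if E n then M.Om μ ν n else 0) ≤ 4 / p * M.ms μ ν + M.err T δ1 := by
  by_cases h0 : ∃ n0, E n0 ∧ M.Om μ ν n0 ≠ 0
  · obtain ⟨n0, hn0, hO0⟩ := h0
    have h2 := h.ok.eq2 μ hμ ν hν ha p hp hp1 n0
    have key : ∀ m : ℕ, m = (if p ∣ M.tau μ ν then p else p ^ 2) →
        ∑ n ∈ range (M.nm + 1), (if E n then M.Om μ ν n else 0) ≤ M.cl μ ν m n0 := by
      intro m hm
      unfold Msr.cl
      rw [sum_filter]
      refine sum_le_sum fun n _ => ?_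
      by_cases hn : E n
      · rw [if_pos hn]
        by_cases hO : M.Om μ ν n = 0
        · rw [hO]; split_ifs <;> exact le_rfl
        · rw [if_pos (by rw [hm]; exact hE n n0 hn hn0 hO hO0)]
      · rw [if_neg hn]
        split_ifs
        · exact h.ok.Om_nonneg μ ν n
        · exact le_rfl
    by_cases ht : p ∣ M.tau μ ν
    · have h3 := key p (by rw [if_pos ht])
      rw [if_pos ht] at h2
      exact h3.trans h2
    · have h3 := key (p ^ 2) (by rw [if_neg ht])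
      rw [if_neg ht] at h2
      exact h3.trans h2
  · push Not at h0
    have h1 : ∑ n ∈ range (M.nm + 1), (if E n then M.Om μ ν n else 0) = 0 := by
      refine sum_eq_zero fun n _ => ?_
      split_ifs with hn
      · exact h0 n hn
      · rfl
    rw [h1]
    exact S7N_nonneg h hμ hν (by positivity)

open Classical in
theorem n_cls1 (h : S.H73 T M W0 δ0 δ1 Z V Cd) {μ : S.TX} {ν : S.TY} (hμ : μ ∈ S.MX) (hν : ν ∈ S.MY) (ha : M.adm μ ν) {p : ℕ} (hp : p ∈ T.PL)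
    (hpN : ¬ p ∣ T.N) (hp1 : ¬ p ∣ S.prX id μ * S.prY id ν) (E : ℕ → Prop)
    (hE : ∀ n n', E n → E n' → M.Om μ ν n ≠ 0 → M.Om μ ν n' ≠ 0 → n ≡ n' [MOD p]) :
    ∑ n ∈ range (M.nm + 1), (if E n then M.Om μ ν n else 0) ≤ 4 / p * M.ms μ ν + M.err T δ1 := by
  have hN : (1 : ℝ) ≤ (T.N : ℝ) := by
    have := h.geo.N2
    exact_mod_cast (by omega : 1 ≤ T.N)
  have hpP : p.Prime ∧ T.y0 < p ∧ p ≤ T.z := by
    simp only [Dat.PL, mem_filter, mem_range] at hp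
    exact ⟨hp.2.1, hp.2.2, by omega⟩
  have hcopm : p.Coprime (S.prX id μ * S.prY id ν) := (Nat.Prime.coprime_iff_not_dvd hpP.1).mpr hp1
  have hms : 0 ≤ M.ms μ ν := S7N_ms h hμ hν
  by_cases h0 : ∃ n0, E n0 ∧ M.Om μ ν n0 ≠ 0
  · obtain ⟨n0, hn0, hO0⟩ := h0
    have hsub : ∀ n, E n → M.Om μ ν n ≠ 0 → n ≡ n0 [MOD p] := fun n hn hO => hE n n0 hn hn0 hO hO0
    by_cases hc : M.t2 ∧ p ∣ n0
    · have h2 := h.ok.eq0 hc.1 μ hμ ν hν ha 1 squarefree_one (by
        rw [Nat.cast_one]; exact Real.one_le_rpow hN h.d0) (Nat.coprime_one_left _)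
        (fun p hp hp1 => absurd (Nat.dvd_one.mp hp1) hp.one_lt.ne') p hp (by rwa [one_mul]) 0 (Nat.coprime_one_right _)
      have h3 : M.gq 1 = 1 := by simp [Msr.gq]
      rw [h3, mul_one] at h2
      refine le_trans ?_ h2
      rw [sum_filter]
      refine sum_le_sum fun n _ => ?_
      by_cases hn : E n
      · rw [if_pos hn]
        by_cases hO : M.Om μ ν n = 0
        · rw [hO]; split_ifs <;> exact le_rfl
        · rw [if_pos]
          refine ⟨Nat.modEq_one, ?_⟩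
          exact (Nat.modEq_zero_iff_dvd).mp ((hsub n hn hO).trans ((Nat.modEq_zero_iff_dvd).mpr hc.2))
      · rw [if_neg hn]
        split_ifs
        · exact h.ok.Om_nonneg μ ν n
        · exact le_rfl
    · have hz : (p : ℝ) ≤ (T.N : ℝ) ^ δ0 := le_trans (by exact_mod_cast hpP.2.2) h.z0
      have h1 := h.ok.eq μ hμ ν hν ha p hpP.1.squarefree hz hcopm
        (fun p' hp' hd => by
          have : p' = p := (Nat.prime_dvd_prime_iff_eq hp' hpP.1).mp hd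
          right; rw [this]; exact hpN) n0
        (fun ht => by
          have : ¬ p ∣ n0 := fun hd => hc ⟨ht, hd⟩
          exact ((Nat.Prime.coprime_iff_not_dvd hpP.1).mpr this).symm)
      have h2 := (abs_le.mp h1).2
      have hg : M.gq p = M.g p := by
        simp [Msr.gq, hpP.1.primeFactors]
      have hp0 : (0 : ℝ) < p := by exact_mod_cast hpP.1.pos
      have hp2 : (2 : ℝ) ≤ p := by exact_mod_cast hpP.1.two_le
      have hg1 := (h.ok.g_large p hpP.1 hpP.2.1).2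
      have hg2 : M.g p ≤ 4 / p := by
        have h5 := (abs_le.mp hg1).2
        have h6 : 2 / (p : ℝ) ^ 2 ≤ 1 / p := by
          rw [div_le_div_iff₀ (by positivity) hp0]
          nlinarith
        have h7 : (4 : ℝ) / p = 1 / p + 3 * (1 / p) := by ring
        have h8 : (0 : ℝ) ≤ 1 / p := by positivity
        linarith
      have h3 : ∑ n ∈ range (M.nm + 1), (if E n then M.Om μ ν n else 0) ≤ M.cl μ ν p n0 := by
        unfold Msr.cl
        rw [sum_filter]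
        refine sum_le_sum fun n _ => ?_
        by_cases hn : E n
        · rw [if_pos hn]
          by_cases hO : M.Om μ ν n = 0
          · rw [hO]; split_ifs <;> exact le_rfl
          · rw [if_pos (hsub n hn hO)]
        · rw [if_neg hn]
          split_ifs
          · exact h.ok.Om_nonneg μ ν n
          · exact le_rfl
      have h4 : M.ms μ ν * M.gq p ≤ 4 / p * M.ms μ ν := by
        rw [hg, mul_comm]
        exact mul_le_mul_of_nonneg_right hg2 hms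
      unfold Msr.err
      linarith
  · push Not at h0
    have h1 : ∑ n ∈ range (M.nm + 1), (if E n then M.Om μ ν n else 0) = 0 := by
      refine sum_eq_zero fun n _ => ?_
      split_ifs with hn
      · exact h0 n hn
      · rfl
    rw [h1]
    exact S7N_nonneg h hμ hν (by positivity)

/-- a set of triples which is contained in a set of pairs of tuples -/
theorem cnt_le (h : S.H73 T M W0 δ0 δ1 Z V Cd) (E : S.TX → S.TY → ℕ → Prop) (E' : S.TX → S.TY → Prop)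
    (hE : ∀ μ ∈ S.MX, ∀ ν ∈ S.MY, ∀ n, M.Om μ ν n ≠ 0 → E μ ν n → M.adm μ ν ∧ E' μ ν) :
    M.cnt E ≤ M.W * S.mass M.hX M.hY E' + S.MX.card * S.MY.card * M.err T δ1 := by
  classical
  unfold Msr.cnt MS.mass
  have h1 : M.W * ∑ μ ∈ S.MX, ∑ ν ∈ S.MY, (if E' μ ν then S.prX M.hX μ * S.prY M.hY ν else 0) +
      S.MX.card * S.MY.card * M.err T δ1 =
      ∑ μ ∈ S.MX, ∑ ν ∈ S.MY, ((if E' μ ν then M.ms μ ν else 0) + M.err T δ1) := by
    simp only [sum_add_distrib, sum_const, nsmul_eq_mul, mul_sum]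
    congr 1
    · refine sum_congr rfl fun μ _ => sum_congr rfl fun ν _ => ?_
      split_ifs
      · rfl
      · rw [mul_zero]
    · ring
  have h1' : (∑ μ ∈ S.MX, ∑ ν ∈ S.MY, ∑ n ∈ range (M.nm + 1), if E μ ν n then M.Om μ ν n else 0) ≤
      ∑ μ ∈ S.MX, ∑ ν ∈ S.MY, ((if E' μ ν then M.ms μ ν else 0) + M.err T δ1) := by
    refine sum_le_sum fun μ hμ => sum_le_sum fun ν hν => ?_
    by_cases h0 : ∃ n, M.Om μ ν n ≠ 0 ∧ E μ ν n
    · obtain ⟨n, hn, hEn⟩ := h0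
      have h2 := hE μ hμ ν hν n hn hEn
      rw [if_pos h2.2]
      refine le_trans (sum_le_sum fun n _ => ?_) (n_all h hμ hν h2.1)
      split_ifs
      · exact le_rfl
      · exact h.ok.Om_nonneg μ ν n
    · push Not at h0
      have h2 : (∑ n ∈ range (M.nm + 1), if E μ ν n then M.Om μ ν n else 0) = 0 := by
        refine sum_eq_zero fun n _ => ?_
        split_ifs with hn
        · by_contra hO
          exact h0 n hO hn
        · rfl
      rw [h2]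
      have h3 : 0 ≤ if E' μ ν then M.ms μ ν else 0 := by
        split_ifs
        · exact S7N_ms h hμ hν
        · exact le_rfl
      have h4 := S7N_err h
      linarith
  calc _ ≤ _ := h1'
    _ = _ := by rw [← h1]

/-- the same with a bound for the sum over `n` -/
theorem cnt_le' (h : S.H73 T M W0 δ0 δ1 Z V Cd) (E : S.TX → S.TY → ℕ → Prop) (E' : S.TX → S.TY → Prop) {θ : ℝ} (hθ : 0 ≤ θ)
    (hE : ∀ μ ∈ S.MX, ∀ ν ∈ S.MY, ∀ n, M.Om μ ν n ≠ 0 → E μ ν n → M.adm μ ν ∧ E' μ ν)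
    (hn : ∀ μ ∈ S.MX, ∀ ν ∈ S.MY, M.adm μ ν → E' μ ν → (open Classical in ∑ n ∈ range (M.nm + 1), (if E μ ν n then M.Om μ ν n else 0)) ≤ θ * M.ms μ ν + M.err T δ1) :
    M.cnt E ≤ θ * (M.W * S.mass M.hX M.hY E') + S.MX.card * S.MY.card * M.err T δ1 := by
  classical
  unfold Msr.cnt MS.mass
  have h1 : θ * (M.W * ∑ μ ∈ S.MX, ∑ ν ∈ S.MY, (if E' μ ν then S.prX M.hX μ * S.prY M.hY ν else 0)) +
      S.MX.card * S.MY.card * M.err T δ1 =
      ∑ μ ∈ S.MX, ∑ ν ∈ S.MY, ((if E' μ ν then θ * M.ms μ ν else 0) + M.err T δ1) := by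
    simp only [sum_add_distrib, sum_const, nsmul_eq_mul, mul_sum]
    congr 1
    · refine sum_congr rfl fun μ _ => sum_congr rfl fun ν _ => ?_
      split_ifs
      · rfl
      · rw [mul_zero, mul_zero]
    · ring
  have h1' : (∑ μ ∈ S.MX, ∑ ν ∈ S.MY, ∑ n ∈ range (M.nm + 1), if E μ ν n then M.Om μ ν n else 0) ≤
      ∑ μ ∈ S.MX, ∑ ν ∈ S.MY, ((if E' μ ν then θ * M.ms μ ν else 0) + M.err T δ1) := by
    refine sum_le_sum fun μ hμ => sum_le_sum fun ν hν => ?_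
    by_cases h0 : ∃ n, M.Om μ ν n ≠ 0 ∧ E μ ν n
    · obtain ⟨n, hn', hEn⟩ := h0
      have h2 := hE μ hμ ν hν n hn' hEn
      rw [if_pos h2.2]
      refine le_trans (le_of_eq ?_) (hn μ hμ ν hν h2.1 h2.2)
      refine sum_congr rfl fun n _ => ?_
      split_ifs <;> rfl
    · push Not at h0
      have h2 : (∑ n ∈ range (M.nm + 1), if E μ ν n then M.Om μ ν n else 0) = 0 := by
        refine sum_eq_zero fun n _ => ?_
        split_ifs with hn'
        · by_contra hO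
          exact h0 n hO hn'
        · rfl
      rw [h2]
      have h3 : 0 ≤ if E' μ ν then θ * M.ms μ ν else 0 := by
        split_ifs
        · exact mul_nonneg hθ (S7N_ms h hμ hν)
        · exact le_rfl
      have h4 := S7N_err h
      linarith
  calc _ ≤ _ := h1'
    _ = _ := by rw [← h1]

end Pool.Agent.Lib.T3
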