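import Pool.Agent.Lib.MP_7b7e48_nt.T3.D3
import Pool.Agent.Lib.MP_7b7e48_nt.T3.G3
import Pool.Agent.Lib.MP_7b7e48_nt.TC.S7G0
import Pool.Agent.Lib.MP_7b7e48_nt.T3.S7N
import Pool.Agent.Lib.MP_7b7e48_nt.T3.S7D2

/-!
# S7G0: the standard bound, basic facts about `Bs`

`ub = 8 V²/(y0 D) tot + |MX| |MY| err`. Since `Z i ≥ z D ≥ y0 D`: `1/Z i ≤ 1/(y0 D) ≤ 1/y0, 1/D`. So
* `V (1/(y0 D) + 1/Z i) ≤ 8 V²/(y0 D)` (`inv1`), `V (1/D + 1/Z i) ≤ 2 V/D` (`inv2`), `2 V² (1/D + 1/Z i) (1/y0 + 1/Z j) ≤ 8 V²/(y0 D)` (`inv3`).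
* `Bs_facts`: `Bs` gives `cop`, `D ∣ SI` (`cD`), the divisibilities `μ ∣ X`, `ν ∣ X - D N`, `D N < X` (`ok`), and by `tI_facts`: for every `i < k + 1`: every divisor of `tI i` divides `FI (X - D N) i`;
  `tI i > 0`, `tI i ≤ N`.
-/

set_option autoImplicit false

open Finset

namespace Pool.Agent.Lib.T3

open Pool.Agent.Lib.TC

variable {S : MS} {T : Dat} {M : Msr S} {W0 : ℕ} {δ0 δ1 : ℝ} {Z : ℕ → ℕ} {V : ℝ} {Cd : S.TX → S.TY → ℕ → Prop}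

theorem inv0 (h : S.H73 T M W0 δ0 δ1 Z V Cd) {i : ℕ} (hi : i ≤ S.k) : 0 < Z i ∧ 1 / (Z i : ℝ) ≤ 1 / (T.y0 * T.D) := by
  have hg := h.geo
  have h1 : T.y0 * T.D ≤ Z i := le_trans (Nat.mul_le_mul_right _ hg.yz) (hg.zZ i hi)
  have h2 : 0 < T.y0 * T.D := Nat.mul_pos hg.y1 hg.D0
  refine ⟨lt_of_lt_of_le h2 h1, ?_⟩
  have h3 : (0 : ℝ) < (T.y0 : ℝ) * T.D := by exact_mod_cast h2
  have h4 : (T.y0 : ℝ) * T.D ≤ Z i := by exact_mod_cast h1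
  exact one_div_le_one_div_of_le h3 h4

theorem inv1 (h : S.H73 T M W0 δ0 δ1 Z V Cd) {i : ℕ} (hi : i ≤ S.k) : V * (1 / ((T.y0 * T.D : ℕ) : ℝ) + 1 / Z i) ≤ 8 * V ^ 2 / (T.y0 * T.D) := by
  have hg := h.geo
  obtain ⟨_, h1⟩ := inv0 h hi
  have hV := hg.V1
  have h2 : (0 : ℝ) < (T.y0 : ℝ) * T.D := by
    have := Nat.mul_pos hg.y1 hg.D0
    exact_mod_cast this
  push_cast
  have h3 : V * (1 / ((T.y0 : ℝ) * T.D) + 1 / Z i) ≤ V * (2 * (1 / ((T.y0 : ℝ) * T.D))) :=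
    mul_le_mul_of_nonneg_left (by linarith) (by linarith)
  refine h3.trans ?_
  have h4 : 8 * V ^ 2 / ((T.y0 : ℝ) * T.D) = 8 * V ^ 2 * (1 / ((T.y0 : ℝ) * T.D)) := by ring
  rw [h4, ← mul_assoc]
  refine mul_le_mul_of_nonneg_right ?_ (by positivity)
  nlinarith

theorem inv2 (h : S.H73 T M W0 δ0 δ1 Z V Cd) {i : ℕ} (hi : i ≤ S.k) : V * (1 / (T.D : ℝ) + 1 / Z i) ≤ 2 * V / T.D := by
  have hg := h.geo
  obtain ⟨_, h1⟩ := inv0 h hi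
  have hV := hg.V1
  have hD : (0 : ℝ) < T.D := by exact_mod_cast hg.D0
  have hy : (1 : ℝ) ≤ T.y0 := by exact_mod_cast hg.y1
  have h2 : 1 / ((T.y0 : ℝ) * T.D) ≤ 1 / T.D := by
    refine one_div_le_one_div_of_le hD ?_
    nlinarith
  have h3 : 2 * V / T.D = V * (1 / (T.D : ℝ) + 1 / T.D) := by ring
  rw [h3]
  exact mul_le_mul_of_nonneg_left (by linarith) (by linarith)

theorem inv3 (h : S.H73 T M W0 δ0 δ1 Z V Cd) {i j : ℕ} (hi : i ≤ S.k) (hj : j ≤ S.k) :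
    2 * V ^ 2 * (1 / (T.D : ℝ) + 1 / Z i) * (1 / (T.y0 : ℝ) + 1 / Z j) ≤ 8 * V ^ 2 / (T.y0 * T.D) := by
  have hg := h.geo
  obtain ⟨hzi, h1⟩ := inv0 h hi
  obtain ⟨hzj, h1'⟩ := inv0 h hj
  have hV := hg.V1
  have hD : (0 : ℝ) < T.D := by exact_mod_cast hg.D0
  have hD1 : (1 : ℝ) ≤ T.D := by exact_mod_cast hg.D0
  have hy : (1 : ℝ) ≤ T.y0 := by exact_mod_cast hg.y1
  have hy0 : (0 : ℝ) < T.y0 := by linarith
  have h2 : 1 / ((T.y0 : ℝ) * T.D) ≤ 1 / T.D := by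
    refine one_div_le_one_div_of_le hD ?_
    nlinarith
  have h2' : 1 / ((T.y0 : ℝ) * T.D) ≤ 1 / T.y0 := by
    refine one_div_le_one_div_of_le hy0 ?_
    nlinarith
  have h3 : 8 * V ^ 2 / ((T.y0 : ℝ) * T.D) = 2 * V ^ 2 * (2 * (1 / T.D)) * (2 * (1 / T.y0)) := by
    field_simp
    ring
  rw [h3]
  have e1 : 2 * V ^ 2 * (1 / (T.D : ℝ) + 1 / Z i) ≤ 2 * V ^ 2 * (2 * (1 / T.D)) :=
    mul_le_mul_of_nonneg_left (by linarith) (by positivity)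
  have e2 : 1 / (T.y0 : ℝ) + 1 / Z j ≤ 2 * (1 / T.y0) := by linarith
  exact mul_le_mul e1 e2 (by positivity) (by positivity)

theorem Bs_facts (h : S.H73 T M W0 δ0 δ1 Z V Cd) {c : S.Col} (hc : c ∈ S.CC) {μ : S.TX} {ν : S.TY} (hμ : μ ∈ S.MX) (hν : ν ∈ S.MY) {n : ℕ}
    (hB : M.Bs T Cd c μ ν n) : S.cop μ ν ∧ T.D ∣ S.SI T.N c μ ν ∧ S.prX id μ ∣ M.X μ ν n ∧ S.prY id ν ∣ M.X μ ν n - T.D * T.N ∧
      T.D * T.N < M.X μ ν n ∧ (M.X μ ν n).Coprime T.N ∧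
      ∀ i < S.k + 1, 0 < S.tI T c μ ν (M.X μ ν n) i ∧ S.tI T c μ ν (M.X μ ν n) i ≤ T.N ∧
        ((S.tI T c μ ν (M.X μ ν n) i : ℕ) : ℤ) ∣ S.FI T c μ ν ((M.X μ ν n : ℤ) - T.D * T.N) i := by
  have hg := h.geo
  obtain ⟨ha, hO, hC, hLL⟩ := hB
  have hcop : S.cop μ ν := ha.2
  have hD := h.cD c hc μ hμ ν hν n ha hO hC hLL
  have hX := h.ok.X_dvd μ ν n hO
  have hY := h.ok.Y_dvd μ ν n hO
  have hpos := h.ok.Y_pos μ ν n hO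
  have hbig := h.ok.X_big μ ν n hO
  obtain ⟨e, t, hcyc, _, _, _, _, hform⟩ := tI_facts hg hc hμ hν hcop hX hY hpos hbig hD
  refine ⟨hcop, hD, hX, hY, hpos, h.cN μ hμ ν hν n hO hC, ?_⟩
  intro i hi
  obtain ⟨h1, h2⟩ := hform i hi
  rw [h1]
  refine ⟨hcyc.t0 i hi, ?_, ?_⟩
  · have hE := hcyc.E i hi
    have hb : 0 < ext1 ν.1 i := by
      have := (vec_pos hg c hμ hν).2.2.2.1 i
      unfold aI at this
      exact_mod_cast this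
    calc t i = t i * 1 := (mul_one _).symm
      _ ≤ t i * ext1 ν.1 i := Nat.mul_le_mul_left _ hb
      _ ≤ e i * S.AA T.N c μ ν (M.X μ ν n) i + t i * ext1 ν.1 i := Nat.le_add_left _ _
      _ = T.N := hE
  · rw [h2]
    exact Dvd.intro_left _ rfl

/-- `cnt` of a finite union -/
theorem cnt_Un (h : S.H73 T M W0 δ0 δ1 Z V Cd) {ι : Type*} (s : Finset ι) {E : S.TX → S.TY → ℕ → Prop} (E' : ι → S.TX → S.TY → ℕ → Prop)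
    (hE : ∀ μ ∈ S.MX, ∀ ν ∈ S.MY, ∀ n, M.Om μ ν n ≠ 0 → E μ ν n → ∃ i ∈ s, E' i μ ν n) : M.cnt E ≤ ∑ i ∈ s, M.cnt (E' i) := by
  classical
  unfold Msr.cnt
  have h1 : ∑ i ∈ s, ∑ μ ∈ S.MX, ∑ ν ∈ S.MY, ∑ n ∈ range (M.nm + 1), (if E' i μ ν n then M.Om μ ν n else 0) =
      ∑ μ ∈ S.MX, ∑ ν ∈ S.MY, ∑ n ∈ range (M.nm + 1), ∑ i ∈ s, (if E' i μ ν n then M.Om μ ν n else 0) := by
    rw [sum_comm]
    refine sum_congr rfl fun μ _ => ?_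
    rw [sum_comm]
    refine sum_congr rfl fun ν _ => ?_
    rw [sum_comm]
  have h2 : ∑ μ ∈ S.MX, ∑ ν ∈ S.MY, ∑ n ∈ range (M.nm + 1), (if E μ ν n then M.Om μ ν n else 0) ≤
      ∑ μ ∈ S.MX, ∑ ν ∈ S.MY, ∑ n ∈ range (M.nm + 1), ∑ i ∈ s, (if E' i μ ν n then M.Om μ ν n else 0) := by
    refine sum_le_sum fun μ hμ => sum_le_sum fun ν hν => sum_le_sum fun n _ => ?_
    have hnn : ∀ i ∈ s, 0 ≤ if E' i μ ν n then M.Om μ ν n else 0 := fun i _ => by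
      split_ifs
      · exact h.ok.Om_nonneg μ ν n
      · exact le_rfl
    by_cases hEn : E μ ν n
    · rw [if_pos hEn]
      by_cases hO : M.Om μ ν n = 0
      · rw [hO]; exact sum_nonneg fun i _ => by split_ifs <;> exact le_rfl
      · obtain ⟨i, hi, hEi⟩ := hE μ hμ ν hν n hO hEn
        refine le_trans (le_of_eq ?_) (single_le_sum hnn hi)
        rw [if_pos hEi]
    · rw [if_neg hEn]
      exact sum_nonneg hnn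
  calc _ ≤ _ := h2
    _ = _ := by rw [← h1]

end Pool.Agent.Lib.T3
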