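import Pool.Agent.Lib.MP_7b7e48_nt.T3.S7G0
import Pool.Agent.Lib.MP_7b7e48_nt.T3.S7F2

/-!
# S7G5: a prime `p` divides `v` and `t_i`; a prime `p ∣ S` divides `t_i`

* `G5_v`: `p ∣ v`, `y0 < p`: `p` is no mark (`adm`), `p ∤ N` (`v_cop`), `p ∤ D`. `X = v τ n + x0 ≡ x0` (`X_eq`), `x0 = c' W0² N`, `|c'| ≤ y0 < p` (`x0_form`). `p ∣ FI (X - D N) i` (`Bs_facts`).
  `c' ≠ 0`: `p ∤ x0` (`p ∤ W0` by `w0`); `p ∣ FI (x0 - D N) i` (`FI_congr`), `p ∤ (x0 - D N + D N) RI 0`: `S7F1X` with `Y0 = x0 - D N`, `P = p`, `q = D`, `Q = y0 * D`; `inv1`.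
  `c' = 0`: `p ∣ X`: `FI_X`: `p ∣ (∏_{l<i} a_l A_l)(a_i GI i)`, `p ∣ GI i` (`fr_of_not_dvd`); `i = k`: `G_top`, impossible; `i < k`: `S7F2` with `h = k`, `q = D`, `Q1 = y0`; `inv3`.
* `G5_L`: `p ∤ N`, `p` no mark, `y0 < p ≤ z`, `p ∣ SI`, `p ∣ tI i`: `p ∣ FI (X - DN) i = D N UI i RI i - Y SI`, so `p ∣ UI i RI i`, and `UI i RI i + SI = (∏_{l<i} a_l A_l) a_i GI i` (`U_G`, `SI_eq`): `p ∣ GI i`. `i = k`: `G_top`, impossible. `i < k`: `S7F2` with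
  `h = k`, `q = D p`, `Q = p D`, `P = p`, `Q1 = p`: mass `≤ V² (1/(pD) + 1/Z 0)(1/p + 1/Z k) full`, and `1/Z i ≤ 1/(z D) ≤ 1/(p D)`: `≤ 4 V²/(p² D)`.
-/

set_option autoImplicit false

open Finset

namespace Pool.Agent.Lib.T3

open Pool.Agent.Lib.TC

variable {S : MS} {T : Dat} {M : Msr S} {W0 : ℕ} {δ0 δ1 : ℝ} {Z : ℕ → ℕ} {V : ℝ} {Cd : S.TX → S.TY → ℕ → Prop}

private theorem g5_Invc (m : ℕ) : S.Inv (fun _ _ => m) := fun _ _ _ _ _ _ => rfl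

private theorem g5_copD (h : S.H73 T M W0 δ0 δ1 Z V Cd) (c : S.Col) {μ : S.TX} {ν : S.TY} (hμ : μ ∈ S.MX) (hν : ν ∈ S.MY) :
    IsCoprime ((T.D : ℕ) : ℤ) (S.RI T.N c μ ν 0) := by
  refine cop_RI c (fun p hp hpD => ?_) (by have := h.geo.D0; exact_mod_cast this.ne')
  have hpn : p.natAbs.Prime := Int.prime_iff_natAbs_prime.mp hp
  have h1 : p.natAbs ∣ T.D := by
    have h2 := Int.natAbs_dvd_natAbs.mpr hpD
    rwa [Int.natAbs_natCast] at h2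
  have h2 := fr_small h.geo c hμ hν hpn (h.geo.Dy _ hpn h1)
  exact ⟨fun l hl => h2.2.1 l (Int.natAbs_dvd.mpr hl), fun l hl => h2.2.2.2 l (Int.natAbs_dvd.mpr hl)⟩

private theorem g5_D (h : S.H73 T M W0 δ0 δ1 Z V Cd) {P : ℕ} (hp : P.Prime) (hy : T.y0 < P) : ¬ P ∣ T.D := by
  intro h2
  have := h.geo.Dy P hp h2
  omega

private theorem g5_DN (h : S.H73 T M W0 δ0 δ1 Z V Cd) {P : ℕ} (hp : P.Prime) (hy : T.y0 < P) (hN : ¬ P ∣ T.N) :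
    ¬ ((P : ℕ) : ℤ) ∣ (T.D : ℤ) * T.N := by
  intro hd
  have h1 : P ∣ T.D * T.N := by exact_mod_cast hd
  rcases (hp.dvd_mul).mp h1 with h2 | h2
  · exact g5_D h hp hy h2
  · exact hN h2

private theorem g5_pos (h : S.H73 T M W0 δ0 δ1 Z V Cd) : (0 : ℝ) < T.y0 ∧ (0 : ℝ) < T.D ∧ 1 ≤ V := by
  have h1 := h.geo.y1
  have h2 := h.geo.D0
  exact ⟨by exact_mod_cast (by omega : 0 < T.y0), by exact_mod_cast h2, h.geo.V1⟩

private theorem g5_Wfull (h : S.H73 T M W0 δ0 δ1 Z V Cd) : M.tot = M.W * S.full M.hX M.hY ∧ 0 ≤ M.W * S.full M.hX M.hY :=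
  ⟨rfl, mul_nonneg h.ok.W_pos.le (full_nonneg h.geo)⟩

private theorem g5_ub1 (h : S.H73 T M W0 δ0 δ1 Z V Cd) {m c1 c2 : ℝ} (hm : m ≤ c1 * S.full M.hX M.hY)
    (hc : c1 ≤ c2) :
    M.W * m + S.MX.card * S.MY.card * M.err T δ1 ≤ c2 * M.tot + S.MX.card * S.MY.card * M.err T δ1 := by
  obtain ⟨h4, h5⟩ := g5_Wfull h
  rw [h4]
  have h6 : M.W * m ≤ M.W * (c1 * S.full M.hX M.hY) := mul_le_mul_of_nonneg_left hm h.ok.W_pos.le
  have h7 : M.W * (c1 * S.full M.hX M.hY) = c1 * (M.W * S.full M.hX M.hY) := by ring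
  have h8 := mul_le_mul_of_nonneg_right hc h5
  linarith

private theorem g5_ub (h : S.H73 T M W0 δ0 δ1 Z V Cd) {m c1 : ℝ} (hm : m ≤ c1 * S.full M.hX M.hY)
    (hc : c1 ≤ 8 * V ^ 2 / (T.y0 * T.D)) :
    M.W * m + S.MX.card * S.MY.card * M.err T δ1 ≤ M.ub T V δ1 := by
  unfold Msr.ub
  exact g5_ub1 h hm hc

private theorem g5_mass0 : S.mass M.hX M.hY (fun _ _ => False) = 0 := by
  unfold MS.mass
  simp

private theorem g5_RI (c : S.Col) {μ : S.TX} {ν : S.TY} {p : ℤ} (hp : Prime p) (hF : S.Fr T.N c μ ν p) (i : ℕ) :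
    ¬ p ∣ S.RI T.N c μ ν i := by
  intro hd
  rw [MS.RI, Rs] at hd
  rcases hp.dvd_or_dvd hd with h4 | h4
  · exact hF.2.2.2 i h4
  · rw [hp.dvd_finsetProd_iff] at h4
    obtain ⟨l, hl1, hl2⟩ := h4
    rcases hp.dvd_or_dvd hl2 with h5 | h5
    · exact hF.2.2.2 l h5
    · exact hF.2.1 (l - 1) h5

private theorem g5_G (c : S.Col) {μ : S.TX} {ν : S.TY} {p : ℤ} (hp : Prime p) (hF : S.Fr T.N c μ ν p) {i : ℕ}
    (hd : p ∣ (∏ l ∈ range i, aI μ.1 l * S.AI T.N c μ ν l) * (aI μ.1 i * S.GI T.N c μ ν i)) :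
    p ∣ S.GI T.N c μ ν i := by
  rcases hp.dvd_or_dvd hd with h4 | h4
  · exfalso
    rw [hp.dvd_finsetProd_iff] at h4
    obtain ⟨l, hl1, hl2⟩ := h4
    rcases hp.dvd_or_dvd hl2 with h5 | h5
    · exact hF.2.2.1 l h5
    · exact hF.1 l h5
  · exact (hp.dvd_or_dvd h4).resolve_left (hF.2.2.1 i)

private theorem g5_Gk (c : S.Col) {μ : S.TX} {ν : S.TY} {p : ℤ} (hp : Prime p) : ¬ p ∣ S.GI T.N c μ ν S.k := by
  intro hG
  rw [MS.GI] at hG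
  have h4 := G_top (S.AI T.N c μ ν) (S.BI T.N c μ ν) (aI μ.1) (aI ν.1) (n := S.k + 1) (by omega)
  rw [Nat.add_sub_cancel] at h4
  rw [h4] at hG
  exact hp.not_dvd_one hG

/-- the mass of the pairs with `q ∣ SI`, `p ∣ GI i` -/
private theorem g5_mass (h : S.H73 T M W0 δ0 δ1 Z V Cd) (c : S.Col) {p q Q1 : ℕ} (hp : p.Prime) (hq : 0 < q) (hQ1 : 0 < Q1)
    (hQp : Q1 ≤ p) {i : ℕ} (hi : i < S.k)
    (hqR : ∀ μ ∈ S.MX, ∀ ν ∈ S.MY, ¬ p ∣ S.prX id μ * S.prY id ν → IsCoprime ((q : ℕ) : ℤ) (S.RI T.N c μ ν 0)) :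
    S.mass M.hX M.hY (fun μ ν => ¬ p ∣ S.prX id μ * S.prY id ν ∧ q ∣ S.SI T.N c μ ν ∧ ((p : ℕ) : ℤ) ∣ S.GI T.N c μ ν i) ≤
      V ^ 2 * (1 / q + 1 / Z 0) * (1 / Q1 + 1 / Z S.k) * S.full M.hX M.hY := by
  refine S7F2 h.geo c (q := fun _ _ => q) (P := fun _ _ => p) (g5_Invc q) (g5_Invc p) hq hQ1 hi le_rfl _
    (fun μ hμ ν hν hE => ?_)
  obtain ⟨hm, hS, hG⟩ := hE
  have hF := fr_of_not_dvd h.geo c hμ hν hp hm
  have hpi : Prime ((p : ℕ) : ℤ) := Nat.prime_iff_prime_int.mp hp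
  refine ⟨⟨hS, hqR μ hμ ν hν hm, le_rfl⟩, hp, hQp, hG, fun hk => absurd hk (lt_irrefl _), fun l _ => hF.1 l,
    fun l _ => hF.2.2.1 l, fun l _ hd => ?_⟩
  rcases hpi.dvd_or_dvd hd with h3 | h3
  · exact hF.2.2.2 l h3
  · exact hF.2.1 _ h3

theorem G5_v (h : S.H73 T M W0 δ0 δ1 Z V Cd) {c : S.Col} (hc : c ∈ S.CC) {p : ℕ} (hp : p.Prime) (hy : T.y0 < p) (hv : p ∣ M.v) {i : ℕ} (hi : i ≤ S.k) :
    M.cnt (fun μ ν n => M.Bs T Cd c μ ν n ∧ p ∣ S.tI T c μ ν (M.X μ ν n) i) ≤ M.ub T V δ1 := by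
  have hg0 := h.geo
  obtain ⟨hy0, hD0, hV⟩ := g5_pos h
  have hpi : Prime ((p : ℕ) : ℤ) := Nat.prime_iff_prime_int.mp hp
  have hWN : ¬ p ∣ W0 * T.N := by
    intro hd
    have h2 := Nat.dvd_gcd hv hd
    rw [h.ok.v_cop] at h2
    exact hp.one_lt.ne' (Nat.dvd_one.mp h2)
  have hN : ¬ p ∣ T.N := fun hd => hWN (Dvd.dvd.mul_left hd _)
  have hW : ¬ p ∣ W0 := fun hd => hWN (Dvd.dvd.mul_right hd _)
  have hm : ∀ μ ν, M.adm μ ν → ¬ p ∣ S.prX id μ * S.prY id ν := by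
    intro μ ν ha hd
    have h2 := Nat.dvd_gcd hd hv
    rw [ha.1] at h2
    exact hp.one_lt.ne' (Nat.dvd_one.mp h2)
  have hXx : ∀ μ ν n, M.Om μ ν n ≠ 0 → ((p : ℕ) : ℤ) ∣ (M.X μ ν n : ℤ) - M.x0 := by
    intro μ ν n hO
    rw [h.ok.X_eq μ ν n hO]
    have h2 : ((p : ℕ) : ℤ) ∣ ((M.v : ℕ) : ℤ) := Int.natCast_dvd_natCast.mpr hv
    have h3 : (M.v : ℤ) * M.tau μ ν * n + M.x0 - M.x0 = M.v * (M.tau μ ν * n) := by ring
    rw [h3]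
    exact Dvd.dvd.mul_right h2 _
  obtain ⟨c', hc', hx0⟩ := h.x0f
  by_cases hc0 : c' = 0
  · have hx : M.x0 = 0 := by rw [hx0, hc0, zero_mul]
    have hGI : ∀ μ ∈ S.MX, ∀ ν ∈ S.MY, ∀ n, M.Om μ ν n ≠ 0 →
        (M.Bs T Cd c μ ν n ∧ p ∣ S.tI T c μ ν (M.X μ ν n) i) → ((p : ℕ) : ℤ) ∣ S.GI T.N c μ ν i := by
      intro μ hμ ν hν n hO hE
      obtain ⟨hB, ht⟩ := hE
      obtain ⟨hcop, -, -, -, -, -, hF⟩ := Bs_facts h hc hμ hν hB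
      have hFr := fr_of_not_dvd hg0 c hμ hν hp (hm μ ν hB.1)
      have h1 : ((p : ℕ) : ℤ) ∣ S.FI T c μ ν ((M.X μ ν n : ℤ) - T.D * T.N) i :=
        (Int.natCast_dvd_natCast.mpr ht).trans (hF i (by omega)).2.2
      have h2 := hXx μ ν n hO
      rw [hx, sub_zero] at h2
      exact g5_G c hpi hFr (FI_X c μ ν (by omega) hpi h2 (g5_DN h hp hy hN) h1)
    rcases Nat.lt_or_ge i S.k with hik | hik
    · have h1 := cnt_le h (fun μ ν n => M.Bs T Cd c μ ν n ∧ p ∣ S.tI T c μ ν (M.X μ ν n) i)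
        (fun μ ν => ¬ p ∣ S.prX id μ * S.prY id ν ∧ T.D ∣ S.SI T.N c μ ν ∧ ((p : ℕ) : ℤ) ∣ S.GI T.N c μ ν i)
        (fun μ hμ ν hν n hO hE => ⟨hE.1.1, hm μ ν hE.1.1, (Bs_facts h hc hμ hν hE.1).2.1, hGI μ hμ ν hν n hO hE⟩)
      refine h1.trans ?_
      have h2 := g5_mass h c (q := T.D) (Q1 := T.y0) hp hg0.D0 hg0.y1 hy.le hik (fun μ hμ ν hν _ => g5_copD h c hμ hν)
      refine g5_ub h h2 ?_
      have h3 := inv3 h (Nat.zero_le S.k) (le_refl S.k)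
      refine le_trans ?_ h3
      have h4 : 0 ≤ V ^ 2 * (1 / (T.D : ℝ) + 1 / Z 0) * (1 / (T.y0 : ℝ) + 1 / Z S.k) := by positivity
      calc V ^ 2 * (1 / (T.D : ℝ) + 1 / Z 0) * (1 / (T.y0 : ℝ) + 1 / Z S.k)
          ≤ 2 * (V ^ 2 * (1 / (T.D : ℝ) + 1 / Z 0) * (1 / (T.y0 : ℝ) + 1 / Z S.k)) := by linarith
        _ = _ := by ring
    · have hik' : i = S.k := by omega
      have h1 := cnt_le h (fun μ ν n => M.Bs T Cd c μ ν n ∧ p ∣ S.tI T c μ ν (M.X μ ν n) i) (fun _ _ => False)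
        (fun μ hμ ν hν n hO hE => ⟨hE.1.1, by
          have h2 := hGI μ hμ ν hν n hO hE
          rw [hik'] at h2
          exact g5_Gk c hpi h2⟩)
      refine h1.trans ?_
      rw [g5_mass0]
      refine g5_ub h (c1 := 0) (by rw [zero_mul]) ?_
      positivity
  · have hpx : ¬ ((p : ℕ) : ℤ) ∣ M.x0 := by
      rw [hx0]
      intro hd
      rcases hpi.dvd_or_dvd hd with h2 | h2
      · have h3 : p ∣ c'.natAbs := by
          have := Int.natAbs_dvd_natAbs.mpr h2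
          rwa [Int.natAbs_natCast] at this
        have h4 := Nat.le_of_dvd (Int.natAbs_pos.mpr hc0) h3
        omega
      · have h3 : p ∣ W0 ^ 2 * T.N := by exact_mod_cast h2
        rcases (hp.dvd_mul).mp h3 with h4 | h4
        · exact hW (hp.dvd_of_dvd_pow h4)
        · exact hN h4
    have h1 := cnt_le h (fun μ ν n => M.Bs T Cd c μ ν n ∧ p ∣ S.tI T c μ ν (M.X μ ν n) i)
      (fun μ ν => ¬ p ∣ S.prX id μ * S.prY id ν ∧ T.D ∣ S.SI T.N c μ ν ∧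
        ((p : ℕ) : ℤ) ∣ S.FI T c μ ν (M.x0 - T.D * T.N) i)
      (fun μ hμ ν hν n hO hE => by
        obtain ⟨hB, ht⟩ := hE
        obtain ⟨hcop, hD, -, -, -, -, hF⟩ := Bs_facts h hc hμ hν hB
        have h1 : ((p : ℕ) : ℤ) ∣ S.FI T c μ ν ((M.X μ ν n : ℤ) - T.D * T.N) i :=
          (Int.natCast_dvd_natCast.mpr ht).trans (hF i (by omega)).2.2
        refine ⟨hB.1, hm μ ν hB.1, hD, (FI_congr c μ ν ?_).mp h1⟩
        have h2 := hXx μ ν n hO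
        have h3 : ((M.X μ ν n : ℤ) - T.D * T.N) - (M.x0 - T.D * T.N) = (M.X μ ν n : ℤ) - M.x0 := by ring
        rw [h3]
        exact h2)
    refine h1.trans ?_
    have hD1 := hg0.D0
    have hy1 := hg0.y1
    have h2 := S7F1X hg0 c (q := fun _ _ => T.D) (P := fun _ _ => p) (g5_Invc T.D) (g5_Invc p) (Q := T.y0 * T.D)
      (Nat.mul_pos (by omega) (by omega)) (i := i) (by omega) (M.x0 - T.D * T.N)
      (fun μ ν => ¬ p ∣ S.prX id μ * S.prY id ν ∧ T.D ∣ S.SI T.N c μ ν ∧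
        ((p : ℕ) : ℤ) ∣ S.FI T c μ ν (M.x0 - T.D * T.N) i)
      (fun μ hμ ν hν hE => by
        obtain ⟨hmm, hD, hF⟩ := hE
        have hFr := fr_of_not_dvd hg0 c hμ hν hp hmm
        refine ⟨⟨hD, g5_copD h c hμ hν⟩, hp, (Nat.Prime.coprime_iff_not_dvd hp).mpr (g5_D h hp hy),
          Nat.mul_le_mul_right _ hy.le, hF, fun hd => ?_⟩
        rw [sub_add_cancel] at hd
        rcases hpi.dvd_or_dvd hd with h3 | h3
        · exact hpx h3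
        · exact g5_RI c hpi hFr 0 h3)
    exact g5_ub h h2 (inv1 h (Nat.zero_le S.k))

theorem G5_L (h : S.H73 T M W0 δ0 δ1 Z V Cd) {c : S.Col} (hc : c ∈ S.CC) {p : ℕ} (hp : p ∈ T.PL) (hN : ¬ p ∣ T.N) {i : ℕ} (hi : i ≤ S.k) :
    M.cnt (fun μ ν n => M.Bs T Cd c μ ν n ∧ ¬ p ∣ S.prX id μ * S.prY id ν ∧ p ∣ S.SI T.N c μ ν ∧ p ∣ S.tI T c μ ν (M.X μ ν n) i) ≤
      4 * V ^ 2 / ((p : ℝ) ^ 2 * T.D) * M.tot + S.MX.card * S.MY.card * M.err T δ1 := by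
  have hg0 := h.geo
  obtain ⟨hy0, hD0, hV⟩ := g5_pos h
  have hpP : p.Prime ∧ T.y0 < p ∧ p ≤ T.z := by
    simp only [Dat.PL, mem_filter, mem_range] at hp
    exact ⟨hp.2.1, hp.2.2, by omega⟩
  obtain ⟨hpp, hy, hz⟩ := hpP
  have hpi : Prime ((p : ℕ) : ℤ) := Nat.prime_iff_prime_int.mp hpp
  have hp0 : (0 : ℝ) < p := by exact_mod_cast hpp.pos
  have hGI : ∀ μ ∈ S.MX, ∀ ν ∈ S.MY, ∀ n, (M.Bs T Cd c μ ν n ∧ ¬ p ∣ S.prX id μ * S.prY id ν ∧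
      p ∣ S.SI T.N c μ ν ∧ p ∣ S.tI T c μ ν (M.X μ ν n) i) → ((p : ℕ) : ℤ) ∣ S.GI T.N c μ ν i := by
    intro μ hμ ν hν n hE
    obtain ⟨hB, hm, hS, ht⟩ := hE
    obtain ⟨hcop, -, -, -, -, -, hF⟩ := Bs_facts h hc hμ hν hB
    have hFr := fr_of_not_dvd hg0 c hμ hν hpp hm
    have h1 : ((p : ℕ) : ℤ) ∣ S.FI T c μ ν ((M.X μ ν n : ℤ) - T.D * T.N) i :=
      (Int.natCast_dvd_natCast.mpr ht).trans (hF i (by omega)).2.2
    have h2 : ((p : ℕ) : ℤ) ∣ SmR (S.AI T.N c μ ν) (S.BI T.N c μ ν) (aI μ.1) (aI ν.1) (S.k + 1) := by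
      rw [← SI_eq hg0 c hμ hν]
      exact Int.natCast_dvd_natCast.mpr hS
    rw [MS.FI, Ff] at h1
    have h3 := dvd_add h1 (Dvd.dvd.mul_left h2 ((M.X μ ν n : ℤ) - T.D * T.N))
    rw [sub_add_cancel] at h3
    have h4 := (hpi.dvd_or_dvd h3).resolve_left (g5_DN h hpp hy hN)
    have h5 := dvd_add h4 h2
    rw [U_G _ _ _ _ (show i < S.k + 1 by omega)] at h5
    exact g5_G c hpi hFr h5
  rcases Nat.lt_or_ge i S.k with hik | hik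
  · have h1 := cnt_le h (fun μ ν n => M.Bs T Cd c μ ν n ∧ ¬ p ∣ S.prX id μ * S.prY id ν ∧ p ∣ S.SI T.N c μ ν ∧
        p ∣ S.tI T c μ ν (M.X μ ν n) i)
      (fun μ ν => ¬ p ∣ S.prX id μ * S.prY id ν ∧ p * T.D ∣ S.SI T.N c μ ν ∧ ((p : ℕ) : ℤ) ∣ S.GI T.N c μ ν i)
      (fun μ hμ ν hν n hO hE => ⟨hE.1.1, hE.2.1,
        Nat.Coprime.mul_dvd_of_dvd_of_dvd ((Nat.Prime.coprime_iff_not_dvd hpp).mpr (g5_D h hpp hy)) hE.2.2.1
          (Bs_facts h hc hμ hν hE.1).2.1, hGI μ hμ ν hν n hE⟩)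
    refine h1.trans ?_
    have h2 := g5_mass h c (q := p * T.D) (Q1 := p) hpp (Nat.mul_pos hpp.pos hg0.D0) hpp.pos le_rfl hik
      (fun μ hμ ν hν hm => by
        push_cast
        refine IsCoprime.mul_left ?_ (g5_copD h c hμ hν)
        have hFr := fr_of_not_dvd hg0 c hμ hν hpp hm
        exact (Prime.coprime_iff_not_dvd hpi).mpr (g5_RI c hpi hFr 0))
    refine g5_ub1 h h2 ?_
    have hZ : ∀ j ≤ S.k, 1 / (Z j : ℝ) ≤ 1 / (p * T.D) := by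
      intro j hj
      have h3 := hg0.zZ j hj
      have h4 : p * T.D ≤ Z j := (Nat.mul_le_mul_right _ hz).trans h3
      exact one_div_le_one_div_of_le (by positivity) (by exact_mod_cast h4)
    have hZ0 := hZ 0 (Nat.zero_le _)
    have hZk : 1 / (Z S.k : ℝ) ≤ 1 / p := by
      refine (hZ S.k le_rfl).trans ?_
      apply one_div_le_one_div_of_le hp0
      have : (1 : ℝ) ≤ T.D := by exact_mod_cast hg0.D0
      nlinarith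
    push_cast
    calc V ^ 2 * (1 / ((p : ℝ) * T.D) + 1 / Z 0) * (1 / (p : ℝ) + 1 / Z S.k)
        ≤ V ^ 2 * (1 / ((p : ℝ) * T.D) + 1 / (p * T.D)) * (1 / (p : ℝ) + 1 / p) := by gcongr
      _ = 4 * V ^ 2 / ((p : ℝ) ^ 2 * T.D) := by field_simp; ring
  · have hik' : i = S.k := by omega
    have h1 := cnt_le h (fun μ ν n => M.Bs T Cd c μ ν n ∧ ¬ p ∣ S.prX id μ * S.prY id ν ∧ p ∣ S.SI T.N c μ ν ∧
        p ∣ S.tI T c μ ν (M.X μ ν n) i) (fun _ _ => False)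
      (fun μ hμ ν hν n hO hE => ⟨hE.1.1, by
        have h2 := hGI μ hμ ν hν n hE
        rw [hik'] at h2
        exact g5_Gk c hpi h2⟩)
    refine h1.trans ?_
    rw [g5_mass0]
    refine g5_ub1 h (c1 := 0) (by rw [zero_mul]) ?_
    positivity

end Pool.Agent.Lib.T3
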