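import Pool.Agent.Lib.MP_7b7e48_nt.T3.D3
import Pool.Agent.Lib.MP_7b7e48_nt.T3.G3
import Pool.Agent.Lib.MP_7b7e48_nt.TC.S7G6
import Pool.Agent.Lib.MP_7b7e48_nt.T3.S7G0
import Pool.Agent.Lib.MP_7b7e48_nt.T3.S7E
import Pool.Agent.Lib.MP_7b7e48_nt.T3.S7F1
import Pool.Agent.Lib.MP_7b7e48_nt.T3.S7T

/-!
# S7G6: type 2: primes `p` for which the class `x0` is a root

`HS c μ ν` = the `p ∈ PL`, `p ∤ N v prX prY SI`, with `hit … x0 p`, i.e. (`S7T`) `p ∣ FI (x0 - D N) i` for some `i ≤ k`. `Y0 := x0 - D N`.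
* `HS_card`: if `FI Y0 i ≠ 0` for all `i ≤ k`: `|HS| ≤ ∑_i log₂ |FI Y0 i|`; `F_le` with `L = 4 N` (`α, β ≤ 4 Z k ≤ 4 N`, `A_l, B_l ≤ N` by `hL`), `|D N| ≤ N²`, `|Y0| ≤ N² + y0 W0² N ≤ 2 N⁴` (`y0 ≤ z D ≤ Z 0 ≤ N`): `log₂ |FI| ≤ 30 (k+2) log N` (`N ≥ 2`).
* `zero_mass`: `FI Y0 i = 0` for some `i ≤ k`. If `x0 = 0` this is impossible (`F_pos` with `DN = D N`). If `x0 ≠ 0`: let `p1` be a prime `> y0` which is no mark of any tuple and does not divide `N` (hypothesis). `p1 ∤ x0 = c' W0² N`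
  (`|c'| ≤ y0`, `w0`), so `p1 ∤ (Y0 + D N) RI 0`, `p1 ∣ FI Y0 i = 0`: `S7F1X` with `P = p1`, `q = D`, `Q = p1 D`: mass `≤ V (1/(p1 D) + 1/Z 0) full ≤ 2 V/(y0 D) full` for each `i`.
-/

set_option autoImplicit false

open Finset

namespace Pool.Agent.Lib.T3

open Pool.Agent.Lib.TC

variable {S : MS} {T : Dat} {M : Msr S} {W0 : ℕ} {δ0 δ1 : ℝ} {Z : ℕ → ℕ} {V : ℝ} {Cd : S.TX → S.TY → ℕ → Prop}

private theorem g6_pf {n : ℕ} (hn : n ≠ 0) : (n.primeFactors.card : ℝ) ≤ 2 * Real.log n := by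
  have h1 : 2 ^ n.primeFactors.card ≤ n := by
    calc 2 ^ n.primeFactors.card = ∏ _p ∈ n.primeFactors, 2 := by rw [prod_const]
      _ ≤ ∏ p ∈ n.primeFactors, p := prod_le_prod' fun p hp => (Nat.prime_of_mem_primeFactors hp).two_le
      _ ≤ n := Nat.le_of_dvd (Nat.pos_of_ne_zero hn) (Nat.prod_primeFactors_dvd n)
  have h2 : ((2 : ℝ) ^ n.primeFactors.card) ≤ n := by exact_mod_cast h1
  have h3 := Real.log_le_log (by positivity) h2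
  rw [Real.log_pow] at h3
  have h4 := Real.log_two_gt_d9
  have h5 : (n.primeFactors.card : ℝ) * (1 / 2) ≤ n.primeFactors.card * Real.log 2 :=
    mul_le_mul_of_nonneg_left (by linarith) (Nat.cast_nonneg _)
  linarith

private theorem g6_memX {μ : S.TX} (hμ : μ ∈ S.MX) (i : Fin (S.k + 1)) : μ.1 i ∈ S.WX i := by
  rw [MS.MX, mem_product, Fintype.mem_piFinset] at hμ
  exact hμ.1 i

private theorem g6_memY {ν : S.TY} (hν : ν ∈ S.MY) (i : Fin (S.k + 1)) : ν.1 i ∈ S.WY i := by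
  rw [MS.MY, mem_product, Fintype.mem_piFinset] at hν
  exact hν.1 i

private theorem g6_Z (hG : S.Geo3 T Z M.hX M.hY V) {i : ℕ} (hi : i ≤ S.k) : Z i ≤ T.N := by
  have h1 := hG.ZN
  rcases hi.lt_or_eq with h | h
  · have := hG.ZZ i S.k h le_rfl
    omega
  · rw [h]
    exact h1

private theorem g6_aI {n m : ℕ} {α : Fin n → ℕ} (h : ∀ i, α i ≤ 4 * m) (hm : 1 ≤ m) (i : ℕ) : aI α i ≤ 4 * m := by
  unfold aI ext1
  split_ifs with hi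
  · exact_mod_cast h ⟨i, hi⟩
  · push_cast
    omega

/-- the size of the exceptional class -/
private theorem g6_x0 (h : S.H73 T M W0 δ0 δ1 Z V Cd) (hW : (W0 : ℝ) ≤ T.N) : |M.x0 - T.D * T.N| ≤ 2 * (T.N : ℤ) ^ 4 := by
  have hG := h.geo
  have hN : (2 : ℤ) ≤ T.N := by exact_mod_cast hG.N2
  obtain ⟨c', hc, hx⟩ := h.x0f
  have hy : T.y0 ≤ T.N := by
    have h1 := hG.zZ 0 (Nat.zero_le _)
    have h2 := g6_Z hG (Nat.zero_le S.k)
    have h3 := hG.yz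
    have h4 : T.z * 1 ≤ T.z * T.D := Nat.mul_le_mul_left _ hG.D0
    omega
  have hc1 : |c'| ≤ T.N := by
    rw [Int.abs_eq_natAbs]
    exact_mod_cast hc.trans hy
  have hW1 : (W0 : ℤ) ≤ T.N := by exact_mod_cast hW
  have hW0 : (0 : ℤ) ≤ W0 := by positivity
  have hD : (T.D : ℤ) ≤ T.N := by exact_mod_cast hG.DN
  have h1 : |M.x0| ≤ (T.N : ℤ) ^ 4 := by
    rw [hx, abs_mul]
    push_cast
    rw [abs_of_nonneg (by positivity : (0 : ℤ) ≤ (W0 : ℤ) ^ 2 * T.N)]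
    calc |c'| * ((W0 : ℤ) ^ 2 * T.N) ≤ T.N * ((T.N : ℤ) ^ 2 * T.N) := by gcongr
      _ = (T.N : ℤ) ^ 4 := by ring
  have h2 : |(T.D : ℤ) * T.N| ≤ (T.N : ℤ) ^ 4 := by
    rw [abs_of_nonneg (by positivity)]
    calc (T.D : ℤ) * T.N ≤ T.N * T.N := by gcongr
      _ = (T.N : ℤ) ^ 2 := by ring
      _ ≤ (T.N : ℤ) ^ 4 := pow_le_pow_right₀ (by omega) (by norm_num)
  have h3 := abs_sub M.x0 ((T.D : ℤ) * T.N)
  linarith

/-- the size of the forms -/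
private theorem g6_F (h : S.H73 T M W0 δ0 δ1 Z V Cd) (c : S.Col) (hL : ∀ μ ∈ S.MX, ∀ ν ∈ S.MY, ∀ l, (S.AI T.N c μ ν l : ℝ) ≤ T.N ∧ (S.BI T.N c μ ν l : ℝ) ≤ T.N)
    {μ : S.TX} {ν : S.TY} (hμ : μ ∈ S.MX) (hν : ν ∈ S.MY) (hW : (W0 : ℝ) ≤ T.N) {i : ℕ} (hi : i ≤ S.k) :
    |S.FI T c μ ν (M.x0 - T.D * T.N) i| ≤ (T.N : ℤ) ^ (13 * S.k + 32) := by
  have hG := h.geo
  have hN : (2 : ℤ) ≤ T.N := by exact_mod_cast hG.N2
  have hN1 : (1 : ℤ) ≤ T.N := by omega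
  obtain ⟨v1, v2, v3, v4, v5⟩ := vec_pos hG c hμ hν
  have hLi : ∀ l, S.AI T.N c μ ν l ≤ T.N ∧ S.BI T.N c μ ν l ≤ T.N := by
    intro l
    obtain ⟨h1, h2⟩ := hL μ hμ ν hν l
    exact ⟨by exact_mod_cast h1, by exact_mod_cast h2⟩
  have ha : ∀ i : Fin (S.k + 1), μ.1 i ≤ 4 * T.N := by
    intro i
    have h1 := (hG.wx i _ (g6_memX hμ i)).2.2.1
    have h2 := g6_Z (M := M) hG (Nat.lt_succ_iff.1 i.2)
    omega
  have hb : ∀ i : Fin (S.k + 1), ν.1 i ≤ 4 * T.N := by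
    intro i
    have h1 := (hG.wy i _ (g6_memY hν i)).2.2.1
    have h2 := g6_Z (M := M) hG (Nat.lt_succ_iff.1 i.2)
    omega
  have hNn : 1 ≤ T.N := by exact_mod_cast hN1
  have h1 := F_le (n := S.k + 1) (i := i) (by omega) (L := 4 * (T.N : ℤ)) (A := S.AI T.N c μ ν) (B := S.BI T.N c μ ν) (a := aI μ.1) (b := aI ν.1)
    (fun l => ⟨v1 l, by have := (hLi l).1; omega⟩) (fun l => ⟨v2 l, by have := (hLi l).2; omega⟩)
    (fun l => ⟨v3 l, g6_aI ha hNn l⟩) (fun l => ⟨v4 l, g6_aI hb hNn l⟩) v5 ((T.D : ℤ) * T.N) (M.x0 - T.D * T.N)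
  rw [MS.FI]
  refine h1.trans ?_
  have hD : (T.D : ℤ) ≤ T.N := by exact_mod_cast hG.DN
  have h2 : |(T.D : ℤ) * T.N| ≤ (T.N : ℤ) ^ 4 := by
    rw [abs_of_nonneg (by positivity)]
    calc (T.D : ℤ) * T.N ≤ T.N * T.N := by gcongr
      _ = (T.N : ℤ) ^ 2 := by ring
      _ ≤ (T.N : ℤ) ^ 4 := pow_le_pow_right₀ hN1 (by norm_num)
  have h3 := g6_x0 h hW
  have h4 : (4 : ℤ) ≤ (T.N : ℤ) ^ 2 := by nlinarith
  have h5 : |(T.D : ℤ) * T.N| + |M.x0 - T.D * T.N| ≤ (T.N : ℤ) ^ 6 := by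
    have h6 : 0 ≤ (T.N : ℤ) ^ 4 := by positivity
    calc |(T.D : ℤ) * T.N| + |M.x0 - T.D * T.N| ≤ 4 * (T.N : ℤ) ^ 4 := by linarith
      _ ≤ (T.N : ℤ) ^ 2 * (T.N : ℤ) ^ 4 := by gcongr
      _ = (T.N : ℤ) ^ 6 := by ring
  have h6 : (4 : ℤ) * ((S.k + 1 : ℕ) : ℤ) ≤ (T.N : ℤ) ^ (S.k + 2) := by
    have h7 : ((S.k + 1 : ℕ) : ℤ) ≤ (2 : ℤ) ^ S.k := by exact_mod_cast (Nat.lt_two_pow_self : S.k < 2 ^ S.k)
    have h8 : (2 : ℤ) ^ S.k ≤ (T.N : ℤ) ^ S.k := pow_le_pow_left₀ (by norm_num) hN _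
    calc (4 : ℤ) * ((S.k + 1 : ℕ) : ℤ) ≤ (T.N : ℤ) ^ 2 * (T.N : ℤ) ^ S.k := by
          gcongr
          exact h7.trans h8
      _ = (T.N : ℤ) ^ (S.k + 2) := by ring
  have h7 : (4 * (T.N : ℤ)) ^ (4 * (S.k + 1) + 4) ≤ (T.N : ℤ) ^ (12 * S.k + 24) := by
    calc (4 * (T.N : ℤ)) ^ (4 * (S.k + 1) + 4) ≤ ((T.N : ℤ) ^ 2 * T.N) ^ (4 * (S.k + 1) + 4) := by gcongr
      _ = ((T.N : ℤ) ^ 3) ^ (4 * (S.k + 1) + 4) := by ring_nf
      _ = (T.N : ℤ) ^ (12 * S.k + 24) := by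
          rw [← pow_mul]
          congr 1
          ring
  calc (|(T.D : ℤ) * T.N| + |M.x0 - T.D * T.N|) * (4 * ((S.k + 1 : ℕ) : ℤ) * (4 * (T.N : ℤ)) ^ (4 * (S.k + 1) + 4))
      ≤ (T.N : ℤ) ^ 6 * ((T.N : ℤ) ^ (S.k + 2) * (T.N : ℤ) ^ (12 * S.k + 24)) := by gcongr
    _ = (T.N : ℤ) ^ (13 * S.k + 32) := by
        rw [← pow_add, ← pow_add]
        congr 1
        ring

theorem HS_card (h : S.H73 T M W0 δ0 δ1 Z V Cd) (c : S.Col) (hL : ∀ μ ∈ S.MX, ∀ ν ∈ S.MY, ∀ l, (S.AI T.N c μ ν l : ℝ) ≤ T.N ∧ (S.BI T.N c μ ν l : ℝ) ≤ T.N)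
    {μ : S.TX} {ν : S.TY} (hμ : μ ∈ S.MX) (hν : ν ∈ S.MY) (hF : ∀ i ≤ S.k, S.FI T c μ ν (M.x0 - T.D * T.N) i ≠ 0) (hW : (W0 : ℝ) ≤ T.N) :
    ((M.HS T c μ ν).card : ℝ) ≤ 100 * (S.k + 2) ^ 3 * Real.log T.N := by
  classical
  have hG := h.geo
  have hN2 := hG.N2
  have hlog : 0 ≤ Real.log T.N := Real.log_nonneg (by exact_mod_cast (by omega : 1 ≤ T.N))
  have h1 : M.HS T c μ ν ⊆ (range (S.k + 1)).biUnion fun i => (S.FI T c μ ν (M.x0 - T.D * T.N) i).natAbs.primeFactors := by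
    intro p hp
    rw [Msr.HS, mem_filter] at hp
    obtain ⟨h1, h2, h3⟩ := hp
    rw [Dat.PL, mem_filter] at h1
    have h4 : ¬ p ∣ S.prX id μ * S.prY id ν := by
      intro h4
      refine h2 (h4.trans ⟨T.N * M.v * S.SI T.N c μ ν, ?_⟩)
      ring
    obtain ⟨i, hi, h5⟩ := (S7T hG c hμ hν h1.2.1 h4 M.x0).1 h3
    rw [mem_biUnion]
    refine ⟨i, mem_range.2 (by omega), ?_⟩
    rw [Nat.mem_primeFactors]
    exact ⟨h1.2.1, Int.natCast_dvd.1 h5, Int.natAbs_ne_zero.2 (hF i hi)⟩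
  have h2 : ((M.HS T c μ ν).card : ℝ) ≤ ∑ i ∈ range (S.k + 1), ((S.FI T c μ ν (M.x0 - T.D * T.N) i).natAbs.primeFactors.card : ℝ) := by
    exact_mod_cast (card_le_card h1).trans card_biUnion_le
  have h3 : ∀ i ∈ range (S.k + 1), ((S.FI T c μ ν (M.x0 - T.D * T.N) i).natAbs.primeFactors.card : ℝ) ≤
      2 * ((13 * S.k + 32) * Real.log T.N) := by
    intro i hi
    have hi' : i ≤ S.k := by
      rw [mem_range] at hi
      omega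
    have h4 := g6_pf (Int.natAbs_ne_zero.2 (hF i hi'))
    have h5 := g6_F h c hL hμ hν hW hi'
    rw [Int.abs_eq_natAbs] at h5
    have h6 : (((S.FI T c μ ν (M.x0 - T.D * T.N) i).natAbs : ℕ) : ℝ) ≤ (T.N : ℝ) ^ (13 * S.k + 32) := by exact_mod_cast h5
    have h7 : (0 : ℝ) < (((S.FI T c μ ν (M.x0 - T.D * T.N) i).natAbs : ℕ) : ℝ) := by
      exact_mod_cast Int.natAbs_pos.2 (hF i hi')
    have h8 := Real.log_le_log h7 h6
    rw [Real.log_pow] at h8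
    push_cast at h8
    linarith
  refine h2.trans ((sum_le_sum h3).trans ?_)
  rw [sum_const, card_range, nsmul_eq_mul]
  push_cast
  have hk : (0 : ℝ) ≤ S.k := Nat.cast_nonneg _
  have h4 : ((S.k : ℝ) + 1) * (2 * (13 * S.k + 32)) ≤ 100 * (S.k + 2) ^ 3 := by nlinarith [mul_nonneg hk hk, mul_nonneg (mul_nonneg hk hk) hk]
  calc ((S.k : ℝ) + 1) * (2 * ((13 * S.k + 32) * Real.log T.N)) = (((S.k : ℝ) + 1) * (2 * (13 * S.k + 32))) * Real.log T.N := by ring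
    _ ≤ 100 * (S.k + 2) ^ 3 * Real.log T.N := mul_le_mul_of_nonneg_right h4 hlog

theorem zero_mass (h : S.H73 T M W0 δ0 δ1 Z V Cd) {c : S.Col} (hc : c ∈ S.CC) {p1 : ℕ} (hp1 : p1.Prime) (hy : T.y0 < p1) (hN : ¬ p1 ∣ T.N)
    (hno : ∀ μ ∈ S.MX, ∀ ν ∈ S.MY, ¬ p1 ∣ S.prX id μ * S.prY id ν) {i : ℕ} (hi : i ≤ S.k) :
    M.cnt (fun μ ν n => M.Bs T Cd c μ ν n ∧ S.FI T c μ ν (M.x0 - T.D * T.N) i = 0) ≤ M.ub T V δ1 := by
  have hG := h.geo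
  have hi1 : i < S.k + 1 := by omega
  have hD0 : T.D ≠ 0 := hG.D0.ne'
  have h1 := cnt_le h (fun μ ν n => M.Bs T Cd c μ ν n ∧ S.FI T c μ ν (M.x0 - T.D * T.N) i = 0)
    (fun μ ν => T.D ∣ S.SI T.N c μ ν ∧ S.FI T c μ ν (M.x0 - T.D * T.N) i = 0) (by
      intro μ hμ ν hν n _ hE
      exact ⟨hE.1.1, (Bs_facts h hc hμ hν hE.1).2.1, hE.2⟩)
  have h2 : S.mass M.hX M.hY (fun μ ν => T.D ∣ S.SI T.N c μ ν ∧ S.FI T c μ ν (M.x0 - T.D * T.N) i = 0) ≤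
      V * (1 / ((T.y0 * T.D : ℕ) : ℝ) + 1 / Z 0) * S.full M.hX M.hY := by
    refine S7F1X hG c (q := fun _ _ => T.D) (P := fun _ _ => p1) (fun _ _ _ _ _ _ => rfl) (fun _ _ _ _ _ _ => rfl)
      (Nat.mul_pos hG.y1 hG.D0) hi1 (M.x0 - T.D * T.N) _ ?_
    intro μ hμ ν hν hE
    obtain ⟨v1, v2, v3, v4, v5⟩ := vec_pos hG c hμ hν
    have hR : ∀ p : ℤ, Prime p → (p.natAbs ≤ T.y0 ∨ p.natAbs = p1) → (∀ l, ¬ p ∣ S.BI T.N c μ ν l) ∧ ∀ l, ¬ p ∣ aI ν.1 l := by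
      intro p hp hpy
      have hpn : p.natAbs.Prime := Int.prime_iff_natAbs_prime.1 hp
      have hfr : S.Fr T.N c μ ν (p.natAbs : ℤ) := by
        rcases hpy with hpy | hpy
        · exact fr_small hG c hμ hν hpn hpy
        · refine fr_of_not_dvd hG c hμ hν hpn ?_
          rw [hpy]
          exact hno μ hμ ν hν
      exact ⟨fun l hl => hfr.2.1 l (Int.natAbs_dvd.2 hl), fun l hl => hfr.2.2.2 l (Int.natAbs_dvd.2 hl)⟩
    refine ⟨⟨hE.1, ?_⟩, hp1, ?_, ?_, ?_, ?_⟩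
    · refine cop_RI c (fun p hp hpD => hR p hp (Or.inl ?_)) (by exact_mod_cast hD0)
      exact hG.Dy _ (Int.prime_iff_natAbs_prime.1 hp) (Int.natAbs_dvd_natAbs.2 hpD)
    · rw [Nat.Prime.coprime_iff_not_dvd hp1]
      intro hd
      have := hG.Dy p1 hp1 hd
      omega
    · exact Nat.mul_le_mul_right _ hy.le
    · rw [hE.2]
      exact dvd_zero _
    · intro hd
      rw [sub_add_cancel] at hd
      have hpi : Prime ((p1 : ℕ) : ℤ) := Nat.prime_iff_prime_int.1 hp1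
      rcases hpi.dvd_or_dvd hd with hd | hd
      · -- `p1 ∣ x0`
        obtain ⟨c', hc', hx⟩ := h.x0f
        by_cases hc0 : c' = 0
        · have hx0 : M.x0 = 0 := by rw [hx, hc0, zero_mul]
          have hpos : 0 < S.FI T c μ ν (M.x0 - T.D * T.N) i := by
            rw [hx0, zero_sub, MS.FI]
            refine F_pos hi1 v1 v2 v3 v4 v5 ?_
            have h3 := hG.D0
            have h4 := hG.N2
            exact_mod_cast Nat.mul_pos h3 (by omega)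
          rw [hE.2] at hpos
          exact lt_irrefl _ hpos
        · rw [hx] at hd
          rcases hpi.dvd_or_dvd hd with hd | hd
          · have h3 := Int.natAbs_dvd_natAbs.2 hd
            rw [Int.natAbs_natCast] at h3
            have h4 := Nat.le_of_dvd (Int.natAbs_pos.2 hc0) h3
            omega
          · rw [Int.natCast_dvd_natCast, hp1.dvd_mul] at hd
            rcases hd with hd | hd
            · have := h.w0 p1 hp1 (hp1.dvd_of_dvd_pow hd)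
              omega
            · exact hN hd
      · -- `p1 ∣ RI 0`
        obtain ⟨r1, r2⟩ := hR p1 hpi (Or.inr (Int.natAbs_natCast p1))
        rw [MS.RI, Rs, hpi.dvd_mul, hpi.dvd_finsetProd_iff] at hd
        rcases hd with hd | ⟨l, -, hl⟩
        · exact r2 0 hd
        · rcases hpi.dvd_mul.1 hl with hl | hl
          · exact r2 l hl
          · exact r1 _ hl
  have h3 := inv1 h (Nat.zero_le S.k)
  have hfull : 0 ≤ S.full M.hX M.hY := full_nonneg hG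
  have hW := h.ok.W_pos
  have h4 : M.W * S.mass M.hX M.hY (fun μ ν => T.D ∣ S.SI T.N c μ ν ∧ S.FI T c μ ν (M.x0 - T.D * T.N) i = 0) ≤
      8 * V ^ 2 / (T.y0 * T.D) * M.tot := by
    calc M.W * S.mass M.hX M.hY (fun μ ν => T.D ∣ S.SI T.N c μ ν ∧ S.FI T c μ ν (M.x0 - T.D * T.N) i = 0)
        ≤ M.W * (8 * V ^ 2 / (T.y0 * T.D) * S.full M.hX M.hY) :=
          mul_le_mul_of_nonneg_left (h2.trans (mul_le_mul_of_nonneg_right h3 hfull)) hW.le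
      _ = 8 * V ^ 2 / (T.y0 * T.D) * M.tot := by
          rw [Msr.tot, MS.full]
          ring
  refine h1.trans ?_
  rw [Msr.ub]
  linarith

end Pool.Agent.Lib.T3
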