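import Pool.Agent.Lib.MP_7b7e48_nt.TC.S7G7
import Pool.Agent.Lib.MP_7b7e48_nt.T3.S7G6
import Pool.Agent.Lib.MP_7b7e48_nt.T3.S7F1

/-!
# S7G7 (for `Geo3`, port of TC/S7G7; `Msr.cntf` is defined there): type 2, the count

Split the pairs `(μ, ν)` into those with `FI (x0 - D N) i ≠ 0` for all `i ≤ k` (I) and the others (II).
(I): for fixed `μ`, `ν` (with `cop`, `adm`, `D ∣ SI`, otherwise there is no `n` with `Bs`): the sum over `n` of `Om * #{p ∈ HS : ∃ i ≤ k, p ∣ tI i}` is `≤ ∑_{p ∈ HS} ∑_{i≤k} ∑_n [Bs, p ∣ tI i] Om ≤ |HS| (k+1) (4/y0 ms + err)` by `n_cls1`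
with `E_free` (`p ∤ N v prX prY SI`), `|HS| ≤ 100 (k+2)³ K` (`HS_card`). Sum over the pairs with `D ∣ SI`: mass `≤ V (1/D + 1/Z 0) full ≤ 2 V/D full` (`S7F1`, `q = D`; `inv2`).
In all `≤ 100 (k+2)³ (k+1) K (8 V/(y0 D) tot + |MX| |MY| err) ≤ 100 (k+2)⁴ K ub`.
(II): `#{p ∈ HS : ∃ i, p ∣ tI i} ≤ ∑_{i≤k} |primeFactors (tI i)| ≤ (k+1) log₂ N ≤ 2 (k+1) K` (`0 < tI i ≤ N`, `Bs_facts`), `zero_mass` for each `i`: `≤ 2 (k+1)² K ub`.
-/

set_option autoImplicit false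

open Finset

namespace Pool.Agent.Lib.T3

open Pool.Agent.Lib.TC

variable {S : MS} {T : Dat} {M : Msr S} {W0 : ℕ} {δ0 δ1 : ℝ} {Z : ℕ → ℕ} {V : ℝ} {Cd : S.TX → S.TY → ℕ → Prop}

private theorem g7_copD (h : S.H73 T M W0 δ0 δ1 Z V Cd) (c : S.Col) {μ : S.TX} {ν : S.TY} (hμ : μ ∈ S.MX) (hν : ν ∈ S.MY) :
    IsCoprime ((T.D : ℕ) : ℤ) (S.RI T.N c μ ν 0) := by
  refine cop_RI c (fun p hp hpD => ?_) (by have := h.geo.D0; exact_mod_cast this.ne')
  have hpn : p.natAbs.Prime := Int.prime_iff_natAbs_prime.mp hp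
  have h1 : p.natAbs ∣ T.D := by
    have h2 := Int.natAbs_dvd_natAbs.mpr hpD
    rwa [Int.natAbs_natCast] at h2
  have h2 := fr_small h.geo c hμ hν hpn (h.geo.Dy _ hpn h1)
  exact ⟨fun l hl => h2.2.1 l (Int.natAbs_dvd.mpr hl), fun l hl => h2.2.2.2 l (Int.natAbs_dvd.mpr hl)⟩

private theorem g7_err (h : S.H73 T M W0 δ0 δ1 Z V Cd) : 0 ≤ M.err T δ1 := by
  unfold Msr.err
  exact mul_nonneg (Real.rpow_nonneg (Nat.cast_nonneg _) _) h.ok.W_pos.le

private theorem g7_ms (h : S.H73 T M W0 δ0 δ1 Z V Cd) {μ : S.TX} {ν : S.TY} (hμ : μ ∈ S.MX) (hν : ν ∈ S.MY) :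
    0 ≤ M.ms μ ν := by
  have hg := h.geo
  unfold Msr.ms Msr.m1
  refine mul_nonneg h.ok.W_pos.le (mul_nonneg ?_ ?_)
  · unfold MS.prX
    simp only [MS.MX, mem_product, Fintype.mem_piFinset] at hμ
    refine mul_nonneg (mul_nonneg (prod_nonneg fun i _ => ?_) (prod_nonneg fun i _ => ?_)) (prod_nonneg fun i _ => ?_)
    · exact (hg.hX0 _ (hg.wx i _ (hμ.1 i)).1).1
    · exact (hg.hX0 _ (hg.fx i _ (hμ.2.1 i)).1).1
    · exact (hg.hX0 _ (hg.ox i _ (hμ.2.2 i)).1).1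
  · unfold MS.prY
    simp only [MS.MY, mem_product, Fintype.mem_piFinset] at hν
    refine mul_nonneg (mul_nonneg (prod_nonneg fun i _ => ?_) (prod_nonneg fun i _ => ?_)) (prod_nonneg fun i _ => ?_)
    · exact (hg.hYw i _ (hν.1 i)).1
    · exact (hg.hY0 _ (hg.fy i _ (hν.2.1 i)).1).1
    · exact (hg.hY0 _ (hg.oy i _ (hν.2.2 i)).1).1

private theorem g7_cnt (E : S.TX → S.TY → ℕ → Prop) [∀ μ ν n, Decidable (E μ ν n)] :
    M.cnt E = ∑ μ ∈ S.MX, ∑ ν ∈ S.MY, ∑ n ∈ range (M.nm + 1), if E μ ν n then M.Om μ ν n else 0 := by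
  unfold Msr.cnt
  refine sum_congr rfl fun μ _ => sum_congr rfl fun ν _ => sum_congr rfl fun n _ => ?_
  by_cases hE : E μ ν n
  · rw [if_pos hE, if_pos hE]
  · rw [if_neg hE, if_neg hE]

private theorem g7_mass (hX hY : ℕ → ℝ) (E : S.TX → S.TY → Prop) [∀ μ ν, Decidable (E μ ν)] :
    S.mass hX hY E = ∑ μ ∈ S.MX, ∑ ν ∈ S.MY, if E μ ν then S.prX hX μ * S.prY hY ν else 0 := by
  unfold MS.mass
  refine sum_congr rfl fun μ _ => sum_congr rfl fun ν _ => ?_
  by_cases hE : E μ ν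
  · rw [if_pos hE, if_pos hE]
  · rw [if_neg hE, if_neg hE]

private theorem g7_omega {m : ℕ} (hm : 0 < m) : (m.primeFactors.card : ℝ) ≤ 2 * Real.log m := by
  have h1 : 2 ^ m.primeFactors.card ≤ m := by
    calc 2 ^ m.primeFactors.card = ∏ _p ∈ m.primeFactors, 2 := by rw [prod_const]
      _ ≤ ∏ p ∈ m.primeFactors, p := Finset.prod_le_prod' fun p hp => (Nat.prime_of_mem_primeFactors hp).two_le
      _ ≤ m := Nat.le_of_dvd hm (Nat.prod_primeFactors_dvd m)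
  have h2 : ((2 : ℝ) ^ m.primeFactors.card) ≤ m := by exact_mod_cast h1
  have h3 := Real.log_le_log (by positivity) h2
  rw [Real.log_pow] at h3
  have h4 : (1 / 2 : ℝ) ≤ Real.log 2 := by
    have := Real.log_two_gt_d9
    linarith
  have h5 : (0 : ℝ) ≤ m.primeFactors.card := Nat.cast_nonneg _
  nlinarith

open Classical in
/-- number of the prime factors of the `t_i` -/
private theorem g7_few (h : S.H73 T M W0 δ0 δ1 Z V Cd) {c : S.Col} (hc : c ∈ S.CC) {μ : S.TX} {ν : S.TY} (hμ : μ ∈ S.MX) (hν : ν ∈ S.MY)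
    {n : ℕ} (hB : M.Bs T Cd c μ ν n) (s : Finset ℕ) (hs : ∀ p ∈ s, p.Prime) :
    ((s.filter fun p => ∃ i < S.k + 1, p ∣ S.tI T c μ ν (M.X μ ν n) i).card : ℝ) ≤ 2 * (S.k + 1) * Real.log T.N := by
  obtain ⟨-, -, -, -, -, -, hF⟩ := Bs_facts h hc hμ hν hB
  have h1 : (s.filter fun p => ∃ i < S.k + 1, p ∣ S.tI T c μ ν (M.X μ ν n) i) ⊆
      (range (S.k + 1)).biUnion fun i => (S.tI T c μ ν (M.X μ ν n) i).primeFactors := by
    intro p hp
    rw [mem_filter] at hp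
    obtain ⟨hp1, i, hi, hd⟩ := hp
    rw [mem_biUnion]
    exact ⟨i, mem_range.mpr hi, Nat.mem_primeFactors.mpr ⟨hs p hp1, hd, (hF i hi).1.ne'⟩⟩
  have h2 := (card_le_card h1).trans card_biUnion_le
  have hN0 : 1 ≤ T.N := by have := h.geo.N2; omega
  calc ((s.filter fun p => ∃ i < S.k + 1, p ∣ S.tI T c μ ν (M.X μ ν n) i).card : ℝ)
      ≤ ((∑ i ∈ range (S.k + 1), (S.tI T c μ ν (M.X μ ν n) i).primeFactors.card : ℕ) : ℝ) := by exact_mod_cast h2
    _ = ∑ i ∈ range (S.k + 1), ((S.tI T c μ ν (M.X μ ν n) i).primeFactors.card : ℝ) := by push_cast; rfl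
    _ ≤ ∑ i ∈ range (S.k + 1), 2 * Real.log T.N := by
        refine sum_le_sum fun i hi => ?_
        rw [mem_range] at hi
        refine (g7_omega (hF i hi).1).trans ?_
        have h3 : ((S.tI T c μ ν (M.X μ ν n) i : ℕ) : ℝ) ≤ T.N := by exact_mod_cast (hF i hi).2.1
        have h4 : (0 : ℝ) < ((S.tI T c μ ν (M.X μ ν n) i : ℕ) : ℝ) := by exact_mod_cast (hF i hi).1
        have h5 := Real.log_le_log h4 h3
        linarith
    _ = _ := by
        rw [sum_const, card_range, nsmul_eq_mul]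
        push_cast
        ring

open Classical in
private theorem g7_one (h : S.H73 T M W0 δ0 δ1 Z V Cd) {c : S.Col} (hc : c ∈ S.CC) {μ : S.TX} {ν : S.TY} (hμ : μ ∈ S.MX) (hν : ν ∈ S.MY)
    (ha : M.adm μ ν) :
    ∑ n ∈ range (M.nm + 1), (if M.Bs T Cd c μ ν n then M.Om μ ν n *
      (((M.HS T c μ ν).filter fun p => ∃ i < S.k + 1, p ∣ S.tI T c μ ν (M.X μ ν n) i).card : ℝ) else 0) ≤
    ((M.HS T c μ ν).card : ℝ) * ((S.k + 1) * (4 / T.y0 * M.ms μ ν + M.err T δ1)) := by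
  have hy0 : (0 : ℝ) < T.y0 := by
    have := h.geo.y1
    exact_mod_cast (by omega : 0 < T.y0)
  have h1 : ∀ n ∈ range (M.nm + 1), (if M.Bs T Cd c μ ν n then M.Om μ ν n *
      (((M.HS T c μ ν).filter fun p => ∃ i < S.k + 1, p ∣ S.tI T c μ ν (M.X μ ν n) i).card : ℝ) else 0) ≤
      ∑ p ∈ M.HS T c μ ν, ∑ i ∈ range (S.k + 1),
        (if M.Bs T Cd c μ ν n ∧ p ∣ S.tI T c μ ν (M.X μ ν n) i then M.Om μ ν n else 0) := by
    intro n _
    by_cases hB : M.Bs T Cd c μ ν n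
    · rw [if_pos hB, ← Finset.sum_boole, mul_sum]
      refine sum_le_sum fun p _ => ?_
      by_cases hi : ∃ i < S.k + 1, p ∣ S.tI T c μ ν (M.X μ ν n) i
      · rw [if_pos hi, mul_one]
        obtain ⟨i, hi1, hi2⟩ := hi
        have h2 : M.Om μ ν n = (if M.Bs T Cd c μ ν n ∧ p ∣ S.tI T c μ ν (M.X μ ν n) i then M.Om μ ν n else 0) := by
          rw [if_pos ⟨hB, hi2⟩]
        calc M.Om μ ν n = (if M.Bs T Cd c μ ν n ∧ p ∣ S.tI T c μ ν (M.X μ ν n) i then M.Om μ ν n else 0) := h2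
          _ ≤ _ := Finset.single_le_sum (f := fun i =>
              (if M.Bs T Cd c μ ν n ∧ p ∣ S.tI T c μ ν (M.X μ ν n) i then M.Om μ ν n else 0))
              (fun j _ => by
                split_ifs
                · exact h.ok.Om_nonneg μ ν n
                · exact le_rfl) (mem_range.mpr hi1)
      · rw [if_neg hi, mul_zero]
        refine sum_nonneg fun j _ => ?_
        split_ifs
        · exact h.ok.Om_nonneg μ ν n
        · exact le_rfl
    · rw [if_neg hB]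
      refine sum_nonneg fun p _ => sum_nonneg fun j _ => ?_
      split_ifs
      · exact h.ok.Om_nonneg μ ν n
      · exact le_rfl
  refine (sum_le_sum h1).trans ?_
  rw [sum_comm]
  have h2 : ∀ p ∈ M.HS T c μ ν, ∑ n ∈ range (M.nm + 1), ∑ i ∈ range (S.k + 1),
        (if M.Bs T Cd c μ ν n ∧ p ∣ S.tI T c μ ν (M.X μ ν n) i then M.Om μ ν n else 0) ≤
        (S.k + 1) * (4 / T.y0 * M.ms μ ν + M.err T δ1) := by
    intro p hp
    unfold Msr.HS at hp
    obtain ⟨hp1, hp2, -⟩ := mem_filter.mp hp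
    have hpP : p.Prime ∧ T.y0 < p ∧ p ≤ T.z := by
      have hp3 := hp1
      unfold Dat.PL at hp3
      rw [mem_filter, mem_range] at hp3
      exact ⟨hp3.2.1, hp3.2.2, by omega⟩
    have hS : ¬ p ∣ S.SI T.N c μ ν := fun hd => hp2 (Dvd.dvd.mul_left hd _)
    have hN : ¬ p ∣ T.N := fun hd => hp2
      (Dvd.dvd.mul_right (Dvd.dvd.mul_right (Dvd.dvd.mul_right (Dvd.dvd.mul_right hd _) _) _) _)
    have hv : ¬ p ∣ M.v := fun hd => hp2
      (Dvd.dvd.mul_right (Dvd.dvd.mul_right (Dvd.dvd.mul_right (Dvd.dvd.mul_left hd _) _) _) _)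
    have hm : ¬ p ∣ S.prX id μ * S.prY id ν := by
      intro hd
      refine hp2 (Dvd.dvd.mul_right ?_ _)
      rw [mul_assoc]
      exact Dvd.dvd.mul_left hd _
    rw [sum_comm]
    calc ∑ i ∈ range (S.k + 1), ∑ n ∈ range (M.nm + 1),
          (if M.Bs T Cd c μ ν n ∧ p ∣ S.tI T c μ ν (M.X μ ν n) i then M.Om μ ν n else 0)
        ≤ ∑ i ∈ range (S.k + 1), (4 / T.y0 * M.ms μ ν + M.err T δ1) := by
          refine sum_le_sum fun i hi => ?_
          rw [mem_range] at hi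
          have h3 := n_cls1 h hμ hν ha hp1 hN hm (fun n => M.Bs T Cd c μ ν n ∧ p ∣ S.tI T c μ ν (M.X μ ν n) i)
            (fun n n' hn hn' _ _ => E_free h hc hμ hν hpP.1 hi hS hv hm hn.1 hn'.1 hn.2 hn'.2)
          have h5 : 4 / (p : ℝ) ≤ 4 / T.y0 := by
            apply div_le_div_of_nonneg_left (by norm_num) hy0
            exact_mod_cast hpP.2.1.le
          have h6 := mul_le_mul_of_nonneg_right h5 (g7_ms h hμ hν)
          refine le_trans (le_of_eq ?_) (h3.trans (by linarith))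
          refine sum_congr rfl fun n _ => ?_
          by_cases h7 : M.Bs T Cd c μ ν n ∧ p ∣ S.tI T c μ ν (M.X μ ν n) i
          · rw [if_pos h7, if_pos h7]
          · rw [if_neg h7, if_neg h7]
      _ = _ := by
          rw [sum_const, card_range, nsmul_eq_mul]
          push_cast
          ring
  refine (sum_le_sum h2).trans ?_
  rw [sum_const, nsmul_eq_mul]

open Classical in
theorem G7 (h : S.H73 T M W0 δ0 δ1 Z V Cd) {c : S.Col} (hc : c ∈ S.CC) (hL : ∀ μ ∈ S.MX, ∀ ν ∈ S.MY, ∀ l, (S.AI T.N c μ ν l : ℝ) ≤ T.N ∧ (S.BI T.N c μ ν l : ℝ) ≤ T.N)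
    (hW : (W0 : ℝ) ≤ T.N) (hK : 1 ≤ Real.log T.N) {p1 : ℕ} (hp1 : p1.Prime) (hy : T.y0 < p1) (hN : ¬ p1 ∣ T.N)
    (hno : ∀ μ ∈ S.MX, ∀ ν ∈ S.MY, ¬ p1 ∣ S.prX id μ * S.prY id ν) :
    M.cntf (fun μ ν n => M.Bs T Cd c μ ν n) (fun μ ν n => (((M.HS T c μ ν).filter fun p => ∃ i < S.k + 1, p ∣ S.tI T c μ ν (M.X μ ν n) i).card : ℝ)) ≤
      200 * (S.k + 2) ^ 4 * Real.log T.N * M.ub T V δ1 := by
  have hg0 := h.geo
  have hy1 := hg0.y1
  have hD1 := hg0.D0
  have hy0 : (0 : ℝ) < T.y0 := by exact_mod_cast (by omega : 0 < T.y0)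
  have hD0 : (0 : ℝ) < T.D := by exact_mod_cast hD1
  have hV := hg0.V1
  have herr := g7_err h
  have hOm := h.ok.Om_nonneg
  set K := Real.log T.N with hKdef
  have hK0 : 0 ≤ K := by linarith
  set cI : ℝ := 100 * (S.k + 2) ^ 3 * K * (S.k + 1) with hcI
  set cII : ℝ := 2 * (S.k + 1) * K with hcII
  have hcI0 : 0 ≤ cI := by positivity
  have hcII0 : 0 ≤ cII := by positivity
  have key : ∀ μ ∈ S.MX, ∀ ν ∈ S.MY,
      ∑ n ∈ range (M.nm + 1), (if M.Bs T Cd c μ ν n then M.Om μ ν n *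
        (((M.HS T c μ ν).filter fun p => ∃ i < S.k + 1, p ∣ S.tI T c μ ν (M.X μ ν n) i).card : ℝ) else 0) ≤
      cI * (4 / T.y0 * (M.W * (if T.D ∣ S.SI T.N c μ ν then S.prX M.hX μ * S.prY M.hY ν else 0)) + M.err T δ1) +
      cII * ∑ i ∈ range (S.k + 1), ∑ n ∈ range (M.nm + 1),
        (if M.Bs T Cd c μ ν n ∧ S.FI T c μ ν (M.x0 - T.D * T.N) i = 0 then M.Om μ ν n else 0) := by
    intro μ hμ ν hν
    have hms := g7_ms h hμ hν
    have hA : 0 ≤ cI * (4 / T.y0 * (M.W * (if T.D ∣ S.SI T.N c μ ν then S.prX M.hX μ * S.prY M.hY ν else 0)) + M.err T δ1) := by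
      refine mul_nonneg hcI0 (add_nonneg (mul_nonneg (by positivity) ?_) herr)
      split_ifs
      · exact hms
      · rw [mul_zero]
    have hBn : 0 ≤ cII * ∑ i ∈ range (S.k + 1), ∑ n ∈ range (M.nm + 1),
        (if M.Bs T Cd c μ ν n ∧ S.FI T c μ ν (M.x0 - T.D * T.N) i = 0 then M.Om μ ν n else 0) := by
      refine mul_nonneg hcII0 (sum_nonneg fun i _ => sum_nonneg fun n _ => ?_)
      split_ifs
      · exact hOm μ ν n
      · exact le_rfl
    by_cases h0 : ∃ n, M.Bs T Cd c μ ν n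
    · obtain ⟨n0, hB0⟩ := h0
      have hD : T.D ∣ S.SI T.N c μ ν := (Bs_facts h hc hμ hν hB0).2.1
      by_cases hPI : ∀ i ≤ S.k, S.FI T c μ ν (M.x0 - T.D * T.N) i ≠ 0
      · have h1 := g7_one h hc hμ hν hB0.1
        have h2 := HS_card h c hL hμ hν hPI hW
        rw [if_pos hD]
        refine h1.trans ?_
        have h3 : 0 ≤ (S.k + 1 : ℝ) * (4 / T.y0 * M.ms μ ν + M.err T δ1) := by positivity
        have h4 := mul_le_mul_of_nonneg_right h2 h3
        have h5 : 100 * ((S.k : ℝ) + 2) ^ 3 * Real.log T.N * ((S.k + 1 : ℝ) * (4 / T.y0 * M.ms μ ν + M.err T δ1)) =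
            cI * (4 / T.y0 * (M.W * (S.prX M.hX μ * S.prY M.hY ν)) + M.err T δ1) := by
          rw [hcI]
          unfold Msr.ms Msr.m1
          ring
        linarith
      · push Not at hPI
        obtain ⟨i0, hi0, hF0⟩ := hPI
        have h1 : ∑ n ∈ range (M.nm + 1), (if M.Bs T Cd c μ ν n then M.Om μ ν n *
            (((M.HS T c μ ν).filter fun p => ∃ i < S.k + 1, p ∣ S.tI T c μ ν (M.X μ ν n) i).card : ℝ) else 0) ≤
            cII * ∑ n ∈ range (M.nm + 1),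
              (if M.Bs T Cd c μ ν n ∧ S.FI T c μ ν (M.x0 - T.D * T.N) i0 = 0 then M.Om μ ν n else 0) := by
          rw [mul_sum]
          refine sum_le_sum fun n _ => ?_
          by_cases hB : M.Bs T Cd c μ ν n
          · rw [if_pos hB, if_pos ⟨hB, hF0⟩, mul_comm cII]
            refine mul_le_mul_of_nonneg_left ?_ (hOm μ ν n)
            exact g7_few h hc hμ hν hB _ fun p hp => by
              unfold Msr.HS at hp
              have hp3 := (mem_filter.mp hp).1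
              unfold Dat.PL at hp3
              exact (mem_filter.mp hp3).2.1
          · rw [if_neg hB, if_neg (fun h2 => hB h2.1), mul_zero]
        have h2 : ∑ n ∈ range (M.nm + 1),
              (if M.Bs T Cd c μ ν n ∧ S.FI T c μ ν (M.x0 - T.D * T.N) i0 = 0 then M.Om μ ν n else 0) ≤
            ∑ i ∈ range (S.k + 1), ∑ n ∈ range (M.nm + 1),
              (if M.Bs T Cd c μ ν n ∧ S.FI T c μ ν (M.x0 - T.D * T.N) i = 0 then M.Om μ ν n else 0) :=
          Finset.single_le_sum (f := fun i => ∑ n ∈ range (M.nm + 1),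
              (if M.Bs T Cd c μ ν n ∧ S.FI T c μ ν (M.x0 - T.D * T.N) i = 0 then M.Om μ ν n else 0))
            (fun i _ => sum_nonneg fun n _ => by
              split_ifs
              · exact hOm μ ν n
              · exact le_rfl) (mem_range.mpr (by omega))
        have h3 := mul_le_mul_of_nonneg_left h2 hcII0
        linarith
    · push Not at h0
      have h1 : ∑ n ∈ range (M.nm + 1), (if M.Bs T Cd c μ ν n then M.Om μ ν n *
            (((M.HS T c μ ν).filter fun p => ∃ i < S.k + 1, p ∣ S.tI T c μ ν (M.X μ ν n) i).card : ℝ) else 0) = 0 :=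
        sum_eq_zero fun n _ => by rw [if_neg (h0 n)]
      rw [h1]
      exact add_nonneg hA hBn
  -- sum over the pairs
  have hsum : M.cntf (fun μ ν n => M.Bs T Cd c μ ν n)
      (fun μ ν n => (((M.HS T c μ ν).filter fun p => ∃ i < S.k + 1, p ∣ S.tI T c μ ν (M.X μ ν n) i).card : ℝ)) ≤
      cI * (4 / T.y0 * (M.W * S.mass M.hX M.hY (fun μ ν => T.D ∣ S.SI T.N c μ ν)) +
        S.MX.card * S.MY.card * M.err T δ1) +
      cII * ∑ i ∈ range (S.k + 1), M.cnt (fun μ ν n => M.Bs T Cd c μ ν n ∧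
        S.FI T c μ ν (M.x0 - T.D * T.N) i = 0) := by
    have h1 : M.cntf (fun μ ν n => M.Bs T Cd c μ ν n)
        (fun μ ν n => (((M.HS T c μ ν).filter fun p => ∃ i < S.k + 1, p ∣ S.tI T c μ ν (M.X μ ν n) i).card : ℝ)) =
        ∑ μ ∈ S.MX, ∑ ν ∈ S.MY, ∑ n ∈ range (M.nm + 1), (if M.Bs T Cd c μ ν n then M.Om μ ν n *
        (((M.HS T c μ ν).filter fun p => ∃ i < S.k + 1, p ∣ S.tI T c μ ν (M.X μ ν n) i).card : ℝ) else 0) := by
      unfold Msr.cntf
      refine sum_congr rfl fun μ _ => sum_congr rfl fun ν _ => sum_congr rfl fun n _ => ?_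
      by_cases hB : M.Bs T Cd c μ ν n
      · simp only [if_pos hB]
      · simp only [if_neg hB]
    rw [h1]
    refine (sum_le_sum fun μ hμ => sum_le_sum fun ν hν => key μ hμ ν hν).trans (le_of_eq ?_)
    have h2 : ∀ i, M.cnt (fun μ ν n => M.Bs T Cd c μ ν n ∧ S.FI T c μ ν (M.x0 - T.D * T.N) i = 0) =
        ∑ μ ∈ S.MX, ∑ ν ∈ S.MY, ∑ n ∈ range (M.nm + 1),
          (if M.Bs T Cd c μ ν n ∧ S.FI T c μ ν (M.x0 - T.D * T.N) i = 0 then M.Om μ ν n else 0) := fun i => g7_cnt _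
    simp only [h2]
    rw [g7_mass]
    simp only [sum_add_distrib, ← mul_sum]
    congr 1
    · simp only [sum_const, nsmul_eq_mul]
      ring
    · congr 1
      rw [sum_comm' (s := S.MX) (t := fun _ => S.MY) (s' := fun _ => S.MX) (t' := S.MY) (by simp)]
      rw [sum_comm' (s := range (S.k + 1)) (t := fun _ => S.MX) (s' := fun _ => range (S.k + 1)) (t' := S.MX) (by simp)]
      rw [sum_comm]
      refine sum_congr rfl fun μ _ => ?_
      rw [sum_comm]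
  refine hsum.trans ?_
  have hub : M.ub T V δ1 = 8 * V ^ 2 / (T.y0 * T.D) * M.tot + S.MX.card * S.MY.card * M.err T δ1 := rfl
  have htot : M.tot = M.W * S.full M.hX M.hY := rfl
  have hfull0 := full_nonneg hg0 (hX := M.hX) (hY := M.hY)
  have hW0 := h.ok.W_pos.le
  have hub0 : 0 ≤ M.ub T V δ1 := by
    rw [hub, htot]
    have h1 : 0 ≤ M.W * S.full M.hX M.hY := mul_nonneg hW0 hfull0
    positivity
  have hfirst : 4 / T.y0 * (M.W * S.mass M.hX M.hY (fun μ ν => T.D ∣ S.SI T.N c μ ν)) +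
        S.MX.card * S.MY.card * M.err T δ1 ≤ M.ub T V δ1 := by
    have h2 := S7F1 hg0 c (q := fun _ _ => T.D) (fun _ _ _ _ _ _ => rfl) (Q := T.D) hg0.D0
      (fun μ ν => T.D ∣ S.SI T.N c μ ν)
      (fun μ hμ ν hν hE => ⟨hE, g7_copD h c hμ hν, le_rfl⟩)
    have h4 := inv2 h (Nat.zero_le S.k)
    have h5 : V * 1 ≤ V * V := mul_le_mul_of_nonneg_left hV (by linarith)
    have h6 : S.mass M.hX M.hY (fun μ ν => T.D ∣ S.SI T.N c μ ν) ≤ 2 * V / T.D * S.full M.hX M.hY :=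
      h2.trans (mul_le_mul_of_nonneg_right h4 hfull0)
    have h7 : 4 / T.y0 * (M.W * S.mass M.hX M.hY (fun μ ν => T.D ∣ S.SI T.N c μ ν)) ≤
        8 * V ^ 2 / (T.y0 * T.D) * M.tot := by
      rw [htot]
      calc 4 / (T.y0 : ℝ) * (M.W * S.mass M.hX M.hY (fun μ ν => T.D ∣ S.SI T.N c μ ν))
          ≤ 4 / T.y0 * (M.W * (2 * V / T.D * S.full M.hX M.hY)) := by gcongr
        _ = 8 * (V * 1) / (T.y0 * T.D) * (M.W * S.full M.hX M.hY) := by field_simp; ring
        _ ≤ 8 * (V * V) / (T.y0 * T.D) * (M.W * S.full M.hX M.hY) := by gcongr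
        _ = _ := by ring
    rw [hub]
    linarith
  have hsecond : ∑ i ∈ range (S.k + 1), M.cnt (fun μ ν n => M.Bs T Cd c μ ν n ∧
        S.FI T c μ ν (M.x0 - T.D * T.N) i = 0) ≤ (S.k + 1) * M.ub T V δ1 := by
    calc _ ≤ ∑ i ∈ range (S.k + 1), M.ub T V δ1 := by
          refine sum_le_sum fun i hi => ?_
          rw [mem_range] at hi
          exact zero_mass h hc hp1 hy hN hno (by omega)
      _ = _ := by
          rw [sum_const, card_range, nsmul_eq_mul]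
          push_cast
          ring
  have h8 := mul_le_mul_of_nonneg_left hfirst hcI0
  have h9 := mul_le_mul_of_nonneg_left hsecond hcII0
  have h10 : cI * M.ub T V δ1 + cII * ((S.k + 1) * M.ub T V δ1) ≤ 200 * (S.k + 2) ^ 4 * K * M.ub T V δ1 := by
    have h11 : cI + cII * (S.k + 1) ≤ 200 * (S.k + 2) ^ 4 * K := by
      rw [hcI, hcII]
      have hk : (0 : ℝ) ≤ S.k := Nat.cast_nonneg _
      have h12 : 100 * ((S.k : ℝ) + 2) ^ 3 * (S.k + 1) + 2 * (S.k + 1) * (S.k + 1) ≤ 200 * (S.k + 2) ^ 4 := by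
        nlinarith [pow_nonneg hk 2, pow_nonneg hk 3, pow_nonneg hk 4]
      have h13 := mul_le_mul_of_nonneg_right h12 hK0
      linarith
    have h12 := mul_le_mul_of_nonneg_right h11 hub0
    linarith
  linarith

end Pool.Agent.Lib.T3
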