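import Pool.Agent.Lib.MP_7b7e48_nt.T3.PN8
import Pool.Agent.Lib.MP_7b7e48_nt.T3D.Def

/-!
# QF3: the pair lemma for two numbers in the form of the double count (`T3D.PLem2`)

For all measures `M`, `M'` with `OK3` apply `PAIR2` with `pb = y1`; the filter of `Wbad2` implies `Cd` (`CR T W0 X`: `X` coprime to `W0 N`, free of primes `≤ y`). `m1' ≥ 1/(4 prX prY) ≥ N^(-δ1/16)` as `prX prY ≤ N^(δ1/32)`.
-/

set_option autoImplicit false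

open Finset

namespace Pool.Agent.Lib.T3

open Pool.Agent.Lib.TC

private theorem QF3_ev (A : ℕ) (δ : ℝ) (hδ : 0 < δ) (C : ℝ) (hC : 0 < C) :
    ∀ᶠ N : ℕ in Filter.atTop, C * (Real.log N) ^ A ≤ (N : ℝ) ^ δ := by
  have h1 := isLittleO_log_rpow_rpow_atTop (A : ℝ) hδ
  have h2 := h1.bound (show (0 : ℝ) < 1 / C by positivity)
  have h3 := tendsto_natCast_atTop_atTop (R := ℝ) |>.eventually h2
  filter_upwards [h3, Filter.eventually_ge_atTop 1] with N h4 hN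
  have hN1 : (1 : ℝ) ≤ N := by exact_mod_cast hN
  have h5 : 0 ≤ Real.log N := Real.log_nonneg hN1
  rw [Real.rpow_natCast, Real.norm_of_nonneg (pow_nonneg h5 _),
    Real.norm_of_nonneg (Real.rpow_nonneg (by linarith) _)] at h4
  calc C * (Real.log N) ^ A ≤ C * (1 / C * (N : ℝ) ^ δ) := mul_le_mul_of_nonneg_left h4 hC.le
    _ = _ := by field_simp

private theorem QF3_h {h : ℕ → ℝ} {y l : ℕ} (hh : ∀ p : ℕ, p.Prime → 0 ≤ h p ∧ |h p - 1 / p| ≤ 2 / (p : ℝ) ^ 2) (hl : l.Prime)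
    (hy : 0 < y) (hyl : y ≤ l) : (1 - 2 / (y : ℝ)) * (1 / (l : ℝ)) ≤ h l := by
  have h3 := (abs_le.1 (hh l hl).2).1
  have hl0 : (0 : ℝ) < l := by exact_mod_cast hl.pos
  have hy0 : (0 : ℝ) < y := by exact_mod_cast hy
  have hyl' : (y : ℝ) ≤ l := by exact_mod_cast hyl
  have h4 : (2 : ℝ) / (l : ℝ) ^ 2 = 2 / l * (1 / l) := by
    field_simp
  have h5 : (2 : ℝ) / l * (1 / l) ≤ 2 / y * (1 / l) :=
    mul_le_mul_of_nonneg_right (div_le_div_of_nonneg_left (by norm_num) hy0 hyl') (by positivity)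
  rw [h4] at h3
  have h6 : (1 - 2 / (y : ℝ)) * (1 / (l : ℝ)) = 1 / l - 2 / y * (1 / l) := by ring
  rw [h6]
  linarith

private theorem QF3_prod {ι : Type*} [Fintype ι] (h : ℕ → ℝ) (a : ℝ) (ha : 0 ≤ a) (l : ι → ℕ) (H : ∀ i, a * (1 / (l i : ℝ)) ≤ h (l i)) :
    a ^ Fintype.card ι * ∏ i, (1 / (l i : ℝ)) ≤ ∏ i, h (l i) := by
  rw [← card_univ, ← prod_const, ← prod_mul_distrib]
  exact prod_le_prod (fun i _ => mul_nonneg ha (by positivity)) (fun i _ => H i)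

private theorem QF3_three (h : ℕ → ℝ) (a : ℝ) (ha : 0 ≤ a) {n1 n2 n3 : ℕ} (l1 : Fin n1 → ℕ) (l2 : Fin n2 → ℕ) (l3 : Fin n3 → ℕ)
    (H1 : ∀ i, a * (1 / (l1 i : ℝ)) ≤ h (l1 i)) (H2 : ∀ i, a * (1 / (l2 i : ℝ)) ≤ h (l2 i)) (H3 : ∀ i, a * (1 / (l3 i : ℝ)) ≤ h (l3 i)) :
    a ^ (n1 + n2 + n3) * ((∏ i, (1 / (l1 i : ℝ))) * (∏ i, (1 / (l2 i : ℝ))) * ∏ i, (1 / (l3 i : ℝ))) ≤
      (∏ i, h (l1 i)) * (∏ i, h (l2 i)) * ∏ i, h (l3 i) := by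
  have h1 := QF3_prod h a ha l1 H1
  have h2 := QF3_prod h a ha l2 H2
  have h3 := QF3_prod h a ha l3 H3
  rw [Fintype.card_fin] at h1 h2 h3
  have p1 : 0 ≤ a ^ n1 * ∏ i, (1 / (l1 i : ℝ)) := mul_nonneg (pow_nonneg ha _) (prod_nonneg fun i _ => by positivity)
  have p2 : 0 ≤ a ^ n2 * ∏ i, (1 / (l2 i : ℝ)) := mul_nonneg (pow_nonneg ha _) (prod_nonneg fun i _ => by positivity)
  have p3 : 0 ≤ a ^ n3 * ∏ i, (1 / (l3 i : ℝ)) := mul_nonneg (pow_nonneg ha _) (prod_nonneg fun i _ => by positivity)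
  calc _ = (a ^ n1 * ∏ i, (1 / (l1 i : ℝ))) * (a ^ n2 * ∏ i, (1 / (l2 i : ℝ))) * (a ^ n3 * ∏ i, (1 / (l3 i : ℝ))) := by
        rw [pow_add, pow_add]
        ring
    _ ≤ _ := mul_le_mul (mul_le_mul h1 h2 p2 (p1.trans h1)) h3 p3 (mul_nonneg (p1.trans h1) (p2.trans h2))

private theorem QF3_half {y n : ℕ} (h : 4 * (n : ℝ) ≤ y) (hy : 2 ≤ y) : (1 / 2 : ℝ) ≤ (1 - 2 / (y : ℝ)) ^ n := by
  have hy0 : (2 : ℝ) ≤ y := by exact_mod_cast hy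
  have hyp : (0 : ℝ) < y := by linarith
  have h1 : (2 : ℝ) / y ≤ 1 := by
    rw [div_le_one hyp]
    exact hy0
  have h2 := one_add_mul_le_pow (show (-2 : ℝ) ≤ -(2 / (y : ℝ)) by linarith) n
  have h3 : (n : ℝ) * (2 / y) ≤ 1 / 2 := by
    rw [← mul_div_assoc, div_le_iff₀ hyp]
    linarith
  have h4 : (1 : ℝ) + -(2 / (y : ℝ)) = 1 - 2 / y := by ring
  rw [h4] at h2
  have h5 : (n : ℝ) * -(2 / (y : ℝ)) = -((n : ℝ) * (2 / y)) := by ring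
  rw [h5] at h2
  linarith

/-- lower bound for the mass of a pair of tuples -/
theorem m1_lo {S : MS} {T : Dat} {M : Msr S} {W0 : ℕ} {Z : Fin (S.k + 1) → ℕ} {δ0 δ1 : ℝ} (hT : T.OK W0) (hS : S.OK3 T W0 Z)
    (hM : M.OK3 T W0 δ0 δ1) (hy : 4 * Real.log T.N ≤ T.y0) (hK : 1 ≤ Real.log T.N) {μ : S.TX} {ν : S.TY} (hμ0 : μ ∈ S.MX) (hν0 : ν ∈ S.MY) :
    1 ≤ 4 * ((S.prX id μ * S.prY id ν : ℕ) : ℝ) * M.m1 μ ν := by
  have hy4 : (4 : ℝ) ≤ T.y0 := by linarith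
  have hy2 : 2 ≤ T.y0 := by
    have : (2 : ℝ) ≤ T.y0 := by linarith
    exact_mod_cast this
  have hyp : 0 < T.y0 := by omega
  have hyz := hT.y0_lt
  have hZ : ∀ i, T.y0 ≤ Z i := by
    intro i
    have h1 := hS.Z_lo i
    have h2 : T.z ≤ T.z ^ 2 := Nat.le_self_pow (by norm_num) _
    omega
  have ha : 0 ≤ 1 - 2 / (T.y0 : ℝ) := by
    have h1 : (2 : ℝ) / T.y0 ≤ 1 := by
      rw [div_le_one (by linarith)]
      linarith
    linarith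
  have hnum := hS.num
  push_cast at hnum
  have hX : ∀ μ ∈ S.MX, (1 / 2) * S.prX (fun l => 1 / (l : ℝ)) μ ≤ S.prX M.hX μ := by
    intro μ hμ
    unfold MS.MX at hμ
    rw [mem_product, mem_product, Fintype.mem_piFinset, Fintype.mem_piFinset, Fintype.mem_piFinset] at hμ
    obtain ⟨m1, m2, m3⟩ := hμ
    have h1 := QF3_three M.hX (1 - 2 / (T.y0 : ℝ)) ha μ.1 μ.2.1 μ.2.2
      (fun i => by
        obtain ⟨a1, -, a3, -⟩ := hS.WX_mem i _ (m1 i)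
        have := hZ i
        exact QF3_h hM.hX_nonneg a1 hyp (by omega))
      (fun f => by
        obtain ⟨a1, -, a3, -⟩ := hS.FX_mem f _ (m2 f)
        exact QF3_h hM.hX_nonneg a1 hyp a3.le)
      (fun e => by
        obtain ⟨a1, -, a3, -⟩ := hS.OX_mem e _ (m3 e)
        exact QF3_h hM.hX_nonneg a1 hyp a3.le)
    have h2 : (1 / 2 : ℝ) ≤ (1 - 2 / (T.y0 : ℝ)) ^ (S.k + 1 + S.n0 + S.nX) := by
      refine QF3_half ?_ hy2
      push_cast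
      have q1 : (0 : ℝ) ≤ S.k := Nat.cast_nonneg _
      have q2 : (0 : ℝ) ≤ S.n0 := Nat.cast_nonneg _
      have q3 : (0 : ℝ) ≤ S.nX := Nat.cast_nonneg _
      have q4 : (0 : ℝ) ≤ S.nY := Nat.cast_nonneg _
      linarith
    refine le_trans (mul_le_mul_of_nonneg_right h2 ?_) h1
    unfold MS.prX
    refine mul_nonneg (mul_nonneg (prod_nonneg fun i _ => ?_) (prod_nonneg fun i _ => ?_)) (prod_nonneg fun i _ => ?_) <;> positivity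
  have hY : ∀ ν ∈ S.MY, (1 / 2) * S.prY (fun l => 1 / (l : ℝ)) ν ≤ S.prY M.hY ν := by
    intro ν hν
    unfold MS.MY at hν
    rw [mem_product, mem_product, Fintype.mem_piFinset, Fintype.mem_piFinset, Fintype.mem_piFinset] at hν
    obtain ⟨m1, m2, m3⟩ := hν
    have h1 := QF3_three M.hY (1 - 2 / (T.y0 : ℝ)) ha ν.1 ν.2.1 ν.2.2
      (fun i => by
        obtain ⟨-, -, a3, -⟩ := hS.WY_mem i _ (m1 i)
        have h5 := (abs_le.1 (hM.hY_win i _ (m1 i)).2).1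
        have h6 : (0 : ℝ) < ν.1 i := by exact_mod_cast (by omega : 0 < ν.1 i)
        have h7 : (0 : ℝ) < T.y0 := by exact_mod_cast hyp
        have h8 : (1 - 2 / (T.y0 : ℝ)) * (1 / (ν.1 i : ℝ)) = 1 / (ν.1 i : ℝ) - 2 / ((ν.1 i : ℝ) * T.y0) := by
          field_simp
        linarith)
      (fun f => by
        obtain ⟨a1, -, a3, -⟩ := hS.FY_mem f _ (m2 f)
        exact QF3_h hM.hY_nonneg a1 hyp a3.le)
      (fun e => by
        obtain ⟨a1, -, a3, -⟩ := hS.OY_mem e _ (m3 e)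
        exact QF3_h hM.hY_nonneg a1 hyp a3.le)
    have h2 : (1 / 2 : ℝ) ≤ (1 - 2 / (T.y0 : ℝ)) ^ (S.k + 1 + S.n0 + S.nY) := by
      refine QF3_half ?_ hy2
      push_cast
      have q1 : (0 : ℝ) ≤ S.k := Nat.cast_nonneg _
      have q2 : (0 : ℝ) ≤ S.n0 := Nat.cast_nonneg _
      have q3 : (0 : ℝ) ≤ S.nX := Nat.cast_nonneg _
      have q4 : (0 : ℝ) ≤ S.nY := Nat.cast_nonneg _
      linarith
    refine le_trans (mul_le_mul_of_nonneg_right h2 ?_) h1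
    unfold MS.prY
    refine mul_nonneg (mul_nonneg (prod_nonneg fun i _ => ?_) (prod_nonneg fun i _ => ?_)) (prod_nonneg fun i _ => ?_) <;> positivity
  have hX' := hX μ hμ0
  have hY' := hY ν hν0
  have e1 : ((S.prX id μ : ℕ) : ℝ) * S.prX (fun l => 1 / (l : ℝ)) μ = 1 := by
    have hp : ∀ {n : ℕ} (f : Fin n → ℕ), (∀ i, 0 < f i) → ((∏ i, f i : ℕ) : ℝ) * ∏ i, (1 / (f i : ℝ)) = 1 := by
      intro n f hf
      rw [Nat.cast_prod, ← prod_mul_distrib]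
      refine prod_eq_one fun i _ => ?_
      have : (0 : ℝ) < f i := by exact_mod_cast hf i
      field_simp
    have hμ := hμ0
    unfold MS.MX at hμ
    rw [mem_product, mem_product, Fintype.mem_piFinset, Fintype.mem_piFinset, Fintype.mem_piFinset] at hμ
    obtain ⟨m1, m2, m3⟩ := hμ
    have h1 := hp μ.1 fun i => (hS.WX_mem i _ (m1 i)).1.pos
    have h2 := hp μ.2.1 fun i => (hS.FX_mem i _ (m2 i)).1.pos
    have h3 := hp μ.2.2 fun i => (hS.OX_mem i _ (m3 i)).1.pos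
    unfold MS.prX
    simp only [id]
    rw [Nat.cast_mul, Nat.cast_mul]
    calc _ = (((∏ i, μ.1 i : ℕ) : ℝ) * ∏ i, (1 / (μ.1 i : ℝ))) * (((∏ i, μ.2.1 i : ℕ) : ℝ) * ∏ i, (1 / (μ.2.1 i : ℝ))) *
        (((∏ i, μ.2.2 i : ℕ) : ℝ) * ∏ i, (1 / (μ.2.2 i : ℝ))) := by ring
      _ = 1 := by rw [h1, h2, h3]; norm_num
  have e2 : ((S.prY id ν : ℕ) : ℝ) * S.prY (fun l => 1 / (l : ℝ)) ν = 1 := by
    have hp : ∀ {n : ℕ} (f : Fin n → ℕ), (∀ i, 0 < f i) → ((∏ i, f i : ℕ) : ℝ) * ∏ i, (1 / (f i : ℝ)) = 1 := by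
      intro n f hf
      rw [Nat.cast_prod, ← prod_mul_distrib]
      refine prod_eq_one fun i _ => ?_
      have : (0 : ℝ) < f i := by exact_mod_cast hf i
      field_simp
    have hν := hν0
    unfold MS.MY at hν
    rw [mem_product, mem_product, Fintype.mem_piFinset, Fintype.mem_piFinset, Fintype.mem_piFinset] at hν
    obtain ⟨m1, m2, m3⟩ := hν
    have h1 := hp ν.1 fun i => by
      have := (hS.WY_mem i _ (m1 i)).2.2.1
      omega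
    have h2 := hp ν.2.1 fun i => (hS.FY_mem i _ (m2 i)).1.pos
    have h3 := hp ν.2.2 fun i => (hS.OY_mem i _ (m3 i)).1.pos
    unfold MS.prY
    simp only [id]
    rw [Nat.cast_mul, Nat.cast_mul]
    calc _ = (((∏ i, ν.1 i : ℕ) : ℝ) * ∏ i, (1 / (ν.1 i : ℝ))) * (((∏ i, ν.2.1 i : ℕ) : ℝ) * ∏ i, (1 / (ν.2.1 i : ℝ))) *
        (((∏ i, ν.2.2 i : ℕ) : ℝ) * ∏ i, (1 / (ν.2.2 i : ℝ))) := by ring
      _ = 1 := by rw [h1, h2, h3]; norm_num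
  have p1 : (0 : ℝ) ≤ ((S.prX id μ : ℕ) : ℝ) := Nat.cast_nonneg _
  have p2 : (0 : ℝ) ≤ ((S.prY id ν : ℕ) : ℝ) := Nat.cast_nonneg _
  have f1 : (1 : ℝ) ≤ 2 * (((S.prX id μ : ℕ) : ℝ) * S.prX M.hX μ) := by
    have := mul_le_mul_of_nonneg_left hX' p1
    nlinarith
  have f2 : (1 : ℝ) ≤ 2 * (((S.prY id ν : ℕ) : ℝ) * S.prY M.hY ν) := by
    have := mul_le_mul_of_nonneg_left hY' p2
    nlinarith
  unfold Msr.m1
  rw [Nat.cast_mul]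
  calc (1 : ℝ) = 1 * 1 := by norm_num
    _ ≤ (2 * (((S.prX id μ : ℕ) : ℝ) * S.prX M.hX μ)) * (2 * (((S.prY id ν : ℕ) : ℝ) * S.prY M.hY ν)) := mul_le_mul f1 f2 (by norm_num) (by linarith)
    _ = _ := by ring

/-- the hypotheses on the mark system and the data (without the measures), with exponents -/
structure PD3 (k B CD Cp Cf A B' W1 : ℕ) (Cα δ1 δz : ℝ) (S : MS) (T : Dat) (W0 : ℕ) (Z : Fin (S.k + 1) → ℕ) (p1 Q0 y1 : ℕ) (η : ℝ) : Prop where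
  hT : T.OK W0
  hS : S.OK3 T W0 Z
  hA : S.An3 T p1 Q0 η Cα
  hk : S.k = k
  hW : W0 ≤ W1
  hD : (T.D : ℝ) ≤ (Real.log T.N) ^ CD
  hy1 : (Real.log T.N) ^ (Cp - 1) ≤ T.y0
  hy2 : (T.y0 : ℝ) ≤ (Real.log T.N) ^ Cp
  hz1 : Real.exp (Real.log T.N / (Real.log (Real.log T.N)) ^ 2) ≤ T.z
  hz2 : (T.z : ℝ) ≤ (T.N : ℝ) ^ δz
  hp2 : (p1 : ℝ) ≤ (Real.log T.N) ^ (2 * Cp + 3)
  hQ : (Real.log T.N) ^ A ≤ Q0
  hη : η ≤ 1 / (Real.log T.N) ^ B'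
  hC1 : T.D * (Real.log T.N) ^ (16 * (k + 1) + B + 20) ≤ S.CC.card
  hC2 : ((k + 1 : ℕ) : ℝ) ^ (2 * S.n0) ≤ 2 * S.CC.card
  hC3 : 4 ^ k * ((k * (k + 1) : ℕ) : ℝ) ^ (2 * S.n0) * (Real.log T.N) ^ (B + 14) ≤ (S.CC.card : ℝ) ^ 2
  hcard : (S.MX.card : ℝ) * S.MY.card ≤ (T.N : ℝ) ^ (δ1 / 8)
  hrX : 1 / (Real.log T.N) ^ Cf ≤ ∑ μ ∈ S.MX, S.prX (fun l => 1 / (l : ℝ)) μ
  hrY : 1 / (Real.log T.N) ^ Cf ≤ ∑ ν ∈ S.MY, S.prY (fun l => 1 / (l : ℝ)) ν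
  hpb : Real.log T.N ≤ y1
  hsz : ∀ μ ∈ S.MX, ∀ ν ∈ S.MY, ((S.prX id μ * S.prY id ν : ℕ) : ℝ) ≤ (T.N : ℝ) ^ (δ1 / 32)

/-- **the pair lemma for two numbers** -/
theorem pair_lem3 (k B CD Cp Cf W1 : ℕ) (Cα δ0 δ1 δ2 : ℝ) (hk : 4 * (B + 12) ≤ k + 1) (hCp : CD + 24 * (k + 1) + B + 41 ≤ Cp) (hα : 1 ≤ Cα)
    (h0 : 0 < δ0) (h1 : 0 < δ1) (h11 : δ1 ≤ 1) :
    ∃ (A B' : ℕ) (δz : ℝ), 0 < δz ∧ ∃ N0 : ℕ, ∀ (S : MS) (T : Dat) (W0 : ℕ) (Z : Fin (S.k + 1) → ℕ) (p1 Q0 y1 : ℕ) (η : ℝ),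
      PD3 k B CD Cp Cf A B' W1 Cα δ1 δz S T W0 Z p1 Q0 y1 η → N0 ≤ T.N → T3D.PLem2 S T W0 y1 δ0 δ1 δ2 (1 / (Real.log T.N) ^ B) := by
  obtain ⟨b1, hb1, hf1⟩ : ∃ b : ℕ, 1 ≤ b ∧ flK (8 * ((k + 1 : ℕ) : ℝ)) * (1 / 2) ^ b ≤ 1 / 2 ∧ flK (16 * ((k + 1 : ℕ) : ℝ)) * (1 / 2) ^ b ≤ 1 / 2 := by
    have h := (tendsto_pow_atTop_nhds_zero_of_lt_one (by norm_num : (0 : ℝ) ≤ 1 / 2) (by norm_num)).const_mul (flK (8 * ((k + 1 : ℕ) : ℝ)))
    have h' := (tendsto_pow_atTop_nhds_zero_of_lt_one (by norm_num : (0 : ℝ) ≤ 1 / 2) (by norm_num)).const_mul (flK (16 * ((k + 1 : ℕ) : ℝ)))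
    rw [mul_zero] at h h'
    obtain ⟨b, hb⟩ := Filter.eventually_atTop.1 (h.eventually (gt_mem_nhds (by norm_num : (0 : ℝ) < 1 / 2)))
    obtain ⟨b', hb'⟩ := Filter.eventually_atTop.1 (h'.eventually (gt_mem_nhds (by norm_num : (0 : ℝ) < 1 / 2)))
    exact ⟨max (max b b') 1, le_max_right _ _, (hb _ ((le_max_left _ _).trans (le_max_left _ _))).le,
      (hb' _ ((le_max_right _ _).trans (le_max_left _ _))).le⟩
  obtain ⟨b2, hb2, hf2⟩ : ∃ b : ℕ, 1 ≤ b ∧ flK (2 * ((k + 1 : ℕ) : ℝ)) * (1 / 2) ^ b ≤ 1 / 20 := by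
    have h := (tendsto_pow_atTop_nhds_zero_of_lt_one (by norm_num : (0 : ℝ) ≤ 1 / 2) (by norm_num)).const_mul (flK (2 * ((k + 1 : ℕ) : ℝ)))
    rw [mul_zero] at h
    obtain ⟨b, hb⟩ := Filter.eventually_atTop.1 (h.eventually (gt_mem_nhds (by norm_num : (0 : ℝ) < 1 / 20)))
    exact ⟨max b 1, le_max_right _ _, (hb _ (le_max_left _ _)).le⟩
  have hb2' : (0 : ℝ) < b2 := by exact_mod_cast hb2
  have hCp1 : Cp - 1 + 1 = Cp := by omega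
  let c : PC := PC.mk k B CD (Cp - 1) Cf b1 b2 W1 (2 * CD + 24 * b1 * (Cp - 1 + 1) + 2 * (Cp - 1) + 10)
    (2 * CD + 24 * b1 * (Cp - 1 + 1) + B + 20) Cα δ0 δ1 (min δ0 δ1 / (800 * b2))
  have hm : 0 < min δ0 δ1 := lt_min h0 h1
  have hc0 : c.OK := by
    refine ⟨hk, ?_, le_rfl, le_rfl, hb1, hb2, hf1.1, hf2, hα, h0, h1, h11, ?_, ?_, ?_⟩
    · show CD + 12 * (k + 1) + B + 20 ≤ Cp - 1
      omega
    · show 0 < min δ0 δ1 / (800 * b2)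
      positivity
    · show 50 * (b2 : ℝ) * (min δ0 δ1 / (800 * b2)) ≤ δ0
      have : 50 * (b2 : ℝ) * (min δ0 δ1 / (800 * b2)) = min δ0 δ1 / 16 := by field_simp; ring
      rw [this]
      linarith [min_le_left δ0 δ1]
    · show 800 * (b2 : ℝ) * (min δ0 δ1 / (800 * b2)) ≤ δ1
      have : 800 * (b2 : ℝ) * (min δ0 δ1 / (800 * b2)) = min δ0 δ1 := by field_simp
      rw [this]
      exact min_le_right _ _
  have hc : c.OK2 := ⟨hc0, hf1.2, by show CD + 24 * (k + 1) + B + 40 ≤ Cp - 1; omega⟩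
  obtain ⟨N0, hN0⟩ := PAIR2 c hc
  obtain ⟨N1, hN1⟩ := Filter.eventually_atTop.1 (QF3_ev 0 (δ1 / 32) (by positivity) 4 (by norm_num))
  obtain ⟨N2, hN2⟩ := Filter.eventually_atTop.1
    ((Real.tendsto_log_atTop.comp tendsto_natCast_atTop_atTop).eventually_ge_atTop (4 : ℝ))
  refine ⟨c.A, c.Cη, c.ζ, hc.ζp, max N0 (max N1 N2), fun S T W0 Z p1 Q0 y1 η h hN M M' hM hM' => ?_⟩
  have hNa : N0 ≤ T.N := (le_max_left _ _).trans hN
  have hNb : N1 ≤ T.N := ((le_max_left _ _).trans (le_max_right _ _)).trans hN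
  have hNc : N2 ≤ T.N := ((le_max_right _ _).trans (le_max_right _ _)).trans hN
  have hK4 : (4 : ℝ) ≤ Real.log T.N := hN2 _ hNc
  have hK1 : (1 : ℝ) ≤ Real.log T.N := by linarith
  have h4N : (4 : ℝ) ≤ (T.N : ℝ) ^ (δ1 / 32) := by
    have := hN1 _ hNb
    simpa using this
  have hNp : (0 : ℝ) < T.N := by
    have := h.hT.N_pos
    exact_mod_cast (by omega : 0 < T.N)
  have hy4 : 4 * Real.log T.N ≤ T.y0 := by
    refine le_trans ?_ h.hy1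
    calc 4 * Real.log T.N ≤ Real.log T.N * Real.log T.N := mul_le_mul_of_nonneg_right hK4 (by linarith)
      _ = (Real.log T.N) ^ 2 := by ring
      _ ≤ _ := pow_le_pow_right₀ hK1 (by omega)
  have key : ∀ M : Msr S, M.OK3 T W0 δ0 δ1 → PH3 c S T M W0 Z p1 Q0 y1 η := by
    intro M hM
    have hC1 : T.D * (Real.log T.N) ^ (5 * (k + 1) + B + 10) ≤ S.CC.card := by
      refine le_trans ?_ h.hC1
      exact mul_le_mul_of_nonneg_left (pow_le_pow_right₀ hK1 (by omega)) (Nat.cast_nonneg _)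
    have hC3 : 4 ^ k * ((k * (k + 1) : ℕ) : ℝ) ^ (2 * S.n0) * (Real.log T.N) ^ (B + 10) ≤ (S.CC.card : ℝ) ^ 2 := by
      refine le_trans ?_ h.hC3
      exact mul_le_mul_of_nonneg_left (pow_le_pow_right₀ hK1 (by omega)) (by positivity)
    refine ⟨h.hT, h.hS, h.hA, hM, h.hk, h.hW, h.hD, h.hy1, ?_, h.hz1, h.hz2, ?_, h.hQ, h.hη, hC1, h.hC2, hC3, h.hcard, h.hrX, h.hrY, h.hpb⟩
    · show (T.y0 : ℝ) ≤ (Real.log T.N) ^ (Cp - 1 + 1)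
      rw [hCp1]
      exact h.hy2
    · show (p1 : ℝ) ≤ (Real.log T.N) ^ (2 * (Cp - 1) + 5)
      have : 2 * (Cp - 1) + 5 = 2 * Cp + 3 := by omega
      rw [this]
      exact h.hp2
  have hPH : PH2 c S T M M' W0 Z p1 Q0 y1 η := by
    refine ⟨key M hM, key M' hM', h.hC1, h.hC3, fun μ hμ ν hν => ?_⟩
    have a1 := m1_lo h.hT h.hS hM' hy4 hK1 hμ hν
    have a2 := h.hsz μ hμ ν hν
    have a3 : 0 ≤ M'.m1 μ ν := by
      by_contra hneg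
      push Not at hneg
      have : 4 * ((S.prX id μ * S.prY id ν : ℕ) : ℝ) * M'.m1 μ ν ≤ 0 := mul_nonpos_of_nonneg_of_nonpos (by positivity) hneg.le
      linarith
    show 1 ≤ (T.N : ℝ) ^ (δ1 / 16) * M'.m1 μ ν
    calc (1 : ℝ) ≤ 4 * ((S.prX id μ * S.prY id ν : ℕ) : ℝ) * M'.m1 μ ν := a1
      _ ≤ ((T.N : ℝ) ^ (δ1 / 32) * (T.N : ℝ) ^ (δ1 / 32)) * M'.m1 μ ν :=
        mul_le_mul_of_nonneg_right (mul_le_mul h4N a2 (Nat.cast_nonneg _) (by positivity)) a3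
      _ = _ := by
        rw [← Real.rpow_add hNp]
        congr 2
        ring
  have hP := hN0 S T M M' W0 Z p1 Q0 y1 η hPH hNa
  have hCR : ∀ X : ℕ, TCB.CR T W0 X → TCB.CR T W0 (X - T.D * T.N) → ∀ (M : Msr S) (μ : S.TX) (ν : S.TY) (n : ℕ), M.X μ ν n = X → M.Cd T μ ν n := by
    rintro X hx hy M μ ν n rfl
    refine ⟨Nat.Coprime.coprime_mul_left_right hx.1, fun p hp hpy => ⟨fun hd => ?_, fun hd => ?_⟩⟩
    · exact absurd (hx.2 p hp hd) (by omega)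
    · exact absurd (hy.2 p hp hd) (by omega)
  have hle : T3D.Wbad2 M M' T W0 y1 ≤ ∑ μ ∈ S.MX, ∑ ν ∈ S.MY, ind (¬ S.badpair T 0 y1 μ ν) * M.S2 M' μ ν (fun n n' => ind (M.Cd T μ ν n) *
      (ind (M'.Cd T μ ν n') * (ind ((M.X μ ν n : ℤ) ≡ (M'.X μ ν n' : ℤ) [ZMOD (W0 : ℤ)]) * ind (¬ S.Linked2 T μ ν (M.X μ ν n) (M'.X μ ν n'))))) := by
    unfold T3D.Wbad2
    refine sum_le_sum fun μ hμ => sum_le_sum fun ν hν => ?_
    have a1 := m1_lo h.hT h.hS hM' hy4 hK1 hμ hν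
    have a3 : 0 ≤ M'.m1 μ ν := by
      by_contra hneg
      push Not at hneg
      have : 4 * ((S.prX id μ * S.prY id ν : ℕ) : ℝ) * M'.m1 μ ν ≤ 0 := mul_nonpos_of_nonneg_of_nonpos (by positivity) hneg.le
      linarith
    have hS2 : ∀ F G : ℕ → ℕ → ℝ, (∀ n n', F n n' ≤ G n n') → M.S2 M' μ ν F ≤ M.S2 M' μ ν G := by
      intro F G hFG
      unfold Msr.S2
      refine mul_le_mul_of_nonneg_left (sum_le_sum fun n _ => sum_le_sum fun n' _ => ?_) (inv_nonneg.2 a3)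
      exact mul_le_mul_of_nonneg_left (hFG n n') (mul_nonneg (hM.Om_nonneg _ _ _) (hM'.Om_nonneg _ _ _))
    split_ifs with hb
    · have hz : M.S2 M' μ ν (fun _ _ => 0) = 0 := by
        unfold Msr.S2
        simp
      refine mul_nonneg (ind_nonneg _) ?_
      rw [← hz]
      refine hS2 _ _ fun n n' => ?_
      exact mul_nonneg (ind_nonneg _) (mul_nonneg (ind_nonneg _) (mul_nonneg (ind_nonneg _) (ind_nonneg _)))
    · rw [ind_true hb, one_mul]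
      refine hS2 _ _ fun n n' => ?_
      split_ifs with hf
      · obtain ⟨⟨f1, f2⟩, ⟨f3, f4⟩, f5, f6⟩ := hf
        rw [ind_true (hCR _ f1 f2 M μ ν n rfl), ind_true (hCR _ f3 f4 M' μ ν n' rfl), ind_true ((Int.natCast_modEq_iff).2 f5), ind_true f6]
        norm_num
      · exact mul_nonneg (ind_nonneg _) (mul_nonneg (ind_nonneg _) (mul_nonneg (ind_nonneg _) (ind_nonneg _)))
  have hpos : 0 ≤ (T.N : ℝ) ^ (-δ2) * (M.W * M'.W) :=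
    mul_nonneg (Real.rpow_nonneg (Nat.cast_nonneg _) _) (mul_nonneg hM.W_pos.le hM'.W_pos.le)
  calc T3D.Wbad2 M M' T W0 y1 ≤ _ := hle
    _ ≤ M.tot * M'.W / (Real.log T.N) ^ B := hP
    _ = 1 / (Real.log T.N) ^ B * (M.tot * M'.W) := by ring
    _ ≤ _ := by linarith

end Pool.Agent.Lib.T3
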